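import Pool.Agent.H943R5.GC.Defs
import Pool.Agent.H620R2.GaugeR.R1

/-!
# Project GC, task U6: brute force proof systems for `KA A` and for its complement (helper765)
-/

namespace Pool.Agent.H943R5.GC

namespace U6

open Pool.Agent.NPC

/-! ### transfer between the two libraries -/

/-- the same algorithm in the other library -/
def toRO (M : Pool.Agent.H620R2.Gauge.Alg) : Pool.Agent.H628R3.RO.Alg := ⟨M.D, M.poly, M.p⟩

/-- the same algorithm in this library -/
def ofRO (M : Pool.Agent.H628R3.RO.Alg) : Pool.Agent.H620R2.Gauge.Alg := ⟨M.D, M.poly, M.p⟩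

theorem run_toRO (M : Pool.Agent.H620R2.Gauge.Alg) (A : Pool.Agent.H628R3.RO.Oracle)
    (x : List Bool) : ∀ (n : ℕ) (a : List Bool), (toRO M).run A x n a = M.run A x n a := by
  intro n
  induction n with
  | zero => intro a; rfl
  | succ n ih =>
    intro a
    rw [Pool.Agent.H620R2.Gauge.Alg.run, Pool.Agent.H628R3.RO.Alg.run]
    show (match M.D (pairBits x a) with | [] => _ | true :: z => _ | false :: q => _) = _
    rcases M.D (pairBits x a) with _ | ⟨c, q⟩
    · rfl
    · cases c with
      | true => rfl
      | false => exact ih _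

theorem run_ofRO (M : Pool.Agent.H628R3.RO.Alg) (A : Pool.Agent.H628R3.RO.Oracle)
    (x : List Bool) : ∀ (n : ℕ) (a : List Bool), (ofRO M).run A x n a = M.run A x n a := by
  intro n
  induction n with
  | zero => intro a; rfl
  | succ n ih =>
    intro a
    rw [Pool.Agent.H620R2.Gauge.Alg.run, Pool.Agent.H628R3.RO.Alg.run]
    show (match M.D (pairBits x a) with | [] => _ | true :: z => _ | false :: q => _) = _
    rcases M.D (pairBits x a) with _ | ⟨c, q⟩
    · rfl
    · cases c with
      | true => rfl
      | false => exact ih _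

theorem isFP_toRO {A : Pool.Agent.H628R3.RO.Oracle} {F : List Bool → List Bool}
    (h : Pool.Agent.H620R2.Gauge.IsFP A F) : Pool.Agent.H628R3.RO.IsFP A F := by
  obtain ⟨M, hM⟩ := h
  refine ⟨toRO M, fun x => ?_⟩
  rw [← hM x]
  exact run_toRO M A x _ _

theorem isFP_ofRO {A : Pool.Agent.H628R3.RO.Oracle} {F : List Bool → List Bool}
    (h : Pool.Agent.H628R3.RO.IsFP A F) : Pool.Agent.H620R2.Gauge.IsFP A F := by
  obtain ⟨M, hM⟩ := h
  refine ⟨ofRO M, fun x => ?_⟩
  rw [← hM x]
  exact run_ofRO M A x _ _

/-! ### the successor in polynomial time -/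

/-- one step of the addition of one -/
def incStep (s : Bool × List Bool) (b : Bool) : Bool × List Bool :=
  (s.1 && b, xor s.1 b :: s.2)

/-- the successor, computed by a fold -/
def inc (w : List Bool) : List Bool :=
  if (w.foldl incStep (true, [])).1 = true then
    (false :: (w.foldl incStep (true, [])).2).reverse
  else (w.foldl incStep (true, [])).2.reverse

theorem foldl_length : ∀ (w : List Bool) (s : Bool × List Bool),
    (w.foldl incStep s).2.length = w.length + s.2.length
  | [], s => by simp
  | b :: w, s => by
    rw [List.foldl_cons, foldl_length w]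
    simp [incStep]
    omega

theorem poly_incStep : Poly (fun p : List Bool × (Bool × List Bool) × Bool =>
    incStep p.2.1 p.2.2) := by
  have h1 : Poly (fun p : List Bool × (Bool × List Bool) × Bool => p.2.1.1) :=
    Poly.fst (Poly.fst (Poly.snd Poly.id))
  have h2 : Poly (fun p : List Bool × (Bool × List Bool) × Bool => p.2.1.2) :=
    Poly.snd (Poly.fst (Poly.snd Poly.id))
  have h3 : Poly (fun p : List Bool × (Bool × List Bool) × Bool => p.2.2) :=
    Poly.snd (Poly.snd Poly.id)
  exact Poly.pair (Poly.and h1 h3) (Poly.cons (Poly.xor h1 h3) h2)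

theorem poly_inc : Poly inc := by
  have h : Poly (fun w : List Bool => w.foldl incStep (true, [])) := by
    refine Poly.foldl (l := fun w : List Bool => w) (s := fun _ => (true, ([] : List Bool)))
      (F := fun _ s b => incStep s b) Poly.id (NPC.Poly.const _) poly_incStep
      (Polynomial.C 4 * Polynomial.X + Polynomial.C 10) ?_
    intro a k hk
    have e1 : (((a.take k).foldl incStep (true, [])).2).length ≤ a.length := by
      rw [foldl_length]
      simp
    have e2 := sz_le_length_mul ((a.take k).foldl incStep (true, [])).2 3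
      (fun b _ => sz_bool_le b)
    have e3 := sz_bool_le ((a.take k).foldl incStep (true, [])).1
    have e4 := length_lt_sz a
    have e5 : sz ((a.take k).foldl incStep (true, [])) =
        sz ((a.take k).foldl incStep (true, [])).1 + sz ((a.take k).foldl incStep (true, [])).2
          + 1 := sz_pair _ _
    change sz ((a.take k).foldl incStep (true, [])) ≤ _
    rw [e5]
    simp only [Polynomial.eval_add, Polynomial.eval_mul, Polynomial.eval_C, Polynomial.eval_X]
    omega
  have h2 : Poly (fun w : List Bool => if (w.foldl incStep (true, [])).1 = true then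
      (false :: (w.foldl incStep (true, [])).2).reverse
      else (w.foldl incStep (true, [])).2.reverse) := by
    have h3 : Poly (fun w : List Bool => decide ((w.foldl incStep (true, [])).1 = true)) :=
      Poly.decide_eq (Poly.fst h) (NPC.Poly.const true)
    exact Poly.ite h3 (Poly.reverse (Poly.cons (NPC.Poly.const false) (Poly.snd h)))
      (Poly.reverse (Poly.snd h))
  exact h2

theorem inc_key : ∀ (l : List Bool) (out : List Bool),
    ((if (l.foldl incStep (true, out)).1 = true then
      (false :: (l.foldl incStep (true, out)).2).reverse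
      else (l.foldl incStep (true, out)).2.reverse) =
        out.reverse ++ Pool.Agent.H583R2.incS l) ∧
    ((l.foldl incStep (false, out)).1 = false ∧
      (l.foldl incStep (false, out)).2.reverse = out.reverse ++ l) := by
  intro l
  induction l with
  | nil => intro out; simp [Pool.Agent.H583R2.incS]
  | cons b l ih =>
    intro out
    constructor
    · cases b with
      | false =>
        have h1 := (ih (true :: out)).2
        have h2 : incStep (true, out) false = (false, true :: out) := rfl
        rw [List.foldl_cons, h2, h1.1, h1.2]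
        simp [Pool.Agent.H583R2.incS]
      | true =>
        have h1 := (ih (false :: out)).1
        have h2 : incStep (true, out) true = (true, false :: out) := rfl
        rw [List.foldl_cons, h2, h1]
        simp [Pool.Agent.H583R2.incS]
    · have h1 := (ih (b :: out)).2
      have h2 : incStep (false, out) b = (false, b :: out) := by cases b <;> rfl
      rw [List.foldl_cons, h2]
      refine ⟨h1.1, ?_⟩
      rw [h1.2]
      simp

theorem inc_eq (l : List Bool) : inc l = Pool.Agent.H583R2.incS l := by
  have h := (inc_key l []).1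
  simpa [inc] using h

/-! ### the strings -/

/-- the string number `j` -/
def sj (j : ℕ) : List Bool := inc^[j] []

theorem sj_eq (j : ℕ) : sj j = Pool.Agent.H583R2.incS^[j] [] := by
  unfold sj
  have h : inc = Pool.Agent.H583R2.incS := funext inc_eq
  rw [h]

theorem sj_succ (j : ℕ) : inc (sj j) = sj (j + 1) := by
  unfold sj
  rw [Function.iterate_succ_apply']

theorem idx_sj (j : ℕ) : Pool.Agent.H583R2.idxR (sj j) = j := by
  rw [sj_eq]
  exact Pool.Agent.H583R2.idxR_iter j

theorem exists_sj (w : List Bool) : ∃ j, sj j = w :=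
  ⟨Pool.Agent.H583R2.idxR w, Pool.Agent.H583R2.idxR_inj _ _ (by rw [idx_sj])⟩

theorem sj_bounds (j : ℕ) : 2 ^ (sj j).length ≤ j + 1 ∧ j + 2 ≤ 2 ^ ((sj j).length + 1) := by
  have h := Pool.Agent.H583R2.idxR_bounds (sj j)
  rwa [idx_sj] at h

theorem lt_of_length {i j : ℕ} (h : (sj i).length < (sj j).length) : i < j := by
  have h1 := (sj_bounds i).2
  have h2 := (sj_bounds j).1
  have h3 : 2 ^ ((sj i).length + 1) ≤ 2 ^ (sj j).length := Nat.pow_le_pow_right (by norm_num) h
  omega

theorem length_succ_le (j : ℕ) : (sj (j + 1)).length ≤ (sj j).length + 1 := by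
  have h1 := (sj_bounds (j + 1)).1
  have h2 := (sj_bounds j).2
  have h3 : 2 ^ (sj (j + 1)).length ≤ 2 ^ ((sj j).length + 1) := by omega
  exact (Nat.pow_le_pow_iff_right (by norm_num)).1 h3

/-! ### the loop -/

/-- one step: go to the next string, unless the present one is too long or accepted -/
def stepS (Acc : List Bool → Prop) [DecidablePred Acc] (s : List Bool) : List Bool :=
  if (unpair s).2.length ≤ (unpair s).1.length ∧ ¬ Acc s then
    pairBits (unpair s).1 (inc (unpair s).2) else s

theorem iter_form (Acc : List Bool → Prop) [DecidablePred Acc] (z : List Bool) : ∀ n : ℕ,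
    ∃ k ≤ n, (stepS Acc)^[n] (pairBits z []) = pairBits z (sj k) ∧
      (∀ j < k, (sj j).length ≤ z.length ∧ ¬ Acc (pairBits z (sj j))) ∧
      (k < n → ¬ ((sj k).length ≤ z.length ∧ ¬ Acc (pairBits z (sj k)))) := by
  intro n
  induction n with
  | zero =>
    refine ⟨0, le_rfl, rfl, ?_, ?_⟩
    · intro j hj
      exact absurd hj (by omega)
    · intro h
      exact absurd h (by omega)
  | succ n ih =>
    obtain ⟨k, hk, h1, h2, h3⟩ := ih
    rw [Function.iterate_succ_apply', h1]
    by_cases h : (sj k).length ≤ z.length ∧ ¬ Acc (pairBits z (sj k))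
    · have hkn : k = n := by
        by_contra hne
        exact h3 (by omega) h
      refine ⟨k + 1, by omega, ?_, ?_, ?_⟩
      · unfold stepS
        rw [if_pos (by rw [unpair_pairBits]; exact h), unpair_pairBits, sj_succ]
      · intro j hj
        rcases Nat.lt_succ_iff_lt_or_eq.1 hj with h4 | h4
        · exact h2 j h4
        · rw [h4]
          exact h
      · intro h4
        omega
    · refine ⟨k, by omega, ?_, h2, fun _ => h⟩
      unfold stepS
      rw [if_neg (by rw [unpair_pairBits]; exact h)]

end U6

open Pool.Agent.NPC Pool.Agent.H628R3.RO Pool.Agent.H673R2.OneTT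

namespace U6

theorem exists_F (A : Oracle) : ∃ F : List Bool → List Bool, IsFP A F ∧
    ∀ y, uA.out A y = some (F y) := by
  choose F hF using uA_total A
  exact ⟨F, ⟨uA, hF⟩, hF⟩

theorem isNP_univ (A : Oracle) : IsNP A Set.univ := by
  refine ⟨fun _ => [true], 0, IsFP.of_poly (NPC.Poly.const _), fun x => ?_⟩
  simp only [Set.mem_univ, and_true, true_iff]
  exact ⟨[], by simp⟩

theorem isNP_empty (A : Oracle) : IsNP A ∅ := by
  refine ⟨fun _ => [], 0, IsFP.of_poly (NPC.Poly.const _), fun x => ?_⟩
  simp

theorem exists_mem (A : Oracle) : ∃ d, d ∈ KA A := by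
  obtain ⟨F, -, hF⟩ := hard_KA A _ (isNP_univ A)
  exact ⟨F [], (hF []).1 (Set.mem_univ _)⟩

theorem exists_not_mem (A : Oracle) : ∃ d, d ∉ KA A := by
  obtain ⟨F, -, hF⟩ := hard_KA A _ (isNP_empty A)
  exact ⟨F [], fun h => (hF []).2 h⟩

theorem poly_u2 : Poly (fun t : List Bool => (unpair t).2) := Poly.snd poly_unpair

theorem poly_u21 : Poly (fun t : List Bool => (unpair (unpair t).2).1) :=
  Poly.fst (poly_unpair.comp poly_u2)

theorem poly_u22 : Poly (fun t : List Bool => (unpair (unpair t).2).2) :=
  Poly.snd (poly_unpair.comp poly_u2)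

/-- the choice of the output of the first proof system -/
def outS (d t : List Bool) : List Bool :=
  if (unpair t).1 = [true] ∧
      (unpair (unpair t).2).2.length ≤ (unpair (unpair t).2).1.length then
    (unpair (unpair t).2).1 else d

theorem poly_outS (d : List Bool) : Poly (outS d) := by
  have h7 : Poly (fun t : List Bool => decide ((unpair t).1 = [true] ∧
      (unpair (unpair t).2).2.length ≤ (unpair (unpair t).2).1.length)) := by
    refine (Poly.and (Poly.decide_eq (Poly.fst poly_unpair) (NPC.Poly.const [true]))
      (Poly.decide_le (Poly.length poly_u22) (Poly.length poly_u21))).congr ?_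
    intro t
    rw [Bool.decide_and]
  exact Poly.ite h7 poly_u21 (NPC.Poly.const d)

/-- the next state from the answer of the test -/
def nextS (t : List Bool) : List Bool :=
  if (unpair (unpair t).2).2.length ≤ (unpair (unpair t).2).1.length ∧ ¬ (unpair t).1 = [true] then
    pairBits (unpair (unpair t).2).1 (inc (unpair (unpair t).2).2) else (unpair t).2

theorem poly_nextS : Poly nextS := by
  have h7 : Poly (fun t : List Bool => decide
      ((unpair (unpair t).2).2.length ≤ (unpair (unpair t).2).1.length ∧
        ¬ (unpair t).1 = [true])) := by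
    refine (Poly.and (Poly.decide_le (Poly.length poly_u22) (Poly.length poly_u21))
      (Poly.not (Poly.decide_eq (Poly.fst poly_unpair) (NPC.Poly.const [true])))).congr ?_
    intro t
    rw [Bool.decide_and, decide_not]
  exact Poly.ite h7 (H622R2.poly_pairBits poly_u21 (poly_inc.comp poly_u22)) poly_u2

/-- the output of the second proof system from the last state -/
def outT (d s : List Bool) : List Bool :=
  if (unpair s).1.length < (unpair s).2.length then (unpair s).1 else d

theorem poly_outT (d : List Bool) : Poly (outT d) := by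
  have h7 : Poly (fun s : List Bool => decide ((unpair s).1.length < (unpair s).2.length)) := by
    refine (Poly.not (Poly.decide_le (Poly.length (Poly.snd poly_unpair))
      (Poly.length (Poly.fst poly_unpair)))).congr ?_
    intro t
    rw [← decide_not]
    simp
  exact Poly.ite h7 (Poly.fst poly_unpair) (NPC.Poly.const d)

/-- the initial state -/
def initS (y : List Bool) : List Bool := pairBits (unpair y).1 []

theorem poly_initS : Poly initS :=
  H622R2.poly_pairBits (Poly.fst poly_unpair) (NPC.Poly.const [])

end U6

theorem exists_psS (A : Oracle) : ∃ P₀, IsFP A P₀ ∧ Set.range P₀ = KA A := by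
  obtain ⟨F, hF, hFe⟩ := U6.exists_F A
  obtain ⟨d, hd⟩ := U6.exists_mem A
  have h0 : Poly (fun y : List Bool => pairBits (unpair y).1 (unpair y).2) :=
    H622R2.poly_pairBits (Poly.fst poly_unpair) (Poly.snd poly_unpair)
  have h1 : IsFP A (fun y => pairBits (F y) y) := IsFP.pair hF (IsFP.of_poly Poly.id)
  have h2 := IsFP.comp (IsFP.of_poly (A := A) (U6.poly_outS d))
    (IsFP.comp h1 (IsFP.of_poly (A := A) h0))
  refine ⟨_, h2, ?_⟩
  ext z
  constructor
  · rintro ⟨y, rfl⟩
    simp only [U6.outS, unpair_pairBits]
    split_ifs with h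
    · refine ⟨(unpair y).2, h.2, ?_⟩
      rw [hFe, h.1]
    · exact hd
  · intro hz
    obtain ⟨w, hw, hw2⟩ := hz
    refine ⟨pairBits z w, ?_⟩
    have h3 : F (pairBits z w) = [true] := by
      rw [hFe] at hw2
      simpa using hw2
    simp only [U6.outS, unpair_pairBits]
    rw [if_pos ⟨h3, hw⟩]

theorem exists_psT (A : Oracle) : ∃ P₀, IsFP A P₀ ∧ Set.range P₀ = (KA A)ᶜ := by
  classical
  obtain ⟨F, hF, hFe⟩ := U6.exists_F A
  obtain ⟨d, hd⟩ := U6.exists_not_mem A
  have h1 : IsFP A (fun y => pairBits (F y) y) := IsFP.pair hF (IsFP.of_poly Poly.id)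
  have h2 : IsFP A (U6.stepS (fun s => F s = [true])) := by
    have h3 := IsFP.comp (IsFP.of_poly (A := A) U6.poly_nextS) h1
    have h4 : U6.stepS (fun s => F s = [true]) = fun y => U6.nextS (pairBits (F y) y) := by
      funext y
      unfold U6.stepS U6.nextS
      rw [unpair_pairBits]
    rw [h4]
    exact h3
  obtain ⟨p, hp⟩ := IsFP.length_le (IsFP.of_poly (A := A) (Poly.fst poly_unpair))
  have h5 := Pool.Agent.H620R2.Gauge.IsFP.loop (U6.isFP_ofRO h2) U6.poly_initS Polynomial.X
    (3 * p + 2) (by
      intro y i _
      obtain ⟨k, -, e1, e2, -⟩ := U6.iter_form (fun s => F s = [true]) (unpair y).1 i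
      unfold U6.initS
      rw [e1, H628R3.RO.length_pairBits]
      have e3 : (U6.sj k).length ≤ (unpair y).1.length + 1 := by
        rcases k with _ | k
        · exact Nat.zero_le _
        · have e4 := (e2 k (by omega)).1
          have e5 := U6.length_succ_le k
          omega
      have e6 := hp y
      simp only [Polynomial.eval_add, Polynomial.eval_mul, Polynomial.eval_ofNat]
      omega)
  have h6 := IsFP.comp (IsFP.of_poly (A := A) (U6.poly_outT d)) (U6.isFP_toRO h5)
  refine ⟨_, h6, ?_⟩
  ext z
  constructor
  · rintro ⟨y, rfl⟩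
    obtain ⟨k, -, e1, e2, -⟩ := U6.iter_form (fun s => F s = [true]) (unpair y).1
      (Polynomial.eval y.length Polynomial.X)
    simp only [U6.initS]
    rw [e1]
    unfold U6.outT
    rw [unpair_pairBits]
    split_ifs with h
    · rintro ⟨w, hw, hw2⟩
      obtain ⟨j, rfl⟩ := U6.exists_sj w
      have hjk : j < k := U6.lt_of_length (lt_of_le_of_lt hw h)
      refine (e2 j hjk).2 ?_
      rw [hFe] at hw2
      simpa using hw2
    · exact hd
  · intro hz
    refine ⟨pairBits z (List.replicate (2 ^ (z.length + 1)) true), ?_⟩
    simp only [U6.initS, unpair_pairBits]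
    obtain ⟨k, hk, e1, e2, e3⟩ := U6.iter_form (fun s => F s = [true]) z
      (Polynomial.eval (pairBits z (List.replicate (2 ^ (z.length + 1)) true)).length
        Polynomial.X)
    rw [e1]
    unfold U6.outT
    rw [unpair_pairBits]
    refine if_pos ?_
    by_contra hcon
    have hlen : (U6.sj k).length ≤ z.length := Nat.le_of_not_lt hcon
    have hacc : ¬ F (pairBits z (U6.sj k)) = [true] := by
      intro h7
      exact hz ⟨U6.sj k, hlen, by rw [hFe, h7]⟩
    have h8 : ¬ k < Polynomial.eval
        (pairBits z (List.replicate (2 ^ (z.length + 1)) true)).length Polynomial.X :=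
      fun h9 => e3 h9 ⟨hlen, hacc⟩
    have h10 := (U6.sj_bounds k).2
    have h11 : 2 ^ ((U6.sj k).length + 1) ≤ 2 ^ (z.length + 1) :=
      Nat.pow_le_pow_right (by norm_num) (by omega)
    apply h8
    rw [Polynomial.eval_X, H628R3.RO.length_pairBits, List.length_replicate]
    omega

end Pool.Agent.H943R5.GC
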