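import Pool.Agent.H943R5.GC.Defs

/-!
# Project GC: further definitions
-/

namespace Pool.Agent.H943R5.GC

open Pool.Agent.NPC Pool.Agent.H628R3.RO

/-- The code `v` is killed at round `s`: this is the first active round at which its promise is
broken. -/
def kill (Bd : Oracle → List Bool → ℕ → Prop) (A : Oracle) (v : List Bool) (s : ℕ) : Prop :=
  act v s ∧ Bd A v s ∧ ∀ s' < s, ¬ (act v s' ∧ Bd A v s')

/-- `log₂` four times, of natural numbers, rounded. -/
def ell (N : ℕ) : ℕ := Nat.log 2 (Nat.log 2 (Nat.log 2 (Nat.log 2 N)) + 1)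

/-- `log₂` four times. -/
noncomputable def log4 (N : ℕ) : ℝ :=
  Real.logb 2 (Real.logb 2 (Real.logb 2 (Real.logb 2 (N : ℝ))))

end Pool.Agent.H943R5.GC
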