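import Pool.Agent.H543R3.PC.Reqs
import Pool.Agent.H673R2.OneTT.Kset
import Pool.Agent.H620R2.GaugeR.R8
import Pool.Agent.H583R2.Str

/-!
# Project GC: the gauge size of the sets of oracles with complete sets and optimal proof systems

Definitions: rounds, blocks, signatures, coded promise objects.
-/

namespace Pool.Agent.H943R5.GC

open Pool.Agent.NPC Pool.Agent.H628R3.RO Pool.Agent.H673R2.OneTT

/-- `x` squared `j` times. -/
def tw (x j : ℕ) : ℕ := x ^ (2 ^ j)

/-- The length scale of round `s`. -/
def TT (s : ℕ) : ℕ := tw 2 s

/-- The string number `s`; its length is about `log₂ s`. -/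
def st (s : ℕ) : List Bool := Pool.Agent.H583R2.str s

/-- The name of the block of the code `v` at round `s`. -/
def nmB (v : List Bool) (s : ℕ) : List Bool := pairBits v (st s)

/-- The number of bits in the block of `v` at round `s`. -/
def LL (v : List Bool) (s : ℕ) : ℕ := 2 * (nmB v s).length + 2

/-- The positions of the bits in the block of `v` at round `s`. -/
def YY (K : ℕ) (v : List Bool) (s i : ℕ) : List Bool :=
  pairBits (nmB v s) (List.replicate (TT (s + K) + i) true)

/-- The signature: all bits of the block are true. -/
def Sig (K : ℕ) (A : Oracle) (v : List Bool) (s : ℕ) : Prop := ∀ i < LL v s, A (YY K v s i) = true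

/-- The code `v` is active at round `s`. -/
def act (v : List Bool) (s : ℕ) : Prop := TT v.length ≤ (st s).length

/-- The oracles for which the signatures tell the truth about `Bd`: `Bd A v s` means that the
object coded by `v` breaks its promise at a round `≤ s`. -/
def Good (K : ℕ) (Bd : Oracle → List Bool → ℕ → Prop) (A : Oracle) : Prop :=
  (∀ v s, act v s → (∀ s' ≤ s, ¬ Sig K A v s') → ¬ Bd A v s) ∧
  ∀ v, (∀ s, act v s → ¬ Bd A v s) → ∀ s, ¬ Sig K A v s

/-- `Bd A v s`, for active codes, depends only on the strings of length less than `TT (s + K)`. -/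
def Loc (K : ℕ) (Bd : Oracle → List Bool → ℕ → Prop) : Prop :=
  ∀ v s, act v s → ∀ A A' : Oracle, (∀ y : List Bool, y.length < TT (s + K) → A y = A' y) →
    Bd A v s → Bd A' v s

/-! ### Codes and instances -/

/-- The kind of the object coded by `v`. -/
def kd (v : List Bool) : ℕ := (unpair v).1.length

/-- The exponent of the time bound. -/
def ex (v : List Bool) : ℕ := (unpair (unpair v).2).1.length

/-- The codes of the two algorithms. -/
def cd (b : Bool) (v : List Bool) : List Bool :=
  if b then (unpair (unpair (unpair v).2).2).2 else (unpair (unpair (unpair v).2).2).1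

/-- The algorithm number `b` of `v` accepts the witness `w` for the input `u` within the
budget `m`. -/
def Ac (A : Oracle) (v : List Bool) (b : Bool) (u : List Bool) (m : ℕ) (w : List Bool) : Prop :=
  w.length ≤ m ∧
    uA.out A (pairBits (pairBits (cd b v) (pairBits u (List.replicate m true))) w) = some [true]

/-- Some witness is accepted. -/
def Ex (A : Oracle) (v : List Bool) (b : Bool) (u : List Bool) (m : ℕ) : Prop :=
  ∃ w, Ac A v b u m w

/-- The output of the algorithm number `0` of `v` on the input `u` within the budget `m`. -/
noncomputable def Out (A : Oracle) (v u : List Bool) (m : ℕ) : List Bool :=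
  (uA.out A (pairBits (pairBits (cd false v) (pairBits u (List.replicate m true))) [])).getD []

/-- The promise of `v` is broken at the input `u`, with budget `m`. Kinds: `0` unambiguous
acceptance, `1` language in `NP ∩ coNP`, `2` disjoint `NP` pair, `3` disjoint `coNP` pair, `4`
total search problem, `5` proof system for the complement of `KA A`, `6` proof system for
`KA A`. -/
def Viol (A : Oracle) (v u : List Bool) (m : ℕ) : Prop :=
  (kd v = 0 ∧ ∃ w w', w ≠ w' ∧ Ac A v false u m w ∧ Ac A v false u m w') ∨
  (kd v = 1 ∧ (Ex A v false u m ↔ Ex A v true u m)) ∨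
  (kd v = 2 ∧ Ex A v false u m ∧ Ex A v true u m) ∨
  (kd v = 3 ∧ ¬ Ex A v false u m ∧ ¬ Ex A v true u m) ∨
  (kd v = 4 ∧ ¬ Ex A v false u m) ∨
  (kd v = 5 ∧ Out A v u m ∈ KA A) ∨
  (kd v = 6 ∧ Out A v u m ∉ KA A)

/-- The budget `m` is admissible for the input `u`. -/
def Adm (v u : List Bool) (m : ℕ) : Prop := tw (u.length + 2) (ex v) ≤ m

/-- The promise of `v` is broken with a budget at most `TT s`. -/
def Bad (A : Oracle) (v : List Bool) (s : ℕ) : Prop :=
  ∃ u m, m ≤ TT s ∧ Adm v u m ∧ Viol A v u m

/-- The round of the budget `m`: the least `s` with `m ≤ TT s`. -/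
def rd (m : ℕ) : ℕ := Nat.clog 2 (Nat.clog 2 m)

/-- The code in the instance `z`. -/
def zv (z : List Bool) : List Bool := (unpair z).1

/-- The input in the instance `z`. -/
def zu (z : List Bool) : List Bool := (unpair (unpair z).2).1

/-- The budget in the instance `z`. -/
def zm (z : List Bool) : ℕ := (unpair (unpair z).2).2.length

/-- The instance with code `v`, input `u`, budget `m`. -/
def inst (v u : List Bool) (m : ℕ) : List Bool := pairBits v (pairBits u (List.replicate m true))

/-- There is no signature for `v` up to the round of the budget. -/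
def Grd (K : ℕ) (A : Oracle) (z : List Bool) : Prop := ∀ s ≤ rd (zm z), ¬ Sig K A (zv z) s

/-- The guard. -/
def Ok (K : ℕ) (A : Oracle) (κ : ℕ) (z : List Bool) : Prop :=
  kd (zv z) = κ ∧ act (zv z) (rd (zm z)) ∧ Adm (zv z) (zu z) (zm z) ∧ Grd K A z

open Classical in
/-- The guarded universal verifier. Here `(unpair y).1` is the instance and `(unpair y).2` the
witness; if the guard fails, the empty witness is accepted if `dflt` is true. -/
noncomputable def VV (K : ℕ) (A : Oracle) (κ : ℕ) (b dflt : Bool) (y : List Bool) : List Bool :=
  if Ok K A κ (unpair y).1 then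
    (if Ac A (zv (unpair y).1) b (zu (unpair y).1) (zm (unpair y).1) (unpair y).2 then [true]
      else [])
  else if dflt = true ∧ (unpair y).2 = [] then [true] else []

open Classical in
/-- The guarded universal proof system, together with a given proof system `P₀`; `d` is a default
value. -/
noncomputable def PP (K : ℕ) (A : Oracle) (κ : ℕ) (d : List Bool)
    (P₀ : List Bool → List Bool) (y : List Bool) : List Bool :=
  if y.head? = some true then
    (if Ok K A κ y.tail then Out A (zv y.tail) (zu y.tail) (zm y.tail) else d)
  else P₀ y.tail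

end Pool.Agent.H943R5.GC
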