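import Pool.Agent.H943R5.GC.Base
import Pool.Agent.H628R3.RO.A3

/-!
# Project GC, null side: definitions
-/

namespace Pool.Agent.H943R5.GC

open Pool.Agent.NPC Pool.Agent.H628R3.RO Pool.Agent.H673R2.OneTT

/-- `Loc` of the random oracle library: the event depends only on the strings in `K`. -/
abbrev RLoc (K : Set (List Bool)) (S : Set Oracle) : Prop := Pool.Agent.H628R3.RO.Loc K S

/-- The level of the code `v`. -/
def tv (W : ℕ) (v : List Bool) : ℕ := W * (v.length + 1)

/-- The number of rounds for the code `v`. -/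
def Mv (W : ℕ) (v : List Bool) : ℕ := 2 ^ (4 * tv W v)

/-- The growth rate of the lengths for the code `v`. -/
def jj (Kc W : ℕ) (v : List Bool) : ℕ := (Kc + W) * (v.length + 1)

/-- The length used at round `s`. -/
def nn (Kc W : ℕ) (v : List Bool) (s : ℕ) : ℕ := TT (jj Kc W v * (2 * s + 2))

/-- The time bound used at round `s`; it lies between `nn v s` and `nn v (s + 1)`. -/
def mm (Kc W : ℕ) (v : List Bool) (s : ℕ) : ℕ := TT (jj Kc W v * (2 * s + 3))

/-- The instance of round `s`. -/
def qq (Kc W : ℕ) (v : List Bool) (s : ℕ) : List Bool :=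
  pairBits (nmB v s) (List.replicate (nn Kc W v s) true)

/-- The block of round `s`: candidates with `a` copies. -/
def blk (Kc W a : ℕ) (v : List Bool) (s : ℕ) : Finset Cand :=
  (Finset.range a) ×ˢ (Finset.univ.image
    (fun y : Fin (nn Kc W v s) → Bool => pairBits (nmB v s) (List.ofFn y)))

/-- `z` codes a hit in the block, each candidate has `m` bits. -/
def IsHit (Kc W a m : ℕ) (A : Oracle) (v : List Bool) (s : ℕ) (z : List Bool) : Prop :=
  ∃ c y, c < a ∧ y.length = nn Kc W v s ∧ z = pairBits (List.replicate c true) y ∧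
    Hit m (c, pairBits (nmB v s) y) A

/-- First component of a code. -/
def c0 (v : List Bool) : List Bool := (unpair v).1

/-- Second component of a code. -/
def c1 (v : List Bool) : List Bool := (unpair (unpair v).2).1

/-- Third component of a code. -/
def c2 (v : List Bool) : List Bool := (unpair (unpair v).2).2

/-! ### Search problems -/

open Classical in
/-- The value of the first function of the reduction at the instance of round `s` (the empty
string if this value is too long for the budget). -/
noncomputable def FF (Kc W : ℕ) (A : Oracle) (v : List Bool) (s : ℕ) : List Bool :=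
  if Adm (c0 v) (Out A (c1 v) (qq Kc W v s) (mm Kc W v s)) (mm Kc W v s) then
    Out A (c1 v) (qq Kc W v s) (mm Kc W v s) else []

/-- `w` is a solution, for the search problem `c0 v`, of the instance given by the reduction. -/
def Sol (Kc W : ℕ) (A : Oracle) (v : List Bool) (s : ℕ) (w : List Bool) : Prop :=
  Ac A (c0 v) false (FF Kc W A v s) (mm Kc W v s) w

/-- The value of the second function of the reduction. -/
noncomputable def GG (Kc W : ℕ) (A : Oracle) (v : List Bool) (s : ℕ) (w : List Bool) :
    List Bool :=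
  Out A (c2 v) (pairBits (qq Kc W v s) w) (mm Kc W v s)

/-- `w` shows that the reduction fails at round `s`. -/
def FailC (Kc W : ℕ) (A : Oracle) (v : List Bool) (s : ℕ) (w : List Bool) : Prop :=
  Sol Kc W A v s w ∧ ¬ ∃ z, GG Kc W A v s w = true :: z ∧
    IsHit Kc W (tv W v) (nn Kc W v s) A v s z

/-- The reduction fails at round `s`. -/
def D1 (Kc W : ℕ) (A : Oracle) (v : List Bool) (s : ℕ) : Prop := ∃ w, FailC Kc W A v s w

/-- The search problem has no solution at round `s`. -/
def E1 (Kc W : ℕ) (A : Oracle) (v : List Bool) (s : ℕ) : Prop := ¬ ∃ w, Sol Kc W A v s w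

/-- The event that there is no hit in the block of round `s`. -/
def N1s (Kc W : ℕ) (v : List Bool) (s : ℕ) : Set Oracle :=
  NoHit (nn Kc W v s) (blk Kc W (tv W v) v s)

/-- The exceptional event of the code `v`. -/
def Ev1 (Kc W : ℕ) (v : List Bool) : Set Oracle :=
  {A | (∃ s < Mv W v, (∀ s' < s, ¬ D1 Kc W A v s') ∧ ¬ E1 Kc W A v s ∧ A ∈ N1s Kc W v s) ∨
    ∀ s < Mv W v, A ∉ N1s Kc W v s}

/-- The hard search problem (for the candidate `v₀` of a complete problem). -/
def RL (Kc W : ℕ) (A : Oracle) (v₀ : List Bool) (x y : List Bool) : Prop :=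
  ((¬ ∃ v s, c0 v = v₀ ∧ s < Mv W v ∧ x = qq Kc W v s) ∧ y = []) ∨
  ∃ v s, c0 v = v₀ ∧ s < Mv W v ∧ x = qq Kc W v s ∧
    ((∃ z, y = true :: z ∧ IsHit Kc W (tv W v) (nn Kc W v s) A v s z) ∨
      ∃ s' w, s' < s ∧ y = false :: pairBits (st s') w ∧ FailC Kc W A v s' w)

/-! ### Proof systems -/

/-- The bound for the lengths of the proofs. -/
def lb (Kc W : ℕ) (v : List Bool) (s : ℕ) : ℕ :=
  tw ((qq Kc W v s).length + 2) (unpair v).2.length

/-- `π` is a short proof of `qq v s` in the system `c0 v`. -/
def PfS (Kc W : ℕ) (A : Oracle) (v : List Bool) (s : ℕ) (π : List Bool) : Prop :=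
  π.length ≤ lb Kc W v s ∧ Out A (c0 v) π (mm Kc W v s) = qq Kc W v s

/-- There is no short proof of `qq v s`. -/
def D2 (Kc W : ℕ) (A : Oracle) (v : List Bool) (s : ℕ) : Prop := ¬ ∃ π, PfS Kc W A v s π

/-- The event that there is no hit in the block of round `s`; candidates with more bits. -/
def N2s (Kc W : ℕ) (v : List Bool) (s : ℕ) : Set Oracle :=
  NoHit (nn Kc W v s + tv W v) (blk Kc W 1 v s)

/-- The exceptional event of the code `v`. -/
def Ev2 (Kc W : ℕ) (v : List Bool) : Set Oracle :=
  {A | (∃ s < Mv W v, (∀ s' < s, ¬ D2 Kc W A v s') ∧ D2 Kc W A v s ∧ A ∉ N2s Kc W v s) ∨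
    ∀ s < Mv W v, A ∈ N2s Kc W v s}

/-- The special set in `coNP`: all strings but the names of blocks with a hit. -/
def LT (Kc W : ℕ) (A : Oracle) : Set (List Bool) :=
  {x | ¬ ∃ v s, s < Mv W v ∧ x = qq Kc W v s ∧ A ∉ N2s Kc W v s}

/-- `w` is the list of the short proofs for all rounds before `s`, in the form
`⟨π₀, ⟨π₁, … ⟩⟩`. -/
def Lst (Kc W : ℕ) (A : Oracle) (v : List Bool) : ℕ → List Bool → Prop
  | 0, _ => True
  | s + 1, w => PfS Kc W A v s (unpair w).1 ∧ Lst Kc W A v s (unpair w).2

open Classical in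
/-- The proof system that proves `qq v s` if proofs in the system `c0 v` are given for all rounds
before `s`. -/
noncomputable def QL (Kc W : ℕ) (A : Oracle) (v₀ : List Bool) (P₀ : List Bool → List Bool)
    (y : List Bool) : List Bool :=
  if y.head? = some true then
    (if ∃ v s, c0 v = v₀ ∧ s < Mv W v ∧ (unpair y.tail).1 = qq Kc W v s ∧
        Lst Kc W A v s (unpair y.tail).2 then (unpair y.tail).1 else [])
  else P₀ y.tail

end Pool.Agent.H943R5.GC
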