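import Pool.Agent.H943R5.GC.Base
import Pool.Agent.H543R3.PC2.Defs

/-!
# Project GC, proof systems for sets complete for the second level: definitions
-/

namespace Pool.Agent.H943R5.GC

open Pool.Agent.NPC Pool.Agent.H628R3.RO Pool.Agent.H673R2.OneTT

/-- The input in the instance `z` of the canonical `Π₂`-complete set. -/
def zx (z : List Bool) : List Bool := (unpair (zu z)).1

/-- The bound for the universally quantified string in the instance `z`. -/
def zl (z : List Bool) : ℕ := (unpair (zu z)).2.length

/-- The canonical `Π₂`-complete set. -/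
def K2 (A : Oracle) : Set (List Bool) :=
  {z | ∀ u : List Bool, u.length ≤ zl z → ∃ w : List Bool, w.length ≤ zm z ∧
    uA.out A (pairBits (pairBits (zv z) (pairBits (pairBits (zx z) u)
      (List.replicate (zm z) true))) w) = some [true]}

/-- The promise of `v` (as a proof system for `K2 A`) is broken with a budget at most `TT s`. -/
def Bad2 (A : Oracle) (v : List Bool) (s : ℕ) : Prop :=
  ∃ u m, m ≤ TT s ∧ Adm v u m ∧ kd v = 7 ∧ Out A v u m ∉ K2 A

end Pool.Agent.H943R5.GC
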