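import Pool.Agent.H943R5.GC.Base

/-!
# N6: sets of measure zero are null for gauges which are bounded infinitely often
-/

namespace Pool.Agent.H943R5.GC

open Pool.Agent.NPC Pool.Agent.H628R3.RO Pool.Agent.H673R2.OneTT
open Pool.Agent.H620R2 (Gauge.Null Gauge.Extends Gauge.str Gauge.ranO)

namespace N6

open MeasureTheory Filter
open Pool.Agent.H620R2.Gauge (idx str str_idx idx_str str_injective Extends)

/-- the first `n` bits of `A` -/
def pre (A : Oracle) (n : ℕ) : List Bool := (List.range n).map (fun i => A (str i))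

theorem pre_length (A : Oracle) (n : ℕ) : (pre A n).length = n := by
  simp [pre]

theorem ext_iff (A : Oracle) (σ : List Bool) : Extends A σ ↔ pre A σ.length = σ := by
  constructor
  · intro h
    apply List.ext_getElem
    · exact pre_length _ _
    · intro i h1 h2
      simp only [pre, List.getElem_map, List.getElem_range]
      exact h i h2
  · intro h i hi
    have h1 : (pre A σ.length)[i]'(by rw [pre_length]; exact hi) = A (str i) := by
      simp [pre]
    rw [← h1]
    simp only [h]

theorem ext_pre (A : Oracle) (n : ℕ) : Extends A (pre A n) := by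
  rw [ext_iff, pre_length]

theorem take_pre (A : Oracle) {m n : ℕ} (h : m ≤ n) : (pre A n).take m = pre A m := by
  unfold pre
  rw [← List.map_take, List.take_range, min_eq_left h]

/-- the cylinder -/
def cyl (σ : List Bool) : Set Oracle := {A | Extends A σ}

theorem cyl_eq (σ : List Bool) : cyl σ =
    Set.pi (((Finset.range σ.length).image str : Finset (List Bool)) : Set (List Bool))
      (fun y => {σ.getD (idx y) false}) := by
  ext A
  rw [Set.mem_pi]
  constructor
  · intro h y hy
    rw [Finset.mem_coe, Finset.mem_image] at hy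
    obtain ⟨i, hi, rfl⟩ := hy
    rw [Finset.mem_range] at hi
    simp only [idx_str, Set.mem_singleton_iff]
    rw [List.getD_eq_getElem _ _ hi]
    exact h i hi
  · intro h i hi
    have h1 := h (str i) (by
      rw [Finset.mem_coe, Finset.mem_image]
      exact ⟨i, Finset.mem_range.2 hi, rfl⟩)
    simp only [idx_str, Set.mem_singleton_iff] at h1
    rw [List.getD_eq_getElem _ _ hi] at h1
    exact h1

theorem coin_singleton (b : Bool) : coin {b} = 2⁻¹ := by
  cases b <;> simp [coin]

theorem meas_cyl (σ : List Bool) : randomOracle (cyl σ) = (2⁻¹ : ENNReal) ^ σ.length := by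
  rw [cyl_eq]
  have h2 : randomOracle (Set.pi (((Finset.range σ.length).image str : Finset (List Bool)) :
      Set (List Bool)) (fun y => {σ.getD (idx y) false})) =
      ∏ y ∈ (Finset.range σ.length).image str, coin {σ.getD (idx y) false} :=
    Measure.infinitePi_pi (fun _ : List Bool => coin) (s := (Finset.range σ.length).image str)
      (t := fun y => {σ.getD (idx y) false}) (fun i _ => MeasurableSet.singleton _)
  rw [h2, Finset.prod_congr rfl (fun y _ => coin_singleton _), Finset.prod_const,
    Finset.card_image_of_injective _ str_injective, Finset.card_range]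

theorem measurableSet_cyl (σ : List Bool) : MeasurableSet (cyl σ) := by
  rw [cyl_eq]
  exact MeasurableSet.pi (Finset.countable_toSet _) (fun _ _ => MeasurableSet.singleton _)

/-- points of an open set -/
theorem open_pre {U : Set Oracle} (hU : IsOpen U) {A : Oracle} (hA : A ∈ U) :
    ∃ n0, ∀ n, n0 ≤ n → cyl (pre A n) ⊆ U := by
  rw [isOpen_pi_iff] at hU
  obtain ⟨I, u, h1, h2⟩ := hU A hA
  refine ⟨I.sup idx + 1, ?_⟩
  intro n hn B hB
  apply h2
  rw [Set.mem_pi]
  intro y hy
  have h3 : idx y < n := by
    have := Finset.le_sup (f := idx) hy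
    omega
  have h4 : B y = A y := by
    have h5 := (ext_iff B _).1 hB
    rw [pre_length] at h5
    have h6 : (pre B n)[idx y]'(by rw [pre_length]; exact h3) =
        (pre A n)[idx y]'(by rw [pre_length]; exact h3) := by
      simp only [h5]
    simpa [pre, str_idx] using h6
  rw [h4]
  exact (h1 y hy).2

instance : IsProbabilityMeasure randomOracle :=
  inferInstanceAs (IsProbabilityMeasure (Measure.infinitePi (fun _ : List Bool => coin)))

theorem half_pow (n : ℕ) : ENNReal.ofReal ((2 : ℝ) ^ (-(n : ℝ))) = (2⁻¹ : ENNReal) ^ n := by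
  rw [Real.rpow_neg (by norm_num), Real.rpow_natCast,
    ENNReal.ofReal_inv_of_pos (by positivity), ENNReal.ofReal_pow (by norm_num)]
  rw [ENNReal.inv_pow]
  simp

end N6

open MeasureTheory Filter N6 in
theorem null_of_ae (f : ℕ → ℝ) (C : ℝ) (hf : ∃ᶠ N : ℕ in Filter.atTop, f N ≤ C)
    (O : Set Oracle) (h : ∀ᵐ A ∂randomOracle, A ∉ O) : Gauge.Null f O := by
  intro δ hδ
  have hO : randomOracle O = 0 := by
    have h' : {A : Oracle | ¬ A ∉ O} = O := by
      ext A
      simp
    rw [ae_iff, h'] at h
    exact h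
  have h2C : (0 : ℝ) < 2 ^ C := Real.rpow_pos_of_pos (by norm_num) _
  have hδ' : (0 : ℝ) < δ / 2 ^ C := by positivity
  obtain ⟨U, hOU, hUo, hUm⟩ := Set.exists_isOpen_lt_of_lt (μ := randomOracle) O
    (ENNReal.ofReal (δ / 2 ^ C)) (by rw [hO]; exact ENNReal.ofReal_pos.2 hδ')
  let S : Set (List Bool) := {τ | (f τ.length ≤ C ∧ cyl τ ⊆ U) ∧
    ∀ m < τ.length, ¬ (f m ≤ C ∧ cyl (τ.take m) ⊆ U)}
  refine ⟨S, ?_, ?_⟩
  · intro A hA
    have hex : ∃ n, f n ≤ C ∧ cyl (pre A n) ⊆ U := by
      obtain ⟨n0, hn0⟩ := open_pre hUo (hOU hA)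
      obtain ⟨n, hn, hn2⟩ := (frequently_atTop.1 hf) n0
      exact ⟨n, hn2, hn0 n hn⟩
    classical
    refine ⟨pre A (Nat.find hex), ⟨?_, ?_⟩, ext_pre A _⟩
    · rw [pre_length]
      exact Nat.find_spec hex
    · intro m hm
      rw [pre_length] at hm
      rw [take_pre A hm.le]
      exact Nat.find_min hex hm
  · have hterm : ∀ τ : S, ENNReal.ofReal (2 ^ (f τ.1.length - τ.1.length)) ≤
        ENNReal.ofReal (2 ^ C) * randomOracle (cyl τ.1) := by
      intro τ
      rw [meas_cyl, ← half_pow, ← ENNReal.ofReal_mul h2C.le, ← Real.rpow_add (by norm_num)]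
      apply ENNReal.ofReal_le_ofReal
      apply Real.rpow_le_rpow_of_exponent_le (by norm_num)
      have := τ.2.1.1
      linarith
    have hdisj : Pairwise (fun τ τ' : S => Disjoint (cyl τ.1) (cyl τ'.1)) := by
      have key : ∀ τ τ' : S, τ.1.length ≤ τ'.1.length → ∀ A, A ∈ cyl τ.1 → A ∈ cyl τ'.1 →
          τ = τ' := by
        intro τ τ' hle A h1 h2
        have e1 := (ext_iff A τ.1).1 h1
        have e2 := (ext_iff A τ'.1).1 h2
        rcases hle.lt_or_eq with hlt | heq
        · exfalso
          apply τ'.2.2 _ hlt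
          have e3 : τ'.1.take τ.1.length = τ.1 := by
            rw [← e2, take_pre A hle, e1]
          rw [e3]
          exact τ.2.1
        · apply Subtype.ext
          rw [← e1, ← e2, heq]
      intro τ τ' hne
      rw [Set.disjoint_left]
      intro A h1 h2
      rcases le_total τ.1.length τ'.1.length with hle | hle
      · exact hne (key τ τ' hle A h1 h2)
      · exact hne (key τ' τ hle A h2 h1).symm
    calc ∑' τ : S, ENNReal.ofReal (2 ^ (f τ.1.length - τ.1.length))
        ≤ ∑' τ : S, ENNReal.ofReal (2 ^ C) * randomOracle (cyl τ.1) :=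
          ENNReal.tsum_le_tsum hterm
      _ = ENNReal.ofReal (2 ^ C) * ∑' τ : S, randomOracle (cyl τ.1) := ENNReal.tsum_mul_left
      _ = ENNReal.ofReal (2 ^ C) * randomOracle (⋃ τ : S, cyl τ.1) := by
          rw [measure_iUnion hdisj (fun τ => measurableSet_cyl τ.1)]
      _ ≤ ENNReal.ofReal (2 ^ C) * randomOracle U := by
          gcongr
          exact Set.iUnion_subset fun τ => τ.2.1.2
      _ ≤ ENNReal.ofReal (2 ^ C) * ENNReal.ofReal (δ / 2 ^ C) := by
          gcongr
      _ = ENNReal.ofReal δ := by
          rw [← ENNReal.ofReal_mul h2C.le]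
          congr 1
          field_simp

end Pool.Agent.H943R5.GC
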