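import Pool.Agent.H943R5.GC.Defs
import Pool.Agent.H543R3.PC.A2

/-!
# Project GC: task U1, locality of `Bad`
-/

namespace Pool.Agent.H943R5.GC

open Pool.Agent.NPC Pool.Agent.H628R3.RO Pool.Agent.H673R2.OneTT

namespace U1

theorem out_loc : ∃ qb : Polynomial ℕ, ∀ (A A' : Oracle) (x : List Bool),
    (∀ y : List Bool, y.length ≤ qb.eval x.length → A y = A' y) → uA.out A x = uA.out A' x := by
  obtain ⟨qb, h⟩ := uA.out_local
  refine ⟨qb, fun A A' x hA => ?_⟩
  obtain ⟨Q, -, h2, h3⟩ := h A x
  exact (h3 A' (fun q hq => (hA q (h2 q hq)).symm)).symm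

theorem eval_le (P : Polynomial ℕ) (n : ℕ) (hn : 1 ≤ n) :
    P.eval n ≤ P.eval 1 * n ^ P.natDegree := by
  rw [Polynomial.eval_eq_sum_range, Polynomial.eval_eq_sum_range, Finset.sum_mul]
  refine Finset.sum_le_sum fun i hi => ?_
  rw [one_pow, mul_one]
  refine Nat.mul_le_mul_left _ (Nat.pow_le_pow_right hn ?_)
  have := Finset.mem_range.1 hi
  omega

theorem poly_lt (P : Polynomial ℕ) : ∃ K : ℕ, ∀ n, 2 ≤ n → P.eval n < n ^ (2 ^ K) := by
  refine ⟨P.eval 1 + P.natDegree, fun n hn => ?_⟩
  have h1 := eval_le P n (by omega)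
  have h2 : P.eval 1 < n ^ (P.eval 1) :=
    lt_of_lt_of_le Nat.lt_two_pow_self (Nat.pow_le_pow_left hn _)
  have h3 : P.eval 1 * n ^ P.natDegree < n ^ (P.eval 1) * n ^ P.natDegree :=
    Nat.mul_lt_mul_of_pos_right h2 (Nat.pow_pos (by omega))
  refine lt_of_le_of_lt h1 (lt_of_lt_of_le h3 ?_)
  rw [← pow_add]
  exact Nat.pow_le_pow_right (by omega) Nat.lt_two_pow_self.le

theorem TT_add (s K : ℕ) : TT (s + K) = TT s ^ (2 ^ K) := by
  unfold TT tw
  rw [← pow_mul, ← pow_add]

theorem two_le_TT (s : ℕ) : 2 ≤ TT s := by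
  unfold TT tw
  calc 2 = 2 ^ 1 := rfl
    _ ≤ 2 ^ (2 ^ s) := Nat.pow_le_pow_right (by norm_num) Nat.one_le_two_pow

theorem le_TT (s : ℕ) : s ≤ TT s := by
  unfold TT tw
  exact (Nat.lt_two_pow_self.le).trans (Nat.lt_two_pow_self.le)

theorem len_cd (b : Bool) (v : List Bool) : (cd b v).length ≤ v.length := by
  have h1 := Pool.Agent.H543R3.PC.unpair_len v
  have h2 := Pool.Agent.H543R3.PC.unpair_len (unpair v).2
  have h3 := Pool.Agent.H543R3.PC.unpair_len (unpair (unpair v).2).2
  unfold cd
  cases b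
  · simp only [Bool.false_eq_true, if_false]; omega
  · simp only [if_true]; omega

end U1

open U1 in
theorem exists_loc : ∃ K, Loc K Bad := by
  obtain ⟨qb, hqb⟩ := out_loc
  obtain ⟨b, hb⟩ := uA.out_length
  let P : Polynomial ℕ := qb.comp (11 * Polynomial.X + 5) +
    qb.comp (3 * b.comp (11 * Polynomial.X + 5) + 1)
  have hP : ∀ n, P.eval n = qb.eval (11 * n + 5) + qb.eval (3 * b.eval (11 * n + 5) + 1) := by
    intro n
    simp [P]
  obtain ⟨K, hK⟩ := poly_lt P
  refine ⟨K, ?_⟩
  intro v s hact A A' hA ⟨u, m, hm, hadm, hviol⟩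
  refine ⟨u, m, hm, hadm, ?_⟩
  -- lengths
  have hv : v.length ≤ TT s := by
    have h1 := le_TT v.length
    have h2 : TT v.length ≤ (st s).length := hact
    have h3 : (st s).length ≤ s := Pool.Agent.H583R2.length_str_le s
    have h4 := le_TT s
    omega
  have hu : u.length ≤ TT s := by
    have h1 : u.length + 2 ≤ tw (u.length + 2) (ex v) := by
      unfold tw
      calc u.length + 2 = (u.length + 2) ^ 1 := (pow_one _).symm
        _ ≤ (u.length + 2) ^ (2 ^ ex v) :=
          Nat.pow_le_pow_right (by omega) Nat.one_le_two_pow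
    have h2 : tw (u.length + 2) (ex v) ≤ m := hadm
    omega
  have hKs := hK (TT s) (two_le_TT s)
  rw [← TT_add, hP] at hKs
  have hin : ∀ (c : Bool) (w : List Bool), w.length ≤ m →
      (pairBits (pairBits (cd c v) (pairBits u (List.replicate m true))) w).length ≤
        11 * TT s + 5 := by
    intro c w hw
    have h1 := len_cd c v
    rw [length_pairBits, length_pairBits, length_pairBits, List.length_replicate]
    omega
  have hout : ∀ (c : Bool) (w : List Bool), w.length ≤ m →
      uA.out A (pairBits (pairBits (cd c v) (pairBits u (List.replicate m true))) w) =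
      uA.out A' (pairBits (pairBits (cd c v) (pairBits u (List.replicate m true))) w) := by
    intro c w hw
    refine hqb A A' _ fun y hy => hA y ?_
    have h1 := eval_mono qb (hin c w hw)
    omega
  have hAc : ∀ (c : Bool) (w : List Bool), Ac A v c u m w ↔ Ac A' v c u m w := by
    intro c w
    unfold Ac
    constructor
    · rintro ⟨h1, h2⟩
      exact ⟨h1, by rw [← hout c w h1]; exact h2⟩
    · rintro ⟨h1, h2⟩
      exact ⟨h1, by rw [hout c w h1]; exact h2⟩
  have hEx : ∀ c : Bool, Ex A v c u m ↔ Ex A' v c u m := fun c => exists_congr fun w => hAc c w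
  have hOut : Out A v u m = Out A' v u m := by
    unfold Out
    rw [hout false [] (Nat.zero_le _)]
  have hOlen : (Out A v u m).length ≤ b.eval (11 * TT s + 5) := by
    unfold Out
    rcases h : uA.out A (pairBits (pairBits (cd false v) (pairBits u (List.replicate m true))) [])
      with _ | z
    · simp
    · rw [Option.getD_some]
      exact (hb A _ z h).trans (eval_mono b (hin false [] (Nat.zero_le _)))
  have hKA : Out A v u m ∈ KA A ↔ Out A' v u m ∈ KA A' := by
    rw [← hOut]
    have key : ∀ w : List Bool, w.length ≤ (Out A v u m).length →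
        uA.out A (pairBits (Out A v u m) w) = uA.out A' (pairBits (Out A v u m) w) := by
      intro w hw
      refine hqb A A' _ fun y hy => hA y ?_
      have h0 : (pairBits (Out A v u m) w).length ≤ 3 * b.eval (11 * TT s + 5) + 1 := by
        rw [length_pairBits]; omega
      have h1 := eval_mono qb h0
      omega
    constructor
    · rintro ⟨w, hw, hw2⟩
      exact ⟨w, hw, by rw [← key w hw]; exact hw2⟩
    · rintro ⟨w, hw, hw2⟩
      exact ⟨w, hw, by rw [key w hw]; exact hw2⟩
  unfold Viol at hviol ⊢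
  simp only [hAc, hEx, hKA] at hviol
  exact hviol

end Pool.Agent.H943R5.GC
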