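import Pool.Agent.H943R5.GC.N5
import Pool.Agent.H943R5.GC.N6
import Pool.Agent.H943R5.GC.U1

/-!
# Project GC: the gauge theorem for a property of oracles, non-null side and measure zero
-/

namespace Pool.Agent.H943R5.GC

open Pool.Agent.NPC Pool.Agent.H628R3.RO Pool.Agent.H673R2.OneTT
open Pool.Agent.H620R2 (Gauge.Null)

/-- A property that holds for all good oracles does not define a null set, for gauges above
`(log log log log N) ^ σ` with `σ > 1`. -/
theorem not_null_of_good {X : Oracle → Prop} {Bd : Oracle → List Bool → ℕ → Prop}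
    (hloc : ∃ K, Loc K Bd) (hX : ∀ K A, Good K Bd A → X A) (f : ℕ → ℝ) (σ : ℝ) (hσ : 1 < σ)
    (hf : ∀ᶠ N : ℕ in Filter.atTop, log4 N ^ σ ≤ f N) : ¬ Gauge.Null f {A | X A} := by
  obtain ⟨K, hK⟩ := hloc
  exact not_null_good K Bd hK f σ hσ hf _ (fun A hA => hX K A hA)

/-- A property that almost no oracle has defines a null set, for gauges which are bounded
infinitely often. -/
theorem null_of_ae_not {X : Oracle → Prop} (hX : ∀ᵐ A ∂randomOracle, ¬ X A) (f : ℕ → ℝ) (C : ℝ)
    (hf : ∃ᶠ N : ℕ in Filter.atTop, f N ≤ C) : Gauge.Null f {A | X A} :=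
  null_of_ae f C hf _ hX

end Pool.Agent.H943R5.GC
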