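import Pool.Agent.H943R5.GC.Base
import Pool.Agent.H543R3.PC.A2

/-!
# Project GC, task U5: instances
-/

namespace Pool.Agent.H943R5.GC

open Pool.Agent.NPC Pool.Agent.H628R3.RO Pool.Agent.H673R2.OneTT

theorem zv_inst (v u : List Bool) (m : ℕ) : zv (inst v u m) = v := by
  unfold zv inst
  rw [unpair_pairBits]

theorem zu_inst (v u : List Bool) (m : ℕ) : zu (inst v u m) = u := by
  unfold zu inst
  rw [unpair_pairBits, unpair_pairBits]

theorem zm_inst (v u : List Bool) (m : ℕ) : zm (inst v u m) = m := by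
  unfold zm inst
  rw [unpair_pairBits, unpair_pairBits, List.length_replicate]

/-- the components of a pair are short -/
theorem U5.unpair_length (y : List Bool) :
    (unpair y).1.length + (unpair y).2.length ≤ y.length :=
  Pool.Agent.H543R3.PC.unpair_len y

theorem U5.p_rep {α : Type} [TEnc α] {n : α → ℕ} (hn : UPoly n) (b : Bool) :
    NPC.Poly (fun a => List.replicate (n a) b) :=
  (NPC.Poly.map (F := fun (_ : α) (_ : Unit) => b) hn (NPC.Poly.const b)).congr fun a => by simp

theorem zm_le (z : List Bool) : zm z ≤ z.length := by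
  unfold zm
  have h1 := U5.unpair_length z
  have h2 := U5.unpair_length (unpair z).2
  omega

theorem U5.le_TT_rd (m : ℕ) : m ≤ TT (rd m) := by
  unfold TT tw rd
  exact (Nat.le_pow_clog (by norm_num) m).trans
    (Nat.pow_le_pow_right (by norm_num) (Nat.le_pow_clog (by norm_num) _))

/-- For good oracles, the guard excludes violations. -/
theorem not_viol {K : ℕ} {A : Oracle} (hG : Good K Bad A) {κ : ℕ} {z : List Bool}
    (h : Ok K A κ z) : ¬ Viol A (zv z) (zu z) (zm z) := by
  intro hv
  exact hG.1 _ _ h.2.1 h.2.2.2 ⟨_, _, U5.le_TT_rd _, h.2.2.1, hv⟩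

/-- For good oracles, the guard holds for the instances of codes which keep their promise. -/
theorem ok_inst {K : ℕ} {A : Oracle} (hG : Good K Bad A) {v : List Bool}
    (hv : ∀ u m, Adm v u m → ¬ Viol A v u m) {u : List Bool} {m : ℕ} (h1 : Adm v u m)
    (h2 : act v (rd m)) : Ok K A (kd v) (inst v u m) := by
  unfold Ok Grd
  rw [zv_inst, zu_inst, zm_inst]
  refine ⟨rfl, h2, h1, fun s _ => ?_⟩
  refine hG.2 v (fun s' _ hB => ?_) s
  obtain ⟨u', m', -, h4, h5⟩ := hB
  exact hv u' m' h4 h5

theorem isFP_inst (A : Oracle) (v : List Bool) (p : Polynomial ℕ) :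
    IsFP A (fun u => inst v u (p.eval u.length)) := by
  apply IsFP.of_poly
  unfold inst
  exact Pool.Agent.H622R2.poly_pairBits (NPC.Poly.const _) (Pool.Agent.H622R2.poly_pairBits
    NPC.Poly.id (U5.p_rep (UPoly.eval (UPoly.length NPC.Poly.id) p) true))

theorem U5.length_st (s : ℕ) : 2 ^ (st s).length ≤ s + 1 ∧ s + 2 ≤ 2 ^ ((st s).length + 1) := by
  unfold st
  have h1 := Pool.Agent.H583R2.le_idx (Pool.Agent.H583R2.str s)
  have h2 := Pool.Agent.H583R2.idx_lt (Pool.Agent.H583R2.str s)
  rw [Pool.Agent.H583R2.idx_str] at h1 h2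
  exact ⟨h1, h2⟩

theorem exists_budget (v : List Bool) : ∃ p : Polynomial ℕ, ∀ u : List Bool,
    Adm v u (p.eval u.length) ∧ act v (rd (p.eval u.length)) := by
  refine ⟨(Polynomial.X + Polynomial.C 2) ^ (2 ^ ex v) +
    Polynomial.C (TT (2 ^ (TT v.length + 1))), fun u => ?_⟩
  simp only [Polynomial.eval_add, Polynomial.eval_pow, Polynomial.eval_X, Polynomial.eval_C]
  refine ⟨?_, ?_⟩
  · unfold Adm tw
    exact Nat.le_add_right _ _
  · set m := (u.length + 2) ^ 2 ^ ex v + TT (2 ^ (TT v.length + 1)) with hm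
    unfold act
    have h1 : 2 ^ (TT v.length + 1) ≤ rd m := by
      have h2 : TT (2 ^ (TT v.length + 1)) ≤ TT (rd m) :=
        (Nat.le_add_left _ _).trans (U5.le_TT_rd m)
      unfold TT tw at h2
      have h3 := (Nat.pow_le_pow_iff_right (by norm_num : 1 < 2)).1 h2
      exact (Nat.pow_le_pow_iff_right (by norm_num : 1 < 2)).1 h3
    have h4 := (U5.length_st (rd m)).2
    by_contra hcon
    push Not at hcon
    have h5 : 2 ^ ((st (rd m)).length + 1) ≤ 2 ^ TT v.length :=
      Nat.pow_le_pow_right (by norm_num) hcon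
    have h6 : 2 ^ (TT v.length + 1) = 2 * 2 ^ TT v.length := by ring
    omega

end Pool.Agent.H943R5.GC
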