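import Pool.Agent.H943R5.GC.U4
import Pool.Agent.H943R5.GC.U5

/-!
# Task KDCO (helper835): a complete disjoint coNP pair, with the facts of U3, U4, U5 as hypotheses
-/

namespace Pool.Agent.H943R5.GC.KDCO

open Pool.Agent.NPC Pool.Agent.H628R3.RO Pool.Agent.H673R2.OneTT

/-- The `NP` set whose complement is the set number `b` of the pair. -/
def NS (K : ℕ) (A : Oracle) (b : Bool) : Set (List Bool) :=
  {z | ∃ w : List Bool, w.length ≤ z.length ∧ VV K A 3 b true (pairBits z w) = [true]}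

theorem VV_ok {K : ℕ} {A : Oracle} {κ : ℕ} {b dflt : Bool} {z : List Bool} (h : Ok K A κ z)
    (w : List Bool) :
    VV K A κ b dflt (pairBits z w) = [true] ↔ Ac A (zv z) b (zu z) (zm z) w := by
  unfold VV
  rw [unpair_pairBits]
  simp only
  rw [if_pos h]
  by_cases hA : Ac A (zv z) b (zu z) (zm z) w
  · rw [if_pos hA]; exact ⟨fun _ => hA, fun _ => rfl⟩
  · rw [if_neg hA]; exact ⟨fun h => absurd h (by simp), fun h => absurd h hA⟩

theorem VV_not {K : ℕ} {A : Oracle} {κ : ℕ} {b : Bool} {z : List Bool} (h : ¬ Ok K A κ z) :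
    VV K A κ b true (pairBits z []) = [true] := by
  unfold VV
  rw [unpair_pairBits]
  simp only
  rw [if_neg h, if_pos ⟨trivial, trivial⟩]

theorem isNP_NS {K : ℕ} {A : Oracle} (b : Bool) (hVV : IsFP A (VV K A 3 b true)) :
    IsNP A (NS K A b) := by
  refine ⟨VV K A 3 b true, Polynomial.X, hVV, fun x => ?_⟩
  unfold NS
  simp only [Set.mem_setOf_eq, Polynomial.eval_X]

theorem core {K : ℕ} {A : Oracle}
    (hVV : ∀ b : Bool, IsFP A (VV K A 3 b true))
    (hcode : ∀ {V₀ V₁ : List Bool → List Bool} (p₀ p₁ : Polynomial ℕ), IsFP A V₀ → IsFP A V₁ →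
      ∃ v, kd v = 3 ∧ ∀ u m, Adm v u m →
      (∀ w, Ac A v false u m w ↔ w.length ≤ p₀.eval u.length ∧ V₀ (pairBits u w) = [true]) ∧
      (∀ w, Ac A v true u m w ↔ w.length ≤ p₁.eval u.length ∧ V₁ (pairBits u w) = [true]))
    (hbud : ∀ v : List Bool, ∃ p : Polynomial ℕ, ∀ u : List Bool,
      Adm v u (p.eval u.length) ∧ act v (rd (p.eval u.length)))
    (hinst : ∀ (v : List Bool) (p : Polynomial ℕ), IsFP A (fun u => inst v u (p.eval u.length)))
    (hzv : ∀ v u m, zv (inst v u m) = v) (hzu : ∀ v u m, zu (inst v u m) = u)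
    (hzm : ∀ v u m, zm (inst v u m) = m) (hzl : ∀ z : List Bool, zm z ≤ z.length)
    (hnv : ∀ z : List Bool, Ok K A 3 z → ¬ Viol A (zv z) (zu z) (zm z))
    (hok : ∀ v : List Bool, (∀ u m, Adm v u m → ¬ Viol A v u m) → ∀ (u : List Bool) (m : ℕ),
      Adm v u m → act v (rd m) → Ok K A (kd v) (inst v u m)) :
    Pool.Agent.H543R3.PC.HasDCoNP A := by
  refine ⟨(NS K A false)ᶜ, (NS K A true)ᶜ, ⟨?_, ?_, ?_⟩, ?_⟩
  · unfold IsCoNP
    rw [compl_compl]
    exact isNP_NS false (hVV false)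
  · unfold IsCoNP
    rw [compl_compl]
    exact isNP_NS true (hVV true)
  · rintro x ⟨h0, h1⟩
    by_cases hx : Ok K A 3 x
    · have hv := hnv x hx
      have h2 : ∀ b : Bool, x ∉ NS K A b → ¬ Ex A (zv x) b (zu x) (zm x) := by
        rintro b hb ⟨w, hw⟩
        exact hb ⟨w, hw.1.trans (hzl x), (VV_ok hx w).2 hw⟩
      exact hv (Or.inr (Or.inr (Or.inr (Or.inl ⟨hx.1, h2 false h0, h2 true h1⟩))))
    · exact h0 ⟨[], Nat.zero_le _, VV_not hx⟩
  · rintro L₀ L₁ ⟨⟨V₀, p₀, hV₀, h0⟩, ⟨V₁, p₁, hV₁, h1⟩, hd⟩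
    obtain ⟨v, hv3, hv⟩ := hcode p₀ p₁ hV₀ hV₁
    have e0 : ∀ u m, Adm v u m → (Ex A v false u m ↔ u ∉ L₀) := by
      intro u m hm
      constructor
      · rintro ⟨w, hw⟩
        exact (h0 u).2 ⟨w, ((hv u m hm).1 w).1 hw⟩
      · intro hu
        obtain ⟨w, hw⟩ := (h0 u).1 hu
        exact ⟨w, ((hv u m hm).1 w).2 hw⟩
    have e1 : ∀ u m, Adm v u m → (Ex A v true u m ↔ u ∉ L₁) := by
      intro u m hm
      constructor
      · rintro ⟨w, hw⟩
        exact (h1 u).2 ⟨w, ((hv u m hm).2 w).1 hw⟩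
      · intro hu
        obtain ⟨w, hw⟩ := (h1 u).1 hu
        exact ⟨w, ((hv u m hm).2 w).2 hw⟩
    have hnov : ∀ u m, Adm v u m → ¬ Viol A v u m := by
      intro u m hm hV
      unfold Viol at hV
      rw [hv3, e0 u m hm, e1 u m hm] at hV
      rcases hV with h | h | h | h | h | h | h
      · exact absurd h.1 (by norm_num)
      · exact absurd h.1 (by norm_num)
      · exact absurd h.1 (by norm_num)
      · exact hd u ⟨not_not.1 h.2.1, not_not.1 h.2.2⟩
      · exact absurd h.1 (by norm_num)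
      · exact absurd h.1 (by norm_num)
      · exact absurd h.1 (by norm_num)
    obtain ⟨p, hp⟩ := hbud v
    have hOk : ∀ u : List Bool, Ok K A 3 (inst v u (p.eval u.length)) := by
      intro u
      have := hok v hnov u (p.eval u.length) (hp u).1 (hp u).2
      rwa [hv3] at this
    have hacc : ∀ (b : Bool) (u w : List Bool),
        VV K A 3 b true (pairBits (inst v u (p.eval u.length)) w) = [true] →
        Ex A v b u (p.eval u.length) := by
      intro b u w h
      have h2 := (VV_ok (hOk u) w).1 h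
      rw [hzv, hzu, hzm] at h2
      exact ⟨w, h2⟩
    refine ⟨fun u => inst v u (p.eval u.length), hinst v p, ?_, ?_⟩
    · rintro u hu ⟨w, -, hw⟩
      exact (e0 u _ (hp u).1).1 (hacc false u w hw) hu
    · rintro u hu ⟨w, -, hw⟩
      exact (e1 u _ (hp u).1).1 (hacc true u w hw) hu

/-- A complete disjoint coNP pair, from the fact that the universal verifiers are in `FP^A`. -/
theorem main {K : ℕ} {A : Oracle} (hG : Good K Bad A)
    (hVV : ∀ b : Bool, IsFP A (VV K A 3 b true)) : Pool.Agent.H543R3.PC.HasDCoNP A :=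
  core hVV (fun p₀ p₁ h₀ h₁ => code_pair A p₀ p₁ h₀ h₁ 3) exists_budget (isFP_inst A)
    zv_inst zu_inst zm_inst zm_le (fun _ hz => not_viol hG hz)
    (fun _ hv _ _ h1 h2 => ok_inst hG hv h1 h2)

end Pool.Agent.H943R5.GC.KDCO
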