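import Pool.Agent.H943R5.GC.Defs

/-!
# Project GC, task U4: coding of real objects
-/

namespace Pool.Agent.H943R5.GC

open Pool.Agent.NPC Pool.Agent.H628R3.RO Pool.Agent.H673R2.OneTT Pool.Agent.H660R2.NX

namespace U4

/-- a polynomial with natural coefficients is at most a power of `n + 2` -/
theorem eval_le_pow (p : Polynomial ℕ) : ∃ k, ∀ n, p.eval n ≤ (n + 2) ^ k := by
  induction p using Polynomial.induction_on' with
  | add p q hp hq =>
    obtain ⟨k, hk⟩ := hp
    obtain ⟨l, hl⟩ := hq
    refine ⟨k + l + 1, fun n => ?_⟩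
    rw [Polynomial.eval_add]
    have h1 : (n + 2) ^ k ≤ (n + 2) ^ (k + l) := Nat.pow_le_pow_right (by omega) (by omega)
    have h2 : (n + 2) ^ l ≤ (n + 2) ^ (k + l) := Nat.pow_le_pow_right (by omega) (by omega)
    have h3 : (n + 2) ^ (k + l + 1) = (n + 2) ^ (k + l) * (n + 2) := pow_succ _ _
    have h4 : (n + 2) ^ (k + l) * 2 ≤ (n + 2) ^ (k + l) * (n + 2) :=
      Nat.mul_le_mul_left _ (by omega)
    have := hk n
    have := hl n
    omega
  | monomial k c =>
    refine ⟨c + k, fun n => ?_⟩
    rw [Polynomial.eval_monomial, pow_add]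
    refine Nat.mul_le_mul ?_ (Nat.pow_le_pow_left (by omega) k)
    calc c ≤ 2 ^ c := Nat.lt_two_pow_self.le
      _ ≤ (n + 2) ^ c := Nat.pow_le_pow_left (by omega) c

/-- a polynomial with natural coefficients is at most an iterated square -/
theorem eval_le_tw (p : Polynomial ℕ) : ∃ g, ∀ n, p.eval n ≤ tw (n + 2) g := by
  obtain ⟨k, hk⟩ := eval_le_pow p
  refine ⟨k, fun n => (hk n).trans ?_⟩
  unfold tw
  exact Nat.pow_le_pow_right (by omega) Nat.lt_two_pow_self.le

/-- The universal algorithm simulates a given algorithm. -/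
theorem code_alg (M : Alg) : ∃ (e : Code) (bm : Polynomial ℕ),
    (∀ (A : Oracle) (u w : List Bool) (m : ℕ) (r : ℕ), w.length ≤ r →
      bm.eval (u.length + r) ≤ m → ∀ z, M.out A (pairBits u w) = some z →
        uA.out A (pairBits (insK e u m) w) = some z) ∧
    ∀ (A : Oracle) (u w : List Bool) (m : ℕ), uA.out A (pairBits (insK e u m) w) = some [true] →
      ∃ n', M.run A (pairBits u w) n' [] = some [true] := by
  obtain ⟨e, pe, he⟩ := U_complete M.poly
  have hcode : IsCode e M.D pe := he
  set b1 : Polynomial ℕ := 2 * Polynomial.X + 1 with hb1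
  set b2 : Polynomial ℕ := M.p.comp b1 with hb2
  refine ⟨e, b2 + pe.comp (2 * b1 + 1 + b2), fun A u w m r hr hm z hz => ?_,
    fun A u w m h => uA_sound hcode _ _ h⟩
  rw [Polynomial.eval_add] at hm
  have h6 : (pairBits u w).length ≤ b1.eval (u.length + r) := by
    rw [H628R3.RO.length_pairBits, hb1]
    simp only [Polynomial.eval_add, Polynomial.eval_mul, Polynomial.eval_X,
      Polynomial.eval_one, Polynomial.eval_ofNat]
    omega
  have h7 : M.p.eval (pairBits u w).length ≤ b2.eval (u.length + r) := by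
    rw [hb2, Polynomial.eval_comp]
    exact eval_mono _ h6
  have h10 : uA.p.eval (pairBits (insK e u m) w).length = (pairBits (insK e u m) w).length + 1 := by
    show (Polynomial.X + 1 : Polynomial ℕ).eval _ = _
    simp
  unfold Alg.out at hz ⊢
  refine uA_complete hcode (B := M.p.eval (pairBits u w).length) (by omega) ?_ _ _ (by simp)
    hz _ ?_
  · intro a ha
    refine le_trans (eval_mono pe (n := (2 * b1 + 1 + b2).eval (u.length + r)) ?_) ?_
    · rw [H628R3.RO.length_pairBits]
      simp only [Polynomial.eval_add, Polynomial.eval_mul,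
        Polynomial.eval_one, Polynomial.eval_ofNat]
      omega
    · rw [← Polynomial.eval_comp]
      omega
  · rw [h10, H628R3.RO.length_pairBits]
    have h11 := le_length_insK e u m
    omega

/-- Coding of a nondeterministic algorithm. -/
theorem code_nd (A : Oracle) {V : List Bool → List Bool} (p : Polynomial ℕ) (hV : IsFP A V) :
    ∃ (e : Code) (q : Polynomial ℕ), ∀ (u w : List Bool) (m : ℕ), q.eval u.length ≤ m →
      ((w.length ≤ m ∧ uA.out A (pairBits (insK e u m) w) = some [true]) ↔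
        (w.length ≤ p.eval u.length ∧ V (pairBits u w) = [true])) := by
  have h2 : IsFP A (fun t => pairBits (V t) t) := IsFP.pair hV (IsFP.of_poly Poly.id)
  have h3 : Poly (fun t : List Bool => [decide ((unpair t).1 = [true]) &&
      decide ((unpair (unpair t).2).2.length ≤ p.eval (unpair (unpair t).2).1.length)]) := by
    have h4 : Poly (fun t : List Bool => (unpair t).2) := Poly.snd poly_unpair
    have h5 : Poly (fun t : List Bool => (unpair (unpair t).2).1) :=
      Poly.fst (poly_unpair.comp h4)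
    have h6 : Poly (fun t : List Bool => (unpair (unpair t).2).2) :=
      Poly.snd (poly_unpair.comp h4)
    exact Poly.cons (Poly.and (Poly.decide_eq (Poly.fst poly_unpair) (NPC.Poly.const [true]))
      (Poly.decide_le (Poly.length h6) (UPoly.eval (UPoly.length h5) p).toPoly))
      (NPC.Poly.const [])
  have h4 := IsFP.comp (IsFP.of_poly (A := A) h3) h2
  simp only [unpair_pairBits] at h4
  obtain ⟨M, hM⟩ := h4
  beta_reduce at hM
  obtain ⟨e, bm, hbm⟩ := code_alg M
  refine ⟨e, bm.comp (Polynomial.X + p) + p, fun u w m hm => ?_⟩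
  rw [Polynomial.eval_add, Polynomial.eval_comp, Polynomial.eval_add, Polynomial.eval_X] at hm
  have hMw := hM (pairBits u w)
  rw [unpair_pairBits] at hMw
  constructor
  · rintro ⟨hw, h5⟩
    by_cases hwp : w.length ≤ p.eval u.length
    · have h7 := hbm.1 A u w m (p.eval u.length) hwp (by omega) _ hMw
      rw [h5] at h7
      simp only [Option.some.injEq, List.cons.injEq, and_true] at h7
      have h9 := h7.symm
      simp only [Bool.and_eq_true, decide_eq_true_eq] at h9
      exact ⟨h9.2, h9.1⟩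
    · exfalso
      obtain ⟨n', h6⟩ := hbm.2 A u w m h5
      have h7 := run_det M A _ _ _ _ _ _ h6 hMw
      simp only [List.cons.injEq, and_true] at h7
      have h9 := h7.symm
      simp only [Bool.and_eq_true, decide_eq_true_eq] at h9
      exact hwp h9.2
  · rintro ⟨hw, h5⟩
    refine ⟨by omega, ?_⟩
    have h7 := hbm.1 A u w m (p.eval u.length) hw (by omega) _ hMw
    rw [h7]
    simp [h5, hw]

/-- Coding of a function. -/
theorem code_det (A : Oracle) {Q : List Bool → List Bool} (hQ : IsFP A Q) :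
    ∃ (e : Code) (q : Polynomial ℕ), ∀ (u : List Bool) (m : ℕ), q.eval u.length ≤ m →
      uA.out A (pairBits (insK e u m) []) = some (Q u) := by
  have h1 : IsFP A (fun t => Q (unpair t).1) :=
    IsFP.comp hQ (IsFP.of_poly (Poly.fst poly_unpair))
  obtain ⟨M, hM⟩ := h1
  beta_reduce at hM
  obtain ⟨e, bm, hbm⟩ := code_alg M
  refine ⟨e, bm, fun u m hm => ?_⟩
  have h2 := hbm.1 A u [] m 0 (by simp) (by simpa using hm) _ (hM (pairBits u []))
  rw [h2, unpair_pairBits]

/-- the code with given components -/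
def mkv (κ g : ℕ) (e₀ e₁ : Code) : List Bool :=
  pairBits (List.replicate κ true) (pairBits (List.replicate g true) (pairBits (bits e₀) (bits e₁)))

theorem kd_mkv (κ g : ℕ) (e₀ e₁ : Code) : kd (mkv κ g e₀ e₁) = κ := by
  unfold kd mkv
  rw [unpair_pairBits, List.length_replicate]

theorem ex_mkv (κ g : ℕ) (e₀ e₁ : Code) : ex (mkv κ g e₀ e₁) = g := by
  unfold ex mkv
  rw [unpair_pairBits, unpair_pairBits, List.length_replicate]

theorem cd_mkv_false (κ g : ℕ) (e₀ e₁ : Code) : cd false (mkv κ g e₀ e₁) = bits e₀ := by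
  unfold cd mkv
  rw [unpair_pairBits, unpair_pairBits, unpair_pairBits]
  rfl

theorem cd_mkv_true (κ g : ℕ) (e₀ e₁ : Code) : cd true (mkv κ g e₀ e₁) = bits e₁ := by
  unfold cd mkv
  rw [unpair_pairBits, unpair_pairBits, unpair_pairBits]
  rfl

end U4

open U4 in
theorem code_pair (A : Oracle) {V₀ V₁ : List Bool → List Bool} (p₀ p₁ : Polynomial ℕ)
    (h₀ : IsFP A V₀) (h₁ : IsFP A V₁) (κ : ℕ) : ∃ v, kd v = κ ∧ ∀ u m, Adm v u m →
      (∀ w, Ac A v false u m w ↔ w.length ≤ p₀.eval u.length ∧ V₀ (pairBits u w) = [true]) ∧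
      (∀ w, Ac A v true u m w ↔ w.length ≤ p₁.eval u.length ∧ V₁ (pairBits u w) = [true]) := by
  obtain ⟨e₀, q₀, hq₀⟩ := code_nd A p₀ h₀
  obtain ⟨e₁, q₁, hq₁⟩ := code_nd A p₁ h₁
  obtain ⟨g, hg⟩ := eval_le_tw (q₀ + q₁)
  refine ⟨mkv κ g e₀ e₁, kd_mkv κ g e₀ e₁, fun u m hm => ?_⟩
  unfold Adm at hm
  rw [ex_mkv] at hm
  have h2 := (hg u.length).trans hm
  rw [Polynomial.eval_add] at h2
  constructor
  · intro w
    unfold Ac
    rw [cd_mkv_false]
    exact hq₀ u w m (by omega)
  · intro w
    unfold Ac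
    rw [cd_mkv_true]
    exact hq₁ u w m (by omega)

open U4 in
theorem code_fn (A : Oracle) {Q : List Bool → List Bool} (h : IsFP A Q) (κ : ℕ) :
    ∃ v, kd v = κ ∧ ∀ u m, Adm v u m → Out A v u m = Q u := by
  obtain ⟨e, q, hq⟩ := code_det A h
  obtain ⟨g, hg⟩ := eval_le_tw q
  refine ⟨mkv κ g e e, kd_mkv κ g e e, fun u m hm => ?_⟩
  unfold Adm at hm
  rw [ex_mkv] at hm
  have h2 := (hg u.length).trans hm
  unfold Out
  rw [cd_mkv_false]
  have h3 := hq u m h2
  unfold insK at h3
  rw [h3]
  rfl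

end Pool.Agent.H943R5.GC
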