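import Pool.Agent.H943R5.GC.U3
import Pool.Agent.H943R5.GC.U4
import Pool.Agent.H943R5.GC.U5

/-!
# KDNP: a complete disjoint NP pair
-/

namespace Pool.Agent.H943R5.GC

open Pool.Agent.NPC Pool.Agent.H628R3.RO Pool.Agent.H673R2.OneTT

namespace KDNP

/-- The component number `b` of the pair. -/
def KK (K : ℕ) (A : Oracle) (b : Bool) : Set (List Bool) :=
  {z | ∃ w : List Bool, w.length ≤ z.length ∧ VV K A 2 b false (pairBits z w) = [true]}

theorem VV_true {K : ℕ} {A : Oracle} {b : Bool} {z w : List Bool} :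
    VV K A 2 b false (pairBits z w) = [true] ↔
      Ok K A 2 z ∧ Ac A (zv z) b (zu z) (zm z) w := by
  classical
  unfold VV
  rw [unpair_pairBits]
  simp only
  split_ifs with h1 h2 h3
  · exact ⟨fun _ => ⟨h1, h2⟩, fun _ => rfl⟩
  · constructor
    · intro h
      simp at h
    · intro h
      exact absurd h.2 h2
  · simp at h3
  · constructor
    · intro h
      simp at h
    · intro h
      exact absurd h.1 h1

theorem of (U3 : ∀ (K : ℕ) (A : Oracle) (κ : ℕ) (b dflt : Bool), IsFP A (VV K A κ b dflt))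
    (U4 : ∀ (A : Oracle) {V₀ V₁ : List Bool → List Bool} (p₀ p₁ : Polynomial ℕ)
      (_ : IsFP A V₀) (_ : IsFP A V₁) (κ : ℕ), ∃ v, kd v = κ ∧ ∀ u m, Adm v u m →
      (∀ w, Ac A v false u m w ↔ w.length ≤ p₀.eval u.length ∧ V₀ (pairBits u w) = [true]) ∧
      (∀ w, Ac A v true u m w ↔ w.length ≤ p₁.eval u.length ∧ V₁ (pairBits u w) = [true]))
    (U5a : ∀ (v : List Bool), ∃ p : Polynomial ℕ, ∀ u : List Bool,
      Adm v u (p.eval u.length) ∧ act v (rd (p.eval u.length)))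
    (U5b : ∀ (A : Oracle) (v : List Bool) (p : Polynomial ℕ),
      IsFP A (fun u => inst v u (p.eval u.length)))
    (U5c : ∀ (v u : List Bool) (m : ℕ), zv (inst v u m) = v)
    (U5d : ∀ (v u : List Bool) (m : ℕ), zu (inst v u m) = u)
    (U5e : ∀ (v u : List Bool) (m : ℕ), zm (inst v u m) = m)
    (U5f : ∀ (z : List Bool), zm z ≤ z.length)
    (U5g : ∀ {K : ℕ} {A : Oracle} (_ : Good K Bad A) {κ : ℕ} {z : List Bool}
      (_ : Ok K A κ z), ¬ Viol A (zv z) (zu z) (zm z))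
    (U5h : ∀ {K : ℕ} {A : Oracle} (_ : Good K Bad A) {v : List Bool}
      (_ : ∀ u m, Adm v u m → ¬ Viol A v u m) {u : List Bool} {m : ℕ} (_ : Adm v u m)
      (_ : act v (rd m)), Ok K A (kd v) (inst v u m))
    {K : ℕ} {A : Oracle} (hG : Good K Bad A) : Pool.Agent.H543R3.PC.HasDNP A := by
  have hNP : ∀ b, IsNP A (KK K A b) := by
    intro b
    refine ⟨VV K A 2 b false, Polynomial.X, U3 K A 2 b false, fun z => ?_⟩
    rw [Polynomial.eval_X]
    rfl
  refine ⟨KK K A false, KK K A true, ⟨hNP false, hNP true, ?_⟩, ?_⟩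
  · rintro z ⟨⟨w, _, hw⟩, ⟨w', _, hw'⟩⟩
    rw [VV_true] at hw hw'
    apply U5g hG hw.1
    right; right; left
    exact ⟨hw.1.1, ⟨w, hw.2⟩, ⟨w', hw'.2⟩⟩
  · rintro L₀ L₁ ⟨⟨V₀, p₀, hV₀, hL₀⟩, ⟨V₁, p₁, hV₁, hL₁⟩, hdis⟩
    obtain ⟨v, hκ, hv⟩ := U4 A p₀ p₁ hV₀ hV₁ 2
    have hviol : ∀ u m, Adm v u m → ¬ Viol A v u m := by
      intro u m hA h
      obtain ⟨h0, h1⟩ := hv u m hA
      unfold Viol at h
      rw [hκ] at h
      have h2 : Ex A v false u m ∧ Ex A v true u m := by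
        rcases h with h | h | h | h | h | h | h
        · exact absurd h.1 (by norm_num)
        · exact absurd h.1 (by norm_num)
        · exact h.2
        · exact absurd h.1 (by norm_num)
        · exact absurd h.1 (by norm_num)
        · exact absurd h.1 (by norm_num)
        · exact absurd h.1 (by norm_num)
      obtain ⟨⟨w, hw⟩, ⟨w', hw'⟩⟩ := h2
      exact hdis u ⟨(hL₀ u).2 ⟨w, (h0 w).1 hw⟩, (hL₁ u).2 ⟨w', (h1 w').1 hw'⟩⟩
    obtain ⟨p, hp⟩ := U5a v
    have hok : ∀ u, Ok K A 2 (inst v u (p.eval u.length)) := by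
      intro u
      have := U5h hG hviol (hp u).1 (hp u).2
      rwa [hκ] at this
    refine ⟨fun u => inst v u (p.eval u.length), U5b A v p, ?_, ?_⟩
    · intro u hu
      obtain ⟨w, hw⟩ := (hL₀ u).1 hu
      have hAc := ((hv u _ (hp u).1).1 w).2 hw
      refine ⟨w, ?_, ?_⟩
      · have h1 := U5f (inst v u (p.eval u.length))
        rw [U5e] at h1
        exact hAc.1.trans h1
      · rw [VV_true, U5c, U5d, U5e]
        exact ⟨hok u, hAc⟩
    · intro u hu
      obtain ⟨w, hw⟩ := (hL₁ u).1 hu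
      have hAc := ((hv u _ (hp u).1).2 w).2 hw
      refine ⟨w, ?_, ?_⟩
      · have h1 := U5f (inst v u (p.eval u.length))
        rw [U5e] at h1
        exact hAc.1.trans h1
      · rw [VV_true, U5c, U5d, U5e]
        exact ⟨hok u, hAc⟩

end KDNP

/-- The result, from the statements of U3 and U4. -/
theorem has_dnp_of (U3 : ∀ (K : ℕ) (A : Oracle) (κ : ℕ) (b dflt : Bool), IsFP A (VV K A κ b dflt))
    (U4 : ∀ (A : Oracle) {V₀ V₁ : List Bool → List Bool} (p₀ p₁ : Polynomial ℕ)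
      (_ : IsFP A V₀) (_ : IsFP A V₁) (κ : ℕ), ∃ v, kd v = κ ∧ ∀ u m, Adm v u m →
      (∀ w, Ac A v false u m w ↔ w.length ≤ p₀.eval u.length ∧ V₀ (pairBits u w) = [true]) ∧
      (∀ w, Ac A v true u m w ↔ w.length ≤ p₁.eval u.length ∧ V₁ (pairBits u w) = [true]))
    {K : ℕ} {A : Oracle} (hG : Good K Bad A) : Pool.Agent.H543R3.PC.HasDNP A :=
  KDNP.of U3 U4 exists_budget isFP_inst zv_inst zu_inst zm_inst zm_le not_viol ok_inst hG

theorem has_dnp {K : ℕ} {A : Oracle} (hG : Good K Bad A) : Pool.Agent.H543R3.PC.HasDNP A :=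
  has_dnp_of isFP_VV (fun A {_ _} p₀ p₁ h₀ h₁ κ => code_pair A p₀ p₁ h₀ h₁ κ) hG

end Pool.Agent.H943R5.GC
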