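import Pool.Agent.H943R5.GC.U4
import Pool.Agent.H943R5.GC.U5

/-!
# Project GC: `NP ∩ coNP` has a complete set
-/

namespace Pool.Agent.H943R5.GC.KNPC

open Pool.Agent.NPC Pool.Agent.H628R3.RO Pool.Agent.H673R2.OneTT Pool.Agent.H943R5.GC

theorem VV_iff (K : ℕ) (A : Oracle) (κ : ℕ) (b dflt : Bool) (z w : List Bool) :
    VV K A κ b dflt (pairBits z w) = [true] ↔
      (Ok K A κ z ∧ Ac A (zv z) b (zu z) (zm z) w) ∨ (¬ Ok K A κ z ∧ dflt = true ∧ w = []) := by
  unfold VV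
  rw [unpair_pairBits]
  dsimp only
  by_cases h : Ok K A κ z
  · rw [if_pos h]
    by_cases h2 : Ac A (zv z) b (zu z) (zm z) w
    · rw [if_pos h2]
      simp [h, h2]
    · rw [if_neg h2]
      simp [h, h2]
  · rw [if_neg h]
    by_cases h2 : dflt = true ∧ w = []
    · rw [if_pos h2]
      simp [h, h2]
    · rw [if_neg h2]
      simp [h, h2]

theorem exists_VV_iff (hzm : ∀ z : List Bool, zm z ≤ z.length)
    (K : ℕ) (A : Oracle) (κ : ℕ) (b dflt : Bool) (z : List Bool) :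
    (∃ w : List Bool, w.length ≤ (Polynomial.X : Polynomial ℕ).eval z.length ∧
      VV K A κ b dflt (pairBits z w) = [true]) ↔
      (Ok K A κ z ∧ Ex A (zv z) b (zu z) (zm z)) ∨ (¬ Ok K A κ z ∧ dflt = true) := by
  constructor
  · rintro ⟨w, -, hw⟩
    rcases (VV_iff K A κ b dflt z w).1 hw with ⟨h1, h2⟩ | ⟨h1, h2, -⟩
    · exact Or.inl ⟨h1, w, h2⟩
    · exact Or.inr ⟨h1, h2⟩
  · rintro (⟨h1, w, h2⟩ | ⟨h1, h2⟩)
    · refine ⟨w, ?_, (VV_iff K A κ b dflt z w).2 (Or.inl ⟨h1, h2⟩)⟩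
      rw [Polynomial.eval_X]
      exact le_trans h2.1 (hzm z)
    · refine ⟨[], ?_, (VV_iff K A κ b dflt z []).2 (Or.inr ⟨h1, h2, rfl⟩)⟩
      simp

theorem viol_one {A : Oracle} {v u : List Bool} {m : ℕ} (hk : kd v = 1) :
    Viol A v u m ↔ (Ex A v false u m ↔ Ex A v true u m) := by
  unfold Viol
  simp [hk]

end Pool.Agent.H943R5.GC.KNPC

namespace Pool.Agent.H943R5.GC

open Pool.Agent.NPC Pool.Agent.H628R3.RO Pool.Agent.H673R2.OneTT

theorem has_npc_of (U3 : ∀ (K : ℕ) (A : Oracle) (κ : ℕ) (b dflt : Bool), IsFP A (VV K A κ b dflt))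
    {K : ℕ} {A : Oracle} (hG : Good K Bad A) : Pool.Agent.H543R3.PC.HasNPC A := by
  refine ⟨{z | Ok K A 1 z ∧ Ex A (zv z) false (zu z) (zm z)}, ?_, ?_, ?_⟩
  · refine ⟨VV K A 1 false false, Polynomial.X, U3 K A 1 false false, fun z => ?_⟩
    rw [KNPC.exists_VV_iff zm_le]
    simp
  · refine ⟨VV K A 1 true true, Polynomial.X, U3 K A 1 true true, fun z => ?_⟩
    rw [KNPC.exists_VV_iff zm_le]
    simp only [Set.mem_compl_iff, Set.mem_setOf_eq, and_true]
    by_cases hok : Ok K A 1 z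
    · have h := not_viol hG hok
      rw [KNPC.viol_one hok.1] at h
      simp only [hok, true_and, not_true_eq_false, or_false]
      tauto
    · simp [hok]
  · rintro L ⟨V₀, p₀, hV₀, hL₀⟩ ⟨V₁, p₁, hV₁, hL₁⟩
    obtain ⟨v, hk, hv⟩ := code_pair A p₀ p₁ hV₀ hV₁ 1
    have e0 : ∀ u m, Adm v u m → (Ex A v false u m ↔ u ∈ L) := by
      intro u m hm
      rw [hL₀ u]
      exact exists_congr fun w => (hv u m hm).1 w
    have e1 : ∀ u m, Adm v u m → (Ex A v true u m ↔ u ∉ L) := by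
      intro u m hm
      have h := hL₁ u
      rw [Set.mem_compl_iff] at h
      rw [h]
      exact exists_congr fun w => (hv u m hm).2 w
    have hviol : ∀ u m, Adm v u m → ¬ Viol A v u m := by
      intro u m hm
      rw [KNPC.viol_one hk, e0 u m hm, e1 u m hm]
      tauto
    obtain ⟨p, hp⟩ := exists_budget v
    refine ⟨fun u => inst v u (p.eval u.length), isFP_inst A v p, fun u => ?_⟩
    obtain ⟨h1, h2⟩ := hp u
    have hok : Ok K A 1 (inst v u (p.eval u.length)) := by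
      have h := ok_inst hG hviol h1 h2
      rwa [hk] at h
    simp only [Set.mem_setOf_eq, hok, true_and, zv_inst, zu_inst, zm_inst]
    exact (e0 u _ h1).symm

end Pool.Agent.H943R5.GC
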