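import Pool.Agent.H943R5.GC.U3
import Pool.Agent.H943R5.GC.U4
import Pool.Agent.H943R5.GC.U5
import Pool.Agent.H943R5.GC.U6

/-!
# Project GC, task KPS: for good oracles, some `NP`-complete set has a `p`-optimal proof system
-/

namespace Pool.Agent.H943R5.GC

open Pool.Agent.NPC Pool.Agent.H628R3.RO Pool.Agent.H673R2.OneTT

namespace KPS

/-- A `p`-optimal proof system, from the fact that the universal proof system is in `FP`. -/
theorem has_poptS_of {K : ℕ} {A : Oracle} (hPP : ∀ (d : List Bool) {P₀ : List Bool → List Bool},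
    IsFP A P₀ → IsFP A (PP K A 6 d P₀)) (hG : Good K Bad A) :
    Pool.Agent.H543R3.PC.HasPOptS A := by
  obtain ⟨P₀, hP₀, hr₀⟩ := exists_psS A
  have hd : P₀ [] ∈ KA A := hr₀ ▸ Set.mem_range_self []
  have hviol6 : ∀ y, Ok K A 6 y → Out A (zv y) (zu y) (zm y) ∈ KA A := by
    intro y hy
    by_contra hne
    exact not_viol hG hy (Or.inr (Or.inr (Or.inr (Or.inr (Or.inr (Or.inr ⟨hy.1, hne⟩))))))
  refine ⟨KA A, isNP_KA A, hard_KA A, PP K A 6 (P₀ []) P₀,
    ⟨hPP (P₀ []) hP₀, ?_⟩, fun Q hQ => ?_⟩
  · apply Set.Subset.antisymm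
    · rintro _ ⟨y, rfl⟩
      unfold PP
      split_ifs with h1 h2
      · exact hviol6 _ h2
      · exact hd
      · exact hr₀ ▸ Set.mem_range_self _
    · intro x hx
      rw [← hr₀] at hx
      obtain ⟨t, rfl⟩ := hx
      refine ⟨false :: t, ?_⟩
      unfold PP
      simp
  · obtain ⟨v, hv0, hv⟩ := code_fn A hQ.1 6
    obtain ⟨q, hq⟩ := exists_budget v
    have hnv : ∀ u m, Adm v u m → ¬ Viol A v u m := by
      intro u m hm hviol
      unfold Viol at hviol
      rw [hv0] at hviol
      rcases hviol with h | h | h | h | h | h | h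
      rotate_left 6
      · refine h.2 ?_
        rw [hv u m hm, ← hQ.2]
        exact Set.mem_range_self u
      all_goals exact absurd h.1 (by decide)
    refine ⟨fun u => true :: inst v u (q.eval u.length),
      IsFP.comp (G := fun y => true :: y) (IsFP.of_poly (Poly.cons (NPC.Poly.const true) Poly.id))
        (isFP_inst A v q), fun u => ?_⟩
    have hok := ok_inst hG hnv (hq u).1 (hq u).2
    rw [hv0] at hok
    unfold PP
    simp only [List.head?_cons, List.tail_cons, if_true]
    rw [if_pos hok, zv_inst, zu_inst, zm_inst]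
    exact hv u _ (hq u).1

end KPS

theorem has_poptS {K : ℕ} {A : Oracle} (hG : Good K Bad A) :
    Pool.Agent.H543R3.PC.HasPOptS A :=
  KPS.has_poptS_of (fun d _ h => isFP_PP K A 6 d h) hG

end Pool.Agent.H943R5.GC
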