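import Pool.Agent.H943R5.GC.Base

/-!
# Project GC, task U3: the universal verifier and proof system are computable in polynomial time
-/

namespace Pool.Agent.H943R5.GC

open Pool.Agent.NPC Pool.Agent.H628R3.RO Pool.Agent.H673R2.OneTT

namespace U3

theorem uAF (A : Oracle) : ∃ F : List Bool → List Bool, IsFP A F ∧ ∀ x, uA.out A x = some (F x) := by
  choose F hF using uA_total A
  exact ⟨F, ⟨uA, hF⟩, hF⟩

theorem p1 {α : Type} [TEnc α] {x : α → List Bool} (hx : Poly x) :
    Poly (fun a => (unpair (x a)).1) := Poly.fst (Poly.comp poly_unpair hx)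

theorem p2 {α : Type} [TEnc α] {x : α → List Bool} (hx : Poly x) :
    Poly (fun a => (unpair (x a)).2) := Poly.snd (Poly.comp poly_unpair hx)

theorem p_zv {α : Type} [TEnc α] {z : α → List Bool} (hz : Poly z) : Poly (fun a => zv (z a)) :=
  p1 hz

theorem p_zu {α : Type} [TEnc α] {z : α → List Bool} (hz : Poly z) : Poly (fun a => zu (z a)) :=
  p1 (p2 hz)

theorem u_zm {α : Type} [TEnc α] {z : α → List Bool} (hz : Poly z) : UPoly (fun a => zm (z a)) :=
  UPoly.length (p2 (p2 hz))

theorem p_cd {α : Type} [TEnc α] (b : Bool) {v : α → List Bool} (hv : Poly v) :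
    Poly (fun a => cd b (v a)) := by
  cases b
  · exact p1 (p2 (p2 hv))
  · exact p2 (p2 (p2 hv))

/-- the query to the universal algorithm -/
def qu (b : Bool) (z w : List Bool) : List Bool :=
  pairBits (pairBits (cd b (zv z)) (pairBits (zu z) (List.replicate (zm z) true))) w

theorem p_qu {α : Type} [TEnc α] (b : Bool) {z w : α → List Bool} (hz : Poly z) (hw : Poly w) :
    Poly (fun a => qu b (z a) (w a)) :=
  H622R2.poly_pairBits (H622R2.poly_pairBits (p_cd b (p_zv hz))
    (H622R2.poly_pairBits (p_zu hz) (p_replicate (u_zm hz) true))) hw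

open Classical in
/-- the verifier, from the guard -/
theorem VV_of (K : ℕ) (A : Oracle) (κ : ℕ) (b dflt : Bool)
    (h : IsFP A (fun z => if Ok K A κ z then [true] else [])) : IsFP A (VV K A κ b dflt) := by
  obtain ⟨F, hF, hFo⟩ := uAF A
  have h1 : IsFP A (fun y => if Ok K A κ (unpair y).1 then [true] else []) :=
    IsFP.comp h (IsFP.of_poly (p1 Poly.id))
  have h2 : IsFP A (fun y => F (qu b (unpair y).1 (unpair y).2)) :=
    IsFP.comp hF (IsFP.of_poly (p_qu b (p1 Poly.id) (p2 Poly.id)))
  have h3 := IsFP.seq (φ := fun p => p.1)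
    (ψ := fun p => if p.2.1 = [true] then
        (if (unpair p.1).2.length ≤ zm (unpair p.1).1 then
          (if p.2.2 = [true] then [true] else []) else [])
      else (if dflt = true then (if (unpair p.1).2 = [] then [true] else []) else []))
    h1 h2 (Poly.fst Poly.id) ?_
  · obtain ⟨M, hM⟩ := h3
    refine ⟨M, fun y => ?_⟩
    rw [hM y]
    congr 1
    dsimp only
    unfold VV
    by_cases hok : Ok K A κ (unpair y).1
    · rw [if_pos hok, if_pos hok, if_pos rfl]
      unfold Ac
      rw [hFo]
      by_cases hl : (unpair y).2.length ≤ zm (unpair y).1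
      · rw [if_pos hl]
        by_cases hf : F (qu b (unpair y).1 (unpair y).2) = [true]
        · rw [if_pos hf, if_pos ⟨hl, congrArg some hf⟩]
        · rw [if_neg hf, if_neg]
          rintro ⟨_, h4⟩
          exact hf (Option.some.inj h4)
      · rw [if_neg hl, if_neg (fun h4 => hl h4.1)]
    · rw [if_neg hok, if_neg hok, if_neg (by simp)]
      by_cases hd : dflt = true
      · rw [if_pos hd]
        by_cases hw : (unpair y).2 = []
        · rw [if_pos hw, if_pos ⟨hd, hw⟩]
        · rw [if_neg hw, if_neg (fun h4 => hw h4.2)]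
      · rw [if_neg hd, if_neg (fun h4 => hd h4.1)]
  · have e1 : Poly (fun p : List Bool × List Bool × List Bool => p.1) := Poly.fst Poly.id
    have e2 : Poly (fun p : List Bool × List Bool × List Bool => p.2.1) :=
      Poly.fst (Poly.snd Poly.id)
    have e3 : Poly (fun p : List Bool × List Bool × List Bool => p.2.2) :=
      Poly.snd (Poly.snd Poly.id)
    refine Poly.ite (Poly.decide_eq e2 (NPC.Poly.const _)) ?_ ?_
    · refine Poly.ite (Poly.decide_le (Poly.length (p2 e1)) (u_zm (p1 e1)).toPoly) ?_
        (NPC.Poly.const _)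
      exact Poly.ite (Poly.decide_eq e3 (NPC.Poly.const _)) (NPC.Poly.const _) (NPC.Poly.const _)
    · cases dflt
      · simpa using NPC.Poly.const (α := List Bool × List Bool × List Bool) ([] : List Bool)
      · simp only [if_true]
        exact Poly.ite (Poly.decide_eq (p2 e1) (NPC.Poly.const _)) (NPC.Poly.const _)
          (NPC.Poly.const _)

open Classical in
/-- the proof system, from the guard -/
theorem PP_of (K : ℕ) (A : Oracle) (κ : ℕ) (d : List Bool) {P₀ : List Bool → List Bool}
    (hP : IsFP A P₀) (h : IsFP A (fun z => if Ok K A κ z then [true] else [])) :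
    IsFP A (PP K A κ d P₀) := by
  obtain ⟨F, hF, hFo⟩ := uAF A
  have ht : Poly (fun y : List Bool => y.tail) := Poly.tail Poly.id
  have h1 : IsFP A (fun y => if Ok K A κ y.tail then [true] else []) :=
    IsFP.comp h (IsFP.of_poly ht)
  have h2 : IsFP A (fun y => F (qu false y.tail [])) :=
    IsFP.comp hF (IsFP.of_poly (p_qu false ht (NPC.Poly.const _)))
  have h3 : IsFP A (fun y => if Ok K A κ y.tail then Out A (zv y.tail) (zu y.tail) (zm y.tail)
      else d) := by
    have h4 := IsFP.seq (φ := fun p => p.1)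
      (ψ := fun p => if p.2.1 = [true] then p.2.2 else d) h1 h2 (Poly.fst Poly.id)
      (Poly.ite (Poly.decide_eq (Poly.fst (Poly.snd Poly.id)) (NPC.Poly.const _))
        (Poly.snd (Poly.snd Poly.id)) (NPC.Poly.const _))
    obtain ⟨M, hM⟩ := h4
    refine ⟨M, fun y => ?_⟩
    rw [hM y]
    congr 1
    dsimp only
    by_cases hok : Ok K A κ y.tail
    · rw [if_pos hok, if_pos hok, if_pos rfl]
      unfold Out
      rw [hFo]
      rfl
    · rw [if_neg hok, if_neg hok, if_neg (by simp)]
  have h5 : IsFP A (fun y => P₀ y.tail) := IsFP.comp hP (IsFP.of_poly ht)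
  have h6 := IsFP.seq (φ := fun p => p.1)
    (ψ := fun p => if p.1.head? = some true then p.2.1 else p.2.2) h3 h5 (Poly.fst Poly.id)
    (Poly.ite (Poly.decide_eq (Poly.head? (Poly.fst Poly.id)) (NPC.Poly.const _))
      (Poly.fst (Poly.snd Poly.id)) (Poly.snd (Poly.snd Poly.id)))
  obtain ⟨M, hM⟩ := h6
  refine ⟨M, fun y => ?_⟩
  rw [hM y]
  rfl

end U3

end Pool.Agent.H943R5.GC
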