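import Pool.Agent.H943R5.GC.U2B
import Pool.Agent.H943R5.GC.U3Aux

/-!
# Project GC, task U3
-/

namespace Pool.Agent.H943R5.GC

open Pool.Agent.NPC Pool.Agent.H628R3.RO Pool.Agent.H673R2.OneTT

theorem isFP_VV (K : ℕ) (A : Oracle) (κ : ℕ) (b dflt : Bool) : IsFP A (VV K A κ b dflt) :=
  U3.VV_of K A κ b dflt (isFP_ok K A κ)

theorem isFP_PP (K : ℕ) (A : Oracle) (κ : ℕ) (d : List Bool) {P₀ : List Bool → List Bool}
    (h : IsFP A P₀) : IsFP A (PP K A κ d P₀) :=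
  U3.PP_of K A κ d h (isFP_ok K A κ)

end Pool.Agent.H943R5.GC
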