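import Pool.Agent.H943R5.GC.U5
import Pool.Agent.H943R5.GC.U3
import Pool.Agent.H943R5.GC.U4
import Pool.Agent.H943R5.GC.U6

/-!
# Project GC: a p-optimal proof system for a coNP-complete set
-/

namespace Pool.Agent.H943R5.GC

open Pool.Agent.NPC Pool.Agent.H628R3.RO Pool.Agent.H673R2.OneTT

namespace KPT

theorem isCoNP_compl (A : Oracle) : IsCoNP A (KA A)ᶜ := by
  unfold IsCoNP
  rw [compl_compl]
  exact isNP_KA A

theorem hard_compl (A : Oracle) : CoNPHardRel A (KA A)ᶜ := by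
  intro L' hL'
  obtain ⟨F, hF, h⟩ := hard_KA A L'ᶜ hL'
  refine ⟨F, hF, fun x => ?_⟩
  have h1 := h x
  simp only [Set.mem_compl_iff] at h1 ⊢
  tauto

/-- The codes of proof systems for the complement of `KA A` keep their promise. -/
theorem no_viol {A : Oracle} {Q : List Bool → List Bool} (hQ : Set.range Q = (KA A)ᶜ)
    {v : List Bool} (hk : kd v = 5) (hv : ∀ u m, Adm v u m → Out A v u m = Q u)
    (u : List Bool) (m : ℕ) (h : Adm v u m) : ¬ Viol A v u m := by
  have hn : Q u ∉ KA A := by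
    have h1 : Q u ∈ (KA A)ᶜ := by
      rw [← hQ]
      exact Set.mem_range_self u
    exact h1
  rintro (⟨h1, -⟩ | ⟨h1, -⟩ | ⟨h1, -⟩ | ⟨h1, -⟩ | ⟨h1, -⟩ | ⟨-, h1⟩ | ⟨h1, -⟩)
  · omega
  · omega
  · omega
  · omega
  · omega
  · rw [hv u m h] at h1
    exact hn h1
  · omega

/-- `has_poptT` from the statements of the tasks U3, U4 and U6. -/
theorem main {K : ℕ} {A : Oracle} (hG : Good K Bad A)
    (hPP : ∀ (κ : ℕ) (d : List Bool) (P₀ : List Bool → List Bool), IsFP A P₀ →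
      IsFP A (PP K A κ d P₀))
    (hcode : ∀ Q : List Bool → List Bool, IsFP A Q → ∀ κ : ℕ,
      ∃ v, kd v = κ ∧ ∀ u m, Adm v u m → Out A v u m = Q u)
    (hps : ∃ P₀, IsFP A P₀ ∧ Set.range P₀ = (KA A)ᶜ) : Pool.Agent.H543R3.PC.HasPOptT A := by
  obtain ⟨P₀, hP₀, hr₀⟩ := hps
  refine ⟨(KA A)ᶜ, isCoNP_compl A, hard_compl A, PP K A 5 (P₀ []) P₀, ⟨hPP _ _ _ hP₀, ?_⟩, ?_⟩
  · apply Set.Subset.antisymm
    · rintro x ⟨y, rfl⟩
      unfold PP
      split_ifs with h1 h2
      · intro hx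
        exact not_viol hG h2 (Or.inr (Or.inr (Or.inr (Or.inr (Or.inr (Or.inl ⟨h2.1, hx⟩))))))
      · rw [← hr₀]
        exact Set.mem_range_self _
      · rw [← hr₀]
        exact Set.mem_range_self _
    · intro x hx
      rw [← hr₀] at hx
      obtain ⟨y, rfl⟩ := hx
      refine ⟨false :: y, ?_⟩
      unfold PP
      rw [if_neg (by simp)]
      rfl
  · rintro Q ⟨hQ, hrQ⟩
    obtain ⟨v, hk, hv⟩ := hcode Q hQ 5
    obtain ⟨p, hp⟩ := exists_budget v
    refine ⟨fun u => true :: inst v u (p.eval u.length), ?_, fun u => ?_⟩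
    · exact IsFP.comp (G := fun z => true :: z)
        (IsFP.of_poly (Poly.cons (NPC.Poly.const true) Poly.id)) (isFP_inst A v p)
    · have hok := ok_inst hG (no_viol hrQ hk hv) (hp u).1 (hp u).2
      rw [hk] at hok
      unfold PP
      rw [if_pos (by simp), List.tail_cons, if_pos hok, zv_inst, zu_inst, zm_inst]
      exact hv u _ (hp u).1

end KPT

theorem has_poptT {K : ℕ} {A : Oracle} (hG : Good K Bad A) :
    Pool.Agent.H543R3.PC.HasPOptT A :=
  KPT.main hG (fun κ d _ h => isFP_PP K A κ d h) (fun _ h κ => code_fn A h κ) (exists_psT A)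

end Pool.Agent.H943R5.GC
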