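import Pool.Agent.H943R5.GC.U4
import Pool.Agent.H943R5.GC.U5

/-!
# Project GC: complete total search problem
-/

namespace Pool.Agent.H943R5.GC

open Pool.Agent.NPC Pool.Agent.H628R3.RO Pool.Agent.H673R2.OneTT

namespace KTF

theorem zv_inst' (v u : List Bool) (m : ℕ) : zv (inst v u m) = v := by
  unfold zv inst
  rw [unpair_pairBits]

theorem zu_inst' (v u : List Bool) (m : ℕ) : zu (inst v u m) = u := by
  unfold zu inst
  rw [unpair_pairBits, unpair_pairBits]

theorem zm_inst' (v u : List Bool) (m : ℕ) : zm (inst v u m) = m := by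
  unfold zm inst
  rw [unpair_pairBits, unpair_pairBits, List.length_replicate]

/-- A complete total search problem, from the facts about the universal verifier. -/
theorem has_tfnp_of {K : ℕ} {A : Oracle}
    (hVV : IsFP A (VV K A 4 false true))
    (hcode : ∀ {V₀ V₁ : List Bool → List Bool} (p₀ p₁ : Polynomial ℕ),
      IsFP A V₀ → IsFP A V₁ → ∃ v, kd v = 4 ∧ ∀ u m, Adm v u m →
        (∀ w, Ac A v false u m w ↔ w.length ≤ p₀.eval u.length ∧ V₀ (pairBits u w) = [true]) ∧
        (∀ w, Ac A v true u m w ↔ w.length ≤ p₁.eval u.length ∧ V₁ (pairBits u w) = [true]))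
    (hbud : ∀ v : List Bool, ∃ p : Polynomial ℕ, ∀ u : List Bool,
      Adm v u (p.eval u.length) ∧ act v (rd (p.eval u.length)))
    (hinst : ∀ (v : List Bool) (p : Polynomial ℕ),
      IsFP A (fun u => inst v u (p.eval u.length)))
    (hzm : ∀ z : List Bool, zm z ≤ z.length)
    (hnv : ∀ z : List Bool, Ok K A 4 z → ¬ Viol A (zv z) (zu z) (zm z))
    (hok : ∀ v : List Bool, (∀ u m, Adm v u m → ¬ Viol A v u m) → ∀ (u : List Bool) (m : ℕ),
      Adm v u m → act v (rd m) → Ok K A (kd v) (inst v u m)) :
    Pool.Agent.H543R3.PC.HasTFNP A := by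
  classical
  refine ⟨fun z w => w.length ≤ (Polynomial.X : Polynomial ℕ).eval z.length ∧
    VV K A 4 false true (pairBits z w) = [true], ⟨⟨_, _, hVV, fun _ _ => Iff.rfl⟩, ?_⟩, ?_⟩
  · intro z
    by_cases hz : Ok K A 4 z
    · have h1 := hnv z hz
      have h2 : Ex A (zv z) false (zu z) (zm z) := by
        by_contra h3
        exact h1 (Or.inr (Or.inr (Or.inr (Or.inr (Or.inl ⟨hz.1, h3⟩)))))
      obtain ⟨w, hw⟩ := h2
      refine ⟨w, ?_, ?_⟩
      · rw [Polynomial.eval_X]
        exact hw.1.trans (hzm z)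
      · unfold VV
        rw [unpair_pairBits]
        simp only
        rw [if_pos hz, if_pos hw]
    · refine ⟨[], by simp, ?_⟩
      unfold VV
      rw [unpair_pairBits]
      simp only
      rw [if_neg hz]
      simp
  · rintro S ⟨⟨V, p, hV, hS⟩, htot⟩
    obtain ⟨v, hkd, hv⟩ := hcode p p hV hV
    obtain ⟨q, hq⟩ := hbud v
    have hviol : ∀ u m, Adm v u m → ¬ Viol A v u m := by
      intro u m hm hvi
      obtain ⟨w, hw⟩ := htot u
      have hac : Ac A v false u m w := ((hv u m hm).1 w).mpr ((hS u w).mp hw)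
      rcases hvi with h | h | h | h | h | h | h
      · omega
      · omega
      · omega
      · omega
      · exact h.2 ⟨w, hac⟩
      · omega
      · omega
    refine ⟨fun u => inst v u (q.eval u.length), fun t => (unpair t).2, hinst v q,
      IsFP.of_poly poly_unpair.snd, ?_⟩
    rintro x y ⟨_, hy⟩
    simp only [unpair_pairBits]
    have hok' := hok v hviol x _ (hq x).1 (hq x).2
    rw [hkd] at hok'
    unfold VV at hy
    rw [unpair_pairBits] at hy
    simp only at hy
    rw [if_pos hok'] at hy
    rw [zv_inst', zu_inst', zm_inst'] at hy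
    have hac : Ac A v false x (q.eval x.length) y := by
      by_contra h
      rw [if_neg h] at hy
      exact absurd hy (by simp)
    exact (hS x y).mpr (((hv x _ (hq x).1).1 y).mp hac)

/-- A complete total search problem, from the fact that the universal verifier is in `FP^A`. -/
theorem main {K : ℕ} {A : Oracle} (hG : Good K Bad A)
    (hVV : IsFP A (VV K A 4 false true)) : Pool.Agent.H543R3.PC.HasTFNP A :=
  has_tfnp_of hVV (fun p₀ p₁ h₀ h₁ => code_pair A p₀ p₁ h₀ h₁ 4) exists_budget (isFP_inst A)
    zm_le (fun _ hz => not_viol hG hz) (fun _ hv _ _ h1 h2 => ok_inst hG hv h1 h2)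

end KTF

end Pool.Agent.H943R5.GC
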