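import Pool.Agent.H943R5.GC.U3
import Pool.Agent.H943R5.GC.U4
import Pool.Agent.H943R5.GC.U5

/-!
# Project GC, task KUP: for good oracles, `UP` has a complete set
-/

namespace Pool.Agent.H943R5.GC

open Pool.Agent.NPC Pool.Agent.H628R3.RO Pool.Agent.H673R2.OneTT

namespace KUP

theorem VV_pair_iff {K : ℕ} {A : Oracle} {z w : List Bool} :
    VV K A 0 false false (pairBits z w) = [true] ↔
      Ok K A 0 z ∧ Ac A (zv z) false (zu z) (zm z) w := by
  unfold VV
  rw [unpair_pairBits]
  by_cases h : Ok K A 0 z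
  · by_cases h' : Ac A (zv z) false (zu z) (zm z) w
    · simp [h, h']
    · simp [h, h']
  · simp [h]

/-- A complete set for `UP`, from the fact that the universal verifier is in `FP`. -/
theorem has_up_of {K : ℕ} {A : Oracle} (hVV : IsFP A (VV K A 0 false false))
    (hG : Good K Bad A) : Pool.Agent.H543R3.PC.HasUP A := by
  refine ⟨{z | ∃ w : List Bool, w.length ≤ z.length ∧
    VV K A 0 false false (pairBits z w) = [true]}, ⟨VV K A 0 false false, Polynomial.X,
      hVV, fun x => ?_, fun x w w' _ _ hw hw' => ?_⟩, fun L hL => ?_⟩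
  · simp only [Set.mem_ofPred_eq, Polynomial.eval_X]
  · rw [VV_pair_iff] at hw hw'
    by_contra hne
    exact not_viol hG hw.1 (Or.inl ⟨hw.1.1, w, w', hne, hw.2, hw'.2⟩)
  · obtain ⟨V, p, hV, hLV, huniq⟩ := hL
    obtain ⟨v, hv0, hv⟩ := code_pair A p p hV hV 0
    obtain ⟨q, hq⟩ := exists_budget v
    have hnv : ∀ u m, Adm v u m → ¬ Viol A v u m := by
      intro u m hm hviol
      unfold Viol at hviol
      rw [hv0] at hviol
      rcases hviol with h | h | h | h | h | h | h
      · obtain ⟨-, w, w', hne, hw, hw'⟩ := h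
        have h1 := ((hv u m hm).1 w).1 hw
        have h2 := ((hv u m hm).1 w').1 hw'
        exact hne (huniq u w w' h1.1 h2.1 h1.2 h2.2)
      all_goals exact absurd h.1 (by decide)
    refine ⟨fun u => inst v u (q.eval u.length), isFP_inst A v q, fun u => ?_⟩
    have hok := ok_inst hG hnv (hq u).1 (hq u).2
    rw [hv0] at hok
    rw [hLV]
    simp only [Set.mem_ofPred_eq]
    constructor
    · rintro ⟨w, hw1, hw2⟩
      have hac := ((hv u _ (hq u).1).1 w).2 ⟨hw1, hw2⟩
      refine ⟨w, ?_, ?_⟩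
      · have h1 := zm_le (inst v u (q.eval u.length))
        rw [zm_inst] at h1
        exact hac.1.trans h1
      · rw [VV_pair_iff, zv_inst, zu_inst, zm_inst]
        exact ⟨hok, hac⟩
    · rintro ⟨w, -, hw⟩
      rw [VV_pair_iff, zv_inst, zu_inst, zm_inst] at hw
      exact ⟨w, ((hv u _ (hq u).1).1 w).1 hw.2⟩

end KUP

theorem has_up {K : ℕ} {A : Oracle} (hG : Good K Bad A) : Pool.Agent.H543R3.PC.HasUP A :=
  KUP.has_up_of (isFP_VV K A 0 false false) hG

end Pool.Agent.H943R5.GC
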