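import Pool.Agent.H943R5.GC.Defs
import Pool.Agent.H673R3.UC.Z1
import Pool.Agent.H628R3.RO.F1
import Pool.Agent.H628R3.RO.F2
import Pool.Agent.H628R3.RO.F3
import Pool.Agent.H628R3.RO.F4
import Pool.Agent.H628R3.RO.F5
import Pool.Agent.H628R3.RO.F6

/-!
# Project GC, task N7: random oracles have none of the eight properties
-/

namespace Pool.Agent.H943R5.GC.N7

open Pool.Agent.NPC Pool.Agent.H628R3.RO MeasureTheory

theorem isNP_of_isUP {A : Oracle} {L : Set (List Bool)} (h : IsUP A L) : IsNP A L := by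
  obtain ⟨V, p, hV, hL, -⟩ := h
  exact ⟨V, p, hV, hL⟩

end Pool.Agent.H943R5.GC.N7

namespace Pool.Agent.H943R5.GC

open Pool.Agent.NPC Pool.Agent.H628R3.RO MeasureTheory

theorem hasOpt_of_hasPOptT {A : Oracle} (h : Pool.Agent.H543R3.PC.HasPOptT A) :
    Pool.Agent.H543R3.PC.HasOpt A := by
  obtain ⟨L, h1, h2, P, h3, h4⟩ := h
  refine ⟨L, h1, h2, P, h3, fun Q hQ => ?_⟩
  obtain ⟨g, hg, hgw⟩ := h4 Q hQ
  obtain ⟨b, hb⟩ := hg.length_le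
  exact ⟨b, fun w => ⟨g w, hgw w, hb w⟩⟩

theorem ae_not_npc : ∀ᵐ A ∂randomOracle, ¬ Pool.Agent.H543R3.PC.HasNPC A := by
  filter_upwards [Pool.Agent.H673R3.UC.main_N] with A hA
  rintro ⟨K, h1, h2, h3⟩
  obtain ⟨L, hL, hLc, hr⟩ := hA K h1 h2
  exact hr (h3 L (N7.isNP_of_isUP hL) (N7.isNP_of_isUP hLc))

theorem ae_not_up : ∀ᵐ A ∂randomOracle, ¬ Pool.Agent.H543R3.PC.HasUP A := by
  filter_upwards [up_main] with A hA
  rintro ⟨K, h1, h2⟩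
  obtain ⟨L, hL, hr⟩ := hA K h1
  exact hr (h2 L hL)

theorem ae_not_dnp : ∀ᵐ A ∂randomOracle, ¬ Pool.Agent.H543R3.PC.HasDNP A := by
  filter_upwards [pairN_main] with A hA
  rintro ⟨K₀, K₁, h1, h2⟩
  obtain ⟨L₀, L₁, hL, hr⟩ := hA K₀ K₁ h1
  exact hr (h2 L₀ L₁ hL)

theorem ae_not_dconp : ∀ᵐ A ∂randomOracle, ¬ Pool.Agent.H543R3.PC.HasDCoNP A := by
  filter_upwards [pairC_main] with A hA
  rintro ⟨K₀, K₁, h1, h2⟩
  obtain ⟨L₀, L₁, hL, hr⟩ := hA K₀ K₁ h1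
  exact hr (h2 L₀ L₁ hL)

theorem ae_not_tfnp : ∀ᵐ A ∂randomOracle, ¬ Pool.Agent.H543R3.PC.HasTFNP A := by
  filter_upwards [tfnp_main] with A hA
  rintro ⟨R, h1, h2⟩
  obtain ⟨S, hS, hr⟩ := hA R h1
  exact hr (h2 S hS)

theorem ae_not_opt : ∀ᵐ A ∂randomOracle, ¬ Pool.Agent.H543R3.PC.HasOpt A := by
  filter_upwards [optimal_main] with A hA
  rintro ⟨L, -, h2, P, h3, h4⟩
  obtain ⟨Q, hQ, k, hk⟩ := hA L h2 P h3
  obtain ⟨q, hq⟩ := h4 Q hQ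
  obtain ⟨n0, hn0⟩ := poly_le_two_pow (q ^ k + 1)
  obtain ⟨w, hw, hwv⟩ := hk n0
  obtain ⟨v, hv, hvl⟩ := hq w
  have e1 := hn0 _ hw
  have e2 := hwv v hv
  have e3 : v.length ^ k ≤ q.eval w.length ^ k := Nat.pow_le_pow_left hvl k
  simp only [Polynomial.eval_add, Polynomial.eval_pow, Polynomial.eval_one] at e1
  omega

theorem ae_not_poptT : ∀ᵐ A ∂randomOracle, ¬ Pool.Agent.H543R3.PC.HasPOptT A := by
  filter_upwards [ae_not_opt] with A hA h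
  exact hA (hasOpt_of_hasPOptT h)

theorem ae_not_poptS : ∀ᵐ A ∂randomOracle, ¬ Pool.Agent.H543R3.PC.HasPOptS A := by
  filter_upwards [poptimal_main] with A hA
  rintro ⟨L, -, h2, P, h3⟩
  exact hA L h2 P h3

end Pool.Agent.H943R5.GC
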