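import Pool.Agent.H943R5.GC.FinalA
import Pool.Agent.H943R5.GC.KNPC
import Pool.Agent.H943R5.GC.KUP
import Pool.Agent.H943R5.GC.KDNP
import Pool.Agent.H943R5.GC.KDCO
import Pool.Agent.H943R5.GC.KTF
import Pool.Agent.H943R5.GC.KPT
import Pool.Agent.H943R5.GC.KPS
import Pool.Agent.H943R5.GC.N7

/-!
# Project GC: the gauge theorems, sets of oracles with complete sets
-/

namespace Pool.Agent.H943R5.GC

open Pool.Agent.NPC Pool.Agent.H628R3.RO Pool.Agent.H673R2.OneTT
open Pool.Agent.H620R2 (Gauge.Null)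
open Pool.Agent.H543R3.PC

theorem has_npc {K : ℕ} {A : Oracle} (hG : Good K Bad A) : HasNPC A :=
  has_npc_of (fun K A κ b d => isFP_VV K A κ b d) hG

theorem has_dconp {K : ℕ} {A : Oracle} (hG : Good K Bad A) : HasDCoNP A :=
  KDCO.main hG (fun b => isFP_VV K A 3 b true)

theorem has_tfnp {K : ℕ} {A : Oracle} (hG : Good K Bad A) : HasTFNP A :=
  KTF.main hG (isFP_VV K A 4 false true)

/-- The statement that the property `X` of oracles defines a null set for gauges which are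
bounded infinitely often, and a set which is not null for gauges above
`(log log log log N) ^ σ`, `σ > 1`. -/
def GStmt (X : Oracle → Prop) (f : ℕ → ℝ) : Prop :=
  (∀ C : ℝ, (∃ᶠ N : ℕ in Filter.atTop, f N ≤ C) → Gauge.Null f {A | X A}) ∧
    ∀ σ : ℝ, 1 < σ → (∀ᶠ N : ℕ in Filter.atTop, log4 N ^ σ ≤ f N) → ¬ Gauge.Null f {A | X A}

theorem gstmt {X : Oracle → Prop} (hX : ∀ K A, Good K Bad A → X A)
    (hae : ∀ᵐ A ∂randomOracle, ¬ X A) (f : ℕ → ℝ) : GStmt X f :=
  ⟨fun C hf => null_of_ae_not hae f C hf,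
    fun σ hσ hf => not_null_of_good exists_loc hX f σ hσ hf⟩

theorem g_npc (f : ℕ → ℝ) : GStmt HasNPC f := gstmt (fun _ _ h => has_npc h) ae_not_npc f

theorem g_up (f : ℕ → ℝ) : GStmt HasUP f := gstmt (fun _ _ h => has_up h) ae_not_up f

theorem g_dnp (f : ℕ → ℝ) : GStmt HasDNP f := gstmt (fun _ _ h => has_dnp h) ae_not_dnp f

theorem g_dconp (f : ℕ → ℝ) : GStmt HasDCoNP f := gstmt (fun _ _ h => has_dconp h) ae_not_dconp f

theorem g_tfnp (f : ℕ → ℝ) : GStmt HasTFNP f := gstmt (fun _ _ h => has_tfnp h) ae_not_tfnp f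

theorem g_opt (f : ℕ → ℝ) : GStmt HasOpt f :=
  gstmt (fun _ _ h => hasOpt_of_hasPOptT (has_poptT h)) ae_not_opt f

theorem g_poptT (f : ℕ → ℝ) : GStmt HasPOptT f := gstmt (fun _ _ h => has_poptT h) ae_not_poptT f

theorem g_poptS (f : ℕ → ℝ) : GStmt HasPOptS f := gstmt (fun _ _ h => has_poptS h) ae_not_poptS f

end Pool.Agent.H943R5.GC
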