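import Pool.Agent.H943R5.GC.Defs

/-!
# Project GC, task U2A: polynomial time of the validity test
-/

namespace Pool.Agent.H943R5.GC

open Pool.Agent.NPC Pool.Agent.H628R3.RO Pool.Agent.H673R2.OneTT

namespace U2A

theorem step (x B i : ℕ) : min (min (tw x i) B * min (tw x i) B) B = min (tw x (i + 1)) B := by
  have e : tw x (i + 1) = tw x i * tw x i := by
    unfold tw
    rw [pow_succ, pow_mul, pow_two]
  rw [e]
  rcases le_total (tw x i) B with h | h
  · rw [min_eq_left h]
  · rw [min_eq_right h]
    rcases Nat.eq_zero_or_pos B with hB | hB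
    · subst hB; simp
    · have h1 : B ≤ B * B := Nat.le_mul_of_pos_left B hB
      have h2 : B ≤ tw x i * tw x i := h1.trans (Nat.mul_le_mul h h)
      rw [min_eq_right h1, min_eq_right h2]

theorem iter (x B : ℕ) : ∀ j : ℕ, (fun t => min (t * t) B)^[j] (min x B) = min (tw x j) B := by
  intro j
  induction j with
  | zero => simp [tw]
  | succ j ih => rw [Function.iterate_succ_apply', ih, step]

theorem clog_eq (m : ℕ) : Nat.clog 2 m = (m - 1).size := by
  apply le_antisymm
  · apply Nat.clog_le_of_le_pow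
    have := Nat.lt_size_self (m - 1)
    omega
  · rw [Nat.size_le]
    have := Nat.le_pow_clog (by norm_num : 1 < 2) m
    have h2 : 0 < 2 ^ Nat.clog 2 m := by positivity
    omega

theorem rd_eq (m : ℕ) : rd m = ((m - 1).size - 1).size := by
  unfold rd
  rw [clog_eq, clog_eq]

theorem size_le (m : ℕ) : m.size ≤ m := Nat.size_le.2 Nat.lt_two_pow_self

theorem rd_le (m : ℕ) : rd m ≤ m := by
  rw [rd_eq]
  have h1 := size_le ((m - 1).size - 1)
  have h2 := size_le (m - 1)
  omega

theorem st_length (s : ℕ) : (st s).length = (s + 1).size - 1 := by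
  have h1 := Pool.Agent.H583R2.le_idx (Pool.Agent.H583R2.str s)
  have h2 := Pool.Agent.H583R2.idx_lt (Pool.Agent.H583R2.str s)
  rw [Pool.Agent.H583R2.idx_str] at h1 h2
  have h3 : (s + 1).size ≤ (st s).length + 1 := by
    rw [Nat.size_le]
    have : s + 2 ≤ 2 ^ ((st s).length + 1) := h2
    omega
  have h4 : (st s).length < (s + 1).size := by
    rw [Nat.lt_size]
    exact h1
  omega

theorem st_length_le (s : ℕ) : (st s).length ≤ s := by
  rw [st_length]
  have := size_le (s + 1)
  omega

variable {α : Type} [TEnc α]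

theorem poly_size {m : α → ℕ} (hm : Poly m) : Poly (fun a => (m a).size) :=
  (Poly.length (Poly.natBits hm)).congr fun a => by rw [Nat.size_eq_bits_len]

theorem poly_rd {m : α → ℕ} (hm : Poly m) : Poly (fun a => rd (m a)) :=
  (poly_size (Poly.sub (poly_size (Poly.sub hm (Pool.Agent.NPC.Poly.const 1))) (Pool.Agent.NPC.Poly.const 1))).congr
    fun a => by rw [rd_eq]

theorem poly_st {m : α → ℕ} (hm : Poly m) : Poly (fun a => (st (m a)).length) :=
  (Poly.sub (poly_size (Poly.succ hm)) (Pool.Agent.NPC.Poly.const 1)).congr fun a => by rw [st_length]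

theorem unpair' {f : α → List Bool} (hf : Poly f) : Poly (fun a => unpair (f a)) :=
  poly_unpair.comp hf

end U2A

open U2A

theorem poly_capped (B : List Bool → ℕ) (hB : UPoly B) (x j : List Bool → ℕ) (hx : UPoly x)
    (hj : UPoly j) : UPoly (fun z => min (tw (x z) (j z)) (B z)) := by
  obtain ⟨r, hr⟩ := hB.toPoly.sz_le
  refine UPoly.of_le ?_ hB (fun a => min_le_right _ _)
  refine (Poly.iterLen (l := fun z => List.replicate (j z) ()) (s := fun z => min (x z) (B z))
    (F := fun z t => min (t * t) (B z)) hj (Poly.min hx.toPoly hB.toPoly)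
    (Poly.min (Poly.mul (Poly.snd Poly.id) (Poly.snd Poly.id))
      (hB.toPoly.comp (Poly.fst Poly.id))) (Polynomial.C 2 * r) ?_).congr fun z => ?_
  · intro z k _
    rw [iter]
    have h1 := sz_nat_mono_le (min_le_right (tw (x z) k) (B z))
    have h2 := hr z
    simp only [Polynomial.eval_mul, Polynomial.eval_C]
    omega
  · rw [List.length_replicate, iter]

open Classical in
theorem poly_valid (κ : ℕ) : Poly (fun z : List Bool =>
    if kd (zv z) = κ ∧ act (zv z) (rd (zm z)) ∧ Adm (zv z) (zu z) (zm z) then [true]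
      else ([] : List Bool)) := by
  have hzv : Poly zv := Poly.fst (unpair' Poly.id)
  have hz2 : Poly (fun z : List Bool => (unpair z).2) := Poly.snd (unpair' Poly.id)
  have hzu : Poly zu := Poly.fst (unpair' hz2)
  have hzm2 : Poly (fun z : List Bool => (unpair (unpair z).2).2) := Poly.snd (unpair' hz2)
  have hzm : UPoly zm := UPoly.length hzm2
  have hkd : Poly (fun z => kd (zv z)) := Poly.length (Poly.fst (unpair' hzv))
  have hex : UPoly (fun z => ex (zv z)) :=
    UPoly.length (Poly.fst (unpair' (Poly.snd (unpair' hzv))))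
  have hst : Poly (fun z => (st (rd (zm z))).length) := poly_st (poly_rd hzm.toPoly)
  have hstU : UPoly (fun z => (st (rd (zm z))).length) :=
    UPoly.of_le hst hzm (fun z => (st_length_le _).trans (rd_le _))
  have h1 : UPoly (fun z => min (tw 2 (zv z).length) ((st (rd (zm z))).length + 1)) :=
    poly_capped _ (UPoly.add hstU (UPoly.const 1)) _ _ (UPoly.const 2) (UPoly.length hzv)
  have h2 : UPoly (fun z => min (tw ((zu z).length + 2) (ex (zv z))) (zm z + 1)) :=
    poly_capped _ (UPoly.add hzm (UPoly.const 1)) _ _ (UPoly.add (UPoly.length hzu) (UPoly.const 2))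
      hex
  have hd : Poly (fun z : List Bool => decide (kd (zv z) = κ ∧
      (min (tw 2 (zv z).length) ((st (rd (zm z))).length + 1) ≤ (st (rd (zm z))).length ∧
        min (tw ((zu z).length + 2) (ex (zv z))) (zm z + 1) ≤ zm z))) :=
    Poly.decide_and (Poly.decide_eq hkd (Pool.Agent.NPC.Poly.const κ))
      (Poly.decide_and (Poly.decide_le h1.toPoly hst) (Poly.decide_le h2.toPoly hzm.toPoly))
  refine (Poly.ite hd (Pool.Agent.NPC.Poly.const [true]) (Pool.Agent.NPC.Poly.const ([] : List Bool))).congr fun z => ?_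
  have key : ∀ a m : ℕ, min a (m + 1) ≤ m ↔ a ≤ m := by
    intro a m
    rw [min_le_iff]
    omega
  have e : (kd (zv z) = κ ∧
      (min (tw 2 (zv z).length) ((st (rd (zm z))).length + 1) ≤ (st (rd (zm z))).length ∧
        min (tw ((zu z).length + 2) (ex (zv z))) (zm z + 1) ≤ zm z)) ↔
      (kd (zv z) = κ ∧ act (zv z) (rd (zm z)) ∧ Adm (zv z) (zu z) (zm z)) := by
    rw [key, key]
    rfl
  by_cases h : kd (zv z) = κ ∧ act (zv z) (rd (zm z)) ∧ Adm (zv z) (zu z) (zm z)
  · rw [if_pos h, if_pos (e.2 h)]
  · rw [if_neg h, if_neg (fun h' => h (e.1 h'))]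

end Pool.Agent.H943R5.GC
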