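import Pool.Agent.H943R5.GC.DefsN
import Pool.Agent.H943R5.GC.U2A
import Pool.Agent.H628R3.RO.G1

/-!
# Project GC, task S11: the hard search problem is checkable in polynomial time
-/

namespace Pool.Agent.H943R5.GC

open Pool.Agent.NPC Pool.Agent.H628R3.RO Pool.Agent.H673R2.OneTT

namespace S11

attribute [local irreducible] unpair

/-! ### general -/

theorem poly_idx {α : Type} [TEnc α] {f : α → List Bool} (hf : Poly f) :
    Poly (fun a => Pool.Agent.H583R2.idx (f a)) := by
  obtain ⟨r, hr⟩ := hf.sz_le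
  have e : ∀ l : List Bool, l.foldr (fun (b : Bool) (acc : ℕ) => 2 * acc + (if b = true then 2 else 1)) 0 =
      Pool.Agent.H583R2.idxR l := by
    intro l
    induction l with
    | nil => rfl
    | cons b l ih => rw [List.foldr_cons, ih, Pool.Agent.H583R2.idxR]
  refine (Poly.foldr (l := fun a => (f a).reverse) (s := fun _ => (0 : ℕ))
    (F := fun (_ : α) (b : Bool) (acc : ℕ) => 2 * acc + (if b = true then 2 else 1))
    (Poly.reverse hf) (NPC.Poly.const _) ?_ (Polynomial.C 4 * r + Polynomial.C 9) ?_).congr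
    fun a => e _
  · exact Poly.add (Poly.mul (NPC.Poly.const 2) (Poly.snd (Poly.snd Poly.id)))
      (Poly.ite (p := fun p : α × Bool × ℕ => p.2.1 = true)
        (Poly.decide_eq (Poly.fst (Poly.snd Poly.id)) (NPC.Poly.const true))
        (NPC.Poly.const 2) (NPC.Poly.const 1))
  · intro a k _
    rw [e]
    have h1 := (Pool.Agent.H583R2.idxR_bounds ((f a).reverse.drop k)).2
    have h2 : (Pool.Agent.H583R2.idxR ((f a).reverse.drop k)).size ≤
        ((f a).reverse.drop k).length + 1 := Nat.size_le.2 (by omega)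
    have h3 := sz_nat_le (Pool.Agent.H583R2.idxR ((f a).reverse.drop k))
    have h4 := hr a
    have h5 := sz_listBool_ge (f a)
    have h6 : ((f a).reverse.drop k).length ≤ (f a).length := by
      rw [List.length_drop, List.length_reverse]; omega
    simp only [Polynomial.eval_add, Polynomial.eval_mul, Polynomial.eval_C]
    omega

theorem st_idx (a : List Bool) : st (Pool.Agent.H583R2.idx a) = a :=
  Pool.Agent.H583R2.str_idx a

theorem idx_st (s : ℕ) : Pool.Agent.H583R2.idx (st s) = s := Pool.Agent.H583R2.idx_str s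

/-- the output of the universal algorithm -/
noncomputable def outp (A : Oracle) (x : List Bool) : List Bool := (uA.out A x).getD []

theorem outp_isFP (A : Oracle) : IsFP A (outp A) := by
  refine ⟨uA, fun x => ?_⟩
  obtain ⟨z, hz⟩ := uA_total A x
  rw [outp, hz, Option.getD_some]

theorem out_iff (A : Oracle) (x : List Bool) : uA.out A x = some [true] ↔ outp A x = [true] := by
  unfold outp
  obtain ⟨z, hz⟩ := uA_total A x
  rw [hz, Option.getD_some, Option.some.injEq]

theorem up {α : Type} [TEnc α] {f : α → List Bool} (hf : Poly f) :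
    Poly (fun a => unpair (f a)) := poly_unpair.comp hf

/-! ### numbers -/

theorem le_TT (k : ℕ) : k ≤ TT k := by
  unfold TT tw
  exact (Nat.lt_two_pow_self (n := k)).le.trans (Nat.lt_two_pow_self (n := 2 ^ k)).le

theorem TT_mono {a b : ℕ} (h : a ≤ b) : TT a ≤ TT b := by
  unfold TT tw
  exact Nat.pow_le_pow_right (by norm_num) (Nat.pow_le_pow_right (by norm_num) h)

theorem le_nn {Kc : ℕ} (hK : 1 ≤ Kc) (W : ℕ) (v : List Bool) (s : ℕ) : s ≤ nn Kc W v s := by
  refine le_trans ?_ (le_TT _)
  have h1 : 1 ≤ jj Kc W v := by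
    unfold jj
    have : 0 < (Kc + W) * (v.length + 1) := by positivity
    omega
  nlinarith

theorem nn_le_mm (Kc W : ℕ) (v : List Bool) (s : ℕ) : nn Kc W v s ≤ mm Kc W v s :=
  TT_mono (Nat.mul_le_mul_left _ (by omega))

theorem mm_le_nn' (Kc W : ℕ) (v : List Bool) {s' s : ℕ} (h : s' < s) :
    mm Kc W v s' ≤ nn Kc W v s :=
  TT_mono (Nat.mul_le_mul_left _ (by omega))

/-! ### the hit test -/

variable (W : ℕ) (A : Oracle)

/-- syntactic part of the hit test -/
def hc (W : ℕ) (u : List Bool) : Bool :=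
  decide ((unpair (unpair u).2).2.head? = some true) &&
  (decide ((unpair (unpair u).2).2.tail =
      pairBits (List.replicate (unpair (unpair (unpair u).2).2.tail).1.length true)
        (unpair (unpair (unpair u).2).2.tail).2) &&
  (decide ((unpair (unpair (unpair u).2).2.tail).1.length + 1 ≤ tv W (unpair (unpair u).1).1) &&
   decide ((unpair (unpair (unpair u).2).2.tail).2.length = (unpair (unpair u).2).1.length)))

/-- questions of the hit test -/
def hq (u : List Bool) : List (List Bool) :=
  asks (unpair (unpair u).2).1.length (unpair (unpair (unpair u).2).2.tail).1.length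
    (pairBits (unpair u).1 (unpair (unpair (unpair u).2).2.tail).2)

/-- the hit test -/
def hitF (u : List Bool) : List Bool :=
  if (hc W u && ((hq u).map A).all id) = true then [true] else []

theorem u_tv {α : Type} [TEnc α] {f : α → List Bool} (hf : Poly f) :
    UPoly (fun a => tv W (f a)) :=
  UPoly.mul (UPoly.const W) (UPoly.add (UPoly.length hf) (UPoly.const 1))

theorem hitF_isFP : IsFP A (hitF W A) := by
  have u1 : Poly (fun u : List Bool => (unpair u).1) := Poly.fst (up Poly.id)
  have u2 : Poly (fun u : List Bool => (unpair u).2) := Poly.snd (up Poly.id)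
  have n1 : Poly (fun u : List Bool => (unpair (unpair u).2).1) := Poly.fst (up u2)
  have g1 : Poly (fun u : List Bool => (unpair (unpair u).2).2) := Poly.snd (up u2)
  have t1 : Poly (fun u : List Bool => unpair (unpair (unpair u).2).2.tail) :=
    up (Poly.tail g1)
  have hcp : Poly (hc W) := by
    refine Poly.and (Poly.decide_eq (Poly.head? g1) (NPC.Poly.const _)) (Poly.and
      (Poly.decide_eq (Poly.tail g1) (H622R2.poly_pairBits
        (p_replicate (UPoly.length (Poly.fst t1)) true) (Poly.snd t1)))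
      (Poly.and (Poly.decide_le (Poly.succ (Poly.length (Poly.fst t1)))
        (u_tv W (Poly.fst (up u1))).toPoly)
        (Poly.decide_eq (Poly.length (Poly.snd t1)) (Poly.length n1))))
  have hqp : Poly hq := p_asks (UPoly.length n1) (UPoly.length (Poly.fst t1))
    (H622R2.poly_pairBits u1 (Poly.snd t1))
  refine IsFP.tt (Q := hq) (H := fun p => if (hc W p.1 && p.2.all id) = true then [true] else [])
    hqp ?_
  exact Poly.ite (p := fun p : List Bool × List Bool => (hc W p.1 && p.2.all id) = true)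
    (Poly.decide_bool (Poly.and (hcp.comp (Poly.fst Poly.id)) (p_all_id (Poly.snd Poly.id))))
    (NPC.Poly.const _) (NPC.Poly.const _)

theorem hitF_iff {Kc : ℕ} (v : List Bool) (s : ℕ) (nm pad g : List Bool) (hnm : nm = nmB v s)
    (hpad : pad.length = nn Kc W v s) :
    hitF W A (pairBits nm (pairBits pad g)) = [true] ↔
      ∃ z, g = true :: z ∧ IsHit Kc W (tv W v) (nn Kc W v s) A v s z := by
  unfold hitF
  have e0 : ∀ b : Bool, ((if b = true then [true] else []) = ([true] : List Bool)) ↔ b = true := by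
    intro b; cases b <;> simp
  rw [e0, Bool.and_eq_true]
  unfold hq hc
  simp only [unpair_pairBits, asks_all, Bool.and_eq_true, decide_eq_true_eq]
  have hv : (unpair nm).1 = v := by rw [hnm, nmB, unpair_pairBits]
  rw [hv, hpad, hnm]
  constructor
  · rintro ⟨⟨h1, h2, h3, h4⟩, h5⟩
    cases g with
    | nil => simp at h1
    | cons b g =>
      simp only [List.head?_cons, Option.some.injEq] at h1
      subst h1
      simp only [List.tail_cons] at h2 h3 h4 h5
      exact ⟨g, rfl, (unpair g).1.length, (unpair g).2, by omega, h4, h2, h5⟩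
  · rintro ⟨z, rfl, c, y, hc, hy, rfl, hh⟩
    simp only [List.head?_cons, List.tail_cons, unpair_pairBits, List.length_replicate]
    exact ⟨⟨trivial, trivial, hc, hy⟩, hh⟩

/-! ### the data of the input -/

/-- the instance -/
def xx (z : List Bool) : List Bool := (unpair z).1
/-- the solution -/
def yy (z : List Bool) : List Bool := (unpair z).2
/-- the code -/
def cv (z : List Bool) : List Bool := (unpair (unpair (xx z)).1).1
/-- the string of the round -/
def ca (z : List Bool) : List Bool := (unpair (unpair (xx z)).1).2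
/-- the padding -/
def pd (z : List Bool) : List Bool := (unpair (xx z)).2
/-- the string of the earlier round -/
def ca' (z : List Bool) : List Bool := (unpair (yy z).tail).1
/-- the witness -/
def ww (z : List Bool) : List Bool := (unpair (yy z).tail).2

theorem p_xx : Poly xx := Poly.fst (up Poly.id)
theorem p_yy : Poly yy := Poly.snd (up Poly.id)
theorem p_cv : Poly cv := Poly.fst (up (Poly.fst (up p_xx)))
theorem p_ca : Poly ca := Poly.snd (up (Poly.fst (up p_xx)))
theorem p_pd : Poly pd := Poly.snd (up p_xx)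
theorem p_ca' : Poly ca' := Poly.fst (up (Poly.tail p_yy))
theorem p_ww : Poly ww := Poly.snd (up (Poly.tail p_yy))

/-- the cap -/
def BB (z : List Bool) : ℕ := (xx z).length + 1

theorem u_BB : UPoly BB := UPoly.add (UPoly.length p_xx) (UPoly.const 1)

/-- capped number of a round -/
def cs (a z : List Bool) : ℕ := min (Pool.Agent.H583R2.idx a) (BB z)

theorem u_cs {a : List Bool → List Bool} (ha : Poly a) : UPoly (fun z => cs (a z) z) :=
  UPoly.of_le (Poly.min (poly_idx ha) u_BB.toPoly) u_BB fun _ => min_le_right _ _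

/-- capped length or time bound -/
def cN (Kc W e : ℕ) (a z : List Bool) : ℕ :=
  min (tw 2 (jj Kc W (cv z) * (2 * cs a z + e))) (BB z)

theorem u_cN (Kc W e : ℕ) {a : List Bool → List Bool} (ha : Poly a) :
    UPoly (fun z => cN Kc W e (a z) z) := by
  refine poly_capped BB u_BB (fun _ => 2) (fun z => jj Kc W (cv z) * (2 * cs (a z) z + e))
    (UPoly.const 2) ?_
  refine UPoly.mul ?_ (UPoly.add (UPoly.mul (UPoly.const 2) (u_cs ha)) (UPoly.const e))
  exact UPoly.mul (UPoly.const (Kc + W)) (UPoly.add (UPoly.length p_cv) (UPoly.const 1))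

/-- the test of the instance -/
def vt (Kc W : ℕ) (v₀ z : List Bool) : Bool :=
  decide (c0 (cv z) = v₀) && (decide ((Pool.Agent.H583R2.idx (ca z)).size ≤ 4 * tv W (cv z)) &&
    (decide (Pool.Agent.H583R2.idx (ca z) ≤ (xx z).length) &&
      decide (xx z = pairBits (pairBits (cv z) (ca z))
        (List.replicate (cN Kc W 2 (ca z) z) true))))

theorem p_c0 {α : Type} [TEnc α] {f : α → List Bool} (hf : Poly f) : Poly (fun a => c0 (f a)) :=
  Poly.fst (up hf)
theorem p_c1 {α : Type} [TEnc α] {f : α → List Bool} (hf : Poly f) : Poly (fun a => c1 (f a)) :=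
  Poly.fst (up (Poly.snd (up hf)))
theorem p_c2 {α : Type} [TEnc α] {f : α → List Bool} (hf : Poly f) : Poly (fun a => c2 (f a)) :=
  Poly.snd (up (Poly.snd (up hf)))
theorem p_cd {α : Type} [TEnc α] {f : α → List Bool} (hf : Poly f) :
    Poly (fun a => cd false (f a)) :=
  Poly.fst (up (Poly.snd (up (Poly.snd (up hf)))))

theorem p_vt (Kc W : ℕ) (v₀ : List Bool) : Poly (vt Kc W v₀) := by
  refine Poly.and (Poly.decide_eq (p_c0 p_cv) (NPC.Poly.const _)) (Poly.and
    (Poly.decide_le (U2A.poly_size (poly_idx p_ca)) (Poly.mul (NPC.Poly.const 4)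
      (u_tv W p_cv).toPoly)) (Poly.and (Poly.decide_le (poly_idx p_ca) (Poly.length p_xx))
      (Poly.decide_eq p_xx (H622R2.poly_pairBits (H622R2.poly_pairBits p_cv p_ca)
        (p_replicate (u_cN Kc W 2 p_ca) true)))))

theorem len_pb (x a : List Bool) : (pairBits x a).length = 2 * x.length + 1 + a.length :=
  Pool.Agent.H628R3.RO.length_pairBits_A3 x a

theorem cN_eq {Kc W e : ℕ} {a z : List Bool} (h1 : Pool.Agent.H583R2.idx a ≤ (xx z).length)
    (h2 : TT (jj Kc W (cv z) * (2 * Pool.Agent.H583R2.idx a + e)) ≤ (xx z).length) :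
    cN Kc W e a z = TT (jj Kc W (cv z) * (2 * Pool.Agent.H583R2.idx a + e)) := by
  unfold cN cs BB
  rw [min_eq_left (show Pool.Agent.H583R2.idx a ≤ (xx z).length + 1 by omega)]
  unfold TT at h2 ⊢
  exact min_eq_left (by omega)

theorem qq_eq (Kc W : ℕ) (v a : List Bool) : qq Kc W v (Pool.Agent.H583R2.idx a) =
    pairBits (pairBits v a) (List.replicate (nn Kc W v (Pool.Agent.H583R2.idx a)) true) := by
  unfold qq nmB
  rw [st_idx]

theorem size_lt (s n : ℕ) : s.size ≤ n ↔ s < 2 ^ n := Nat.size_le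

theorem vt_iff {Kc : ℕ} (hK : 1 ≤ Kc) (W : ℕ) (v₀ z : List Bool) : vt Kc W v₀ z = true ↔
    c0 (cv z) = v₀ ∧ Pool.Agent.H583R2.idx (ca z) < Mv W (cv z) ∧
      xx z = qq Kc W (cv z) (Pool.Agent.H583R2.idx (ca z)) := by
  unfold vt
  simp only [Bool.and_eq_true, decide_eq_true_eq, size_lt]
  rw [qq_eq]
  set s := Pool.Agent.H583R2.idx (ca z) with hs
  constructor
  · rintro ⟨h1, h2, h3, h4⟩
    refine ⟨h1, h2, ?_⟩
    have h5 : cN Kc W 2 (ca z) z = nn Kc W (cv z) s := by
      have h6 := congrArg List.length h4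
      rw [len_pb, List.length_replicate] at h6
      unfold cN cs BB at h6 ⊢
      rw [min_eq_left (show Pool.Agent.H583R2.idx (ca z) ≤ (xx z).length + 1 by omega)] at h6 ⊢
      rw [← hs] at h6 ⊢
      unfold nn TT
      rcases min_cases (tw 2 (jj Kc W (cv z) * (2 * s + 2))) ((xx z).length + 1) with h | h
      · exact h.1
      · omega
    rw [h5] at h4
    exact h4
  · rintro ⟨h1, h2, h3⟩
    have h6 := congrArg List.length h3
    rw [len_pb, List.length_replicate] at h6
    have h7 := le_nn hK W (cv z) s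
    refine ⟨h1, h2, by omega, ?_⟩
    have h5 : cN Kc W 2 (ca z) z = nn Kc W (cv z) s := cN_eq (by omega) (by
      show nn Kc W (cv z) s ≤ _
      omega)
    rw [h5]
    exact h3

/-- the instances of the hard problem -/
theorem inst_iff {Kc : ℕ} (hK : 1 ≤ Kc) (W : ℕ) (v₀ z : List Bool) : vt Kc W v₀ z = true ↔
    ∃ v s, c0 v = v₀ ∧ s < Mv W v ∧ xx z = qq Kc W v s := by
  rw [vt_iff hK]
  constructor
  · rintro ⟨h1, h2, h3⟩
    exact ⟨_, _, h1, h2, h3⟩
  · rintro ⟨v, s, h1, h2, h3⟩
    have e1 : cv z = v := by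
      unfold cv
      rw [h3, qq, unpair_pairBits, nmB, unpair_pairBits]
    have e2 : ca z = st s := by
      unfold ca
      rw [h3, qq, unpair_pairBits, nmB, unpair_pairBits]
    rw [e1, e2, idx_st]
    exact ⟨h1, h2, h3⟩

/-! ### the failure test -/

/-- the name of the earlier instance -/
def qz (Kc W : ℕ) (z : List Bool) : List Bool :=
  pairBits (pairBits (cv z) (ca' z)) (List.replicate (cN Kc W 2 (ca' z) z) true)

/-- the budget -/
def mz (Kc W : ℕ) (z : List Bool) : List Bool := List.replicate (cN Kc W 3 (ca' z) z) true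

theorem p_qz (Kc W : ℕ) : Poly (qz Kc W) :=
  H622R2.poly_pairBits (H622R2.poly_pairBits p_cv p_ca') (p_replicate (u_cN Kc W 2 p_ca') true)

theorem p_mz (Kc W : ℕ) : Poly (mz Kc W) := p_replicate (u_cN Kc W 3 p_ca') true

/-- the first function of the reduction, raw -/
noncomputable def o1 (Kc W : ℕ) (A : Oracle) (z : List Bool) : List Bool :=
  outp A (pairBits (pairBits (cd false (c1 (cv z))) (pairBits (qz Kc W z) (mz Kc W z))) [])

theorem o1_isFP (Kc W : ℕ) (A : Oracle) : IsFP A (o1 Kc W A) := by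
  have h : Poly (fun z => pairBits (pairBits (cd false (c1 (cv z)))
      (pairBits (qz Kc W z) (mz Kc W z))) []) :=
    H622R2.poly_pairBits (H622R2.poly_pairBits (p_cd (p_c1 p_cv))
      (H622R2.poly_pairBits (p_qz Kc W) (p_mz Kc W))) (NPC.Poly.const _)
  exact IsFP.comp (G := outp A) (F := fun z => pairBits (pairBits (cd false (c1 (cv z)))
      (pairBits (qz Kc W z) (mz Kc W z))) []) (outp_isFP A) (IsFP.of_poly h)

/-- the first function of the reduction, as a function of the input and the raw value -/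
def f1 (Kc W : ℕ) (u : List Bool) : List Bool :=
  if min (tw ((unpair u).2.length + 2) (ex (c0 (cv (unpair u).1)))) ((mz Kc W (unpair u).1).length + 1)
    ≤ (mz Kc W (unpair u).1).length then (unpair u).2 else []

theorem p_f1 (Kc W : ℕ) : Poly (f1 Kc W) := by
  have u1 : Poly (fun u : List Bool => (unpair u).1) := Poly.fst (up Poly.id)
  have u2 : Poly (fun u : List Bool => (unpair u).2) := Poly.snd (up Poly.id)
  have hm : UPoly (fun u : List Bool => (mz Kc W (unpair u).1).length) :=
    UPoly.length ((p_mz Kc W).comp u1)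
  have hex : UPoly (fun u : List Bool => ex (c0 (cv (unpair u).1))) :=
    UPoly.length (Poly.fst (up (Poly.snd (up (p_c0 (p_cv.comp u1))))))
  refine Poly.ite (Poly.decide_le (poly_capped _ (UPoly.add hm (UPoly.const 1)) _ _
    (UPoly.add (UPoly.length u2) (UPoly.const 2)) hex).toPoly hm.toPoly) u2 (NPC.Poly.const _)

/-- the question to the universal algorithm for the test of the solution -/
def g1 (Kc W : ℕ) (u : List Bool) : List Bool :=
  pairBits (pairBits (cd false (c0 (cv (unpair u).1)))
    (pairBits (f1 Kc W u) (mz Kc W (unpair u).1))) (ww (unpair u).1)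

theorem p_g1 (Kc W : ℕ) : Poly (g1 Kc W) := by
  have u1 : Poly (fun u : List Bool => (unpair u).1) := Poly.fst (up Poly.id)
  exact H622R2.poly_pairBits (H622R2.poly_pairBits (p_cd (p_c0 (p_cv.comp u1)))
    (H622R2.poly_pairBits (p_f1 Kc W) ((p_mz Kc W).comp u1))) (p_ww.comp u1)

/-- value of the test of the solution -/
noncomputable def r1 (Kc W : ℕ) (A : Oracle) (z : List Bool) : List Bool :=
  outp A (g1 Kc W (pairBits z (o1 Kc W A z)))

theorem r1_isFP (Kc W : ℕ) (A : Oracle) : IsFP A (r1 Kc W A) := by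
  have h1 : IsFP A (fun z => pairBits z (o1 Kc W A z)) :=
    IsFP.pair (F := fun z => z) (G := o1 Kc W A) (IsFP.of_poly Poly.id) (o1_isFP Kc W A)
  have h2 : IsFP A (fun z => g1 Kc W (pairBits z (o1 Kc W A z))) :=
    IsFP.comp (G := g1 Kc W) (F := fun z => pairBits z (o1 Kc W A z)) (IsFP.of_poly (p_g1 Kc W)) h1
  exact IsFP.comp (G := outp A) (F := fun z => g1 Kc W (pairBits z (o1 Kc W A z)))
    (outp_isFP A) h2

/-- the second function of the reduction -/
noncomputable def o2 (Kc W : ℕ) (A : Oracle) (z : List Bool) : List Bool :=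
  outp A (pairBits (pairBits (cd false (c2 (cv z)))
    (pairBits (pairBits (qz Kc W z) (ww z)) (mz Kc W z))) [])

theorem o2_isFP (Kc W : ℕ) (A : Oracle) : IsFP A (o2 Kc W A) := by
  have h : Poly (fun z => pairBits (pairBits (cd false (c2 (cv z)))
      (pairBits (pairBits (qz Kc W z) (ww z)) (mz Kc W z))) []) :=
    H622R2.poly_pairBits (H622R2.poly_pairBits (p_cd (p_c2 p_cv))
      (H622R2.poly_pairBits (H622R2.poly_pairBits (p_qz Kc W) p_ww) (p_mz Kc W)))
      (NPC.Poly.const _)
  exact IsFP.comp (G := outp A) (F := fun z => pairBits (pairBits (cd false (c2 (cv z)))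
      (pairBits (pairBits (qz Kc W z) (ww z)) (mz Kc W z))) []) (outp_isFP A) (IsFP.of_poly h)

/-- the input of the hit test for the earlier round -/
def g2 (Kc W : ℕ) (u : List Bool) : List Bool :=
  pairBits (pairBits (cv (unpair u).1) (ca' (unpair u).1))
    (pairBits (List.replicate (cN Kc W 2 (ca' (unpair u).1) (unpair u).1) true) (unpair u).2)

theorem p_g2 (Kc W : ℕ) : Poly (g2 Kc W) := by
  have u1 : Poly (fun u : List Bool => (unpair u).1) := Poly.fst (up Poly.id)
  have u2 : Poly (fun u : List Bool => (unpair u).2) := Poly.snd (up Poly.id)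
  exact H622R2.poly_pairBits (H622R2.poly_pairBits (p_cv.comp u1) (p_ca'.comp u1))
    (H622R2.poly_pairBits (p_replicate ((u_cN Kc W 2 p_ca').comp u1) true) u2)

/-- the hit test for the earlier round -/
noncomputable def r2 (Kc W : ℕ) (A : Oracle) (z : List Bool) : List Bool :=
  hitF W A (g2 Kc W (pairBits z (o2 Kc W A z)))

theorem r2_isFP (Kc W : ℕ) (A : Oracle) : IsFP A (r2 Kc W A) := by
  have h1 : IsFP A (fun z => pairBits z (o2 Kc W A z)) :=
    IsFP.pair (F := fun z => z) (G := o2 Kc W A) (IsFP.of_poly Poly.id) (o2_isFP Kc W A)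
  have h2 : IsFP A (fun z => g2 Kc W (pairBits z (o2 Kc W A z))) :=
    IsFP.comp (G := g2 Kc W) (F := fun z => pairBits z (o2 Kc W A z)) (IsFP.of_poly (p_g2 Kc W)) h1
  exact IsFP.comp (G := hitF W A) (F := fun z => g2 Kc W (pairBits z (o2 Kc W A z)))
    (hitF_isFP W A) h2

/-- the hit test for the instance -/
noncomputable def r0 (W : ℕ) (A : Oracle) (z : List Bool) : List Bool :=
  hitF W A (pairBits (pairBits (cv z) (ca z)) (pairBits (pd z) (yy z)))

theorem r0_isFP (W : ℕ) (A : Oracle) : IsFP A (r0 W A) := by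
  have h : Poly (fun z => pairBits (pairBits (cv z) (ca z)) (pairBits (pd z) (yy z))) :=
    H622R2.poly_pairBits (H622R2.poly_pairBits p_cv p_ca) (H622R2.poly_pairBits p_pd p_yy)
  exact IsFP.comp (G := hitF W A)
    (F := fun z => pairBits (pairBits (cv z) (ca z)) (pairBits (pd z) (yy z))) (hitF_isFP W A)
    (IsFP.of_poly h)

/-- all results -/
noncomputable def allr (Kc W : ℕ) (A : Oracle) (z : List Bool) : List Bool :=
  pairBits z (pairBits (r0 W A z) (pairBits (r1 Kc W A z) (r2 Kc W A z)))

theorem allr_isFP (Kc W : ℕ) (A : Oracle) : IsFP A (allr Kc W A) := by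
  have h1 : IsFP A (fun z => pairBits (r1 Kc W A z) (r2 Kc W A z)) :=
    IsFP.pair (F := r1 Kc W A) (G := r2 Kc W A) (r1_isFP Kc W A) (r2_isFP Kc W A)
  have h2 : IsFP A (fun z => pairBits (r0 W A z) (pairBits (r1 Kc W A z) (r2 Kc W A z))) :=
    IsFP.pair (F := r0 W A) (G := fun z => pairBits (r1 Kc W A z) (r2 Kc W A z)) (r0_isFP W A) h1
  exact IsFP.pair (F := fun z => z)
    (G := fun z => pairBits (r0 W A z) (pairBits (r1 Kc W A z) (r2 Kc W A z)))
    (IsFP.of_poly Poly.id) h2

/-- the syntactic test for the second kind of solutions -/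
def st2 (Kc W : ℕ) (z : List Bool) : Bool :=
  decide (yy z = false :: pairBits (ca' z) (ww z)) &&
  (decide (Pool.Agent.H583R2.idx (ca' z) + 1 ≤ Pool.Agent.H583R2.idx (ca z)) &&
    decide ((ww z).length ≤ (mz Kc W z).length))

theorem p_st2 (Kc W : ℕ) : Poly (st2 Kc W) := by
  refine Poly.and (Poly.decide_eq p_yy (Poly.cons (NPC.Poly.const _)
    (H622R2.poly_pairBits p_ca' p_ww))) (Poly.and
    (Poly.decide_le (Poly.succ (poly_idx p_ca')) (poly_idx p_ca))
    (Poly.decide_le (Poly.length p_ww) (Poly.length (p_mz Kc W))))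

/-- the final decision -/
def fin (Kc W : ℕ) (v₀ u : List Bool) : List Bool :=
  if ((vt Kc W v₀ (unpair u).1 &&
      (decide ((unpair (unpair u).2).1 = [true]) ||
        (st2 Kc W (unpair u).1 && (decide ((unpair (unpair (unpair u).2).2).1 = [true]) &&
          !(decide ((unpair (unpair (unpair u).2).2).2 = [true])))))) ||
      (!(vt Kc W v₀ (unpair u).1) && decide (yy (unpair u).1 = []))) = true then [true] else []

theorem p_fin (Kc W : ℕ) (v₀ : List Bool) : Poly (fin Kc W v₀) := by
  have u1 : Poly (fun u : List Bool => (unpair u).1) := Poly.fst (up Poly.id)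
  have u2 : Poly (fun u : List Bool => (unpair u).2) := Poly.snd (up Poly.id)
  have w1 : Poly (fun u : List Bool => (unpair (unpair u).2).1) := Poly.fst (up u2)
  have w2 : Poly (fun u : List Bool => (unpair (unpair u).2).2) := Poly.snd (up u2)
  have k1 : Poly (fun u : List Bool => (unpair (unpair (unpair u).2).2).1) := Poly.fst (up w2)
  have k2 : Poly (fun u : List Bool => (unpair (unpair (unpair u).2).2).2) := Poly.snd (up w2)
  have hv : Poly (fun u : List Bool => vt Kc W v₀ (unpair u).1) := (p_vt Kc W v₀).comp u1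
  refine Poly.ite (Poly.decide_bool ?_) (NPC.Poly.const _) (NPC.Poly.const _)
  refine Poly.or (Poly.and hv (Poly.or (Poly.decide_eq w1 (NPC.Poly.const _))
    (Poly.and ((p_st2 Kc W).comp u1) (Poly.and (Poly.decide_eq k1 (NPC.Poly.const _))
      (Poly.not (Poly.decide_eq k2 (NPC.Poly.const _))))))) ?_
  exact Poly.and (Poly.not hv) (Poly.decide_eq (p_yy.comp u1) (NPC.Poly.const _))

/-- the verifier -/
noncomputable def VR (Kc W : ℕ) (A : Oracle) (v₀ z : List Bool) : List Bool :=
  fin Kc W v₀ (allr Kc W A z)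

theorem VR_isFP (Kc W : ℕ) (A : Oracle) (v₀ : List Bool) : IsFP A (VR Kc W A v₀) :=
  IsFP.comp (G := fin Kc W v₀) (F := allr Kc W A) (IsFP.of_poly (p_fin Kc W v₀))
    (allr_isFP Kc W A)

theorem VR_iff (Kc W : ℕ) (A : Oracle) (v₀ z : List Bool) : VR Kc W A v₀ z = [true] ↔
    (vt Kc W v₀ z = true ∧ (r0 W A z = [true] ∨ (st2 Kc W z = true ∧ r1 Kc W A z = [true] ∧
      ¬ r2 Kc W A z = [true]))) ∨ (¬ vt Kc W v₀ z = true ∧ yy z = []) := by
  unfold VR fin allr
  have e0 : ∀ b : Bool, ((if b = true then [true] else []) = ([true] : List Bool)) ↔ b = true := by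
    intro b; cases b <;> simp
  rw [e0]
  simp only [unpair_pairBits, Bool.or_eq_true, Bool.and_eq_true, decide_eq_true_eq,
    Bool.not_eq_true', decide_eq_false_iff_not, Bool.not_eq_true]

/-! ### correctness -/

theorem mz_len {Kc : ℕ} (W : ℕ) {z : List Bool}
    (h1 : Pool.Agent.H583R2.idx (ca' z) ≤ (xx z).length)
    (h2 : mm Kc W (cv z) (Pool.Agent.H583R2.idx (ca' z)) ≤ (xx z).length) :
    mz Kc W z = List.replicate (mm Kc W (cv z) (Pool.Agent.H583R2.idx (ca' z))) true := by
  unfold mz
  rw [cN_eq h1 h2]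
  rfl

theorem qz_eq {Kc : ℕ} (W : ℕ) {z : List Bool}
    (h1 : Pool.Agent.H583R2.idx (ca' z) ≤ (xx z).length)
    (h2 : nn Kc W (cv z) (Pool.Agent.H583R2.idx (ca' z)) ≤ (xx z).length) :
    qz Kc W z = qq Kc W (cv z) (Pool.Agent.H583R2.idx (ca' z)) := by
  rw [qq_eq]
  unfold qz
  rw [cN_eq h1 h2]
  rfl

theorem min_succ_le (a m : ℕ) : min a (m + 1) ≤ m ↔ a ≤ m := by
  rw [min_le_iff]
  omega

theorem f1_eq {Kc : ℕ} (W : ℕ) (A : Oracle) {z : List Bool}
    (h1 : Pool.Agent.H583R2.idx (ca' z) ≤ (xx z).length)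
    (h2 : mm Kc W (cv z) (Pool.Agent.H583R2.idx (ca' z)) ≤ (xx z).length) :
    f1 Kc W (pairBits z (o1 Kc W A z)) = FF Kc W A (cv z) (Pool.Agent.H583R2.idx (ca' z)) := by
  have h3 := nn_le_mm Kc W (cv z) (Pool.Agent.H583R2.idx (ca' z))
  have e1 : o1 Kc W A z = Out A (c1 (cv z)) (qq Kc W (cv z) (Pool.Agent.H583R2.idx (ca' z)))
      (mm Kc W (cv z) (Pool.Agent.H583R2.idx (ca' z))) := by
    unfold o1 outp Out
    rw [mz_len W h1 h2, qz_eq W h1 (h3.trans h2)]
  have e3 : min (tw ((o1 Kc W A z).length + 2) (ex (c0 (cv z)))) ((mz Kc W z).length + 1) ≤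
      (mz Kc W z).length ↔ Adm (c0 (cv z)) (Out A (c1 (cv z))
        (qq Kc W (cv z) (Pool.Agent.H583R2.idx (ca' z)))
        (mm Kc W (cv z) (Pool.Agent.H583R2.idx (ca' z))))
        (mm Kc W (cv z) (Pool.Agent.H583R2.idx (ca' z))) := by
    rw [min_succ_le, mz_len W h1 h2, List.length_replicate, e1]
    rfl
  unfold f1 FF
  simp only [unpair_pairBits]
  by_cases h : Adm (c0 (cv z)) (Out A (c1 (cv z))
        (qq Kc W (cv z) (Pool.Agent.H583R2.idx (ca' z)))
        (mm Kc W (cv z) (Pool.Agent.H583R2.idx (ca' z))))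
        (mm Kc W (cv z) (Pool.Agent.H583R2.idx (ca' z)))
  · rw [if_pos h, if_pos (e3.2 h), e1]
  · rw [if_neg h, if_neg (fun h' => h (e3.1 h'))]

theorem r1_iff {Kc : ℕ} (W : ℕ) (A : Oracle) {z : List Bool}
    (h1 : Pool.Agent.H583R2.idx (ca' z) ≤ (xx z).length)
    (h2 : mm Kc W (cv z) (Pool.Agent.H583R2.idx (ca' z)) ≤ (xx z).length) :
    ((ww z).length ≤ (mz Kc W z).length ∧ r1 Kc W A z = [true]) ↔
      Sol Kc W A (cv z) (Pool.Agent.H583R2.idx (ca' z)) (ww z) := by
  unfold r1 g1 Sol Ac
  rw [out_iff, f1_eq W A h1 h2, unpair_pairBits]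
  simp only
  rw [mz_len W h1 h2, List.length_replicate]

theorem r2_iff {Kc : ℕ} (W : ℕ) (A : Oracle) {z : List Bool}
    (h1 : Pool.Agent.H583R2.idx (ca' z) ≤ (xx z).length)
    (h2 : mm Kc W (cv z) (Pool.Agent.H583R2.idx (ca' z)) ≤ (xx z).length) :
    r2 Kc W A z = [true] ↔ ∃ y, GG Kc W A (cv z) (Pool.Agent.H583R2.idx (ca' z)) (ww z) = true :: y ∧
      IsHit Kc W (tv W (cv z)) (nn Kc W (cv z) (Pool.Agent.H583R2.idx (ca' z))) A (cv z)
        (Pool.Agent.H583R2.idx (ca' z)) y := by
  have h3 := nn_le_mm Kc W (cv z) (Pool.Agent.H583R2.idx (ca' z))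
  have e2 : o2 Kc W A z = GG Kc W A (cv z) (Pool.Agent.H583R2.idx (ca' z)) (ww z) := by
    unfold o2 outp GG Out
    rw [mz_len W h1 h2, qz_eq W h1 (h3.trans h2)]
  unfold r2 g2
  rw [unpair_pairBits]
  simp only
  rw [e2, hitF_iff W A (cv z) (Pool.Agent.H583R2.idx (ca' z))]
  · rw [nmB, st_idx]
  · rw [List.length_replicate, cN_eq h1 (h3.trans h2)]
    rfl

end S11

open S11

theorem rl_np {Kc : ℕ} (hK : 1 ≤ Kc) (W : ℕ) (A : Oracle) (v₀ : List Bool) :
    ∃ (V : List Bool → List Bool) (p : Polynomial ℕ), IsFP A V ∧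
      ∀ x y, RL Kc W A v₀ x y ↔ y.length ≤ p.eval x.length ∧ V (pairBits x y) = [true] := by
  refine ⟨VR Kc W A v₀, Polynomial.C (2 * W) * (Polynomial.X + Polynomial.C 1) +
    (Polynomial.C 3 * Polynomial.X + Polynomial.C 4), VR_isFP Kc W A v₀, fun x y => ?_⟩
  have hx : xx (pairBits x y) = x := by unfold xx; rw [unpair_pairBits]
  have hy : yy (pairBits x y) = y := by unfold yy; rw [unpair_pairBits]
  rw [VR_iff, inst_iff hK]
  set z := pairBits x y with hz
  simp only [Polynomial.eval_add, Polynomial.eval_mul, Polynomial.eval_C, Polynomial.eval_X]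
  unfold RL
  rw [hx, hy]
  constructor
  · rintro (⟨h1, h2⟩ | ⟨v, s, h1, h2, h3, h4⟩)
    · exact ⟨by rw [h2]; simp, Or.inr ⟨h1, h2⟩⟩
    · have e1 : cv z = v := by
        unfold cv
        rw [hx, h3, qq, unpair_pairBits, nmB, unpair_pairBits]
      have e2 : ca z = st s := by
        unfold ca
        rw [hx, h3, qq, unpair_pairBits, nmB, unpair_pairBits]
      have e3 : pd z = List.replicate (nn Kc W v s) true := by
        unfold pd
        rw [hx, h3, qq, unpair_pairBits]
      have hlen : x.length = 2 * (2 * v.length + 1 + (st s).length) + 1 + nn Kc W v s := by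
        rw [h3, qq, len_pb, nmB, len_pb, List.length_replicate]
      have hs := le_nn hK W v s
      have hex : ∃ v s, c0 v = v₀ ∧ s < Mv W v ∧ x = qq Kc W v s := ⟨v, s, h1, h2, h3⟩
      rcases h4 with ⟨w, hw, hh⟩ | ⟨s', w, hs', hw, hF⟩
      · refine ⟨?_, Or.inl ⟨hex, Or.inl ?_⟩⟩
        · obtain ⟨c, y', hc, hy', rfl, -⟩ := hh
          have hc' : c ≤ W * (v.length + 1) := hc.le
          have h5 : W * (v.length + 1) ≤ W * (x.length + 1) :=
            Nat.mul_le_mul_left _ (by omega)
          rw [hw, List.length_cons, len_pb, List.length_replicate, hy']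
          nlinarith
        · unfold r0
          rw [e1, e2, e3, hy, hitF_iff W A v s]
          · exact ⟨w, hw, hh⟩
          · rfl
          · rw [List.length_replicate]
      · have e4 : ca' z = st s' := by
          unfold ca'
          rw [hy, hw, List.tail_cons, unpair_pairBits]
        have e5 : ww z = w := by
          unfold ww
          rw [hy, hw, List.tail_cons, unpair_pairBits]
        have k1 : Pool.Agent.H583R2.idx (ca' z) ≤ (xx z).length := by
          rw [e4, idx_st, hx]; omega
        have k2 : mm Kc W (cv z) (Pool.Agent.H583R2.idx (ca' z)) ≤ (xx z).length := by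
          rw [e4, idx_st, hx, e1]
          have := mm_le_nn' Kc W v hs'
          omega
        have q1 := r1_iff W A k1 k2
        have q2 := r2_iff W A k1 k2
        rw [e4, idx_st, e1, e5] at q1 q2
        obtain ⟨hF1, hF2⟩ := hF
        obtain ⟨q3, q4⟩ := q1.2 hF1
        refine ⟨?_, Or.inl ⟨hex, Or.inr ⟨?_, q4, fun h => hF2 (q2.1 h)⟩⟩⟩
        · have hwl : w.length ≤ mm Kc W v s' := hF1.1
          have := mm_le_nn' Kc W v hs'
          have h6 := U2A.st_length_le s'
          rw [hw, List.length_cons, len_pb]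
          have h7 : 0 ≤ 2 * W * (x.length + 1) := Nat.zero_le _
          omega
        · unfold st2
          simp only [Bool.and_eq_true, decide_eq_true_eq]
          rw [e4, e5, hy, idx_st, e2, idx_st]
          exact ⟨hw, hs', q3⟩
  · rintro ⟨-, ⟨⟨v, s, h1, h2, h3⟩, h4⟩ | ⟨h1, h2⟩⟩
    · right
      have e1 : cv z = v := by
        unfold cv
        rw [hx, h3, qq, unpair_pairBits, nmB, unpair_pairBits]
      have e2 : ca z = st s := by
        unfold ca
        rw [hx, h3, qq, unpair_pairBits, nmB, unpair_pairBits]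
      have e3 : pd z = List.replicate (nn Kc W v s) true := by
        unfold pd
        rw [hx, h3, qq, unpair_pairBits]
      have hlen : x.length = 2 * (2 * v.length + 1 + (st s).length) + 1 + nn Kc W v s := by
        rw [h3, qq, len_pb, nmB, len_pb, List.length_replicate]
      have hs := le_nn hK W v s
      refine ⟨v, s, h1, h2, h3, ?_⟩
      rcases h4 with h4 | ⟨h4, h5, h6⟩
      · left
        unfold r0 at h4
        rw [e1, e2, e3, hy, hitF_iff W A v s] at h4
        · exact h4
        · rfl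
        · rw [List.length_replicate]
      · right
        unfold st2 at h4
        simp only [Bool.and_eq_true, decide_eq_true_eq] at h4
        obtain ⟨g1, g2, g3⟩ := h4
        rw [e2, idx_st] at g2
        have k1 : Pool.Agent.H583R2.idx (ca' z) ≤ (xx z).length := by
          rw [hx]; omega
        have hs' : Pool.Agent.H583R2.idx (ca' z) < s := by omega
        have k2 : mm Kc W (cv z) (Pool.Agent.H583R2.idx (ca' z)) ≤ (xx z).length := by
          rw [hx, e1]
          have := mm_le_nn' Kc W v hs'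
          omega
        have q1 := r1_iff W A k1 k2
        have q2 := r2_iff W A k1 k2
        rw [e1] at q1 q2
        refine ⟨Pool.Agent.H583R2.idx (ca' z), ww z, hs', ?_, q1.1 ⟨g3, h5⟩, fun h => h6 (q2.2 h)⟩
        rw [st_idx, ← hy]
        exact g1
    · exact Or.inl ⟨h1, h2⟩

end Pool.Agent.H943R5.GC
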