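import Pool.Agent.H943R5.GC.DefsN

/-!
# Project GC, null side: geometry of the blocks, easy part
-/

namespace Pool.Agent.H943R5.GC

open Pool.Agent.NPC Pool.Agent.H628R3.RO Pool.Agent.H673R2.OneTT

namespace S5A

theorem pair_inj {x x' y y' : List Bool} (h : pairBits x y = pairBits x' y') :
    x = x' ∧ y = y' := by
  have h1 := congrArg unpair h
  rw [unpair_pairBits, unpair_pairBits] at h1
  exact ⟨congrArg Prod.fst h1, congrArg Prod.snd h1⟩

theorem st_inj {s s' : ℕ} (h : st s = st s') : s = s' := by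
  have h1 := congrArg Pool.Agent.H583R2.idx h
  unfold st at h1
  rw [Pool.Agent.H583R2.idx_str, Pool.Agent.H583R2.idx_str] at h1
  exact h1

theorem TT_strict : StrictMono TT := by
  intro a b h
  unfold TT tw
  exact Nat.pow_lt_pow_right (by norm_num) (Nat.pow_lt_pow_right (by norm_num) h)

theorem jj_pos {Kc : ℕ} (hK : 1 ≤ Kc) (W : ℕ) (v : List Bool) : 0 < jj Kc W v := by
  unfold jj
  exact Nat.mul_pos (by omega) (by omega)

end S5A

theorem qq_inj {Kc W : ℕ} {v v' : List Bool} {s s' : ℕ} (h : qq Kc W v s = qq Kc W v' s') :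
    v = v' ∧ s = s' := by
  unfold qq at h
  have h1 := (S5A.pair_inj h).1
  unfold nmB at h1
  have h2 := S5A.pair_inj h1
  exact ⟨h2.1, S5A.st_inj h2.2⟩

theorem card_blk (Kc W a : ℕ) (v : List Bool) (s : ℕ) :
    (blk Kc W a v s).card = a * 2 ^ (nn Kc W v s) := by
  unfold blk
  rw [Finset.card_product, Finset.card_range, Finset.card_image_of_injective]
  · simp
  · intro y y' h
    exact List.ofFn_injective (S5A.pair_inj h).2

theorem noHit_iff (Kc W a m : ℕ) (A : Oracle) (v : List Bool) (s : ℕ) :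
    A ∈ NoHit m (blk Kc W a v s) ↔ ¬ ∃ z, IsHit Kc W a m A v s z := by
  constructor
  · rintro h ⟨z, c, y, hc, hy, -, hH⟩
    refine h (c, pairBits (nmB v s) y) ?_ hH
    unfold blk
    rw [Finset.mem_product, Finset.mem_range, Finset.mem_image]
    refine ⟨hc, fun i => y.get (Fin.cast hy.symm i), Finset.mem_univ _, ?_⟩
    congr 1
    apply List.ext_getElem
    · simp [hy]
    · intro i h1 h2
      simp
  · intro h κ hκ hH
    unfold blk at hκ
    rw [Finset.mem_product, Finset.mem_range, Finset.mem_image] at hκ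
    obtain ⟨hc, y, -, hy⟩ := hκ
    refine h ⟨pairBits (List.replicate κ.1 true) (List.ofFn y), κ.1, List.ofFn y, hc,
      List.length_ofFn, rfl, ?_⟩
    rw [hy]
    exact hH

theorem nn_mono {Kc : ℕ} (hK : 1 ≤ Kc) (W : ℕ) (v : List Bool) : StrictMono (nn Kc W v) := by
  intro a b h
  unfold nn
  exact S5A.TT_strict (Nat.mul_lt_mul_of_pos_left (by omega) (S5A.jj_pos hK W v))

theorem nn_le_mm (Kc W : ℕ) (v : List Bool) (s : ℕ) : nn Kc W v s ≤ mm Kc W v s := by
  unfold nn mm
  exact S5A.TT_strict.monotone (Nat.mul_le_mul_left _ (by omega))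

theorem mm_le_nn (Kc W : ℕ) (v : List Bool) {s s' : ℕ} (h : s < s') :
    mm Kc W v s ≤ nn Kc W v s' := by
  unfold nn mm
  exact S5A.TT_strict.monotone (Nat.mul_le_mul_left _ (by omega))

end Pool.Agent.H943R5.GC
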