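import Pool.Agent.H943R5.GC.DefsN

/-!
# Project GC, task S5B: lengths and growth
-/

namespace Pool.Agent.H943R5.GC

open Pool.Agent.NPC Pool.Agent.H628R3.RO Pool.Agent.H673R2.OneTT

namespace S5B

theorem length_pb (x w : List Bool) : (pairBits x w).length = 2 * x.length + 1 + w.length :=
  Pool.Agent.H628R3.RO.length_pairBits_A3 x w

theorem length_ps (c i : ℕ) (w : List Bool) : (pos c i w).length = c + i + w.length + 2 := by
  unfold pos
  simp only [List.length_append, List.length_cons, List.length_replicate]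
  omega

theorem length_st (s : ℕ) : (st s).length ≤ s := Pool.Agent.H583R2.length_str_le s

/-- a polynomial with natural coefficients is at most a positive power of `n + 2` -/
theorem eval_le_pow' (p : Polynomial ℕ) : ∃ k, ∀ n, p.eval n ≤ (n + 2) ^ k := by
  induction p using Polynomial.induction_on' with
  | add p q hp hq =>
    obtain ⟨k, hk⟩ := hp
    obtain ⟨l, hl⟩ := hq
    refine ⟨k + l + 1, fun n => ?_⟩
    rw [Polynomial.eval_add]
    have h1 : (n + 2) ^ k ≤ (n + 2) ^ (k + l) := Nat.pow_le_pow_right (by omega) (by omega)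
    have h2 : (n + 2) ^ l ≤ (n + 2) ^ (k + l) := Nat.pow_le_pow_right (by omega) (by omega)
    have h3 : (n + 2) ^ (k + l + 1) = (n + 2) ^ (k + l) * (n + 2) := pow_succ _ _
    have h4 : (n + 2) ^ (k + l) * 2 ≤ (n + 2) ^ (k + l) * (n + 2) :=
      Nat.mul_le_mul_left _ (by omega)
    have := hk n
    have := hl n
    omega
  | monomial k c =>
    refine ⟨c + k, fun n => ?_⟩
    rw [Polynomial.eval_monomial, pow_add]
    refine Nat.mul_le_mul ?_ (Nat.pow_le_pow_left (by omega) k)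
    calc c ≤ 2 ^ c := Nat.lt_two_pow_self.le
      _ ≤ (n + 2) ^ c := Nat.pow_le_pow_left (by omega) c

theorem evalLePow (p : Polynomial ℕ) : ∃ k, 1 ≤ k ∧ ∀ n, 2 ≤ n → p.eval n ≤ n ^ (2 * k) := by
  obtain ⟨k, hk⟩ := eval_le_pow' p
  refine ⟨k + 1, by omega, fun n hn => (hk n).trans ?_⟩
  calc (n + 2) ^ k ≤ (n + 2) ^ (k + 1) := Nat.pow_le_pow_right (by omega) (by omega)
    _ ≤ (n ^ 2) ^ (k + 1) := Nat.pow_le_pow_left (by nlinarith) _
    _ = n ^ (2 * (k + 1)) := (pow_mul _ _ _).symm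

theorem evalMono (p : Polynomial ℕ) {a b : ℕ} (h : a ≤ b) : p.eval a ≤ p.eval b := by
  induction p using Polynomial.induction_on' with
  | add p q hp hq =>
    rw [Polynomial.eval_add, Polynomial.eval_add]
    exact Nat.add_le_add hp hq
  | monomial k c =>
    rw [Polynomial.eval_monomial, Polynomial.eval_monomial]
    exact Nat.mul_le_mul_left _ (Nat.pow_le_pow_left h k)

theorem TT_eq (n : ℕ) : TT n = 2 ^ (2 ^ n) := rfl

theorem TT_add (n j : ℕ) : TT (n + j) = (TT n) ^ (2 ^ j) := by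
  rw [TT_eq, TT_eq, ← pow_mul, ← pow_add]

theorem lt_TT (n : ℕ) : n < TT n :=
  (Nat.lt_two_pow_self).trans Nat.lt_two_pow_self

theorem TT_mono {a b : ℕ} (h : a ≤ b) : TT a ≤ TT b :=
  Nat.pow_le_pow_right (by norm_num) (Nat.pow_le_pow_right (by norm_num) h)

theorem jj_bounds {Kc : ℕ} (hK : 1 ≤ Kc) (W : ℕ) (v : List Bool) :
    Kc + v.length ≤ jj Kc W v ∧ tv W v ≤ jj Kc W v := by
  unfold jj tv
  refine ⟨?_, Nat.mul_le_mul_right _ (by omega)⟩
  have h1 : (Kc + W) * (v.length + 1) = Kc * v.length + Kc + W * (v.length + 1) := by ring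
  have h2 : 1 * v.length ≤ Kc * v.length := Nat.mul_le_mul_right _ hK
  rw [h1]
  omega

theorem nn_ge {Kc : ℕ} (hK : 1 ≤ Kc) (W : ℕ) (v : List Bool) (s : ℕ) :
    jj Kc W v * (2 * s + 2) < nn Kc W v s ∧ 16 ≤ nn Kc W v s := by
  refine ⟨lt_TT _, ?_⟩
  have h1 := (jj_bounds hK W v).1
  have h2 : 2 ≤ jj Kc W v * (2 * s + 2) := by nlinarith
  have h3 : TT 2 ≤ nn Kc W v s := TT_mono h2
  have h4 : TT 2 = 16 := by norm_num [TT_eq]
  omega

theorem nn_succ (Kc W : ℕ) (v : List Bool) (s : ℕ) :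
    nn Kc W v (s + 1) = (nn Kc W v s) ^ (2 ^ (2 * jj Kc W v)) := by
  unfold nn
  rw [← TT_add]
  have e : jj Kc W v * (2 * (s + 1) + 2) = jj Kc W v * (2 * s + 2) + 2 * jj Kc W v := by ring
  rw [e]

theorem mm_eq (Kc W : ℕ) (v : List Bool) (s : ℕ) :
    mm Kc W v s = (nn Kc W v s) ^ (2 ^ jj Kc W v) := by
  unfold nn mm
  rw [← TT_add]
  have e : jj Kc W v * (2 * s + 3) = jj Kc W v * (2 * s + 2) + jj Kc W v := by ring
  rw [e]

theorem nn_succ' (Kc W : ℕ) (v : List Bool) (s : ℕ) :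
    nn Kc W v (s + 1) = (mm Kc W v s) ^ (2 ^ jj Kc W v) := by
  unfold nn mm
  rw [← TT_add]
  have e : jj Kc W v * (2 * (s + 1) + 2) = jj Kc W v * (2 * s + 3) + jj Kc W v := by ring
  rw [e]

theorem two_le_mm (Kc W : ℕ) (v : List Bool) (s : ℕ) : 2 ≤ mm Kc W v s := by
  have h : TT 0 ≤ mm Kc W v s := TT_mono (Nat.zero_le _)
  have h4 : TT 0 = 2 := by norm_num [TT_eq]
  omega

theorem growth : ∀ Y : ℕ, 8 ≤ Y → Y ^ 2 + 5 * Y ≤ 2 ^ Y := by
  intro Y hY
  induction Y, hY using Nat.le_induction with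
  | base => norm_num
  | succ n hn ih =>
    rw [pow_succ 2 n]
    nlinarith

end S5B

open S5B

theorem len_bounds {Kc : ℕ} (hK : 1 ≤ Kc) (W : ℕ) (v : List Bool) (s : ℕ) :
    v.length ≤ nn Kc W v s ∧ s ≤ nn Kc W v s ∧ (st s).length ≤ nn Kc W v s ∧
      tv W v ≤ nn Kc W v s ∧ nn Kc W v s ≤ (qq Kc W v s).length ∧
      (qq Kc W v s).length ≤ 8 * nn Kc W v s := by
  obtain ⟨h1, h2⟩ := jj_bounds hK W v
  obtain ⟨h3, h4⟩ := nn_ge hK W v s
  have h5 : jj Kc W v ≤ jj Kc W v * (2 * s + 2) := Nat.le_mul_of_pos_right _ (by omega)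
  have h6 : s ≤ jj Kc W v * (2 * s + 2) :=
    (show s ≤ 2 * s + 2 by omega).trans (Nat.le_mul_of_pos_left _ (by omega))
  have h7 := length_st s
  have h8 : (qq Kc W v s).length =
      2 * (2 * v.length + 1 + (st s).length) + 1 + nn Kc W v s := by
    unfold qq nmB
    rw [length_pb, length_pb, List.length_replicate]
  refine ⟨by omega, by omega, by omega, by omega, by omega, by omega⟩

/-- The positions of the block of round `s` have lengths in `[nn v s, nn v (s + 1))`. -/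
theorem pos_len : ∃ K₀, ∀ Kc, K₀ ≤ Kc → ∀ W v s, ∀ a ≤ tv W v + 1,
    ∀ κ ∈ blk Kc W a v s, ∀ i ≤ nn Kc W v s + tv W v,
      nn Kc W v s ≤ (pos κ.1 i κ.2).length ∧ (pos κ.1 i κ.2).length < nn Kc W v (s + 1) := by
  refine ⟨1, fun Kc hK W v s a ha κ hκ i hi => ?_⟩
  obtain ⟨c, w⟩ := κ
  unfold blk at hκ
  rw [Finset.mem_product, Finset.mem_range, Finset.mem_image] at hκ
  obtain ⟨hc, y, -, hy⟩ := hκ
  dsimp only at hc hy
  obtain ⟨h1, h2, h3, h4, h5, h6⟩ := len_bounds hK W v s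
  have h7 := (nn_ge hK W v s).2
  have h8 : w.length = 2 * (2 * v.length + 1 + (st s).length) + 1 + nn Kc W v s := by
    rw [← hy]
    unfold nmB
    rw [length_pb, length_pb, List.length_ofFn]
  have h9 : (nn Kc W v s) ^ 4 ≤ nn Kc W v (s + 1) := by
    rw [nn_succ]
    refine Nat.pow_le_pow_right (by omega) ?_
    have h10 := (jj_bounds hK W v).1
    calc 4 = 2 ^ 2 := by norm_num
      _ ≤ 2 ^ (2 * jj Kc W v) := Nat.pow_le_pow_right (by norm_num) (by omega)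
  have h10 : 16 * 16 * nn Kc W v s ≤ (nn Kc W v s) ^ 4 := by
    have e : (nn Kc W v s) ^ 4 = (nn Kc W v s * nn Kc W v s * nn Kc W v s) * nn Kc W v s := by
      ring
    rw [e]
    refine Nat.mul_le_mul_right _ ?_
    calc 16 * 16 = 16 * 16 * 1 := by norm_num
      _ ≤ _ := Nat.mul_le_mul (Nat.mul_le_mul h7 h7) (by omega)
  show nn Kc W v s ≤ (pos c i w).length ∧ (pos c i w).length < nn Kc W v (s + 1)
  rw [length_ps, h8]
  constructor <;> omega

theorem poly_mm (P : Polynomial ℕ) : ∃ K₀, ∀ Kc, K₀ ≤ Kc → ∀ W v s,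
    P.eval (mm Kc W v s) < nn Kc W v (s + 1) := by
  obtain ⟨k, hk1, hk⟩   := evalLePow P
  refine ⟨2 * k, fun Kc hK W v s => ?_⟩
  have h1 := (jj_bounds (show 1 ≤ Kc by omega) W v).1
  refine (hk _ (two_le_mm Kc W v s)).trans_lt ?_
  rw [nn_succ']
  refine Nat.pow_lt_pow_right (two_le_mm Kc W v s) ?_
  calc 2 * k < 2 ^ (2 * k) := Nat.lt_two_pow_self
    _ ≤ 2 ^ jj Kc W v := Nat.pow_le_pow_right (by norm_num) (by omega)

theorem tw_chain (P₁ P₂ : Polynomial ℕ) : ∃ K₀, ∀ Kc, K₀ ≤ Kc → ∀ W v s a b c,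
    a + b + c ≤ v.length →
      tw (P₂.eval (tw (P₁.eval (tw ((qq Kc W v s).length + 2) a)) b)) c ≤ mm Kc W v s := by
  obtain ⟨k, hk1, hk⟩   := evalLePow P₁
  obtain ⟨l, hl1, hl⟩   := evalLePow P₂
  have hkl : 0 < 8 * k * l := by positivity
  refine ⟨8 * k * l, fun Kc hK W v s a b c habc => ?_⟩
  have hK1 : 1 ≤ Kc := by omega
  have h1 := (jj_bounds hK1 W v).1
  obtain ⟨-, -, -, -, -, h6⟩ := len_bounds hK1 W v s
  have h7 := (nn_ge hK1 W v s).2
  rw [mm_eq]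
  generalize nn Kc W v s = N at h6 h7
  have h8 : (qq Kc W v s).length + 2 ≤ N ^ 2 := by nlinarith
  have g1 : tw ((qq Kc W v s).length + 2) a ≤ N ^ (2 * 2 ^ a) := by
    unfold tw
    calc ((qq Kc W v s).length + 2) ^ 2 ^ a ≤ (N ^ 2) ^ 2 ^ a := Nat.pow_le_pow_left h8 _
      _ = N ^ (2 * 2 ^ a) := (pow_mul _ _ _).symm
  have p1 : ∀ e, 0 < e → 2 ≤ N ^ e := fun e he => by
    calc 2 ≤ N := by omega
      _ = N ^ 1 := (pow_one N).symm
      _ ≤ N ^ e := Nat.pow_le_pow_right (by omega) he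
  have g2 : P₁.eval (tw ((qq Kc W v s).length + 2) a) ≤ N ^ (2 * 2 ^ a * (2 * k)) := by
    refine (evalMono P₁ g1).trans ((hk _ (p1 _ (by positivity))).trans ?_)
    exact (pow_mul _ _ _).ge
  have g3 : tw (P₁.eval (tw ((qq Kc W v s).length + 2) a)) b ≤
      N ^ (2 * 2 ^ a * (2 * k) * 2 ^ b) := by
    rw [pow_mul N (2 * 2 ^ a * (2 * k)) (2 ^ b)]
    exact Nat.pow_le_pow_left g2 _
  have g4 : P₂.eval (tw (P₁.eval (tw ((qq Kc W v s).length + 2) a)) b) ≤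
      N ^ (2 * 2 ^ a * (2 * k) * 2 ^ b * (2 * l)) := by
    refine (evalMono P₂ g3).trans ((hl _ (p1 _ (by positivity))).trans ?_)
    exact (pow_mul _ _ _).ge
  have g5 : tw (P₂.eval (tw (P₁.eval (tw ((qq Kc W v s).length + 2) a)) b)) c ≤
      N ^ (2 * 2 ^ a * (2 * k) * 2 ^ b * (2 * l) * 2 ^ c) := by
    rw [pow_mul N (2 * 2 ^ a * (2 * k) * 2 ^ b * (2 * l)) (2 ^ c)]
    exact Nat.pow_le_pow_left g4 _
  refine g5.trans (Nat.pow_le_pow_right (by omega) ?_)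
  calc 2 * 2 ^ a * (2 * k) * 2 ^ b * (2 * l) * 2 ^ c = (8 * k * l) * 2 ^ (a + b + c) := by
        rw [pow_add, pow_add]; ring
    _ ≤ 2 ^ (8 * k * l) * 2 ^ v.length :=
        Nat.mul_le_mul Nat.lt_two_pow_self.le (Nat.pow_le_pow_right (by norm_num) habc)
    _ = 2 ^ (8 * k * l + v.length) := (pow_add _ _ _).symm
    _ ≤ 2 ^ jj Kc W v := Nat.pow_le_pow_right (by norm_num) (by omega)

/-- The error terms. -/
theorem err_sum : ∃ K₀, ∀ Kc, K₀ ≤ Kc → ∀ W v,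
    ∑ s ∈ Finset.range (Mv W v), (nn Kc W v (s + 1) : ℝ) * (1 / 2) ^ (nn Kc W v s) ≤
      (1 / 2) ^ (tv W v) := by
  refine ⟨2, fun Kc hK W v => ?_⟩
  obtain ⟨h1, h2⟩ := jj_bounds (show 1 ≤ Kc by omega) W v
  have key : ∀ s ∈ Finset.range (Mv W v),
      (nn Kc W v (s + 1) : ℝ) * (1 / 2) ^ (nn Kc W v s) ≤ (1 / 2) ^ (5 * tv W v) := by
    intro s _
    have h3 : 2 * jj Kc W v ≤ jj Kc W v * (2 * s + 2) := by
      rw [mul_comm]
      exact Nat.mul_le_mul_left _ (by omega)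
    have e1 : nn Kc W v s = 2 ^ (2 ^ (jj Kc W v * (2 * s + 2))) := rfl
    have e2 : nn Kc W v (s + 1) ≤ 2 ^ ((2 ^ (jj Kc W v * (2 * s + 2))) ^ 2) := by
      rw [← pow_mul]
      have : nn Kc W v (s + 1) = 2 ^ (2 ^ (jj Kc W v * (2 * (s + 1) + 2))) := rfl
      rw [this]
      refine Nat.pow_le_pow_right (by norm_num) (Nat.pow_le_pow_right (by norm_num) ?_)
      have : jj Kc W v * (2 * (s + 1) + 2) = jj Kc W v * (2 * s + 2) + 2 * jj Kc W v := by ring
      omega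
    have h4 : jj Kc W v * (2 * s + 2) < 2 ^ (jj Kc W v * (2 * s + 2)) := Nat.lt_two_pow_self
    have h5 : 2 ^ 4 ≤ 2 ^ (jj Kc W v * (2 * s + 2)) :=
      Nat.pow_le_pow_right (by norm_num) (by omega)
    rw [e1]
    generalize 2 ^ (jj Kc W v * (2 * s + 2)) = Y at *
    have h6 := growth Y (by omega)
    have h7 : Y ^ 2 + 5 * tv W v ≤ 2 ^ Y := by omega
    obtain ⟨d, hd⟩ := Nat.exists_eq_add_of_le h7
    rw [hd]
    have h8 : (nn Kc W v (s + 1) : ℝ) ≤ 2 ^ (Y ^ 2) := by exact_mod_cast e2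
    have h9 : (0 : ℝ) ≤ (1 / 2) ^ (5 * tv W v) := by positivity
    calc (nn Kc W v (s + 1) : ℝ) * (1 / 2) ^ (Y ^ 2 + 5 * tv W v + d)
        ≤ 2 ^ (Y ^ 2) * (1 / 2) ^ (Y ^ 2 + 5 * tv W v + d) :=
          mul_le_mul_of_nonneg_right h8 (by positivity)
      _ = (2 ^ (Y ^ 2) * (1 / 2) ^ (Y ^ 2)) * (1 / 2) ^ (5 * tv W v) * (1 / 2) ^ d := by
          rw [pow_add, pow_add]; ring
      _ = (1 / 2) ^ (5 * tv W v) * (1 / 2) ^ d := by
          rw [← mul_pow]; norm_num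
      _ ≤ (1 / 2) ^ (5 * tv W v) * 1 :=
          mul_le_mul_of_nonneg_left (pow_le_one₀ (by norm_num) (by norm_num)) h9
      _ = (1 / 2) ^ (5 * tv W v) := mul_one _
  refine (Finset.sum_le_sum key).trans ?_
  rw [Finset.sum_const, Finset.card_range, nsmul_eq_mul]
  have e3 : ((Mv W v : ℕ) : ℝ) = 2 ^ (4 * tv W v) := by
    unfold Mv
    push_cast
    rfl
  rw [e3]
  have e4 : 5 * tv W v = 4 * tv W v + tv W v := by ring
  rw [e4, pow_add, ← mul_assoc, ← mul_pow]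
  norm_num

end Pool.Agent.H943R5.GC
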