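import Pool.Agent.H943R5.GC.S14Aux
import Pool.Agent.H943R5.GC.S5A
import Pool.Agent.H943R5.GC.S5B

/-!
# Project GC, task S14: oracles with a complete search problem are in the exceptional events
(with the statement of `rl_np` as a hypothesis)
-/

namespace Pool.Agent.H943R5.GC

open Pool.Agent.NPC Pool.Agent.H628R3.RO Pool.Agent.H673R2.OneTT

theorem ev_tfnp_of (hRl : S14.HRl) : ∃ K₀, ∀ Kc, K₀ ≤ Kc → ∀ (W : ℕ) (A : Oracle),
    Pool.Agent.H543R3.PC.HasTFNP A → ∃ v, A ∈ Ev1 Kc W v :=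
  S14.main (fun h => qq_inj h) noHit_iff (fun hK W v s => len_bounds hK W v s) tw_chain hRl

end Pool.Agent.H943R5.GC
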