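import Pool.Agent.H943R5.GC.DefsN
import Pool.Agent.H943R5.GC.U4
import Pool.Agent.H543R3.PC.A2

/-!
# Project GC, task S16: a `p`-optimal proof system for an `NP`-complete set gives a complete total
# search problem
-/

namespace Pool.Agent.H943R5.GC

open Pool.Agent.NPC Pool.Agent.H628R3.RO Pool.Agent.H673R2.OneTT Pool.Agent.H660R2.NX

namespace S16

theorem p_rep {α : Type} [TEnc α] {n : α → ℕ} (hn : UPoly n) (b : Bool) :
    NPC.Poly (fun a => List.replicate (n a) b) :=
  (NPC.Poly.map (F := fun (_ : α) (_ : Unit) => b) hn (NPC.Poly.const b)).congr fun a => by simp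

/-- Coding of a nondeterministic algorithm; the universal algorithm checks the length of the
witness. -/
theorem code_nd' (A : Oracle) {V : List Bool → List Bool} (p : Polynomial ℕ) (hV : IsFP A V) :
    ∃ (e : Code) (q : Polynomial ℕ), ∀ (u w : List Bool) (m : ℕ), q.eval u.length ≤ m →
      (uA.out A (pairBits (insK e u m) w) = some [true] ↔
        (w.length ≤ p.eval u.length ∧ V (pairBits u w) = [true])) := by
  have h2 : IsFP A (fun t => pairBits (V t) t) := IsFP.pair hV (IsFP.of_poly Poly.id)
  have h3 : Poly (fun t : List Bool => [decide ((unpair t).1 = [true]) &&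
      decide ((unpair (unpair t).2).2.length ≤ p.eval (unpair (unpair t).2).1.length)]) := by
    have h4 : Poly (fun t : List Bool => (unpair t).2) := Poly.snd poly_unpair
    have h5 : Poly (fun t : List Bool => (unpair (unpair t).2).1) :=
      Poly.fst (poly_unpair.comp h4)
    have h6 : Poly (fun t : List Bool => (unpair (unpair t).2).2) :=
      Poly.snd (poly_unpair.comp h4)
    exact Poly.cons (Poly.and (Poly.decide_eq (Poly.fst poly_unpair) (NPC.Poly.const [true]))
      (Poly.decide_le (Poly.length h6) (UPoly.eval (UPoly.length h5) p).toPoly))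
      (NPC.Poly.const [])
  have h4 := IsFP.comp (IsFP.of_poly (A := A) h3) h2
  simp only [unpair_pairBits] at h4
  obtain ⟨M, hM⟩ := h4
  beta_reduce at hM
  obtain ⟨e, bm, hbm⟩ := U4.code_alg M
  refine ⟨e, bm.comp (Polynomial.X + p) + p, fun u w m hm => ?_⟩
  rw [Polynomial.eval_add, Polynomial.eval_comp, Polynomial.eval_add, Polynomial.eval_X] at hm
  have hMw := hM (pairBits u w)
  rw [unpair_pairBits] at hMw
  constructor
  · intro h5
    obtain ⟨n', h6⟩ := hbm.2 A u w m h5
    have h7 := run_det M A _ _ _ _ _ _ h6 hMw
    simp only [List.cons.injEq, and_true] at h7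
    have h9 := h7.symm
    simp only [Bool.and_eq_true, decide_eq_true_eq] at h9
    exact ⟨h9.2, h9.1⟩
  · rintro ⟨hw, h5⟩
    have h7 := hbm.1 A u w m (p.eval u.length) hw (by omega) _ hMw
    rw [h7]
    simp [h5, hw]

theorem KA_nonempty (A : Oracle) : (KA A).Nonempty := by
  have h1 : IsNP A Set.univ := by
    refine ⟨fun _ => [true], 0, IsFP.of_poly (NPC.Poly.const [true]), fun x => ?_⟩
    simp only [Set.mem_univ, true_iff]
    exact ⟨[], by simp, trivial⟩
  obtain ⟨F, -, hF⟩ := hard_KA A _ h1
  exact ⟨F [], (hF []).1 (Set.mem_univ _)⟩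

/-- the verifier of the complete search problem -/
def ver (P uf : List Bool → List Bool) (t : List Bool) : List Bool :=
  if P (unpair (unpair t).1).2 = (unpair (unpair t).1).1 then
    (if uf (pairBits (unpair (unpair t).1).1 (unpair t).2) = [true] then [true] else [])
  else if (unpair t).2 = [] then [true] else []

theorem ver_fp {A : Oracle} {P uf : List Bool → List Bool} (hP : IsFP A P) (hu : IsFP A uf) :
    IsFP A (ver P uf) := by
  have q1 : Poly (fun t : List Bool => (unpair t).1) := Poly.fst poly_unpair
  have q2 : Poly (fun t : List Bool => (unpair (unpair t).1).2) := Poly.snd (poly_unpair.comp q1)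
  have h1 : IsFP A (fun t => P (unpair (unpair t).1).2) := IsFP.comp hP (IsFP.of_poly q2)
  have r0 : Poly (fun p : List Bool × List Bool => p.1) := Poly.fst Poly.id
  have r1 : Poly (fun p : List Bool × List Bool => (unpair p.1).1) :=
    Poly.fst (poly_unpair.comp r0)
  have r2 : Poly (fun p : List Bool × List Bool => (unpair p.1).2) :=
    Poly.snd (poly_unpair.comp r0)
  have r3 : Poly (fun p : List Bool × List Bool => (unpair (unpair p.1).1).1) :=
    Poly.fst (poly_unpair.comp r1)
  have s0 : Poly (fun p : List Bool × List Bool × List Bool => p.1) := Poly.fst Poly.id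
  have s1 : Poly (fun p : List Bool × List Bool × List Bool => (unpair p.1).1) :=
    Poly.fst (poly_unpair.comp s0)
  have s2 : Poly (fun p : List Bool × List Bool × List Bool => (unpair p.1).2) :=
    Poly.snd (poly_unpair.comp s0)
  have s3 : Poly (fun p : List Bool × List Bool × List Bool => (unpair (unpair p.1).1).1) :=
    Poly.fst (poly_unpair.comp s1)
  refine IsFP.seq (φ := fun p => pairBits (unpair (unpair p.1).1).1 (unpair p.1).2)
    (ψ := fun p => if p.2.1 = (unpair (unpair p.1).1).1 then
      (if p.2.2 = [true] then [true] else []) else if (unpair p.1).2 = [] then [true] else [])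
    h1 hu (H622R2.poly_pairBits r3 r2) ?_
  refine Poly.ite (Poly.decide_eq (Poly.fst (Poly.snd Poly.id)) s3)
    (Poly.ite (Poly.decide_eq (Poly.snd (Poly.snd Poly.id)) (NPC.Poly.const [true]))
      (NPC.Poly.const [true]) (NPC.Poly.const []))
    (Poly.ite (Poly.decide_eq s2 (NPC.Poly.const [])) (NPC.Poly.const [true])
      (NPC.Poly.const []))

theorem ver_pair (P uf : List Bool → List Bool) (x w : List Bool) :
    ver P uf (pairBits x w) =
      if P (unpair x).2 = (unpair x).1 then
        (if uf (pairBits (unpair x).1 w) = [true] then [true] else [])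
      else if w = [] then [true] else [] := by
  unfold ver
  simp only [unpair_pairBits]

end S16

open S16 in
theorem hasTFNP_of_hasPOptS {A : Oracle} (h : Pool.Agent.H543R3.PC.HasPOptS A) :
    Pool.Agent.H543R3.PC.HasTFNP A := by
  obtain ⟨L, hL, hhard, P', hP'⟩ := h
  obtain ⟨P, hP⟩ := hP'.transfer (hhard (KA A) (isNP_KA A)) (KA_nonempty A)
  choose uf huf using uA_total A
  have hu : IsFP A uf := ⟨uA, huf⟩
  refine ⟨fun x w => w.length ≤ x.length ∧ ver P uf (pairBits x w) = [true], ⟨⟨ver P uf,
    Polynomial.X, ver_fp hP.1.1 hu, fun x y => by rw [Polynomial.eval_X]⟩, fun x => ?_⟩, ?_⟩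
  · by_cases hx : P (unpair x).2 = (unpair x).1
    · have hmem : (unpair x).1 ∈ KA A := by
        rw [← hP.1.2]
        exact ⟨_, hx⟩
      obtain ⟨w, hw, hw2⟩ := hmem
      have hlen := Pool.Agent.H543R3.PC.unpair_len x
      refine ⟨w, by omega, ?_⟩
      rw [ver_pair, if_pos hx, if_pos]
      have := huf (pairBits (unpair x).1 w)
      rw [hw2] at this
      exact (Option.some.inj this).symm
    · refine ⟨[], by simp, ?_⟩
      rw [ver_pair, if_neg hx, if_pos rfl]
  · rintro S ⟨⟨V, p, hV, hS⟩, htot⟩
    obtain ⟨e, q, hq⟩ := code_nd' A p hV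
    set b : Polynomial ℕ := q + p with hb
    set z : List Bool → List Bool := fun u => insK e u (b.eval u.length) with hz
    have hzfp : IsFP A z := by
      apply IsFP.of_poly
      rw [hz]
      unfold insK
      exact H622R2.poly_pairBits (NPC.Poly.const _) (H622R2.poly_pairBits Poly.id
        (p_rep (UPoly.eval (UPoly.length Poly.id) b) true))
    have hbe : ∀ u : List Bool, b.eval u.length = q.eval u.length + p.eval u.length := fun u => by
      rw [hb, Polynomial.eval_add]
    have hkey : ∀ u w : List Bool, uA.out A (pairBits (z u) w) = some [true] ↔ S u w := by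
      intro u w
      rw [hS, hz]
      exact hq u w _ (by rw [hbe]; omega)
    have hzKA : ∀ u, z u ∈ KA A := by
      intro u
      obtain ⟨w, hw⟩ := htot u
      have hw' := (hS u w).1 hw
      refine ⟨w, ?_, (hkey u w).2 hw⟩
      have h1 := le_length_insK e u (b.eval u.length)
      have h2 := hbe u
      have h3 : (z u).length = (insK e u (b.eval u.length)).length := rfl
      omega
    have hsys : IsProofSystem A (KA A) (addSys (fun x => x) P z) := by
      refine ⟨addSys_isFP (IsFP.of_poly Poly.id) hP.1.1 hzfp, ?_⟩
      ext x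
      constructor
      · rintro ⟨y, rfl⟩
        unfold addSys
        split_ifs with h
        · exact hzKA _
        · rw [← hP.1.2]
          exact ⟨_, rfl⟩
      · intro hx
        rw [← hP.1.2] at hx
        obtain ⟨y, hy⟩ := hx
        refine ⟨false :: y, ?_⟩
        unfold addSys
        rw [if_neg (by simp), List.tail_cons, hy]
    obtain ⟨g, hg, hgP⟩ := hP.2 _ hsys
    refine ⟨fun u => pairBits (z u) (g (true :: u)), fun t => (unpair t).2, ?_,
      IsFP.of_poly (Poly.snd poly_unpair), fun u y hy => ?_⟩
    · exact IsFP.pair hzfp (IsFP.comp hg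
        (IsFP.of_poly (Poly.cons (NPC.Poly.const true) Poly.id)))
    · have h1 := hy.2
      have h2 : P (g (true :: u)) = z u := by rw [hgP, addSys_true]
      rw [ver_pair, unpair_pairBits, if_pos h2] at h1
      have h3 : uf (pairBits (z u) y) = [true] := by
        by_contra hne
        rw [if_neg hne] at h1
        simp at h1
      have h4 := huf (pairBits (z u) y)
      rw [h3] at h4
      change S u (unpair (pairBits u y)).2
      rw [unpair_pairBits]
      exact (hkey u y).1 h4

end Pool.Agent.H943R5.GC
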