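import Pool.Agent.H943R5.GC.DefsN
import Pool.Agent.H943R5.GC.N6

/-!
# S4: from events to covers
-/

set_option autoImplicit false

namespace Pool.Agent.H943R5.GC

open Pool.Agent.NPC Pool.Agent.H628R3.RO Pool.Agent.H673R2.OneTT
open Pool.Agent.H620R2 (Gauge.Null Gauge.Extends Gauge.str Gauge.ranO)

namespace S4

open MeasureTheory Filter N6
open Pool.Agent.H620R2.Gauge (idx str str_idx idx_str str_injective Extends sval sval_bounds idx_eq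
  sval_pos)

/-- number of strings -/
def NN (Kc W : ℕ) (v : List Bool) : ℕ := 2 ^ (nn Kc W v (Mv W v)) - 1

theorem agree {l : ℕ} {A B : Oracle} (h : pre B (2 ^ l - 1) = pre A (2 ^ l - 1)) {x : List Bool}
    (hx : x.length < l) : A x = B x := by
  have h1 : idx x < 2 ^ l - 1 := by
    have h2 := (sval_bounds x).2
    have h3 : 2 ^ (x.length + 1) ≤ 2 ^ l := Nat.pow_le_pow_right (by norm_num) hx
    have h4 := sval_pos x
    rw [idx_eq]
    omega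
  have h6 : (pre B (2 ^ l - 1))[idx x]'(by rw [pre_length]; exact h1) =
      (pre A (2 ^ l - 1))[idx x]'(by rw [pre_length]; exact h1) := by
    simp only [h]
  simpa [pre, str_idx] using h6.symm

/-- the sequences for the code `v` -/
def Sv (Kc W : ℕ) (Ev : ℕ → List Bool → Set Oracle) (v : List Bool) : Set (List Bool) :=
  {σ | ∃ A ∈ Ev W v, pre A (NN Kc W v) = σ}

theorem Sv_length {Kc W : ℕ} {Ev : ℕ → List Bool → Set Oracle} {v σ : List Bool}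
    (h : σ ∈ Sv Kc W Ev v) : σ.length = NN Kc W v := by
  obtain ⟨A, -, rfl⟩ := h
  exact pre_length _ _

theorem sum_Sv (f : ℕ → ℝ) (Kc W : ℕ) (Ev : ℕ → List Bool → Set Oracle) (v : List Bool)
    (h2 : RLoc {x | x.length < nn Kc W v (Mv W v)} (Ev W v)) (c : ℝ)
    (h3 : prob (Ev W v) ≤ c) :
    ∑' σ : Sv Kc W Ev v, ENNReal.ofReal (2 ^ (f σ.1.length - σ.1.length)) ≤
      ENNReal.ofReal (2 ^ (f (NN Kc W v)) * c) := by
  have hterm : ∀ τ : Sv Kc W Ev v, ENNReal.ofReal (2 ^ (f τ.1.length - τ.1.length)) =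
      ENNReal.ofReal (2 ^ (f (NN Kc W v))) * randomOracle (cyl τ.1) := by
    intro τ
    rw [meas_cyl, ← half_pow, ← ENNReal.ofReal_mul (Real.rpow_pos_of_pos (by norm_num) _).le,
      ← Real.rpow_add (by norm_num), Sv_length τ.2]
    rfl
  have hdisj : Pairwise (fun τ τ' : Sv Kc W Ev v => Disjoint (cyl τ.1) (cyl τ'.1)) := by
    intro τ τ' hne
    rw [Set.disjoint_left]
    intro A h1 h2
    apply hne
    apply Subtype.ext
    have e1 := (ext_iff A τ.1).1 h1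
    have e2 := (ext_iff A τ'.1).1 h2
    rw [← e1, ← e2, Sv_length τ.2, Sv_length τ'.2]
  have hsub : (⋃ τ : Sv Kc W Ev v, cyl τ.1) ⊆ Ev W v := by
    refine Set.iUnion_subset fun τ => ?_
    intro B hB
    obtain ⟨A, hA, hAτ⟩ := τ.2
    have e1 := (ext_iff B τ.1).1 hB
    rw [Sv_length τ.2, ← hAτ] at e1
    refine (h2 A B ?_).1 hA
    intro x hx
    exact agree e1 hx
  have hne : randomOracle (Ev W v) ≠ ⊤ := measure_ne_top _ _
  calc ∑' τ : Sv Kc W Ev v, ENNReal.ofReal (2 ^ (f τ.1.length - τ.1.length))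
      = ∑' τ : Sv Kc W Ev v, ENNReal.ofReal (2 ^ (f (NN Kc W v))) * randomOracle (cyl τ.1) :=
        tsum_congr hterm
    _ = ENNReal.ofReal (2 ^ (f (NN Kc W v))) * ∑' τ : Sv Kc W Ev v, randomOracle (cyl τ.1) :=
        ENNReal.tsum_mul_left
    _ = ENNReal.ofReal (2 ^ (f (NN Kc W v))) *
          randomOracle (⋃ τ : Sv Kc W Ev v, cyl τ.1) := by
        rw [measure_iUnion hdisj (fun τ => measurableSet_cyl τ.1)]
    _ ≤ ENNReal.ofReal (2 ^ (f (NN Kc W v))) * ENNReal.ofReal c := by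
        refine mul_le_mul_right ((measure_mono hsub).trans ?_) _
        rw [ENNReal.le_ofReal_iff_toReal_le hne (le_trans ENNReal.toReal_nonneg h3)]
        exact h3
    _ = ENNReal.ofReal (2 ^ (f (NN Kc W v)) * c) := by
        rw [ENNReal.ofReal_mul (Real.rpow_pos_of_pos (by norm_num) _).le]

/-- sum over all strings -/
theorem sum_len (g : ℕ → ENNReal) :
    ∑' v : List Bool, g v.length = ∑' n : ℕ, 2 ^ n * g n := by
  rw [← (Equiv.sigmaFiberEquiv (List.length : List Bool → ℕ)).tsum_eq]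
  rw [ENNReal.tsum_sigma']
  refine tsum_congr fun n => ?_
  have h1 : ∀ v : {v : List Bool // v.length = n},
      g ((Equiv.sigmaFiberEquiv (List.length : List Bool → ℕ)) ⟨n, v⟩).length = g n := by
    intro v
    have : ((Equiv.sigmaFiberEquiv (List.length : List Bool → ℕ)) ⟨n, v⟩).length = n := v.2
    rw [this]
  rw [tsum_congr h1]
  have h2 : (∑' _ : List.Vector Bool n, g n) = 2 ^ n * g n := by
    rw [tsum_fintype, Finset.sum_const, Finset.card_univ, card_vector, nsmul_eq_mul]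
    simp
  exact h2

theorem lstep (m n : ℕ) (x : ℝ) (h1 : (2 : ℝ) ^ m ≤ x) (h2 : x ≤ (2 : ℝ) ^ n) :
    (m : ℝ) ≤ Real.logb 2 x ∧ Real.logb 2 x ≤ n := by
  have h3 : (0 : ℝ) < 2 ^ m := by positivity
  have h4 : 0 < x := lt_of_lt_of_le h3 h1
  constructor
  · rw [Real.le_logb_iff_rpow_le (by norm_num) h4, Real.rpow_natCast]
    exact h1
  · rw [Real.logb_le_iff_le_rpow (by norm_num) h4, Real.rpow_natCast]
    exact h2

theorem pred_le (a : ℕ) (ha : 1 ≤ a) : (2 : ℝ) ^ (a - 1) ≤ (2 : ℝ) ^ a - 1 := by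
  obtain ⟨b, rfl⟩ : ∃ b, a = b + 1 := ⟨a - 1, by omega⟩
  rw [Nat.add_sub_cancel, pow_succ]
  have : (1 : ℝ) ≤ 2 ^ b := one_le_pow₀ (by norm_num)
  linarith

theorem log4_tower (e : ℕ) (he : 2 ≤ e) :
    log4 (2 ^ (2 ^ (2 ^ e)) - 1) ≤ Real.logb 2 e := by
  have hN : ((2 ^ (2 ^ (2 ^ e)) - 1 : ℕ) : ℝ) = (2 : ℝ) ^ (2 ^ (2 ^ e)) - 1 := by
    rw [Nat.cast_sub (Nat.one_le_two_pow)]
    push_cast
    ring
  unfold log4
  rw [hN]
  have e1 : 1 ≤ 2 ^ (2 ^ e) := Nat.one_le_two_pow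
  have e2 : 1 ≤ 2 ^ e := Nat.one_le_two_pow
  obtain ⟨a1, b1⟩ := lstep (2 ^ (2 ^ e) - 1) (2 ^ (2 ^ e)) ((2 : ℝ) ^ (2 ^ (2 ^ e)) - 1)
    (pred_le _ e1) (by linarith)
  have a1' : (2 : ℝ) ^ (2 ^ e - 1) ≤ Real.logb 2 ((2 : ℝ) ^ (2 ^ (2 ^ e)) - 1) := by
    refine le_trans (pred_le _ e2) (le_trans (le_of_eq ?_) a1)
    rw [Nat.cast_sub e1]
    push_cast
    ring
  have b1' : Real.logb 2 ((2 : ℝ) ^ (2 ^ (2 ^ e)) - 1) ≤ (2 : ℝ) ^ (2 ^ e) := by
    refine b1.trans (le_of_eq ?_)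
    push_cast
    ring
  obtain ⟨a2, b2⟩ := lstep _ _ _ a1' b1'
  have a2' : (2 : ℝ) ^ (e - 1) ≤ Real.logb 2 (Real.logb 2 ((2 : ℝ) ^ (2 ^ (2 ^ e)) - 1)) := by
    refine le_trans (pred_le _ (by omega)) (le_trans (le_of_eq ?_) a2)
    rw [Nat.cast_sub e2]
    push_cast
    ring
  have b2' : Real.logb 2 (Real.logb 2 ((2 : ℝ) ^ (2 ^ (2 ^ e)) - 1)) ≤ (2 : ℝ) ^ e := by
    refine b2.trans (le_of_eq ?_)
    push_cast
    ring
  obtain ⟨a3, b3⟩ := lstep _ _ _ a2' b2'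
  have h0 : (0 : ℝ) < ((e - 1 : ℕ) : ℝ) := by
    have : 0 < e - 1 := by omega
    exact_mod_cast this
  exact Real.logb_le_logb_of_le (by norm_num) (lt_of_lt_of_le h0 a3) b3

/-- the exponent -/
def ee (Kc W : ℕ) (v : List Bool) : ℕ := jj Kc W v * (2 * Mv W v + 2)

theorem NN_eq (Kc W : ℕ) (v : List Bool) : NN Kc W v = 2 ^ (2 ^ (2 ^ (ee Kc W v))) - 1 := rfl

theorem tv_pos {W : ℕ} (hW : 1 ≤ W) (v : List Bool) : 1 ≤ tv W v :=
  Nat.mul_pos hW (Nat.succ_pos _)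

theorem ee_lower {Kc W : ℕ} (hW : 1 ≤ W) (v : List Bool) : 2 * W ≤ ee Kc W v := by
  unfold ee jj
  have h1 : 1 ≤ v.length + 1 := by omega
  calc 2 * W = W * 2 := by ring
    _ ≤ ((Kc + W) * (v.length + 1)) * (2 * Mv W v + 2) :=
      Nat.mul_le_mul (le_trans (Nat.le_add_left W Kc) (Nat.le_mul_of_pos_right _ h1)) (by omega)

theorem NN_lower {Kc W : ℕ} (hW : 1 ≤ W) (v : List Bool) : W ≤ NN Kc W v := by
  rw [NN_eq]
  have h1 := ee_lower (Kc := Kc) hW v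
  have h2 : ee Kc W v < 2 ^ (ee Kc W v) := Nat.lt_two_pow_self
  have h3 : 2 ^ (ee Kc W v) < 2 ^ (2 ^ (ee Kc W v)) := Nat.lt_two_pow_self
  have h4 : 2 ^ (2 ^ (ee Kc W v)) < 2 ^ (2 ^ (2 ^ (ee Kc W v))) := Nat.lt_two_pow_self
  omega

theorem half_bound (t : ℕ) : (t : ℝ) ≤ 2 * (2 : ℝ) ^ ((t : ℝ) / 2) := by
  have h1 : t / 2 < 2 ^ (t / 2) := Nat.lt_two_pow_self
  have h2 : t ≤ 2 * 2 ^ (t / 2) := by omega
  have h3 : (t : ℝ) ≤ 2 * (2 : ℝ) ^ (t / 2) := by exact_mod_cast h2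
  have h4 : (2 : ℝ) ^ (t / 2 : ℕ) ≤ (2 : ℝ) ^ ((t : ℝ) / 2) := by
    rw [← Real.rpow_natCast]
    exact Real.rpow_le_rpow_of_exponent_le (by norm_num) Nat.cast_div_le
  linarith

theorem ee_upper {Kc W : ℕ} (hW : 1 ≤ W) (v : List Bool) :
    (ee Kc W v : ℝ) ≤ 8 * (Kc + 1) * (2 : ℝ) ^ ((9 / 2 : ℝ) * tv W v) := by
  have hM : 1 ≤ Mv W v := Nat.one_le_two_pow
  have h1 : ee Kc W v ≤ (Kc + 1) * tv W v * (4 * Mv W v) := by
    unfold ee jj tv
    refine Nat.mul_le_mul ?_ (by omega)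
    rw [← mul_assoc]
    refine Nat.mul_le_mul_right _ ?_
    nlinarith
  have h2 : (ee Kc W v : ℝ) ≤ (Kc + 1) * tv W v * (4 * Mv W v) := by exact_mod_cast h1
  have h3 : (Mv W v : ℝ) = (2 : ℝ) ^ ((4 : ℝ) * tv W v) := by
    unfold Mv
    push_cast
    rw [← Real.rpow_natCast]
    push_cast
    rfl
  have h4 := half_bound (tv W v)
  have h5 : (2 : ℝ) ^ ((9 / 2 : ℝ) * tv W v) =
      (2 : ℝ) ^ ((tv W v : ℝ) / 2) * (2 : ℝ) ^ ((4 : ℝ) * tv W v) := by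
    rw [← Real.rpow_add (by norm_num)]
    congr 1
    ring
  calc (ee Kc W v : ℝ) ≤ (Kc + 1) * tv W v * (4 * Mv W v) := h2
    _ ≤ (Kc + 1) * (2 * (2 : ℝ) ^ ((tv W v : ℝ) / 2)) * (4 * Mv W v) := by gcongr
    _ = _ := by rw [h3, h5]; ring

theorem term_bound {f : ℕ → ℝ} {Kc W : ℕ} (hW : 1 ≤ W) (v : List Bool)
    (hf : f (NN Kc W v) ≤ log4 (NN Kc W v) / 5) :
    (2 : ℝ) ^ (f (NN Kc W v)) * (4 * (1 / 2) ^ (tv W v)) ≤
      32 * (Kc + 1) * (2 : ℝ) ^ (-(tv W v : ℝ) / 10) := by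
  have he : 2 ≤ ee Kc W v := by
    have := ee_lower (Kc := Kc) hW v
    omega
  have he0 : (0 : ℝ) < ee Kc W v := by
    have : 0 < ee Kc W v := by omega
    exact_mod_cast this
  have h1 : f (NN Kc W v) ≤ Real.logb 2 (ee Kc W v) / 5 := by
    refine hf.trans ?_
    rw [NN_eq]
    have := log4_tower _ he
    linarith
  have h2 : (2 : ℝ) ^ (f (NN Kc W v)) ≤ (ee Kc W v : ℝ) ^ (1 / 5 : ℝ) := by
    refine (Real.rpow_le_rpow_of_exponent_le (by norm_num) h1).trans (le_of_eq ?_)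
    rw [div_eq_mul_one_div, Real.rpow_mul (by norm_num), Real.rpow_logb (by norm_num)
      (by norm_num) he0]
  have h3 : (ee Kc W v : ℝ) ^ (1 / 5 : ℝ) ≤
      8 * (Kc + 1) * (2 : ℝ) ^ ((9 / 10 : ℝ) * tv W v) := by
    have h4 := Real.rpow_le_rpow he0.le (ee_upper (Kc := Kc) hW v)
      (by norm_num : (0 : ℝ) ≤ 1 / 5)
    refine h4.trans ?_
    rw [Real.mul_rpow (by positivity) (by positivity), ← Real.rpow_mul (by norm_num)]
    have h5 : (9 / 2 : ℝ) * tv W v * (1 / 5) = (9 / 10 : ℝ) * tv W v := by ring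
    rw [h5]
    refine mul_le_mul_of_nonneg_right ?_ (by positivity)
    have h6 : (1 : ℝ) ≤ 8 * (Kc + 1) := by
      have : (0 : ℝ) ≤ Kc := by positivity
      linarith
    calc (8 * ((Kc : ℝ) + 1)) ^ (1 / 5 : ℝ) ≤ (8 * ((Kc : ℝ) + 1)) ^ (1 : ℝ) :=
          Real.rpow_le_rpow_of_exponent_le h6 (by norm_num)
      _ = _ := Real.rpow_one _
  have h7 : ((1 / 2 : ℝ)) ^ (tv W v) = (2 : ℝ) ^ (-(tv W v : ℝ)) := by
    rw [Real.rpow_neg (by norm_num), Real.rpow_natCast, one_div, inv_pow]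
  rw [h7]
  calc (2 : ℝ) ^ (f (NN Kc W v)) * (4 * (2 : ℝ) ^ (-(tv W v : ℝ)))
      ≤ (8 * (Kc + 1) * (2 : ℝ) ^ ((9 / 10 : ℝ) * tv W v)) * (4 * (2 : ℝ) ^ (-(tv W v : ℝ))) :=
        mul_le_mul_of_nonneg_right (h2.trans h3) (by positivity)
    _ = 32 * (Kc + 1) * ((2 : ℝ) ^ ((9 / 10 : ℝ) * tv W v) * (2 : ℝ) ^ (-(tv W v : ℝ))) := by ring
    _ = _ := by
        rw [← Real.rpow_add (by norm_num)]
        congr 2
        ring

theorem sum_codes (c : ℝ) (hc : 0 ≤ c) (W' : ℕ) (hW' : 2 ≤ W') :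
    ∑' v : List Bool, ENNReal.ofReal (c * (1 / 2 : ℝ) ^ (W' * (v.length + 1))) ≤
      ENNReal.ofReal (2 * c * (1 / 2 : ℝ) ^ W') := by
  rw [sum_len (fun n => ENNReal.ofReal (c * (1 / 2 : ℝ) ^ (W' * (n + 1))))]
  have h1 : ∀ n : ℕ, (2 : ENNReal) ^ n * ENNReal.ofReal (c * (1 / 2 : ℝ) ^ (W' * (n + 1))) ≤
      ENNReal.ofReal (c * (1 / 2 : ℝ) ^ W' * (1 / 2 : ℝ) ^ n) := by
    intro n
    have h2 : (2 : ENNReal) ^ n = ENNReal.ofReal ((2 : ℝ) ^ n) := by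
      rw [ENNReal.ofReal_pow (by norm_num)]
      simp
    rw [h2, ← ENNReal.ofReal_mul (by positivity)]
    refine ENNReal.ofReal_le_ofReal ?_
    have h3 : (2 : ℝ) ^ n * (1 / 2 : ℝ) ^ (W' * n) ≤ (1 / 2 : ℝ) ^ n := by
      have h4 : (2 : ℝ) ^ n * (1 / 2 : ℝ) ^ n = 1 := by
        rw [← mul_pow]
        norm_num
      have h5 : (1 / 2 : ℝ) ^ (W' * n) ≤ (1 / 2 : ℝ) ^ (2 * n) :=
        pow_le_pow_of_le_one (by norm_num) (by norm_num) (Nat.mul_le_mul_right _ hW')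
      calc (2 : ℝ) ^ n * (1 / 2 : ℝ) ^ (W' * n) ≤ (2 : ℝ) ^ n * (1 / 2 : ℝ) ^ (2 * n) :=
            mul_le_mul_of_nonneg_left h5 (by positivity)
        _ = ((2 : ℝ) ^ n * (1 / 2 : ℝ) ^ n) * (1 / 2 : ℝ) ^ n := by
            rw [two_mul, pow_add]; ring
        _ = _ := by rw [h4, one_mul]
    calc (2 : ℝ) ^ n * (c * (1 / 2 : ℝ) ^ (W' * (n + 1)))
        = c * (1 / 2 : ℝ) ^ W' * ((2 : ℝ) ^ n * (1 / 2 : ℝ) ^ (W' * n)) := by
          rw [mul_add, mul_one, pow_add]; ring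
      _ ≤ _ := mul_le_mul_of_nonneg_left h3 (by positivity)
  refine (ENNReal.tsum_le_tsum h1).trans ?_
  rw [← ENNReal.ofReal_tsum_of_nonneg (fun n => by positivity)
    (summable_geometric_two.mul_left _)]
  refine ENNReal.ofReal_le_ofReal (le_of_eq ?_)
  rw [tsum_mul_left, tsum_geometric_two]
  ring

end S4

open Filter S4 in
theorem null_of_events (f : ℕ → ℝ) (hf : ∀ᶠ N : ℕ in Filter.atTop, f N ≤ log4 N / 5) (Kc : ℕ)
    (O : Set Oracle) (Ev : ℕ → List Bool → Set Oracle)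
    (h1 : ∀ W, 1 ≤ W → ∀ A ∈ O, ∃ v, A ∈ Ev W v)
    (h2 : ∀ W, 1 ≤ W → ∀ v, RLoc {x | x.length < nn Kc W v (Mv W v)} (Ev W v))
    (h3 : ∀ W, 1 ≤ W → ∀ v, prob (Ev W v) ≤ 4 * (1 / 2) ^ (tv W v)) : Gauge.Null f O := by
  intro δ hδ
  obtain ⟨N0, hN0⟩ := Filter.eventually_atTop.1 hf
  set c : ℝ := 32 * (Kc + 1) with hc
  have hc0 : 0 < c := by positivity
  obtain ⟨w, hw⟩ := exists_pow_lt_of_lt_one (show 0 < δ / (2 * c) by positivity)
    (by norm_num : (1 / 2 : ℝ) < 1)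
  set W' := max (max w N0) 2 with hW'
  have hW'2 : 2 ≤ W' := le_max_right _ _
  have hW'N : N0 ≤ W' := (le_max_right _ _).trans (le_max_left _ _)
  have hW'w : w ≤ W' := (le_max_left _ _).trans (le_max_left _ _)
  have hδ' : 2 * c * (1 / 2 : ℝ) ^ W' ≤ δ := by
    have h4 : (1 / 2 : ℝ) ^ W' ≤ (1 / 2 : ℝ) ^ w :=
      pow_le_pow_of_le_one (by norm_num) (by norm_num) hW'w
    have h5 : (1 / 2 : ℝ) ^ W' ≤ δ / (2 * c) := h4.trans hw.le
    rw [le_div_iff₀ (by positivity)] at h5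
    linarith
  have hW : 1 ≤ 10 * W' := by omega
  refine ⟨⋃ v, Sv Kc (10 * W') Ev v, ?_, ?_⟩
  · intro A hA
    obtain ⟨v, hv⟩ := h1 (10 * W') hW A hA
    exact ⟨N6.pre A (NN Kc (10 * W') v), Set.mem_iUnion.2 ⟨v, A, hv, rfl⟩, N6.ext_pre A _⟩
  · refine (ENNReal.tsum_iUnion_le_tsum
      (fun σ : List Bool => ENNReal.ofReal (2 ^ (f σ.length - σ.length)))
      (fun v => Sv Kc (10 * W') Ev v)).trans ?_
    refine le_trans ?_ ((sum_codes c hc0.le W' hW'2).trans (ENNReal.ofReal_le_ofReal hδ'))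
    refine ENNReal.tsum_le_tsum fun v => ?_
    refine (sum_Sv f Kc (10 * W') Ev v (h2 _ hW v) _ (h3 _ hW v)).trans ?_
    refine ENNReal.ofReal_le_ofReal ?_
    have h6 := term_bound (f := f) (Kc := Kc) hW v
      (hN0 _ (by
        have := NN_lower (Kc := Kc) hW v
        omega))
    refine h6.trans (le_of_eq ?_)
    have h7 : (2 : ℝ) ^ (-(tv (10 * W') v : ℝ) / 10) = (1 / 2 : ℝ) ^ (W' * (v.length + 1)) := by
      have h8 : -(tv (10 * W') v : ℝ) / 10 = -((W' * (v.length + 1) : ℕ) : ℝ) := by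
        unfold tv
        push_cast
        ring
      rw [h8, Real.rpow_neg (by norm_num), Real.rpow_natCast, one_div, inv_pow]
    rw [h7]

end Pool.Agent.H943R5.GC
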