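import Pool.Agent.H943R5.GC.DefsN

/-!
# Project GC, null side: bad blocks before the first failure, first kind
-/

namespace Pool.Agent.H943R5.GC

open Pool.Agent.NPC Pool.Agent.H628R3.RO Pool.Agent.H673R2.OneTT

namespace S1

open MeasureTheory

theorem prob_le_one (S : Set Oracle) : prob S ≤ 1 := by
  unfold prob
  exact measureReal_le_one

/-- the event that there was no failure before round `s` -/
def tau (D : ℕ → Set Oracle) (s : ℕ) : Set Oracle := {A | ∀ s' < s, A ∉ D s'}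

theorem tau_loc {M : ℕ} {K : ℕ → Set (List Bool)} (hmono : Monotone K) {D : ℕ → Set Oracle}
    (hD : ∀ s < M, RLoc (K (s + 1)) (D s)) {s : ℕ} (hs : s < M) : RLoc (K s) (tau D s) := by
  intro A A' h
  unfold tau
  simp only [Set.mem_ofPred_eq]
  refine forall₂_congr fun s' hs' => not_congr ?_
  refine hD s' (by omega) A A' fun x hx => h x ?_
  exact hmono (by omega : s' + 1 ≤ s) hx

/-- the sum over the rounds of the probabilities of the first failure is at most one -/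
theorem sum_first {M : ℕ} {K : ℕ → Set (List Bool)} (hK : ∀ s, (K s).Finite)
    (hmono : Monotone K) {D : ℕ → Set Oracle} (hD : ∀ s < M, RLoc (K (s + 1)) (D s)) :
    ∑ s ∈ Finset.range M, prob (D s ∩ tau D s) ≤ 1 := by
  have hdis : (Finset.range M : Set ℕ).PairwiseDisjoint (fun s => D s ∩ tau D s) := by
    intro s _ s' _ hne
    rw [Function.onFun, Set.disjoint_left]
    rintro A ⟨h1, h2⟩ ⟨h3, h4⟩
    rcases lt_or_gt_of_ne hne with h | h
    · exact h4 s h h1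
    · exact h2 s' h h3
  have hmeas : ∀ s ∈ Finset.range M, MeasurableSet (D s ∩ tau D s) := by
    intro s hs
    rw [Finset.mem_range] at hs
    exact (measurableSet_of_loc (hK _) (hD s hs)).inter
      (measurableSet_of_loc (hK _) (tau_loc hmono hD hs))
  have h1 : ∑ s ∈ Finset.range M, prob (D s ∩ tau D s) =
      prob (⋃ s ∈ Finset.range M, D s ∩ tau D s) := by
    unfold prob
    rw [measureReal_biUnion_finset hdis hmeas]
  rw [h1]
  exact prob_le_one _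

end S1

theorem stage_sat {M : ℕ} (K : ℕ → Set (List Bool)) (hK : ∀ s, (K s).Finite)
    (hmono : Monotone K) (D E : ℕ → Set Oracle) (hD : ∀ s < M, RLoc (K (s + 1)) (D s))
    (hE : ∀ s < M, RLoc (K (s + 1)) (E s)) (W : ℕ → Finset Cand) (m t : ℕ → ℕ)
    (hm : ∀ s < M, 1 ≤ m s)
    (hW : ∀ s < M, ∀ κ ∈ W s, ∀ i < m s, pos κ.1 i κ.2 ∈ K (s + 1) ∧ pos κ.1 i κ.2 ∉ K s)
    (hkey : ∀ s < M, ∀ B ∈ NoHit (m s) (W s), B ∉ E s → ∃ T : Finset Cand, T.card ≤ t s ∧
      ∀ h ⊆ W s, Disjoint h T → plant (allSpots (m s) h) B ∈ D s) (r : ℝ) (hr0 : 0 ≤ r)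
    (hr : ∀ s < M, (1 - (1 / 2 : ℝ) ^ (m s)) ^ (W s).card ≤ r) :
    prob {A | ∃ s < M, (∀ s' < s, A ∉ D s') ∧ A ∉ E s ∧ A ∈ NoHit (m s) (W s)} ≤
      r + ∑ s ∈ Finset.range M, (t s : ℝ) * (1 / 2) ^ (m s) := by
  classical
  -- the bound for one round
  have hone : ∀ s ∈ Finset.range M,
      prob (S1.tau D s ∩ NoHit (m s) (W s) ∩ (E s)ᶜ) ≤
        r * prob (D s ∩ S1.tau D s) + (t s : ℝ) * (1 / 2) ^ (m s) := by
    intro s hs
    rw [Finset.mem_range] at hs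
    have hτ := S1.tau_loc hmono hD hs
    have hDm := measurableSet_of_loc (hK _) (hD s hs)
    have hEm := measurableSet_of_loc (hK _) (hE s hs)
    have h1 := key_sat (hK (s + 1)) (Z := (D s)ᶜ) (E := E s) (τ := S1.tau D s)
      (M2.Loc.compl (hD s hs)) (hE s hs) (M2.Loc.mono hτ (hmono (Nat.le_succ s))) (W s)
      (hm s hs) (t s) (fun κ hκ i hi => (hW s hs κ hκ i hi).1)
      (by
        intro B h hh
        refine hτ _ _ fun x hx => ?_
        unfold plant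
        rw [if_neg]
        intro hx'
        obtain ⟨κ, hκ, hx''⟩ := M2.mem_allSpots.1 hx'
        obtain ⟨i, hi, rfl⟩ := M2.mem_spots.1 hx''
        exact (hW s hs κ (hh hκ) i hi).2 hx)
      (by
        intro B hB hBE
        obtain ⟨T, hT1, hT2⟩ := hkey s hs B hB hBE
        exact ⟨T, hT1, fun h hh hd h3 => h3 (hT2 h hh hd)⟩)
    have h2 := prob_noHit_inter (hK s) hτ (m s) (W s)
      (fun κ hκ i hi => (hW s hs κ hκ i hi).2)
    have h3 := M2.prob_inter_add_compl (S1.tau D s ∩ NoHit (m s) (W s)) hEm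
    have h4 := M2.prob_inter_add_compl (S1.tau D s) hDm
    have h5 : E s ∩ S1.tau D s ∩ NoHit (m s) (W s) = S1.tau D s ∩ NoHit (m s) (W s) ∩ E s := by
      ext A; simp only [Set.mem_inter_iff]; tauto
    have h6 : (D s)ᶜ ∩ S1.tau D s = S1.tau D s ∩ (D s)ᶜ := Set.inter_comm _ _
    have h7 : D s ∩ S1.tau D s = S1.tau D s ∩ D s := Set.inter_comm _ _
    rw [h5, h6] at h1
    rw [h7]
    have hρ := hr s hs
    set ρ : ℝ := (1 - (1 / 2 : ℝ) ^ (m s)) ^ (W s).card with hρd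
    have h8 : prob (S1.tau D s ∩ D s) * ρ ≤ prob (S1.tau D s ∩ D s) * r :=
      mul_le_mul_of_nonneg_left hρ (M2.prob_nonneg _)
    have h9 : (t s : ℝ) * (1 / 2) ^ m s * prob (S1.tau D s ∩ NoHit (m s) (W s)) ≤
        (t s : ℝ) * (1 / 2) ^ m s * 1 :=
      mul_le_mul_of_nonneg_left (S1.prob_le_one _) (by positivity)
    have h10 : prob (S1.tau D s) * ρ =
        prob (S1.tau D s ∩ D s) * ρ + prob (S1.tau D s ∩ (D s)ᶜ) * ρ := by
      rw [← h4]; ring
    linarith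
  have hsub : {A | ∃ s < M, (∀ s' < s, A ∉ D s') ∧ A ∉ E s ∧ A ∈ NoHit (m s) (W s)} ⊆
      ⋃ s ∈ Finset.range M, S1.tau D s ∩ NoHit (m s) (W s) ∩ (E s)ᶜ := by
    rintro A ⟨s, hs, h1, h2, h3⟩
    simp only [Set.mem_iUnion, Finset.mem_range]
    exact ⟨s, hs, ⟨h1, h3⟩, h2⟩
  have hun : prob (⋃ s ∈ Finset.range M, S1.tau D s ∩ NoHit (m s) (W s) ∩ (E s)ᶜ) ≤
      ∑ s ∈ Finset.range M, prob (S1.tau D s ∩ NoHit (m s) (W s) ∩ (E s)ᶜ) := by
    unfold prob
    exact MeasureTheory.measureReal_biUnion_finset_le _ _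
  calc prob {A | ∃ s < M, (∀ s' < s, A ∉ D s') ∧ A ∉ E s ∧ A ∈ NoHit (m s) (W s)}
      ≤ prob (⋃ s ∈ Finset.range M, S1.tau D s ∩ NoHit (m s) (W s) ∩ (E s)ᶜ) :=
        M2.prob_mono hsub
    _ ≤ ∑ s ∈ Finset.range M, prob (S1.tau D s ∩ NoHit (m s) (W s) ∩ (E s)ᶜ) := hun
    _ ≤ ∑ s ∈ Finset.range M, (r * prob (D s ∩ S1.tau D s) + (t s : ℝ) * (1 / 2) ^ (m s)) :=
        Finset.sum_le_sum hone
    _ = r * ∑ s ∈ Finset.range M, prob (D s ∩ S1.tau D s) +
        ∑ s ∈ Finset.range M, (t s : ℝ) * (1 / 2) ^ (m s) := by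
        rw [Finset.sum_add_distrib, Finset.mul_sum]
    _ ≤ r + ∑ s ∈ Finset.range M, (t s : ℝ) * (1 / 2) ^ (m s) := by
        have := mul_le_mul_of_nonneg_left (S1.sum_first hK hmono hD) hr0
        linarith

end Pool.Agent.H943R5.GC
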