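import Pool.Agent.H943R5.GC.DefsN
import Pool.Agent.H628R3.RO.M1

/-!
# Project GC, null side, S3: product bound
-/

namespace Pool.Agent.H943R5.GC

open Pool.Agent.NPC Pool.Agent.H628R3.RO Pool.Agent.H673R2.OneTT
open Pool.Agent.H620R2 (Gauge.Null Gauge.Extends Gauge.str Gauge.ranO)

theorem stage_all {M : ℕ} (K : ℕ → Set (List Bool)) (hK : ∀ s, (K s).Finite)
    (hmono : Monotone K) (G : ℕ → Set Oracle) (hG : ∀ s < M, RLoc (K (s + 1) \ K s) (G s))
    (ρ : ℝ) (h : ∀ s < M, prob (G s) ≤ 1 - ρ) (hρ : ρ ≤ 1) :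
    prob {A | ∀ s < M, A ∈ G s} ≤ (1 - ρ) ^ M := by
  have h0 : (0 : ℝ) ≤ 1 - ρ := by linarith
  have hloc : ∀ L ≤ M, RLoc (K L) {A | ∀ s < L, A ∈ G s} := by
    intro L hL A A' hAA
    refine forall_congr' fun s => ?_
    constructor
    · intro h1 hs
      refine (hG s (by omega) A A' fun x hx => hAA x ?_).1 (h1 hs)
      exact hmono (by omega : s + 1 ≤ L) hx.1
    · intro h1 hs
      refine (hG s (by omega) A A' fun x hx => hAA x ?_).2 (h1 hs)
      exact hmono (by omega : s + 1 ≤ L) hx.1
  have key : ∀ L ≤ M, prob {A | ∀ s < L, A ∈ G s} ≤ (1 - ρ) ^ L := by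
    intro L
    induction L with
    | zero =>
      intro _
      rw [pow_zero]
      exact MeasureTheory.measureReal_le_one
    | succ L ih =>
      intro hL
      have e : {A : Oracle | ∀ s < L + 1, A ∈ G s} = {A | ∀ s < L, A ∈ G s} ∩ G L := by
        ext A
        constructor
        · intro hA
          exact ⟨fun s hs => hA s (by omega), hA L (by omega)⟩
        · rintro ⟨hA, hA'⟩ s hs
          rcases Nat.lt_succ_iff_lt_or_eq.1 hs with h1 | h1
          · exact hA s h1
          · rw [h1]; exact hA'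
      rw [e, prob_inter_of_disjoint (hK L) ((hK (L + 1)).subset Set.diff_subset)
        Set.disjoint_sdiff_right (hloc L (by omega)) (hG L (by omega)), pow_succ]
      exact mul_le_mul (ih (by omega)) (h L (by omega)) MeasureTheory.measureReal_nonneg (pow_nonneg h0 _)
  exact key M le_rfl

end Pool.Agent.H943R5.GC
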