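import Pool.Agent.H943R5.GC.DefsN
import Pool.Agent.H943R5.GC.U1
import Pool.Agent.H943R5.GC.S5A
import Pool.Agent.H943R5.GC.S5B

/-!
# Project GC, null side: task S6, locality for search problems
-/

namespace Pool.Agent.H943R5.GC

open Pool.Agent.NPC Pool.Agent.H628R3.RO Pool.Agent.H673R2.OneTT

namespace S6

theorem len_c0 (v : List Bool) : (c0 v).length ≤ v.length := by
  have h1 := Pool.Agent.H543R3.PC.unpair_len v
  unfold c0
  omega

theorem len_c1 (v : List Bool) : (c1 v).length ≤ v.length := by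
  have h1 := Pool.Agent.H543R3.PC.unpair_len v
  have h2 := Pool.Agent.H543R3.PC.unpair_len (unpair v).2
  unfold c1
  omega

theorem len_c2 (v : List Bool) : (c2 v).length ≤ v.length := by
  have h1 := Pool.Agent.H543R3.PC.unpair_len v
  have h2 := Pool.Agent.H543R3.PC.unpair_len (unpair v).2
  unfold c2
  omega

theorem len_in (v u w : List Bool) (c : Bool) (m : ℕ) :
    (pairBits (pairBits (cd c v) (pairBits u (List.replicate m true))) w).length ≤
      4 * v.length + 4 * u.length + 2 * m + w.length + 5 := by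
  have h1 := U1.len_cd c v
  rw [length_pairBits, length_pairBits, length_pairBits, List.length_replicate]
  omega

theorem out_eq {qb : Polynomial ℕ} {A A' : Oracle}
    (hqb : ∀ (A A' : Oracle) (x : List Bool),
      (∀ y : List Bool, y.length ≤ qb.eval x.length → A y = A' y) → uA.out A x = uA.out A' x)
    {B n : ℕ} (hA : ∀ y : List Bool, y.length < B → A y = A' y) (hB : qb.eval n < B)
    (v u w : List Bool) (c : Bool) (m : ℕ)
    (h : 4 * v.length + 4 * u.length + 2 * m + w.length + 5 ≤ n) :
    uA.out A (pairBits (pairBits (cd c v) (pairBits u (List.replicate m true))) w) =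
      uA.out A' (pairBits (pairBits (cd c v) (pairBits u (List.replicate m true))) w) := by
  refine hqb A A' _ fun y hy => hA y ?_
  have h1 := eval_mono qb ((len_in v u w c m).trans h)
  omega

theorem Out_eq {qb : Polynomial ℕ} {A A' : Oracle}
    (hqb : ∀ (A A' : Oracle) (x : List Bool),
      (∀ y : List Bool, y.length ≤ qb.eval x.length → A y = A' y) → uA.out A x = uA.out A' x)
    {B n : ℕ} (hA : ∀ y : List Bool, y.length < B → A y = A' y) (hB : qb.eval n < B)
    (v u : List Bool) (m : ℕ) (h : 4 * v.length + 4 * u.length + 2 * m + 5 ≤ n) :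
    Out A v u m = Out A' v u m := by
  unfold Out
  rw [out_eq hqb hA hB v u [] false m (by simpa using h)]

theorem Ac_iff {qb : Polynomial ℕ} {A A' : Oracle}
    (hqb : ∀ (A A' : Oracle) (x : List Bool),
      (∀ y : List Bool, y.length ≤ qb.eval x.length → A y = A' y) → uA.out A x = uA.out A' x)
    {B n : ℕ} (hA : ∀ y : List Bool, y.length < B → A y = A' y) (hB : qb.eval n < B)
    (v u w : List Bool) (b : Bool) (m : ℕ) (h : 4 * v.length + 4 * u.length + 3 * m + 5 ≤ n) :
    Ac A v b u m w ↔ Ac A' v b u m w := by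
  unfold Ac
  refine and_congr_right fun hw => ?_
  rw [out_eq hqb hA hB v u w b m (by omega)]

theorem FF_len (Kc W : ℕ) (A : Oracle) (v : List Bool) (s : ℕ) :
    (FF Kc W A v s).length ≤ mm Kc W v s := by
  unfold FF
  split_ifs with h
  · have h1 : (Out A (c1 v) (qq Kc W v s) (mm Kc W v s)).length + 2 ≤
        tw ((Out A (c1 v) (qq Kc W v s) (mm Kc W v s)).length + 2) (ex (c0 v)) := by
      unfold tw
      calc (Out A (c1 v) (qq Kc W v s) (mm Kc W v s)).length + 2
          = ((Out A (c1 v) (qq Kc W v s) (mm Kc W v s)).length + 2) ^ 1 := (pow_one _).symm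
        _ ≤ _ := Nat.pow_le_pow_right (by omega) Nat.one_le_two_pow
    have h2 : tw ((Out A (c1 v) (qq Kc W v s) (mm Kc W v s)).length + 2) (ex (c0 v)) ≤
      mm Kc W v s := h
    omega
  · simp

end S6

open S6 in
theorem loc1 : ∃ K₀, ∀ Kc, K₀ ≤ Kc → ∀ W v s,
    RLoc {x | x.length < nn Kc W v (s + 1)} {A | D1 Kc W A v s} ∧
    RLoc {x | x.length < nn Kc W v (s + 1)} {A | E1 Kc W A v s} := by
  obtain ⟨qb, hqb⟩ := U1.out_loc
  obtain ⟨K₁, hK₁⟩ := poly_mm (qb.comp (74 * Polynomial.X + 9))
  obtain ⟨K₂, hK₂⟩ := pos_len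
  refine ⟨K₁ + K₂ + 1, fun Kc hKc W v s => ?_⟩
  have hP := hK₁ Kc (by omega) W v s
  have hpos := hK₂ Kc (by omega) W v s
  obtain ⟨l1, -, -, l4, -, l6⟩ := len_bounds (Kc := Kc) (by omega) W v s
  have l0 := nn_le_mm Kc W v s
  have hB : qb.eval (74 * mm Kc W v s + 9) < nn Kc W v (s + 1) := by
    have h : (qb.comp (74 * Polynomial.X + 9)).eval (mm Kc W v s) =
        qb.eval (74 * mm Kc W v s + 9) := by simp
    rw [← h]
    exact hP
  have k0 := len_c0 v
  have k1 := len_c1 v
  have k2 := len_c2 v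
  -- the common facts
  have hFF : ∀ A A' : Oracle, (∀ y : List Bool, y.length < nn Kc W v (s + 1) → A y = A' y) →
      FF Kc W A v s = FF Kc W A' v s := by
    intro A A' hA
    have h1 : Out A (c1 v) (qq Kc W v s) (mm Kc W v s) =
        Out A' (c1 v) (qq Kc W v s) (mm Kc W v s) :=
      Out_eq hqb hA hB _ _ _ (by omega)
    unfold FF
    rw [h1]
  have hSol : ∀ A A' : Oracle, (∀ y : List Bool, y.length < nn Kc W v (s + 1) → A y = A' y) →
      ∀ w, Sol Kc W A v s w ↔ Sol Kc W A' v s w := by
    intro A A' hA w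
    unfold Sol
    rw [hFF A A' hA]
    have h2 := FF_len Kc W A' v s
    exact Ac_iff hqb hA hB _ _ _ _ _ (by omega)
  have hHit : ∀ A A' : Oracle, (∀ y : List Bool, y.length < nn Kc W v (s + 1) → A y = A' y) →
      ∀ z, IsHit Kc W (tv W v) (nn Kc W v s) A v s z →
        IsHit Kc W (tv W v) (nn Kc W v s) A' v s z := by
    rintro A A' hA z ⟨c, y, hc, hy, hz, hh⟩
    refine ⟨c, y, hc, hy, hz, fun i hi => ?_⟩
    have hmem : (c, pairBits (nmB v s) y) ∈ blk Kc W (tv W v) v s := by
      unfold blk
      rw [Finset.mem_product]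
      refine ⟨Finset.mem_range.2 hc, Finset.mem_image.2 ⟨fun i => y.get (i.cast hy.symm),
        Finset.mem_univ _, ?_⟩⟩
      congr 1
      apply List.ext_get
      · simp [hy]
      · intro n h1 h2
        simp
    have h3 := (hpos (tv W v) (by omega) _ hmem i (by omega)).2
    rw [← hA _ h3]
    exact hh i hi
  refine ⟨fun A A' hA => ?_, fun A A' hA => ?_⟩
  · have hA1 : ∀ y : List Bool, y.length < nn Kc W v (s + 1) → A y = A' y := fun y hy => hA y hy
    have hA2 : ∀ y : List Bool, y.length < nn Kc W v (s + 1) → A' y = A y :=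
      fun y hy => (hA y hy).symm
    show D1 Kc W A v s ↔ D1 Kc W A' v s
    unfold D1
    refine exists_congr fun w => ?_
    unfold FailC
    rw [hSol A A' hA1 w]
    refine and_congr_right fun hs => ?_
    have hw : w.length ≤ mm Kc W v s := hs.1
    have hG : GG Kc W A v s w = GG Kc W A' v s w := by
      unfold GG
      refine Out_eq hqb hA1 hB _ _ _ ?_
      rw [length_pairBits]
      omega
    rw [hG]
    refine not_congr (exists_congr fun z => and_congr_right fun _ => ?_)
    exact ⟨hHit A A' hA1 z, hHit A' A hA2 z⟩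
  · have hA1 : ∀ y : List Bool, y.length < nn Kc W v (s + 1) → A y = A' y := fun y hy => hA y hy
    show E1 Kc W A v s ↔ E1 Kc W A' v s
    unfold E1
    exact not_congr (exists_congr fun w => hSol A A' hA1 w)

end Pool.Agent.H943R5.GC
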