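import Pool.Agent.H943R5.GC.DefsN
import Pool.Agent.H943R5.GC.U1
import Pool.Agent.H628R3.RO.M2

/-!
# Project GC, task S7: search problems, touched candidates
-/

namespace Pool.Agent.H943R5.GC

open Pool.Agent.NPC Pool.Agent.H628R3.RO Pool.Agent.H673R2.OneTT

namespace S7

theorem TT_mono {a b : ℕ} (h : a ≤ b) : TT a ≤ TT b := by
  unfold TT tw
  exact Nat.pow_le_pow_right (by norm_num) (Nat.pow_le_pow_right (by norm_num) h)

theorem nn_le (Kc W : ℕ) (v : List Bool) (s : ℕ) : nn Kc W v s ≤ mm Kc W v s := by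
  unfold nn mm
  exact TT_mono (Nat.mul_le_mul_left _ (by omega))

theorem le_jj {Kc : ℕ} (hK : 1 ≤ Kc) (W : ℕ) (v : List Bool) : v.length + 1 ≤ jj Kc W v := by
  unfold jj
  calc v.length + 1 = 1 * (v.length + 1) := (one_mul _).symm
    _ ≤ (Kc + W) * (v.length + 1) := Nat.mul_le_mul_right _ (by omega)

theorem Kc_le_jj (Kc W : ℕ) (v : List Bool) : Kc ≤ jj Kc W v := by
  unfold jj
  calc Kc ≤ Kc + W := Nat.le_add_right _ _
    _ = (Kc + W) * 1 := (mul_one _).symm
    _ ≤ (Kc + W) * (v.length + 1) := Nat.mul_le_mul_left _ (by omega)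

theorem bounds {Kc : ℕ} (hK : 1 ≤ Kc) (W : ℕ) (v : List Bool) (s : ℕ) :
    v.length ≤ nn Kc W v s ∧ (qq Kc W v s).length ≤ 8 * nn Kc W v s := by
  have h1 := le_jj hK W v
  have h2 : jj Kc W v ≤ jj Kc W v * (2 * s + 2) := by
    calc jj Kc W v = jj Kc W v * 1 := (mul_one _).symm
      _ ≤ _ := Nat.mul_le_mul_left _ (by omega)
  have h3 : 2 * s + 2 ≤ jj Kc W v * (2 * s + 2) := by
    calc 2 * s + 2 = 1 * (2 * s + 2) := (one_mul _).symm
      _ ≤ _ := Nat.mul_le_mul_right _ (by omega)
  have h4 := U1.le_TT (jj Kc W v * (2 * s + 2))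
  have h5 : TT 2 ≤ TT (jj Kc W v * (2 * s + 2)) := TT_mono (by omega)
  have h6 : TT 2 = 16 := by unfold TT tw; norm_num
  have h7 : (st s).length ≤ s := Pool.Agent.H583R2.length_str_le s
  have h8 : nn Kc W v s = TT (jj Kc W v * (2 * s + 2)) := rfl
  refine ⟨by omega, ?_⟩
  unfold qq nmB
  rw [length_pairBits, length_pairBits, List.length_replicate]
  omega

theorem lt_nn_succ (P : Polynomial ℕ) : ∃ K₀, 1 ≤ K₀ ∧ ∀ Kc, K₀ ≤ Kc → ∀ W v s,
    P.eval (mm Kc W v s) < nn Kc W v (s + 1) := by
  obtain ⟨K, hK⟩ := U1.poly_lt P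
  refine ⟨K + 1, by omega, fun Kc hKc W v s => ?_⟩
  have h1 := Kc_le_jj Kc W v
  have h2 : 2 ≤ mm Kc W v s := U1.two_le_TT _
  have h3 : nn Kc W v (s + 1) = mm Kc W v s ^ (2 ^ jj Kc W v) := by
    have e : jj Kc W v * (2 * (s + 1) + 2) = jj Kc W v * (2 * s + 3) + jj Kc W v := by ring
    unfold nn mm
    rw [e, U1.TT_add]
  rw [h3]
  refine (hK _ h2).trans_le ?_
  exact Nat.pow_le_pow_right (by omega) (Nat.pow_le_pow_right (by norm_num) (by omega))

/-- the answers to few questions determine the output of the universal algorithm -/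
theorem uA_loc (B : Oracle) (x : List Bool) : ∃ Q : Finset (List Bool),
    Q.card ≤ x.length + 1 ∧ ∀ B' : Oracle, (∀ q ∈ Q, B' q = B q) → uA.out B' x = uA.out B x := by
  obtain ⟨qb, h⟩ := uA.out_local
  obtain ⟨Q, h1, -, h3⟩ := h B x
  refine ⟨Q, ?_, h3⟩
  have : uA.p.eval x.length = x.length + 1 := by
    show (Polynomial.X + 1 : Polynomial ℕ).eval _ = _
    simp
  omega

theorem length_FF (Kc W : ℕ) (A : Oracle) (v : List Bool) (s : ℕ) :
    (FF Kc W A v s).length ≤ mm Kc W v s := by
  unfold FF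
  split
  · rename_i h
    unfold Adm tw at h
    set l := (Out A (c1 v) (qq Kc W v s) (mm Kc W v s)).length
    have h1 : l + 2 ≤ (l + 2) ^ 2 ^ ex (c0 v) := by
      calc l + 2 = (l + 2) ^ 1 := (pow_one _).symm
        _ ≤ _ := Nat.pow_le_pow_right (by omega) Nat.one_le_two_pow
    omega
  · simp

end S7

open S7 in
theorem key1 : ∃ K₀, ∀ Kc, K₀ ≤ Kc → ∀ W v s, ∀ B ∈ N1s Kc W v s, ¬ E1 Kc W B v s →
    ∃ T : Finset Cand, T.card ≤ nn Kc W v (s + 1) ∧
      ∀ h ⊆ blk Kc W (tv W v) v s, Disjoint h T →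
        D1 Kc W (plant (allSpots (nn Kc W v s) h) B) v s := by
  classical
  obtain ⟨K₀, hK1, hK₀⟩ := lt_nn_succ (200 * Polynomial.X + 200)
  refine ⟨K₀, fun Kc hKc W v s B hB hE => ?_⟩
  have hsz := hK₀ Kc hKc W v s
  simp only [Polynomial.eval_add, Polynomial.eval_mul, Polynomial.eval_X,
    Polynomial.eval_ofNat] at hsz
  obtain ⟨hv, hqq⟩ := bounds (hK1.trans hKc) W v s
  have hnm := nn_le Kc W v s
  unfold E1 at hE
  push Not at hE
  obtain ⟨w, hw⟩ := hE
  -- the three computations
  set m := mm Kc W v s with hm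
  set x1 := pairBits (pairBits (cd false (c1 v)) (pairBits (qq Kc W v s)
    (List.replicate m true))) [] with hx1
  set x2 := pairBits (pairBits (cd false (c0 v)) (pairBits (FF Kc W B v s)
    (List.replicate m true))) w with hx2
  set x3 := pairBits (pairBits (cd false (c2 v)) (pairBits (pairBits (qq Kc W v s) w)
    (List.replicate m true))) [] with hx3
  obtain ⟨Q1, hQ1, hq1⟩ := uA_loc B x1
  obtain ⟨Q2, hQ2, hq2⟩ := uA_loc B x2
  obtain ⟨Q3, hQ3, hq3⟩ := uA_loc B x3
  have hwm : w.length ≤ m := hw.1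
  have hcdlen : ∀ u : List Bool, u.length ≤ v.length → (cd false u).length ≤ v.length :=
    fun u hu => (U1.len_cd false u).trans hu
  have hu1 := Pool.Agent.H543R3.PC.unpair_len v
  have hu2 := Pool.Agent.H543R3.PC.unpair_len (unpair v).2
  have hc0 : (c0 v).length ≤ v.length := by unfold c0; omega
  have hc1 : (c1 v).length ≤ v.length := by unfold c1; omega
  have hc2 : (c2 v).length ≤ v.length := by unfold c2; omega
  have hl1 : x1.length ≤ 38 * m + 5 := by
    have := hcdlen _ hc1
    rw [hx1, length_pairBits, length_pairBits, length_pairBits, List.length_replicate]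
    simp only [List.length_nil]
    omega
  have hl2 : x2.length ≤ 11 * m + 5 := by
    have := hcdlen _ hc0
    have h3 := length_FF Kc W B v s
    rw [hx2, length_pairBits, length_pairBits, length_pairBits, List.length_replicate]
    omega
  have hl3 : x3.length ≤ 74 * m + 9 := by
    have := hcdlen _ hc2
    rw [hx3, length_pairBits, length_pairBits, length_pairBits, length_pairBits,
      List.length_replicate]
    simp only [List.length_nil]
    omega
  set Q := Q1 ∪ Q2 ∪ Q3 with hQ
  have hQc : Q.card ≤ 123 * m + 22 := by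
    have h1 := Finset.card_union_le (Q1 ∪ Q2) Q3
    have h2 := Finset.card_union_le Q1 Q2
    rw [← hQ] at h1
    omega
  -- the touched candidates
  set n := nn Kc W v s with hn
  set f : List Bool → Cand := fun q => if h : ∃ κ : Cand, q ∈ spots n κ then h.choose else (0, [])
    with hf
  have hfs : ∀ q κ, q ∈ spots n κ → f q = κ := by
    intro q κ hq
    have h : ∃ κ : Cand, q ∈ spots n κ := ⟨κ, hq⟩
    rw [hf]
    simp only [dif_pos h]
    exact M2.spots_disjoint h.choose_spec hq
  set z0 := (GG Kc W B v s w).tail with hz0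
  set κG : Cand := ((unpair z0).1.length, pairBits (nmB v s) (unpair z0).2) with hκG
  refine ⟨insert κG (Q.image f), ?_, ?_⟩
  · have h1 := Finset.card_insert_le κG (Q.image f)
    have h2 := Finset.card_image_le (s := Q) (f := f)
    omega
  · intro h hh hdis
    set B' := plant (allSpots n h) B with hB'
    have hagree : ∀ q ∈ Q, B' q = B q := by
      intro q hq
      have hnot : q ∉ allSpots n h := by
        intro hqa
        obtain ⟨κ, hκ, hqκ⟩ := M2.mem_allSpots.1 hqa
        have h1 : κ ∈ insert κG (Q.image f) :=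
          Finset.mem_insert_of_mem (Finset.mem_image.2 ⟨q, hq, hfs q κ hqκ⟩)
        exact (Finset.disjoint_left.1 hdis) hκ h1
      rw [hB']
      unfold plant
      rw [if_neg hnot]
    have e1 : uA.out B' x1 = uA.out B x1 := hq1 B' fun q hq => hagree q (by
      rw [hQ]; exact Finset.mem_union_left _ (Finset.mem_union_left _ hq))
    have e2 : uA.out B' x2 = uA.out B x2 := hq2 B' fun q hq => hagree q (by
      rw [hQ]; exact Finset.mem_union_left _ (Finset.mem_union_right _ hq))
    have e3 : uA.out B' x3 = uA.out B x3 := hq3 B' fun q hq => hagree q (by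
      rw [hQ]; exact Finset.mem_union_right _ hq)
    have hOut : Out B' (c1 v) (qq Kc W v s) m = Out B (c1 v) (qq Kc W v s) m := by
      unfold Out
      rw [← hx1, e1]
    have hFF : FF Kc W B' v s = FF Kc W B v s := by
      unfold FF
      rw [← hm, hOut]
    have hSol : Sol Kc W B' v s w := by
      unfold Sol at hw ⊢
      rw [hFF]
      refine ⟨hw.1, ?_⟩
      rw [← hm, ← hx2, e2]
      exact hw.2
    have hGG : GG Kc W B' v s w = GG Kc W B v s w := by
      unfold GG Out
      rw [← hm, ← hx3, e3]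
    refine ⟨w, hSol, ?_⟩
    rintro ⟨z, hz, c, y, hc, hy, rfl, hhit⟩
    rw [hGG] at hz
    have hz0' : z0 = pairBits (List.replicate c true) y := by
      rw [hz0, hz]
      rfl
    have hκ : κG = (c, pairBits (nmB v s) y) := by
      rw [hκG, hz0', unpair_pairBits, List.length_replicate]
    have hnot : (c, pairBits (nmB v s) y) ∉ h := by
      intro hmem
      exact (Finset.disjoint_left.1 hdis) hmem (by rw [← hκ]; exact Finset.mem_insert_self _ _)
    have hhit' : Hit n (c, pairBits (nmB v s) y) B := (M2.hit_plant hnot B).1 hhit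
    refine hB (c, pairBits (nmB v s) y) ?_ hhit'
    unfold blk
    rw [Finset.mem_product, Finset.mem_range, Finset.mem_image]
    refine ⟨hc, ?_⟩
    have hex : ∀ k, y.length = k → ∃ g : Fin k → Bool, List.ofFn g = y := by
      rintro _ rfl
      exact ⟨y.get, List.ofFn_get y⟩
    obtain ⟨g, hg⟩ := hex _ hy
    exact ⟨g, Finset.mem_univ _, by rw [hg]⟩

end Pool.Agent.H943R5.GC
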