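import Pool.Agent.H943R5.GC.S9core
import Pool.Agent.H943R5.GC.S1
import Pool.Agent.H943R5.GC.S3
import Pool.Agent.H943R5.GC.S5A
import Pool.Agent.H943R5.GC.S5B
import Pool.Agent.H943R5.GC.S6
import Pool.Agent.H943R5.GC.S7

/-!
# Project GC, task S9: probability of the exceptional event, search problems
-/

namespace Pool.Agent.H943R5.GC

open Pool.Agent.NPC Pool.Agent.H628R3.RO Pool.Agent.H673R2.OneTT

theorem prob1 : ∃ K₀, ∀ Kc, K₀ ≤ Kc → ∀ W, 1 ≤ W → ∀ v,
    RLoc {x | x.length < nn Kc W v (Mv W v)} (Ev1 Kc W v) ∧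
      prob (Ev1 Kc W v) ≤ 4 * (1 / 2) ^ (tv W v) :=
  prob1_of (fun K hK hm D E hD hE W m t h1 hW hk r h0 hr =>
      stage_sat K hK hm D E hD hE W m t h1 hW hk r h0 hr)
    (fun K hK hm G hG ρ h h1 => stage_all K hK hm G hG ρ h h1)
    card_blk (fun hK W v => nn_mono hK W v) pos_len err_sum loc1 key1

end Pool.Agent.H943R5.GC
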