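import Pool.Agent.H943R5.GC.FinalB
import Pool.Agent.H943R5.GC.S4
import Pool.Agent.H943R5.GC.S9
import Pool.Agent.H943R5.GC.S11
import Pool.Agent.H943R5.GC.S14B
import Pool.Agent.H943R5.GC.S16

/-!
# Project GC: the null side for search problems
-/

namespace Pool.Agent.H943R5.GC

open Pool.Agent.NPC Pool.Agent.H628R3.RO Pool.Agent.H673R2.OneTT
open Pool.Agent.H620R2 (Gauge.Null)
open Pool.Agent.H543R3.PC

theorem ev_tfnp : ∃ K₀, ∀ Kc, K₀ ≤ Kc → ∀ (W : ℕ) (A : Oracle),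
    HasTFNP A → ∃ v, A ∈ Ev1 Kc W v :=
  ev_tfnp_of (fun hK W A v₀ => rl_np hK W A v₀)

theorem null_tfnp (f : ℕ → ℝ) (hf : ∀ᶠ N : ℕ in Filter.atTop, f N ≤ log4 N / 5) :
    Gauge.Null f {A | HasTFNP A} := by
  obtain ⟨K₁, h1⟩ := ev_tfnp
  obtain ⟨K₂, h2⟩ := prob1
  exact null_of_events f hf (max K₁ K₂) _ (fun W v => Ev1 (max K₁ K₂) W v)
    (fun W _ A hA => h1 _ (le_max_left _ _) W A hA)
    (fun W hW v => (h2 _ (le_max_right _ _) W hW v).1)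
    (fun W hW v => (h2 _ (le_max_right _ _) W hW v).2)

theorem null_mono' {f : ℕ → ℝ} {X Y : Set Oracle} (h : X ⊆ Y) (hY : Gauge.Null f Y) :
    Gauge.Null f X := by
  intro δ hδ
  obtain ⟨S, hS, hsum⟩ := hY δ hδ
  exact ⟨S, fun A hA => hS A (h hA), hsum⟩

theorem null_poptS (f : ℕ → ℝ) (hf : ∀ᶠ N : ℕ in Filter.atTop, f N ≤ log4 N / 5) :
    Gauge.Null f {A | HasPOptS A} :=
  null_mono' (fun _ hA => hasTFNP_of_hasPOptS hA) (null_tfnp f hf)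

end Pool.Agent.H943R5.GC
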