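import Pool.Agent.H943R5.GC.DefsP
import Pool.Agent.H943R5.GC.U1

/-!
# Project GC: task P2, locality of `Bad2`
-/

namespace Pool.Agent.H943R5.GC

open Pool.Agent.NPC Pool.Agent.H628R3.RO Pool.Agent.H673R2.OneTT

open U1 in
theorem exists_loc2 : ∃ K, Loc K Bad2 := by
  obtain ⟨qb, hqb⟩ := out_loc
  obtain ⟨b, hb⟩ := uA.out_length
  let P : Polynomial ℕ := qb.comp (11 * Polynomial.X + 5) +
    qb.comp (19 * b.comp (11 * Polynomial.X + 5) + 9)
  have hP : ∀ n, P.eval n = qb.eval (11 * n + 5) + qb.eval (19 * b.eval (11 * n + 5) + 9) := by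
    intro n
    simp [P]
  obtain ⟨K, hK⟩ := poly_lt P
  refine ⟨K, ?_⟩
  intro v s hact A A' hA ⟨u, m, hm, hadm, hkd, hviol⟩
  refine ⟨u, m, hm, hadm, hkd, ?_⟩
  -- lengths
  have hv : v.length ≤ TT s := by
    have h1 := le_TT v.length
    have h2 : TT v.length ≤ (st s).length := hact
    have h3 : (st s).length ≤ s := Pool.Agent.H583R2.length_str_le s
    have h4 := le_TT s
    omega
  have hu : u.length ≤ TT s := by
    have h1 : u.length + 2 ≤ tw (u.length + 2) (ex v) := by
      unfold tw
      calc u.length + 2 = (u.length + 2) ^ 1 := (pow_one _).symm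
        _ ≤ (u.length + 2) ^ (2 ^ ex v) :=
          Nat.pow_le_pow_right (by omega) Nat.one_le_two_pow
    have h2 : tw (u.length + 2) (ex v) ≤ m := hadm
    omega
  have hKs := hK (TT s) (two_le_TT s)
  rw [← TT_add, hP] at hKs
  have hin : (pairBits (pairBits (cd false v) (pairBits u (List.replicate m true))) []).length ≤
        11 * TT s + 5 := by
    have h1 := len_cd false v
    rw [length_pairBits, length_pairBits, length_pairBits, List.length_replicate,
      List.length_nil]
    omega
  have hout :
      uA.out A (pairBits (pairBits (cd false v) (pairBits u (List.replicate m true))) []) =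
      uA.out A' (pairBits (pairBits (cd false v) (pairBits u (List.replicate m true))) []) := by
    refine hqb A A' _ fun y hy => hA y ?_
    have h1 := eval_mono qb hin
    omega
  have hOut : Out A v u m = Out A' v u m := by
    unfold Out
    rw [hout]
  have hOlen : (Out A v u m).length ≤ b.eval (11 * TT s + 5) := by
    unfold Out
    rcases h : uA.out A (pairBits (pairBits (cd false v) (pairBits u (List.replicate m true))) [])
      with _ | z
    · simp
    · rw [Option.getD_some]
      exact (hb A _ z h).trans (eval_mono b hin)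
  rw [← hOut]
  intro hmem
  apply hviol
  set z := Out A v u m with hz
  have l1 := Pool.Agent.H543R3.PC.unpair_len z
  have l2 := Pool.Agent.H543R3.PC.unpair_len (unpair z).2
  have l3 := Pool.Agent.H543R3.PC.unpair_len (zu z)
  have l4 : (zu z).length = (unpair (unpair z).2).1.length := rfl
  have l5 : zm z = (unpair (unpair z).2).2.length := rfl
  have l6 : (zv z).length = (unpair z).1.length := rfl
  have l7 : (zx z).length = (unpair (zu z)).1.length := rfl
  have l8 : zl z = (unpair (zu z)).2.length := rfl
  intro u' hu'
  obtain ⟨w, hw, hw2⟩ := hmem u' hu'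
  refine ⟨w, hw, ?_⟩
  rw [← hw2]
  refine hqb A A' _ fun y hy => hA y ?_
  have h0 : (pairBits (pairBits (zv z) (pairBits (pairBits (zx z) u')
      (List.replicate (zm z) true))) w).length ≤ 19 * b.eval (11 * TT s + 5) + 9 := by
    rw [length_pairBits, length_pairBits, length_pairBits, length_pairBits,
      List.length_replicate]
    omega
  have h1 := eval_mono qb h0
  omega

end Pool.Agent.H943R5.GC
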