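import Pool.Agent.H943R5.GC.P3
import Pool.Agent.H943R5.GC.U3

/-!
# Project GC, task P4: a p-optimal proof system for `K2 A`
-/

namespace Pool.Agent.H943R5.GC

open Pool.Agent.NPC Pool.Agent.H628R3.RO Pool.Agent.H673R2.OneTT
open Pool.Agent.H543R3.PC2 (IsPi2 Pi2Hard HasOpt2 HasPOpt2)

namespace P4

/-- For good oracles, the guard excludes violations. -/
theorem mem_of_ok {K : ℕ} {A : Oracle} (hG : Good K Bad2 A) {z : List Bool}
    (h : Ok K A 7 z) : Out A (zv z) (zu z) (zm z) ∈ K2 A := by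
  by_contra hv
  exact hG.1 _ _ h.2.1 h.2.2.2 ⟨_, _, U5.le_TT_rd _, h.2.2.1, h.1, hv⟩

/-- For good oracles, the guard holds for the instances of codes which keep their promise. -/
theorem ok_inst2 {K : ℕ} {A : Oracle} (hG : Good K Bad2 A) {v : List Bool} (hk : kd v = 7)
    (hv : ∀ u m, Adm v u m → Out A v u m ∈ K2 A) {u : List Bool} {m : ℕ} (h1 : Adm v u m)
    (h2 : act v (rd m)) : Ok K A 7 (inst v u m) := by
  unfold Ok Grd
  rw [zv_inst, zu_inst, zm_inst]
  refine ⟨hk, h2, h1, fun s _ => ?_⟩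
  refine hG.2 v (fun s' _ hB => ?_) s
  obtain ⟨u', m', -, h4, -, h5⟩ := hB
  exact h5 (hv u' m' h4)

end P4

theorem has_popt2 {K : ℕ} {A : Oracle} (hG : Good K Bad2 A) : HasPOpt2 A := by
  obtain ⟨P₀, hP₀, hr₀⟩ := exists_ps2 A
  refine ⟨K2 A, isPi2_K2 A, pi2Hard_K2 A, PP K A 7 (P₀ []) P₀,
    ⟨isFP_PP K A 7 (P₀ []) hP₀, ?_⟩, ?_⟩
  · apply Set.Subset.antisymm
    · rintro x ⟨y, rfl⟩
      unfold PP
      split_ifs with h1 h2
      · exact P4.mem_of_ok hG h2
      · rw [← hr₀]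
        exact Set.mem_range_self _
      · rw [← hr₀]
        exact Set.mem_range_self _
    · intro x hx
      rw [← hr₀] at hx
      obtain ⟨y, rfl⟩ := hx
      refine ⟨false :: y, ?_⟩
      unfold PP
      rw [if_neg (by simp)]
      rfl
  · rintro Q ⟨hQ, hrQ⟩
    obtain ⟨v, hk, hv⟩ := code_fn A hQ 7
    obtain ⟨p, hp⟩ := exists_budget v
    refine ⟨fun u => true :: inst v u (p.eval u.length), ?_, fun u => ?_⟩
    · exact IsFP.comp (G := fun z => true :: z)
        (IsFP.of_poly (Poly.cons (NPC.Poly.const true) Poly.id)) (isFP_inst A v p)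
    · have hok := P4.ok_inst2 hG hk (fun u' m' h' => by
        rw [hv u' m' h', ← hrQ]
        exact Set.mem_range_self u') (hp u).1 (hp u).2
      unfold PP
      rw [if_pos (by simp), List.tail_cons, if_pos hok, zv_inst, zu_inst, zm_inst]
      exact hv u _ (hp u).1

end Pool.Agent.H943R5.GC
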