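import Pool.Agent.H943R5.GC.DefsP
import Pool.Agent.H543R3.PC2.RandomSeq
import Pool.Agent.H628R3.RO.K2

/-!
# Project GC, task P5: corollaries on proof systems for `Π₂`-complete sets
-/

namespace Pool.Agent.H943R5.GC

open Pool.Agent.NPC Pool.Agent.H628R3.RO Pool.Agent.H673R2.OneTT MeasureTheory
open Pool.Agent.H543R3.PC2 (IsPi2 Pi2Hard HasOpt2 HasPOpt2)

theorem hasOpt2_of_hasPOpt2 {A : Oracle} (h : HasPOpt2 A) : HasOpt2 A := by
  obtain ⟨L, h1, h2, P, h3, h4⟩ := h
  refine ⟨L, h1, h2, P, h3, fun Q hQ => ?_⟩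
  obtain ⟨g, hg, hgw⟩ := h4 Q hQ
  obtain ⟨b, hb⟩ := hg.length_le
  exact ⟨b, fun w => ⟨g w, hgw w, hb w⟩⟩

theorem isPi2_of_isCoNP {A : Oracle} {L : Set (List Bool)} (h : IsCoNP A L) : IsPi2 A L :=
  Pool.Agent.H543R3.PC2.isPiTwo_of_isCoNP h

namespace P5

/-- choice of the value -/
def sel (t : List Bool) : List Bool :=
  if (unpair (unpair t).2).2.head? = some true then (unpair t).1 else (unpair (unpair t).2).1

theorem poly_sel : Poly sel := by
  have h1 : Poly (fun t : List Bool => (unpair (unpair t).2).2.head?) :=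
    Poly.head? (Poly.snd (poly_unpair.comp (Poly.snd poly_unpair)))
  exact Poly.ite (Poly.decide_eq h1 (NPC.Poly.const (some true))) (Poly.fst poly_unpair)
    (Poly.fst (poly_unpair.comp (Poly.snd poly_unpair)))

/-- the combination of a sequence of elements and a proof system -/
def comb (Z P : List Bool → List Bool) (y : List Bool) : List Bool :=
  if y.head? = some true then Z y.tail else P y.tail

theorem isFP_comb {A : Oracle} {Z P : List Bool → List Bool} (hZ : IsFP A Z) (hP : IsFP A P) :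
    IsFP A (comb Z P) := by
  have ht : IsFP A (fun y : List Bool => y.tail) := IsFP.of_poly (Poly.tail Poly.id)
  have h1 := IsFP.comp hZ ht
  have h2 := IsFP.comp hP ht
  have h3 := IsFP.comp (IsFP.of_poly (A := A) poly_sel)
    (IsFP.pair h1 (IsFP.pair h2 (IsFP.of_poly (A := A) Poly.id)))
  have e : comb Z P = fun y => sel (pairBits (Z y.tail) (pairBits (P y.tail) y)) := by
    funext y
    unfold comb sel
    simp only [unpair_pairBits]
  rw [e]
  exact h3

end P5

theorem ae_not_opt2 : ∀ᵐ A ∂randomOracle, ¬ HasOpt2 A := by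
  filter_upwards [Pool.Agent.H543R3.PC2.random_seq] with A hA
  rintro ⟨L, -, h2, P, h3, h4⟩
  obtain ⟨Z, hZ, hZL, k, hk⟩ := hA L (fun L' hL' => h2 L' (isPi2_of_isCoNP hL')) P h3
  have hQ : IsProofSystem A L (P5.comb Z P) := by
    refine ⟨P5.isFP_comb hZ h3.1, ?_⟩
    apply Set.Subset.antisymm
    · rintro x ⟨y, rfl⟩
      unfold P5.comb
      split_ifs with h
      · exact hZL _
      · rw [← h3.2]
        exact Set.mem_range_self _
    · intro x hx
      rw [← h3.2] at hx
      obtain ⟨y, rfl⟩ := hx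
      refine ⟨false :: y, ?_⟩
      unfold P5.comb
      rw [if_neg (by simp)]
      rfl
  obtain ⟨q, hq⟩ := h4 _ hQ
  obtain ⟨n0, hn0⟩ := poly_le_two_pow ((q.comp (Polynomial.X + 1)) ^ k + 1)
  obtain ⟨n, hn, hnv⟩ := hk n0
  obtain ⟨v, hv, hvl⟩ := hq (true :: List.replicate n true)
  have e1 := hn0 _ hn
  have e2 := hnv v (by rw [hv]; unfold P5.comb; rw [if_pos (by simp)]; rfl)
  have e3 : v.length ^ k ≤ q.eval (n + 1) ^ k := by
    apply Nat.pow_le_pow_left
    simpa using hvl
  simp only [Polynomial.eval_add, Polynomial.eval_pow, Polynomial.eval_one,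
    Polynomial.eval_comp, Polynomial.eval_X] at e1
  omega

end Pool.Agent.H943R5.GC
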