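import Pool.Agent.H943R5.GC.FinalB
import Pool.Agent.H943R5.GC.P2
import Pool.Agent.H943R5.GC.P4
import Pool.Agent.H943R5.GC.P5

/-!
# Project GC: the gauge theorem for optimal proof systems of `Π₂`-complete sets
-/

namespace Pool.Agent.H943R5.GC

open Pool.Agent.NPC Pool.Agent.H628R3.RO Pool.Agent.H673R2.OneTT
open Pool.Agent.H620R2 (Gauge.Null)
open Pool.Agent.H543R3.PC2 (IsPi2 Pi2Hard HasOpt2 HasPOpt2)

theorem g_opt2 (f : ℕ → ℝ) : GStmt HasOpt2 f :=
  ⟨fun C hf => null_of_ae_not ae_not_opt2 f C hf,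
    fun σ hσ hf => not_null_of_good exists_loc2
      (fun _ _ h => hasOpt2_of_hasPOpt2 (has_popt2 h)) f σ hσ hf⟩

end Pool.Agent.H943R5.GC
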