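import Pool.Agent.H943R5.GC.DefsN
import Pool.Agent.H628R3.RO.M2

/-!
# Project GC, null side: a bad block before the first failure, second kind
-/

namespace Pool.Agent.H943R5.GC

open Pool.Agent.NPC Pool.Agent.H628R3.RO Pool.Agent.H673R2.OneTT
open Pool.Agent.H628R3.RO.M2 MeasureTheory

namespace S2

/-- no failure before the round `s` -/
def ta (D : ℕ → Set Oracle) (s : ℕ) : Set Oracle := {A | ∀ s' < s, A ∉ D s'}

theorem loc_ta {M : ℕ} {K : ℕ → Set (List Bool)} (hmono : Monotone K) {D : ℕ → Set Oracle}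
    (hD : ∀ s < M, RLoc (K (s + 1)) (D s)) {s : ℕ} (hs : s < M) : RLoc (K s) (ta D s) := by
  intro A A' h
  unfold ta
  simp only [Set.mem_ofPred_eq]
  refine forall₂_congr fun s' hs' => not_congr ?_
  exact hD s' (hs'.trans hs) A A' fun x hx => h x (hmono hs' hx)

theorem plant_ta {M : ℕ} {K : ℕ → Set (List Bool)} (hmono : Monotone K) {D : ℕ → Set Oracle}
    (hD : ∀ s < M, RLoc (K (s + 1)) (D s)) {s : ℕ} (hs : s < M) {m : ℕ} {W : Finset Cand}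
    (hW : ∀ κ ∈ W, ∀ i < m, pos κ.1 i κ.2 ∉ K s) (B : Oracle) (h : Finset Cand) (hh : h ⊆ W) :
    plant (allSpots m h) B ∈ ta D s ↔ B ∈ ta D s := by
  apply loc_ta hmono hD hs
  intro x hx
  unfold plant
  rw [if_neg]
  intro hx'
  obtain ⟨κ, hκ, hx2⟩ := M2.mem_allSpots.1 hx'
  obtain ⟨i, hi, rfl⟩ := M2.mem_spots.1 hx2
  exact hW κ (hh hκ) i hi hx

theorem prob_le_one (S : Set Oracle) : prob S ≤ 1 := by
  unfold prob
  exact measureReal_le_one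

/-- one stage -/
theorem stage {K K' : Set (List Bool)} (hK : K.Finite) (hK' : K'.Finite) (hKK : K ⊆ K')
    {D τ : Set Oracle} (hD : RLoc K' D) (hτ : RLoc K τ) (W : Finset Cand) {m : ℕ} (hm : 1 ≤ m)
    (t : ℕ) (hW : ∀ κ ∈ W, ∀ i < m, pos κ.1 i κ.2 ∈ K' ∧ pos κ.1 i κ.2 ∉ K)
    (hτ' : ∀ (B : Oracle) (h : Finset Cand), h ⊆ W → (plant (allSpots m h) B ∈ τ ↔ B ∈ τ))
    (hkey : ∀ B ∈ NoHit m W, B ∉ D → ∃ T : Finset Cand, T.card ≤ t ∧
      ∀ h ⊆ W, Disjoint h T → plant (allSpots m h) B ∉ D) {r : ℝ} (hr2 : r ≤ 1 / 2)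
    (hr : 1 - (1 - (1 / 2 : ℝ) ^ m) ^ W.card ≤ r) :
    prob (D ∩ τ ∩ (NoHit m W)ᶜ) ≤ 2 * r * prob (D ∩ τ) + t * (1 / 2) ^ m := by
  have hτ2 : RLoc K' τ := M2.Loc.mono hτ hKK
  have hDm := measurableSet_of_loc hK' hD
  have hNm := measurableSet_noHit m W
  have hk := key_taut hK' (Z := Dᶜ) (E := Dᶜ) (τ := τ) (M2.Loc.compl hD) (M2.Loc.compl hD) hτ2 W hm t
    (fun κ hκ i hi => (hW κ hκ i hi).1) hτ' (fun B hB hBZ => by
      obtain ⟨T, hT, hT'⟩ := hkey B hB hBZ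
      exact ⟨T, hT, fun h hh _ hd => hT' h hh hd⟩)
  have hno := prob_noHit_inter hK hτ m W (fun κ hκ i hi => (hW κ hκ i hi).2)
  set q : ℝ := (1 / 2) ^ m with hq
  have hq0 : 0 < q := by positivity
  have hq1 : q ≤ 1 := pow_le_one₀ (by norm_num) (by norm_num)
  set r' : ℝ := (1 - q) ^ W.card with hr'
  have hr'1 : r' ≤ 1 := pow_le_one₀ (by linarith) (by linarith)
  have hr'2 : 1 / 2 ≤ r' := by linarith
  -- decompositions
  have e1 : prob (τ ∩ NoHit m W) + prob (τ ∩ (NoHit m W)ᶜ) = prob τ := prob_inter_add_compl τ hNm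
  have e2 : prob (D ∩ τ ∩ (NoHit m W)ᶜ) + prob (Dᶜ ∩ τ ∩ (NoHit m W)ᶜ) =
      prob (τ ∩ (NoHit m W)ᶜ) := by
    have := prob_inter_add_compl (τ ∩ (NoHit m W)ᶜ) hDm
    have s1 : τ ∩ (NoHit m W)ᶜ ∩ D = D ∩ τ ∩ (NoHit m W)ᶜ := by
      ext A; simp only [Set.mem_inter_iff]; tauto
    have s2 : τ ∩ (NoHit m W)ᶜ ∩ Dᶜ = Dᶜ ∩ τ ∩ (NoHit m W)ᶜ := by
      ext A; simp only [Set.mem_inter_iff]; tauto
    rw [s1, s2] at this
    exact this
  have e3 : prob (D ∩ τ ∩ NoHit m W) + prob (Dᶜ ∩ τ ∩ NoHit m W) = prob (τ ∩ NoHit m W) := by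
    have := prob_inter_add_compl (τ ∩ NoHit m W) hDm
    have s1 : τ ∩ NoHit m W ∩ D = D ∩ τ ∩ NoHit m W := by
      ext A; simp only [Set.mem_inter_iff]; tauto
    have s2 : τ ∩ NoHit m W ∩ Dᶜ = Dᶜ ∩ τ ∩ NoHit m W := by
      ext A; simp only [Set.mem_inter_iff]; tauto
    rw [s1, s2] at this
    exact this
  have e4 : prob (D ∩ τ ∩ NoHit m W) ≤ prob (D ∩ τ) := prob_mono Set.inter_subset_left
  have hx := prob_nonneg (D ∩ τ ∩ (NoHit m W)ᶜ)
  have ha := prob_nonneg (D ∩ τ ∩ NoHit m W)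
  have hT0 := prob_nonneg τ
  have hT1 := prob_le_one τ
  have ht0 : (0 : ℝ) ≤ t := Nat.cast_nonneg t
  generalize prob (D ∩ τ ∩ (NoHit m W)ᶜ) = x at *
  generalize prob (Dᶜ ∩ τ ∩ (NoHit m W)ᶜ) = y at *
  generalize prob (D ∩ τ ∩ NoHit m W) = a at *
  generalize prob (Dᶜ ∩ τ ∩ NoHit m W) = b at *
  generalize prob (τ ∩ NoHit m W) = c at *
  generalize prob (τ ∩ (NoHit m W)ᶜ) = d at *
  generalize prob τ = T at *
  generalize prob (D ∩ τ) = P at *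
  -- `r' x ≤ (1 - r') a + t q T r'`
  have k1 : r' * x ≤ (1 - r') * a + t * q * T * r' := by
    have f1 : x = T - c - y := by linarith
    have f2 : T * r' = c := hno.symm
    have f3 : b = c - a := by linarith
    rw [f3] at hk
    rw [f1]
    nlinarith
  have k2 : t * q * T * r' ≤ r' * (t * q) := by
    have : 0 ≤ (t : ℝ) * q * r' := by positivity
    nlinarith
  have k3 : (1 - r') * a ≤ r' * (2 * (1 - r') * a) := by
    have : 0 ≤ (1 - r') * a := mul_nonneg (by linarith) ha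
    nlinarith
  have k4 : r' * x ≤ r' * (2 * (1 - r') * a + t * q) := by nlinarith
  have hr'0 : 0 < r' := by linarith
  have k5 : x ≤ 2 * (1 - r') * a + t * q := le_of_mul_le_mul_left k4 hr'0
  have k6 : (1 - r') * a ≤ r * P := mul_le_mul hr e4 ha (by linarith)
  linarith

end S2

open S2 in
theorem stage_taut {M : ℕ} (K : ℕ → Set (List Bool)) (hK : ∀ s, (K s).Finite)
    (hmono : Monotone K) (D : ℕ → Set Oracle) (hD : ∀ s < M, RLoc (K (s + 1)) (D s))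
    (W : ℕ → Finset Cand) (m t : ℕ → ℕ) (hm : ∀ s < M, 1 ≤ m s)
    (hW : ∀ s < M, ∀ κ ∈ W s, ∀ i < m s, pos κ.1 i κ.2 ∈ K (s + 1) ∧ pos κ.1 i κ.2 ∉ K s)
    (hkey : ∀ s < M, ∀ B ∈ NoHit (m s) (W s), B ∉ D s → ∃ T : Finset Cand, T.card ≤ t s ∧
      ∀ h ⊆ W s, Disjoint h T → plant (allSpots (m s) h) B ∉ D s) (r : ℝ) (hr0 : 0 ≤ r) (hr2 : r ≤ 1 / 2)
    (hr : ∀ s < M, 1 - (1 - (1 / 2 : ℝ) ^ (m s)) ^ (W s).card ≤ r) :
    prob {A | ∃ s < M, (∀ s' < s, A ∉ D s') ∧ A ∈ D s ∧ A ∉ NoHit (m s) (W s)} ≤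
      2 * r + ∑ s ∈ Finset.range M, (t s : ℝ) * (1 / 2) ^ (m s) := by
  have h1 : {A | ∃ s < M, (∀ s' < s, A ∉ D s') ∧ A ∈ D s ∧ A ∉ NoHit (m s) (W s)} ⊆
      ⋃ s ∈ Finset.range M, D s ∩ ta D s ∩ (NoHit (m s) (W s))ᶜ := by
    rintro A ⟨s, hs, h2, h3, h4⟩
    simp only [Set.mem_iUnion, Finset.mem_range, exists_prop]
    exact ⟨s, hs, ⟨h3, h2⟩, h4⟩
  have h2 : prob (⋃ s ∈ Finset.range M, D s ∩ ta D s ∩ (NoHit (m s) (W s))ᶜ) ≤
      ∑ s ∈ Finset.range M, prob (D s ∩ ta D s ∩ (NoHit (m s) (W s))ᶜ) :=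
    measureReal_biUnion_finset_le _ _
  have h3 : ∑ s ∈ Finset.range M, prob (D s ∩ ta D s ∩ (NoHit (m s) (W s))ᶜ) ≤
      ∑ s ∈ Finset.range M, (2 * r * prob (D s ∩ ta D s) + (t s : ℝ) * (1 / 2) ^ (m s)) := by
    apply Finset.sum_le_sum
    intro s hs
    have hs' := Finset.mem_range.1 hs
    exact stage (hK s) (hK (s + 1)) (hmono (Nat.le_succ s)) (hD s hs') (loc_ta hmono hD hs')
      (W s) (hm s hs') (t s) (hW s hs')
      (plant_ta hmono hD hs' fun κ hκ i hi => (hW s hs' κ hκ i hi).2) (hkey s hs') hr2 (hr s hs')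
  have h4 : ∑ s ∈ Finset.range M, prob (D s ∩ ta D s) ≤ 1 := by
    have hmeas : ∀ s ∈ Finset.range M, MeasurableSet (D s ∩ ta D s) := by
      intro s hs
      have hs' := Finset.mem_range.1 hs
      exact (measurableSet_of_loc (hK (s + 1)) (hD s hs')).inter
        (measurableSet_of_loc (hK s) (loc_ta hmono hD hs'))
    have hdisj : Set.PairwiseDisjoint (↑(Finset.range M)) (fun s => D s ∩ ta D s) := by
      intro s _ s' _ hne
      rw [Function.onFun, Set.disjoint_left]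
      rintro A ⟨a1, a2⟩ ⟨b1, b2⟩
      rcases lt_or_gt_of_ne hne with h | h
      · exact b2 s h a1
      · exact a2 s' h b1
    have h5 := measureReal_biUnion_finset (μ := randomOracle) hdisj hmeas
    calc ∑ s ∈ Finset.range M, prob (D s ∩ ta D s)
        = prob (⋃ s ∈ Finset.range M, D s ∩ ta D s) := h5.symm
      _ ≤ 1 := prob_le_one _
  refine (prob_mono h1).trans (h2.trans (h3.trans ?_))
  rw [Finset.sum_add_distrib, ← Finset.mul_sum]
  have h5 : 2 * r * ∑ s ∈ Finset.range M, prob (D s ∩ ta D s) ≤ 2 * r * 1 :=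
    mul_le_mul_of_nonneg_left h4 (by linarith)
  linarith

end Pool.Agent.H943R5.GC
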