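import Pool.Agent.H943R5.GC.S8Aux
import Pool.Agent.H943R5.GC.S5A
import Pool.Agent.H943R5.GC.S5B

/-!
# Project GC, null side, task S8: proof systems, locality and touched candidates
-/

namespace Pool.Agent.H943R5.GC

open Pool.Agent.NPC Pool.Agent.H628R3.RO Pool.Agent.H673R2.OneTT

theorem loc2 : ∃ K₀, ∀ Kc, K₀ ≤ Kc → ∀ W v s,
    RLoc {x | x.length < nn Kc W v (s + 1)} {A | D2 Kc W A v s} :=
  S8.loc2_of len_bounds poly_mm tw_chain nn_le_mm

theorem key2 : ∃ K₀, ∀ Kc, K₀ ≤ Kc → ∀ W v s, ∀ B : Oracle, ¬ D2 Kc W B v s →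
    ∃ T : Finset Cand, T.card ≤ nn Kc W v (s + 1) ∧
      ∀ h ⊆ blk Kc W 1 v s, Disjoint h T →
        ¬ D2 Kc W (plant (allSpots (nn Kc W v s + tv W v) h) B) v s :=
  S8.key2_of len_bounds poly_mm tw_chain nn_le_mm

end Pool.Agent.H943R5.GC
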