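import Pool.Agent.H943R5.GC.S9core
import Pool.Agent.H943R5.GC.S2
import Pool.Agent.H943R5.GC.S3
import Pool.Agent.H943R5.GC.S5A
import Pool.Agent.H943R5.GC.S5B
import Pool.Agent.H943R5.GC.S8

/-!
# Project GC, task S10: probability of the exceptional event, proof systems
-/

namespace Pool.Agent.H943R5.GC

open Pool.Agent.NPC Pool.Agent.H628R3.RO Pool.Agent.H673R2.OneTT

namespace S10

/-- the probability that no block has a hit -/
theorem last_le {t : ℕ} (ht : 1 ≤ t) : (1 - (1 / 2 : ℝ) ^ (t + 1)) ^ (2 ^ (4 * t)) ≤ (1 / 2) ^ t := by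
  have h1 := sub_pow_le_exp ((1 / 2 : ℝ) ^ (t + 1)) (pow_le_one₀ (by norm_num) (by norm_num))
    (2 ^ (4 * t))
  refine h1.trans ?_
  have h2 : (1 / 2 : ℝ) ^ (t + 1) * ((2 ^ (4 * t) : ℕ) : ℝ) = 2 ^ (3 * t - 1) := by
    obtain ⟨u, rfl⟩ : ∃ u, t = u + 1 := ⟨t - 1, by omega⟩
    push_cast
    have e1 : 4 * (u + 1) = (u + 1 + 1) + (3 * u + 2) := by ring
    have e2 : 3 * (u + 1) - 1 = 3 * u + 2 := by omega
    rw [e1, e2, pow_add 2 (u + 1 + 1), ← mul_assoc, ← mul_pow]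
    norm_num
  rw [h2]
  have h3 : (t : ℝ) ≤ 2 ^ (3 * t - 1) := by
    have h4 : t < 2 ^ t := Nat.lt_pow_self (by norm_num)
    have h5 : 2 ^ t ≤ 2 ^ (3 * t - 1) := Nat.pow_le_pow_right (by norm_num) (by omega)
    exact_mod_cast h4.le.trans h5
  calc Real.exp (-(2 : ℝ) ^ (3 * t - 1)) ≤ Real.exp (-(t : ℝ)) := Real.exp_le_exp.2 (by linarith)
    _ = (Real.exp (-1)) ^ t := by rw [← Real.exp_nat_mul]; congr 1; ring
    _ ≤ (1 / 2) ^ t := by
        refine pow_le_pow_left₀ (Real.exp_pos _).le ?_ t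
        rw [Real.exp_neg, one_div]
        apply inv_anti₀ (by norm_num)
        have := Real.add_one_le_exp (1 : ℝ)
        linarith

theorem loc_N {Kc W : ℕ} {v : List Bool} (s : ℕ) {K : Set (List Bool)}
    (h : ∀ κ ∈ blk Kc W 1 v s, ∀ i < nn Kc W v s + tv W v, pos κ.1 i κ.2 ∈ K) :
    RLoc K (N2s Kc W v s) := M2.loc_noHit h

theorem loc_ev {Kc W : ℕ} {v : List Bool} (hmono : StrictMono (nn Kc W v))
    (hloc : ∀ s, RLoc {x | x.length < nn Kc W v (s + 1)} {A | D2 Kc W A v s})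
    (hN : ∀ s, RLoc {x | x.length < nn Kc W v (s + 1)} (N2s Kc W v s)) :
    RLoc {x | x.length < nn Kc W v (Mv W v)} (Ev2 Kc W v) := by
  intro A A' h
  have hsub : ∀ s < Mv W v, ∀ x ∈ {x : List Bool | x.length < nn Kc W v (s + 1)},
      A x = A' x := by
    intro s hs x hx
    exact h x (lt_of_lt_of_le hx (hmono.monotone hs))
  have hD : ∀ s < Mv W v, (D2 Kc W A v s ↔ D2 Kc W A' v s) :=
    fun s hs => hloc s A A' (hsub s hs)
  have hN' : ∀ s < Mv W v, (A ∈ N2s Kc W v s ↔ A' ∈ N2s Kc W v s) :=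
    fun s hs => hN s A A' (hsub s hs)
  unfold Ev2
  simp only [Set.mem_ofPred_eq]
  refine or_congr ?_ ?_
  · refine exists_congr fun s => and_congr_right fun hs => ?_
    refine and_congr ?_ (and_congr (hD s hs) (not_congr (hN' s hs)))
    exact forall₂_congr fun s' hs' => not_congr (hD s' (hs'.trans hs))
  · exact forall₂_congr fun s hs => hN' s hs

/-- the probability of no hit at round `s` -/
theorem prob_nohit {Kc W : ℕ} {v : List Bool} (s : ℕ) :
    prob (N2s Kc W v s) ≤ 1 - (1 / 2) ^ (tv W v + 1) := by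
  have h1 : prob (Set.univ : Set Oracle) = 1 := by
    unfold prob
    exact MeasureTheory.probReal_univ
  have h3 : prob (Set.univ ∩ NoHit (nn Kc W v s + tv W v) (blk Kc W 1 v s)) =
      prob (Set.univ : Set Oracle) *
        (1 - (1 / 2) ^ (nn Kc W v s + tv W v)) ^ (blk Kc W 1 v s).card := by
    refine prob_noHit_inter (K := ∅) Set.finite_empty ?_ _ _ ?_
    · intro A A' _
      simp
    · intro κ _ i _
      simp
  have h4 := taut_ge (nn Kc W v s) (tv W v)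
  rw [card_blk, one_mul, h1, Set.univ_inter, one_mul] at h3
  unfold N2s
  rw [h3]
  linarith

end S10

open S10 S9 in
theorem prob2 : ∃ K₀, ∀ Kc, K₀ ≤ Kc → ∀ W, 1 ≤ W → ∀ v,
    RLoc {x | x.length < nn Kc W v (Mv W v)} (Ev2 Kc W v) ∧
      prob (Ev2 Kc W v) ≤ 4 * (1 / 2) ^ (tv W v) := by
  obtain ⟨k1, hk1⟩ := pos_len
  obtain ⟨k2, hk2⟩ := err_sum
  obtain ⟨k3, hk3⟩ := loc2
  obtain ⟨k4, hk4⟩ := key2
  refine ⟨k1 + k2 + k3 + k4 + 1, fun Kc hKc W hW1 v => ?_⟩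
  have ht1 : 1 ≤ tv W v := by
    unfold tv
    exact Nat.mul_pos hW1 (Nat.succ_pos _)
  have hmono := nn_mono (Kc := Kc) (by omega) W v
  have hpos : ∀ s, ∀ κ ∈ blk Kc W 1 v s, ∀ i < nn Kc W v s + tv W v,
      nn Kc W v s ≤ (pos κ.1 i κ.2).length ∧ (pos κ.1 i κ.2).length < nn Kc W v (s + 1) :=
    fun s κ hκ i hi => hk1 Kc (by omega) W v s 1 (by omega) κ hκ i (by omega)
  have hloc := hk3 Kc (by omega) W v
  have hN : ∀ s, RLoc {x | x.length < nn Kc W v (s + 1)} (N2s Kc W v s) := fun s =>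
    S10.loc_N s fun κ hκ i hi => (hpos s κ hκ i hi).2
  refine ⟨S10.loc_ev hmono hloc hN, ?_⟩
  obtain ⟨K, hK⟩ : ∃ K : ℕ → Set (List Bool), K = fun s => {x | x.length < nn Kc W v s} := ⟨_, rfl⟩
  have hKf : ∀ s, (K s).Finite := fun s => by rw [hK]; exact finK _
  have hKm : Monotone K := by
    intro a b hab x hx
    rw [hK] at hx ⊢
    exact lt_of_lt_of_le hx (hmono.monotone hab)
  have hKn : ∀ s, ∀ κ ∈ blk Kc W 1 v s, ∀ i < nn Kc W v s + tv W v,
      pos κ.1 i κ.2 ∈ K (s + 1) ∧ pos κ.1 i κ.2 ∉ K s := by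
    intro s κ hκ i hi
    rw [hK]
    refine ⟨(hpos s κ hκ i hi).2, fun h => ?_⟩
    have h' : (pos κ.1 i κ.2).length < nn Kc W v s := h
    have := (hpos s κ hκ i hi).1
    omega
  have hhalf : (1 / 2 : ℝ) ^ (tv W v) ≤ 1 / 2 := by
    calc (1 / 2 : ℝ) ^ (tv W v) ≤ (1 / 2) ^ 1 :=
          pow_le_pow_of_le_one (by norm_num) (by norm_num) ht1
      _ = 1 / 2 := pow_one _
  -- first part
  have h1 := stage_taut (M := Mv W v) K hKf hKm (fun s => {A | D2 Kc W A v s})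
    (fun s _ => by rw [hK]; exact hloc s)
    (fun s => blk Kc W 1 v s) (fun s => nn Kc W v s + tv W v) (fun s => nn Kc W v (s + 1))
    (fun s _ => (one_le_nn Kc W v s).trans (Nat.le_add_right _ _))
    (fun s _ => hKn s)
    (fun s _ B _ hE => hk4 Kc (by omega) W v s B hE) ((1 / 2) ^ (tv W v)) (by positivity) hhalf
    (fun s _ => by
      rw [card_blk, one_mul]
      exact taut_le _ _)
  have h2 := hk2 Kc (by omega) W v
  -- second part
  have h3 := stage_all (M := Mv W v) K hKf hKm (fun s => N2s Kc W v s) (fun s _ => by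
      refine S10.loc_N s fun κ hκ i hi => ?_
      exact hKn s κ hκ i hi) ((1 / 2) ^ (tv W v + 1)) (fun s _ => prob_nohit s)
    (pow_le_one₀ (by norm_num) (by norm_num))
  have h4 := S10.last_le ht1
  have h5 : prob (Ev2 Kc W v) ≤ _ := M2.prob_union_le
    {A | ∃ s < Mv W v, (∀ s' < s, ¬ D2 Kc W A v s') ∧ D2 Kc W A v s ∧ A ∉ N2s Kc W v s}
    {A | ∀ s < Mv W v, A ∈ N2s Kc W v s}
  have h6 : (0 : ℝ) ≤ (1 / 2) ^ (tv W v) := by positivity
  have h9 : ∑ s ∈ Finset.range (Mv W v),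
      (nn Kc W v (s + 1) : ℝ) * (1 / 2) ^ (nn Kc W v s + tv W v) ≤
      ∑ s ∈ Finset.range (Mv W v), (nn Kc W v (s + 1) : ℝ) * (1 / 2) ^ (nn Kc W v s) := by
    refine Finset.sum_le_sum fun s _ => ?_
    refine mul_le_mul_of_nonneg_left ?_ (Nat.cast_nonneg _)
    exact pow_le_pow_of_le_one (by norm_num) (by norm_num) (Nat.le_add_right _ _)
  have h7 : prob {A | ∃ s < Mv W v, (∀ s' < s, ¬ D2 Kc W A v s') ∧ D2 Kc W A v s ∧
      A ∉ N2s Kc W v s} ≤ 2 * (1 / 2) ^ (tv W v) + ∑ s ∈ Finset.range (Mv W v),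
        (nn Kc W v (s + 1) : ℝ) * (1 / 2) ^ (nn Kc W v s + tv W v) := h1
  have h8 : prob {A | ∀ s < Mv W v, A ∈ N2s Kc W v s} ≤
      (1 - (1 / 2) ^ (tv W v + 1)) ^ (Mv W v) := h3
  unfold Mv at h8 h5 h7 h2 h9
  linarith

end Pool.Agent.H943R5.GC
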