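import Pool.Agent.H943R5.GC.U2A
import Pool.Agent.H628R3.RO.E1

/-!
# Project GC, task U2B: the guard is computable in polynomial time with the oracle
-/

namespace Pool.Agent.H943R5.GC

open Pool.Agent.NPC Pool.Agent.H628R3.RO Pool.Agent.H673R2.OneTT

namespace U2B

attribute [local irreducible] unpair

/-! ### The string number `s` -/

theorem snoc_bits (l : List Bool) : (valB (l ++ [true])).bits = l ++ [true] := by
  induction l with
  | nil => rfl
  | cons b l ih =>
    have hpos : 0 < valB (l ++ [true]) := by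
      rw [valB_append]
      have h1 : valB [true] = 1 := rfl
      rw [h1, mul_one]
      have := Nat.two_pow_pos l.length
      omega
    have h2 : valB (b :: l ++ [true]) = Nat.bit b (valB (l ++ [true])) := by
      rw [List.cons_append, valB_cons, Nat.bit_val]
      cases b <;> simp <;> omega
    rw [h2, Nat.bits_append_bit _ _ (by intro h; omega), ih]
    rfl

theorem valB_incS (l : List Bool) :
    valB (Pool.Agent.H583R2.incS l ++ [true]) = valB (l ++ [true]) + 1 := by
  induction l with
  | nil => rfl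
  | cons b l ih =>
    cases b
    · simp only [Pool.Agent.H583R2.incS, List.cons_append, valB_cons]
      simp; omega
    · simp only [Pool.Agent.H583R2.incS, List.cons_append, valB_cons, ih]
      simp; omega

theorem st_eq (s : ℕ) : st s = ((s + 1).bits.reverse).tail := by
  have h1 : ∀ s : ℕ, valB ((Pool.Agent.H583R2.incS^[s] []) ++ [true]) = s + 1 := by
    intro s
    induction s with
    | zero => rfl
    | succ s ih => rw [Function.iterate_succ_apply', valB_incS, ih]
  have h2 := snoc_bits (Pool.Agent.H583R2.incS^[s] [])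
  rw [h1] at h2
  unfold st Pool.Agent.H583R2.str
  rw [h2, List.reverse_append]
  rfl

theorem poly_st {α : Type} [TEnc α] {s : α → ℕ} (hs : Poly s) : Poly (fun a => st (s a)) :=
  (Poly.tail (Poly.reverse (Poly.natBits (Poly.succ hs)))).congr fun a => (st_eq (s a)).symm

/-! ### Capped iterated squares -/

theorem capped {α : Type} [TEnc α] {B x j : α → ℕ} (hB : UPoly B) (hx : UPoly x) (hj : UPoly j) :
    UPoly (fun a => min (tw (x a) (j a)) (B a)) := by
  have h2 : Poly (fun z : List Bool => (unpair z).2) := Poly.snd poly_unpair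
  have h := poly_capped (fun z => (unpair z).1.length) (UPoly.length (Poly.fst poly_unpair))
    (fun z => (unpair (unpair z).2).1.length) (fun z => (unpair (unpair z).2).2.length)
    (UPoly.length (Poly.fst (poly_unpair.comp h2))) (UPoly.length (Poly.snd (poly_unpair.comp h2)))
  have h3 : Poly (fun a => pairBits (List.replicate (B a) true)
      (pairBits (List.replicate (x a) true) (List.replicate (j a) true))) :=
    H622R2.poly_pairBits (p_replicate hB true)
      (H622R2.poly_pairBits (p_replicate hx true) (p_replicate hj true))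
  have h4 := UPoly.comp h h3
  refine Poly.congr h4 fun a => ?_
  simp only [unpair_pairBits, List.length_replicate]

theorem u_min {α : Type} [TEnc α] {s b : α → ℕ} (hs : Poly s) (hb : UPoly b) :
    UPoly (fun a => min (s a) (b a)) :=
  UPoly.of_le (Poly.min hs hb.toPoly) hb fun _ => min_le_right _ _

/-! ### Components of the instance -/

theorem p_zv {α : Type} [TEnc α] {z : α → List Bool} (hz : Poly z) : Poly (fun a => zv (z a)) :=
  Poly.fst (poly_unpair.comp hz)

theorem u_zm {α : Type} [TEnc α] {z : α → List Bool} (hz : Poly z) : UPoly (fun a => zm (z a)) :=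
  UPoly.length (Poly.snd (poly_unpair.comp (Poly.snd (poly_unpair.comp hz))))

theorem u_LL {α : Type} [TEnc α] {v : α → List Bool} {s : α → ℕ} (hv : Poly v) (hs : Poly s) :
    UPoly (fun a => LL (v a) (s a)) := by
  unfold LL nmB
  exact UPoly.add (UPoly.mul (UPoly.const 2) (UPoly.length (H622R2.poly_pairBits hv (poly_st hs))))
    (UPoly.const 2)

/-- bound for the scales -/
noncomputable def Bd (K : ℕ) (m : ℕ) : ℕ := (m * m + 2) ^ (2 ^ K)

theorem u_Bd (K : ℕ) {α : Type} [TEnc α] {m : α → ℕ} (hm : UPoly m) :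
    UPoly (fun a => Bd K (m a)) := by
  refine Poly.congr (UPoly.eval hm ((Polynomial.X * Polynomial.X + 2) ^ (2 ^ K))) fun a => ?_
  unfold Bd
  simp

/-- the positions, capped -/
noncomputable def yy (K : ℕ) (z : List Bool) (s i : ℕ) : List Bool :=
  pairBits (nmB (zv z) (min s (zm z)))
    (List.replicate (min (tw 2 (min s (zm z) + K)) (Bd K (zm z)) +
      min i (LL (zv z) (min s (zm z)))) true)

theorem p_yy (K : ℕ) {α : Type} [TEnc α] {z : α → List Bool} {s i : α → ℕ} (hz : Poly z)
    (hs : Poly s) (hi : Poly i) : Poly (fun a => yy K (z a) (s a) (i a)) := by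
  have hm := u_zm hz
  have hs' := u_min hs hm
  unfold yy nmB
  refine H622R2.poly_pairBits (H622R2.poly_pairBits (p_zv hz) (poly_st hs'.toPoly))
    (p_replicate (UPoly.add (capped (u_Bd K hm) (UPoly.const 2) (UPoly.add hs' (UPoly.const K)))
      (u_min hi (u_LL (p_zv hz) hs'.toPoly))) true)

/-- the positions of the block of round `s` -/
noncomputable def yL (K : ℕ) (z : List Bool) (s : ℕ) : List (List Bool) :=
  (List.range (LL (zv z) (min s (zm z)))).map (yy K z s)

theorem p_yL (K : ℕ) {α : Type} [TEnc α] {z : α → List Bool} {s : α → ℕ} (hz : Poly z)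
    (hs : Poly s) : Poly (fun a => yL K (z a) (s a)) := by
  unfold yL
  exact NPC.Poly.map (F := fun a i => yy K (z a) (s a) i)
    (UPoly.range (u_LL (p_zv hz) (u_min hs (u_zm hz)).toPoly))
    (p_yy K (hz.comp (Poly.fst Poly.id)) (hs.comp (Poly.fst Poly.id)) (Poly.snd Poly.id))

/-- the rounds up to the round of the budget -/
noncomputable def rounds (z : List Bool) : List ℕ :=
  (List.range (zm z + 1)).filter
    (fun s => decide (s = 0) || decide (min (tw 2 (min s (zm z) - 1)) (zm z) < zm z))

theorem p_rounds : Poly rounds := by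
  unfold rounds
  refine Poly.filter (p := fun z s => decide (s = 0) ||
    decide (min (tw 2 (min s (zm z) - 1)) (zm z) < zm z))
    (UPoly.range (UPoly.add (u_zm Poly.id) (UPoly.const 1))) ?_
  have h1 : Poly (fun p : List Bool × ℕ => p.1) := Poly.fst Poly.id
  have h2 : Poly (fun p : List Bool × ℕ => p.2) := Poly.snd Poly.id
  have h3 := u_zm h1
  have h4 := u_min h2 h3
  have h5 : UPoly (fun p : List Bool × ℕ => min p.2 (zm p.1) - 1) :=
    UPoly.of_le (Poly.sub h4.toPoly (NPC.Poly.const 1)) h4 fun _ => Nat.sub_le _ _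
  exact Poly.or (Poly.decide_eq h2 (NPC.Poly.const 0))
    (Poly.decide_lt (capped h3 (UPoly.const 2) h5).toPoly h3.toPoly)

theorem rd_le (m : ℕ) : rd m ≤ m := by
  unfold rd
  have h1 : ∀ n : ℕ, Nat.clog 2 n ≤ n := fun n =>
    (Nat.clog_le_iff_le_pow (by norm_num)).2 Nat.lt_two_pow_self.le
  exact (h1 _).trans (h1 _)

theorem lt_rd {s m : ℕ} : s < rd m ↔ TT s < m := by
  unfold rd TT tw
  rw [← not_le, Nat.clog_le_iff_le_pow (by norm_num), Nat.clog_le_iff_le_pow (by norm_num), not_le]

theorem mem_rounds {z : List Bool} {s : ℕ} : s ∈ rounds z ↔ s ≤ rd (zm z) := by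
  unfold rounds
  rw [List.mem_filter, List.mem_range]
  simp only [Bool.or_eq_true, decide_eq_true_eq]
  constructor
  · rintro ⟨h1, h2⟩
    rcases h2 with rfl | h2
    · exact Nat.zero_le _
    · rcases Nat.eq_zero_or_pos s with rfl | h3
      · exact Nat.zero_le _
      · rw [min_eq_left (by omega : s ≤ zm z)] at h2
        have h4 : TT (s - 1) < zm z := by
          unfold TT
          rcases min_lt_iff.1 h2 with h | h
          · exact h
          · exact absurd h (lt_irrefl _)
        have := lt_rd.2 h4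
        omega
  · intro h
    have h1 := rd_le (zm z)
    refine ⟨by omega, ?_⟩
    rcases Nat.eq_zero_or_pos s with rfl | h3
    · exact Or.inl rfl
    · right
      rw [min_eq_left (by omega : s ≤ zm z)]
      exact min_lt_iff.2 (Or.inl (lt_rd.1 (by omega : s - 1 < rd (zm z))))

theorem TT_add (s K : ℕ) : TT (s + K) = TT s ^ (2 ^ K) := by
  unfold TT tw
  rw [← pow_mul, pow_add]

theorem TT_le {s m : ℕ} (h : s ≤ rd m) : TT s ≤ m * m + 2 := by
  rcases Nat.eq_zero_or_pos s with rfl | h3
  · have : TT 0 = 2 := rfl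
    omega
  · have h1 := lt_rd.1 (by omega : s - 1 < rd m)
    have h2 : TT s = TT (s - 1) * TT (s - 1) := by
      have h4 : TT (s - 1 + 1) = TT (s - 1) ^ (2 ^ 1) := TT_add _ 1
      rw [show s - 1 + 1 = s by omega] at h4
      rw [h4]
      ring
    rw [h2]
    have := Nat.mul_le_mul h1.le h1.le
    omega

theorem yy_eq {K : ℕ} {z : List Bool} {s i : ℕ} (h : s ≤ rd (zm z)) (hi : i < LL (zv z) s) :
    yy K z s i = YY K (zv z) s i := by
  unfold yy YY
  have h1 := rd_le (zm z)
  rw [min_eq_left (by omega : s ≤ zm z), min_eq_left hi.le]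
  have h2 : tw 2 (s + K) ≤ Bd K (zm z) := by
    have h3 := TT_add s K
    unfold TT at h3
    rw [h3]
    exact Nat.pow_le_pow_left (TT_le h) _
  rw [min_eq_left h2]
  rfl

theorem mem_yL {K : ℕ} {z : List Bool} {s : ℕ} (h : s ≤ rd (zm z)) {q : List Bool} :
    q ∈ yL K z s ↔ ∃ i < LL (zv z) s, YY K (zv z) s i = q := by
  unfold yL
  have h1 := rd_le (zm z)
  rw [min_eq_left (by omega : s ≤ zm z), List.mem_map]
  constructor
  · rintro ⟨i, hi, rfl⟩
    rw [List.mem_range] at hi
    exact ⟨i, hi, (yy_eq h hi).symm⟩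
  · rintro ⟨i, hi, rfl⟩
    exact ⟨i, List.mem_range.2 hi, yy_eq h hi⟩

/-- the questions -/
noncomputable def Qs (K : ℕ) (z : List Bool) : List (List Bool) := (rounds z).flatMap (yL K z)

theorem p_Qs (K : ℕ) : Poly (Qs K) := by
  unfold Qs
  exact Poly.flatMap (F := fun z s => yL K z s) p_rounds
    (p_yL K (Poly.fst Poly.id) (Poly.snd Poly.id))

/-- the evaluation of the answers -/
noncomputable def Hs (K : ℕ) (p : List Bool × List Bool) : List Bool :=
  if (rounds p.1).all (fun s => ((Qs K p.1).zip p.2).any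
    (fun qa => !qa.2 && decide (qa.1 ∈ yL K p.1 s))) then [true] else []

theorem p_Hs (K : ℕ) : Poly (Hs K) := by
  unfold Hs
  refine Poly.ite (Poly.decide_bool ?_) (NPC.Poly.const _) (NPC.Poly.const _)
  refine Poly.all (p := fun (p : List Bool × List Bool) s => ((Qs K p.1).zip p.2).any
    (fun qa => !qa.2 && decide (qa.1 ∈ yL K p.1 s))) (p_rounds.comp (Poly.fst Poly.id)) ?_
  refine Poly.any (p := fun (x : (List Bool × List Bool) × ℕ) (qa : List Bool × Bool) =>
    !qa.2 && decide (qa.1 ∈ yL K x.1.1 x.2))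
    (Poly.zip ((p_Qs K).comp (Poly.fst (Poly.fst Poly.id))) (Poly.snd (Poly.fst Poly.id))) ?_
  exact Poly.and (Poly.not (Poly.snd (Poly.snd Poly.id)))
    ((Poly.decide_mem (Poly.fst (Poly.snd Poly.id))
      (p_yL K (Poly.fst (Poly.fst (Poly.fst Poly.id))) (Poly.snd (Poly.fst Poly.id)))).congr
      fun _ => decide_eq_decide.2 Iff.rfl)

theorem zip_map (l : List (List Bool)) (f : List Bool → Bool) :
    l.zip (l.map f) = l.map (fun q => (q, f q)) := by
  induction l with
  | nil => rfl
  | cons a l ih => simp [ih]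

theorem grd_iff (K : ℕ) (A : Oracle) (z : List Bool) :
    ((rounds z).all (fun s => ((Qs K z).zip ((Qs K z).map A)).any
      (fun qa => !qa.2 && decide (qa.1 ∈ yL K z s))) = true) ↔ Grd K A z := by
  rw [zip_map, List.all_eq_true]
  simp only [List.any_eq_true, List.mem_map, Bool.and_eq_true, Bool.not_eq_true',
    decide_eq_true_eq]
  unfold Grd Sig
  constructor
  · intro h s hs hsig
    obtain ⟨_, ⟨q, hq, rfl⟩, h1, h2⟩ := h s (mem_rounds.2 hs)
    obtain ⟨i, hi, rfl⟩ := (mem_yL hs).1 h2
    rw [hsig i hi] at h1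
    simp at h1
  · intro h s hs
    have hs' := mem_rounds.1 hs
    have h1 := h s hs'
    push Not at h1
    obtain ⟨i, hi, h2⟩ := h1
    have h3 : YY K (zv z) s i ∈ yL K z s := (mem_yL hs').2 ⟨i, hi, rfl⟩
    refine ⟨_, ⟨YY K (zv z) s i, List.mem_flatMap.2 ⟨s, hs, h3⟩, rfl⟩, ?_, h3⟩
    simpa using h2

end U2B

open U2B in
open Classical in
theorem isFP_grd (K : ℕ) (A : Oracle) : IsFP A (fun z => if Grd K A z then [true] else []) := by
  have h := IsFP.tt (A := A) (p_Qs K) (p_Hs K)
  have h2 : (fun z => if Grd K A z then [true] else []) =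
      fun x => Hs K (x, (Qs K x).map A) := by
    funext z
    unfold Hs
    by_cases hz : Grd K A z
    · rw [if_pos hz, if_pos ((grd_iff K A z).2 hz)]
    · rw [if_neg hz, if_neg (fun h' => hz ((grd_iff K A z).1 h'))]
  rw [h2]
  exact h

open U2B in
open Classical in
theorem isFP_ok (K : ℕ) (A : Oracle) (κ : ℕ) :
    IsFP A (fun z => if Ok K A κ z then [true] else []) := by
  have h1 := isFP_grd K A
  have h2 := poly_valid κ
  have h3 := IsFP.seq (φ := fun p => p.1) (ψ := fun p => if p.2.1 = [true] ∧ p.2.2 = [true] then [true]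
    else []) h1 (IsFP.of_poly (A := A) h2) (Poly.fst Poly.id)
    (Poly.ite (Poly.decide_and (Poly.decide_eq (Poly.fst (Poly.snd Poly.id)) (NPC.Poly.const _))
      (Poly.decide_eq (Poly.snd (Poly.snd Poly.id)) (NPC.Poly.const _))) (NPC.Poly.const _)
      (NPC.Poly.const _))
  have h4 : (fun z => if Ok K A κ z then [true] else []) = fun x : List Bool =>
      (fun p : List Bool × List Bool × List Bool =>
        if p.2.1 = [true] ∧ p.2.2 = [true] then [true] else ([] : List Bool))
      (x, (if Grd K A x then [true] else []), (fun z => if kd (zv z) = κ ∧ act (zv z) (rd (zm z)) ∧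
        Adm (zv z) (zu z) (zm z) then [true] else ([] : List Bool)) x) := by
    funext z
    unfold Ok
    by_cases ha : Grd K A z
    · by_cases hb : kd (zv z) = κ ∧ act (zv z) (rd (zm z)) ∧ Adm (zv z) (zu z) (zm z)
      · rw [if_pos ⟨hb.1, hb.2.1, hb.2.2, ha⟩]
        simp only [if_pos ha, if_pos hb, and_self, if_true]
      · rw [if_neg (fun h => hb ⟨h.1, h.2.1, h.2.2.1⟩)]
        simp [if_neg hb]
    · rw [if_neg (fun h => ha h.2.2.2)]
      simp [if_neg ha]
  rw [h4]
  exact h3

end Pool.Agent.H943R5.GC
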