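import Pool.Agent.H943R5.GC.S5A
import Pool.Agent.H943R5.GC.S5B
import Pool.Agent.H943R5.GC.U2B
import Pool.Agent.H628R3.RO.G2

/-!
# Project GC, task S12: the special set is in `coNP`
-/

namespace Pool.Agent.H943R5.GC

open Pool.Agent.NPC Pool.Agent.H628R3.RO Pool.Agent.H673R2.OneTT

namespace S12

/-- the code in the name of a block -/
def vx (x : List Bool) : List Bool := (unpair (unpair x).1).1

/-- the instance of round `s`, capped -/
noncomputable def qqc (Kc W : ℕ) (x : List Bool) (s : ℕ) : List Bool :=
  pairBits (pairBits (vx x) (st (min s x.length)))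
    (List.replicate (min (tw 2 (jj Kc W (vx x) * (2 * min s x.length + 2))) (x.length + 1)) true)

theorem p_vx {α : Type} [TEnc α] {x : α → List Bool} (hx : Poly x) :
    Poly (fun a => vx (x a)) :=
  Poly.fst (poly_unpair.comp (Poly.fst (poly_unpair.comp hx)))

theorem u_jj (Kc W : ℕ) {α : Type} [TEnc α] {v : α → List Bool} (hv : Poly v) :
    UPoly (fun a => jj Kc W (v a)) := by
  unfold jj
  exact UPoly.mul (UPoly.const _) (UPoly.add (UPoly.length hv) (UPoly.const 1))

theorem u_tv (W : ℕ) {α : Type} [TEnc α] {v : α → List Bool} (hv : Poly v) :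
    UPoly (fun a => tv W (v a)) := by
  unfold tv
  exact UPoly.mul (UPoly.const _) (UPoly.add (UPoly.length hv) (UPoly.const 1))

theorem p_qqc (Kc W : ℕ) {α : Type} [TEnc α] {x : α → List Bool} {s : α → ℕ} (hx : Poly x)
    (hs : Poly s) : Poly (fun a => qqc Kc W (x a) (s a)) := by
  have hl := UPoly.length hx
  have hs' := U2B.u_min hs hl
  unfold qqc
  exact H622R2.poly_pairBits (H622R2.poly_pairBits (p_vx hx) (U2B.poly_st hs'.toPoly))
    (p_replicate (U2B.capped (UPoly.add hl (UPoly.const 1)) (UPoly.const 2)
      (UPoly.mul (u_jj Kc W (p_vx hx)) (UPoly.add (UPoly.mul (UPoly.const 2) hs')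
        (UPoly.const 2)))) true)

/-- the test whether `x` is the instance of a round -/
noncomputable def tst (Kc W : ℕ) (x : List Bool) : Bool :=
  (List.range (x.length + 1)).any
    (fun s => decide (x = qqc Kc W x s) && decide (s.size ≤ 4 * tv W (vx x)))

theorem p_tst (Kc W : ℕ) {α : Type} [TEnc α] {x : α → List Bool} (hx : Poly x) :
    Poly (fun a => tst Kc W (x a)) := by
  unfold tst
  refine Poly.any (p := fun a s => decide (x a = qqc Kc W (x a) s) &&
    decide (s.size ≤ 4 * tv W (vx (x a)))) (UPoly.range (UPoly.add (UPoly.length hx)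
      (UPoly.const 1))) ?_
  have h1 : Poly (fun p : α × ℕ => x p.1) := hx.comp (Poly.fst Poly.id)
  have h2 : Poly (fun p : α × ℕ => p.2) := Poly.snd Poly.id
  exact Poly.and (Poly.decide_eq h1 (p_qqc Kc W h1 h2))
    (Poly.decide_le (U2A.poly_size h2) (UPoly.mul (UPoly.const 4) (u_tv W (p_vx h1))).toPoly)

theorem tst_iff {Kc : ℕ} (hK : 1 ≤ Kc) (W : ℕ) (x : List Bool) :
    tst Kc W x = true ↔ ∃ v s, s < Mv W v ∧ x = qq Kc W v s := by
  unfold tst
  simp only [List.any_eq_true, List.mem_range, Bool.and_eq_true, decide_eq_true_eq]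
  constructor
  · rintro ⟨s, hs, hx, h2⟩
    refine ⟨vx x, s, ?_, ?_⟩
    · unfold Mv
      exact Nat.size_le.1 h2
    · unfold qqc at hx
      rw [min_eq_left (by omega : s ≤ x.length)] at hx
      have hl := congrArg List.length hx
      rw [H628R3.RO.length_pairBits, List.length_replicate] at hl
      have h3 : min (tw 2 (jj Kc W (vx x) * (2 * s + 2))) (x.length + 1) =
          tw 2 (jj Kc W (vx x) * (2 * s + 2)) := by
        rcases le_total (tw 2 (jj Kc W (vx x) * (2 * s + 2))) (x.length + 1) with h | h
        · exact min_eq_left h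
        · rw [min_eq_right h] at hl
          omega
      rw [h3] at hx
      exact hx
  · rintro ⟨v, s, h1, h2⟩
    have hv : vx x = v := by
      rw [h2]
      unfold vx qq nmB
      rw [unpair_pairBits, unpair_pairBits]
    have h3 := len_bounds hK W v s
    rw [← h2] at h3
    refine ⟨s, by omega, ?_, ?_⟩
    · unfold qqc
      rw [hv, min_eq_left (by omega : s ≤ x.length)]
      have h4 : tw 2 (jj Kc W v * (2 * s + 2)) = nn Kc W v s := rfl
      rw [h4, min_eq_left (by omega : nn Kc W v s ≤ x.length + 1)]
      exact h2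
    · rw [hv]
      unfold Mv at h1
      exact Nat.size_le.2 h1

/-- the number of questions -/
def mq (W : ℕ) (x : List Bool) : ℕ := (unpair x).2.length + tv W (vx x)

end S12

open S12 in
theorem lt_conp {Kc : ℕ} (hK : 1 ≤ Kc) (W : ℕ) (A : Oracle) : IsCoNP A (LT Kc W A) := by
  refine ⟨G2.ver A (fun p => tst Kc W p.1 && decide (p.2.length = (unpair p.1).2.length))
    (fun p => (List.range (mq W p.1)).map
      (fun l => pos 0 (min l (mq W p.1)) (pairBits (unpair p.1).1 p.2))),
    Polynomial.X, G2.ver_isFP A ?_ ?_, fun x => ?_⟩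
  · have h1 : Poly (fun p : List Bool × List Bool => p.1) := Poly.fst Poly.id
    have h2 : Poly (fun p : List Bool × List Bool => p.2) := Poly.snd Poly.id
    exact Poly.and (p_tst Kc W h1) (Poly.decide_eq (Poly.length h2)
      (Poly.length (Poly.snd (poly_unpair.comp h1))))
  · have h1 : Poly (fun p : List Bool × List Bool => p.1) := Poly.fst Poly.id
    have h2 : Poly (fun p : List Bool × List Bool => p.2) := Poly.snd Poly.id
    have h3 : UPoly (fun p : List Bool × List Bool => mq W p.1) := by
      unfold mq
      exact UPoly.add (UPoly.length (Poly.snd (poly_unpair.comp h1))) (u_tv W (p_vx h1))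
    exact G2.p_spots (UPoly.const 0) h3
      (H622R2.poly_pairBits (Poly.fst (poly_unpair.comp h1)) h2)
  · have hkey : ∀ w : List Bool, G2.ver A
        (fun p => tst Kc W p.1 && decide (p.2.length = (unpair p.1).2.length))
        (fun p => (List.range (mq W p.1)).map
          (fun l => pos 0 (min l (mq W p.1)) (pairBits (unpair p.1).1 p.2))) (pairBits x w) =
        [true] ↔ (∃ v s, s < Mv W v ∧ x = qq Kc W v s) ∧ w.length = (unpair x).2.length ∧
          Hit (mq W x) (0, pairBits (unpair x).1 w) A := by
      intro w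
      rw [G2.ver_iff, G2.forall_spots, Bool.and_eq_true, tst_iff hK, decide_eq_true_eq, and_assoc]
    simp only [hkey, Polynomial.eval_X]
    unfold LT
    rw [Set.mem_compl_iff, Set.mem_ofPred_eq, not_not]
    have hdat : ∀ v s, x = qq Kc W v s → (unpair x).1 = nmB v s ∧
        (unpair x).2.length = nn Kc W v s ∧ mq W x = nn Kc W v s + tv W v := by
      intro v s h
      have e1 : unpair x = (nmB v s, List.replicate (nn Kc W v s) true) := by
        rw [h]
        unfold qq
        rw [unpair_pairBits]
      have e2 : vx x = v := by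
        unfold vx
        rw [e1]
        unfold nmB
        rw [unpair_pairBits]
      refine ⟨by rw [e1], by rw [e1, List.length_replicate], ?_⟩
      unfold mq
      rw [e2, e1, List.length_replicate]
    constructor
    · rintro ⟨v, s, h1, h2, h3⟩
      obtain ⟨d1, d2, d3⟩ := hdat v s h2
      unfold N2s at h3
      rw [noHit_iff, not_not] at h3
      obtain ⟨z, c, y, hc, hy, -, hH⟩ := h3
      have hc0 : c = 0 := by omega
      subst hc0
      have h5 := (len_bounds hK W v s).2.2.2.2.1
      rw [← h2] at h5
      refine ⟨y, by omega, ⟨v, s, h1, h2⟩, by omega, ?_⟩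
      rw [d1, d3]
      exact hH
    · rintro ⟨w, -, ⟨v, s, h1, h2⟩, h3, h4⟩
      obtain ⟨d1, d2, d3⟩ := hdat v s h2
      refine ⟨v, s, h1, h2, ?_⟩
      unfold N2s
      rw [noHit_iff, not_not]
      rw [d1, d3] at h4
      exact ⟨_, 0, w, by omega, by omega, rfl, h4⟩

end Pool.Agent.H943R5.GC
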