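import Pool.Agent.H943R5.GC.DefsN
import Pool.Agent.H943R5.GC.U2A
import Pool.Agent.H943R5.GC.U6

/-!
# Project GC, task S13: the hard proof system is in polynomial time (helper214)
-/

namespace Pool.Agent.H943R5.GC

open Pool.Agent.NPC Pool.Agent.H628R3.RO Pool.Agent.H673R2.OneTT

namespace S13

/-! ### strings and numbers -/

theorem bits_idxR (l : List Bool) : (Pool.Agent.H583R2.idxR l + 1).bits = l ++ [true] := by
  induction l with
  | nil => simp [Pool.Agent.H583R2.idxR]
  | cons b l ih =>
    cases b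
    · have e : Pool.Agent.H583R2.idxR (false :: l) + 1 = 2 * (Pool.Agent.H583R2.idxR l + 1) := by
        simp [Pool.Agent.H583R2.idxR]; ring
      rw [e, Nat.bit0_bits _ (by omega), ih]; rfl
    · have e : Pool.Agent.H583R2.idxR (true :: l) + 1 =
          2 * (Pool.Agent.H583R2.idxR l + 1) + 1 := by
        simp [Pool.Agent.H583R2.idxR]; ring
      rw [e, Nat.bit1_bits, ih]; rfl

theorem st_eq (s : ℕ) : st s = ((s + 1).bits.reverse).tail := by
  unfold st Pool.Agent.H583R2.str
  have h := bits_idxR (Pool.Agent.H583R2.incS^[s] [])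
  rw [Pool.Agent.H583R2.idxR_iter] at h
  rw [h, List.reverse_append]
  rfl

/-- number of a string -/
def nu (a : List Bool) : ℕ := valB (a.reverse ++ [true]) - 1

theorem nu_st (s : ℕ) : nu (st s) = s := by
  unfold nu st Pool.Agent.H583R2.str
  rw [List.reverse_reverse, ← bits_idxR, Pool.Agent.H583R2.idxR_iter, valB_bits]
  rfl

section poly

variable {α : Type} [TEnc α]

theorem poly_stN {m : α → ℕ} (hm : Poly m) : Poly (fun a => st (m a)) :=
  (Poly.tail (Poly.reverse (Poly.natBits (Poly.succ hm)))).congr fun a => by rw [st_eq]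

theorem poly_nu {a : α → List Bool} (ha : Poly a) : Poly (fun t => nu (a t)) :=
  Poly.sub (Poly.valBits (Poly.append (Poly.reverse ha) (NPC.Poly.const [true])))
    (NPC.Poly.const 1)

end poly

/-! ### length of the components -/

theorem ustep_len (s : List Bool × List Bool × Bool) :
    (ustep s).1.length + (ustep s).2.1.length ≤ s.1.length + s.2.1.length := by
  obtain ⟨a, l, b⟩ := s
  unfold ustep
  by_cases hb : b = true
  · simp [hb]
  · rcases l with _ | ⟨c, l⟩
    · simp [hb]
    · by_cases hc : c = true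
      · rcases l with _ | ⟨d, l⟩
        · simp [hb, hc]
        · simp [hb, hc]
          omega
      · simp [hb, hc]

theorem ustep_iter_len (k : ℕ) (s : List Bool × List Bool × Bool) :
    (ustep^[k] s).1.length + (ustep^[k] s).2.1.length ≤ s.1.length + s.2.1.length := by
  induction k generalizing s with
  | zero => exact le_rfl
  | succ k ih =>
    rw [Function.iterate_succ_apply]
    exact (ih _).trans (ustep_len s)

theorem unpair_len (y : List Bool) : (unpair y).1.length + (unpair y).2.length ≤ y.length := by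
  have h := ustep_iter_len y.length ([], y, false)
  unfold unpair
  simpa using h

/-! ### decoding -/

/-- the code in the instance `x` -/
def vx (x : List Bool) : List Bool := (unpair (unpair x).1).1

/-- the round in the instance `x` -/
def sx (x : List Bool) : ℕ := min (nu (unpair (unpair x).1).2) x.length

/-- the length of round `s`, capped -/
def capn (Kc W : ℕ) (x : List Bool) (s : ℕ) : ℕ :=
  min (tw 2 (jj Kc W (vx x) * (2 * s + 2))) (x.length + 1)

/-- the budget of round `s`, capped -/
def capm (Kc W : ℕ) (x : List Bool) (s : ℕ) : ℕ :=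
  min (tw 2 (jj Kc W (vx x) * (2 * s + 3))) (x.length + 1)

/-- the instance of round `s`, capped -/
def qc (Kc W : ℕ) (x : List Bool) (s : ℕ) : List Bool :=
  pairBits (pairBits (vx x) (st s)) (List.replicate (capn Kc W x s) true)

theorem tw2_mono {a b : ℕ} (h : a ≤ b) : tw 2 a ≤ tw 2 b :=
  Nat.pow_le_pow_right (by norm_num) (Nat.pow_le_pow_right (by norm_num) h)

theorem le_tw2 (a : ℕ) : a ≤ tw 2 a := by
  unfold tw
  have h1 : a < 2 ^ a := Nat.lt_two_pow_self
  have h2 : 2 ^ a < 2 ^ 2 ^ a := Nat.lt_two_pow_self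
  omega

theorem nn_le_mm' (Kc W : ℕ) (v : List Bool) (s : ℕ) : nn Kc W v s ≤ mm Kc W v s :=
  tw2_mono (Nat.mul_le_mul_left _ (by omega))

theorem mm_le_nn' (Kc W : ℕ) (v : List Bool) {s s' : ℕ} (h : s < s') :
    mm Kc W v s ≤ nn Kc W v s' :=
  tw2_mono (Nat.mul_le_mul_left _ (by omega))

theorem s_le_nn {Kc : ℕ} (hK : 1 ≤ Kc) (W : ℕ) (v : List Bool) (s : ℕ) : s ≤ nn Kc W v s := by
  have h1 : 1 ≤ jj Kc W v := by
    unfold jj
    exact Nat.mul_pos (by omega) (by omega)
  have h2 := le_tw2 (jj Kc W v * (2 * s + 2))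
  have h3 : 1 * (2 * s + 2) ≤ jj Kc W v * (2 * s + 2) := Nat.mul_le_mul_right _ h1
  have h4 : nn Kc W v s = tw 2 (jj Kc W v * (2 * s + 2)) := rfl
  omega

theorem len_qq (Kc W : ℕ) (v : List Bool) (s : ℕ) : nn Kc W v s ≤ (qq Kc W v s).length := by
  unfold qq
  rw [H628R3.RO.length_pairBits, List.length_replicate]
  omega

theorem vx_qq (Kc W : ℕ) (v : List Bool) (s : ℕ) : vx (qq Kc W v s) = v := by
  unfold vx qq nmB
  rw [unpair_pairBits, unpair_pairBits]

theorem sx_qq {Kc : ℕ} (hK : 1 ≤ Kc) (W : ℕ) (v : List Bool) (s : ℕ) :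
    sx (qq Kc W v s) = s := by
  have h1 := len_qq Kc W v s
  have h2 := s_le_nn hK W v s
  unfold sx
  have e : (unpair (unpair (qq Kc W v s)).1).2 = st s := by
    unfold qq nmB
    rw [unpair_pairBits, unpair_pairBits]
  rw [e, nu_st]
  exact min_eq_left (by omega)

theorem qc_eq (Kc W : ℕ) (x : List Bool) (s : ℕ) (h : nn Kc W (vx x) s ≤ x.length) :
    qc Kc W x s = qq Kc W (vx x) s := by
  unfold qc qq nmB capn
  have e : tw 2 (jj Kc W (vx x) * (2 * s + 2)) = nn Kc W (vx x) s := rfl
  rw [e, min_eq_left (by omega)]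

theorem capm_eq (Kc W : ℕ) (x : List Bool) (s : ℕ) (h : mm Kc W (vx x) s ≤ x.length) :
    capm Kc W x s = mm Kc W (vx x) s := by
  unfold capm
  have e : tw 2 (jj Kc W (vx x) * (2 * s + 3)) = mm Kc W (vx x) s := rfl
  rw [e, min_eq_left (by omega)]

theorem of_eq_qc (Kc W : ℕ) (x : List Bool) (s : ℕ) (h : x = qc Kc W x s) :
    nn Kc W (vx x) s ≤ x.length ∧ x = qq Kc W (vx x) s := by
  have h1 : capn Kc W x s ≤ x.length := by
    have h2 := congrArg List.length h
    unfold qc at h2
    rw [H628R3.RO.length_pairBits, List.length_replicate] at h2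
    omega
  have h3 : nn Kc W (vx x) s ≤ x.length := by
    unfold capn at h1
    have e : tw 2 (jj Kc W (vx x) * (2 * s + 2)) = nn Kc W (vx x) s := rfl
    rw [e] at h1
    rcases min_le_iff.1 h1 with h4 | h4
    · exact h4
    · omega
  refine ⟨h3, ?_⟩
  rw [← qc_eq Kc W x s h3]
  exact h

/-- the decidable part of the condition -/
abbrev C0 (Kc W : ℕ) (v₀ x : List Bool) : Prop :=
  c0 (vx x) = v₀ ∧ (sx x).size ≤ 4 * (W * ((vx x).length + 1)) ∧ x = qc Kc W x (sx x)

theorem lt_Mv (W : ℕ) (v : List Bool) (s : ℕ) :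
    s < Mv W v ↔ s.size ≤ 4 * (W * (v.length + 1)) := by
  unfold Mv tv
  rw [Nat.size_le]

theorem cond_iff {Kc : ℕ} (hK : 1 ≤ Kc) (W : ℕ) (A : Oracle) (v₀ x w : List Bool) :
    (∃ v s, c0 v = v₀ ∧ s < Mv W v ∧ x = qq Kc W v s ∧ Lst Kc W A v s w) ↔
      C0 Kc W v₀ x ∧ Lst Kc W A (vx x) (sx x) w := by
  constructor
  · rintro ⟨v, s, h1, h2, h3, h4⟩
    subst h3
    have e1 := vx_qq Kc W v s
    have e2 := sx_qq hK W v s
    refine ⟨⟨?_, ?_, ?_⟩, ?_⟩
    · rw [e1]; exact h1
    · rw [e1, e2]; exact (lt_Mv W v s).1 h2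
    · rw [e2, qc_eq Kc W _ s (by rw [e1]; exact len_qq Kc W v s), e1]
    · rw [e1, e2]; exact h4
  · rintro ⟨⟨h1, h2, h3⟩, h4⟩
    exact ⟨vx x, sx x, h1, (lt_Mv W (vx x) (sx x)).2 h2, (of_eq_qc Kc W x _ h3).2, h4⟩

/-! ### the loop -/

/-- the state -/
def stt (x : List Bool) (k : ℕ) (r f : List Bool) : List Bool :=
  pairBits x (pairBits (List.replicate k true) (pairBits r f))

/-- the components of the state -/
def gX (z : List Bool) : List Bool := (unpair z).1
/-- the counter -/
def gN (z : List Bool) : ℕ := (unpair (unpair z).2).1.length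
/-- the rest -/
def gR (z : List Bool) : List Bool := (unpair (unpair (unpair z).2).2).1
/-- the flag -/
def gF (z : List Bool) : List Bool := (unpair (unpair (unpair z).2).2).2

theorem gX_stt (x : List Bool) (k : ℕ) (r f : List Bool) : gX (stt x k r f) = x := by
  unfold gX stt; rw [unpair_pairBits]
theorem gN_stt (x : List Bool) (k : ℕ) (r f : List Bool) : gN (stt x k r f) = k := by
  unfold gN stt; rw [unpair_pairBits, unpair_pairBits, List.length_replicate]
theorem gR_stt (x : List Bool) (k : ℕ) (r f : List Bool) : gR (stt x k r f) = r := by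
  unfold gR stt; rw [unpair_pairBits, unpair_pairBits, unpair_pairBits]
theorem gF_stt (x : List Bool) (k : ℕ) (r f : List Bool) : gF (stt x k r f) = f := by
  unfold gF stt; rw [unpair_pairBits, unpair_pairBits, unpair_pairBits]

/-- the question to the universal algorithm -/
def quer (Kc W : ℕ) (z : List Bool) : List Bool :=
  pairBits (pairBits (cd false (c0 (vx (gX z)))) (pairBits (unpair (gR z)).1
    (List.replicate (capm Kc W (gX z) (gN z - 1)) true))) []

/-- the test -/
abbrev tst (Kc W : ℕ) (o z : List Bool) : Prop :=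
  (unpair (gR z)).1.length ≤ min (tw ((qc Kc W (gX z) (gN z - 1)).length + 2)
    (unpair (vx (gX z))).2.length) ((unpair (gR z)).1.length + 1) ∧
  o = qc Kc W (gX z) (gN z - 1)

/-- the next state -/
def nxt (Kc W : ℕ) (o z : List Bool) : List Bool :=
  if gN z = 0 then z else
    stt (gX z) (gN z - 1) (unpair (gR z)).2 (if tst Kc W o z then gF z else [])

/-- one step -/
def SS (Kc W : ℕ) (F : List Bool → List Bool) (z : List Bool) : List Bool :=
  nxt Kc W (F (quer Kc W z)) z

theorem SS_zero (Kc W : ℕ) (F : List Bool → List Bool) (x r f : List Bool) :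
    SS Kc W F (stt x 0 r f) = stt x 0 r f := by
  unfold SS nxt
  rw [if_pos (gN_stt x 0 r f)]

theorem SS_zero_iter (Kc W : ℕ) (F : List Bool → List Bool) (x r f : List Bool) (n : ℕ) :
    (SS Kc W F)^[n] (stt x 0 r f) = stt x 0 r f := by
  induction n with
  | zero => rfl
  | succ n ih => rw [Function.iterate_succ_apply, SS_zero, ih]

theorem SS_form (Kc W : ℕ) (F : List Bool → List Bool) (x : List Bool) (k : ℕ)
    (r f : List Bool) : ∃ k' r' f', SS Kc W F (stt x k r f) = stt x k' r' f' ∧ k' ≤ k ∧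
      r'.length ≤ r.length ∧ f'.length ≤ f.length := by
  unfold SS nxt
  by_cases h : gN (stt x k r f) = 0
  · rw [if_pos h]
    exact ⟨k, r, f, rfl, le_rfl, le_rfl, le_rfl⟩
  · rw [if_neg h]
    have h2 := unpair_len r
    have hk : gN (stt x k r f) - 1 ≤ k := by rw [gN_stt]; omega
    have hr : (unpair (gR (stt x k r f))).2.length ≤ r.length := by rw [gR_stt]; omega
    have hX : gX (stt x k r f) = x := gX_stt x k r f
    by_cases ht : tst Kc W (F (quer Kc W (stt x k r f))) (stt x k r f)
    · rw [if_pos ht, hX]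
      exact ⟨_, _, _, rfl, hk, hr, by rw [gF_stt]⟩
    · rw [if_neg ht, hX]
      exact ⟨_, _, _, rfl, hk, hr, Nat.zero_le _⟩

theorem SS_iter_form (Kc W : ℕ) (F : List Bool → List Bool) (x : List Bool) (n : ℕ) :
    ∀ (k : ℕ) (r f : List Bool), ∃ k' r' f', (SS Kc W F)^[n] (stt x k r f) = stt x k' r' f' ∧
      k' ≤ k ∧ r'.length ≤ r.length ∧ f'.length ≤ f.length := by
  induction n with
  | zero => intro k r f; exact ⟨k, r, f, rfl, le_rfl, le_rfl, le_rfl⟩
  | succ n ih =>
    intro k r f
    obtain ⟨k1, r1, f1, e1, a1, b1, d1⟩ := SS_form Kc W F x k r f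
    obtain ⟨k2, r2, f2, e2, a2, b2, d2⟩ := ih k1 r1 f1
    refine ⟨k2, r2, f2, ?_, a2.trans a1, b2.trans b1, d2.trans d1⟩
    rw [Function.iterate_succ_apply, e1, e2]

theorem len_stt (x : List Bool) (k : ℕ) (r f : List Bool) :
    (stt x k r f).length = 2 * x.length + 1 + (2 * k + 1 + (2 * r.length + 1 + f.length)) := by
  unfold stt
  rw [H628R3.RO.length_pairBits, H628R3.RO.length_pairBits, H628R3.RO.length_pairBits,
    List.length_replicate]

open Classical in
theorem SS_succ (Kc W : ℕ) (A : Oracle) (F : List Bool → List Bool)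
    (hF : ∀ y, uA.out A y = some (F y)) (x : List Bool) (k : ℕ) (r f : List Bool)
    (hn : nn Kc W (vx x) k ≤ x.length) (hm : mm Kc W (vx x) k ≤ x.length) :
    SS Kc W F (stt x (k + 1) r f) = stt x k (unpair r).2
      (if PfS Kc W A (vx x) k (unpair r).1 then f else []) := by
  have hiff : tst Kc W (F (quer Kc W (stt x (k + 1) r f))) (stt x (k + 1) r f) ↔
      PfS Kc W A (vx x) k (unpair r).1 := by
    unfold tst PfS quer lb Out
    rw [gX_stt, gN_stt, gR_stt, Nat.add_sub_cancel, qc_eq Kc W x k hn, capm_eq Kc W x k hm, hF,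
      Option.getD_some]
    have key : ∀ a b : ℕ, a ≤ min b (a + 1) ↔ a ≤ b := by
      intro a b
      rw [le_min_iff]
      omega
    rw [key]
  unfold SS nxt
  rw [if_neg (by rw [gN_stt]; omega)]
  by_cases h : PfS Kc W A (vx x) k (unpair r).1
  · rw [if_pos (hiff.2 h), if_pos h, gX_stt, gN_stt, gR_stt, gF_stt, Nat.add_sub_cancel]
  · rw [if_neg (fun h' => h (hiff.1 h')), if_neg h, gX_stt, gN_stt, gR_stt, Nat.add_sub_cancel]

open Classical in
theorem loop_eq (Kc W : ℕ) (A : Oracle) (F : List Bool → List Bool)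
    (hF : ∀ y, uA.out A y = some (F y)) (x : List Bool) :
    ∀ (k : ℕ), (∀ j < k, nn Kc W (vx x) j ≤ x.length ∧ mm Kc W (vx x) j ≤ x.length) →
      ∀ (n : ℕ) (r f : List Bool), ∃ r', (SS Kc W F)^[k + n] (stt x k r f) =
        stt x 0 r' (if Lst Kc W A (vx x) k r then f else []) := by
  intro k
  induction k with
  | zero =>
    intro _ n r f
    refine ⟨r, ?_⟩
    rw [SS_zero_iter, if_pos]
    exact trivial
  | succ k ih =>
    intro hj n r f
    obtain ⟨h1, h2⟩ := hj k (Nat.lt_succ_self k)
    obtain ⟨r', hr'⟩ := ih (fun j hjk => hj j (by omega)) n (unpair r).2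
      (if PfS Kc W A (vx x) k (unpair r).1 then f else [])
    refine ⟨r', ?_⟩
    have e : k + 1 + n = (k + n) + 1 := by omega
    rw [e, Function.iterate_succ_apply, SS_succ Kc W A F hF x k r f h1 h2, hr']
    congr 1
    by_cases a1 : PfS Kc W A (vx x) k (unpair r).1
    · by_cases a2 : Lst Kc W A (vx x) k (unpair r).2
      · rw [if_pos a2, if_pos a1, if_pos]
        exact ⟨a1, a2⟩
      · rw [if_neg a2, if_neg]
        exact fun h => a2 h.2
    · rw [if_neg a1]
      rw [if_neg (c := Lst Kc W A (vx x) (k + 1) r) (fun h => a1 h.1)]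
      split_ifs <;> rfl

/-! ### polynomial time -/

section poly2

variable {X : List Bool → List Bool} {s : List Bool → ℕ}

theorem poly_vx (hX : Poly X) : Poly (fun t => vx (X t)) :=
  Poly.fst (U2A.unpair' (Poly.fst (U2A.unpair' hX)))

theorem upoly_sx (hX : Poly X) : UPoly (fun t => sx (X t)) :=
  UPoly.of_le (Poly.min (poly_nu (Poly.snd (U2A.unpair' (Poly.fst (U2A.unpair' hX)))))
    (Poly.length hX)) (UPoly.length hX) (fun _ => min_le_right _ _)

theorem upoly_capn (Kc W : ℕ) (hX : Poly X) (hs : UPoly s) :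
    UPoly (fun t => capn Kc W (X t) (s t)) :=
  poly_capped (fun t => (X t).length + 1) (UPoly.add (UPoly.length hX) (UPoly.const 1))
    (fun _ => 2) (fun t => jj Kc W (vx (X t)) * (2 * s t + 2)) (UPoly.const 2)
    (UPoly.mul (UPoly.mul (UPoly.const (Kc + W)) (UPoly.add (UPoly.length (poly_vx hX))
      (UPoly.const 1))) (UPoly.add (UPoly.mul (UPoly.const 2) hs) (UPoly.const 2)))

theorem upoly_capm (Kc W : ℕ) (hX : Poly X) (hs : UPoly s) :
    UPoly (fun t => capm Kc W (X t) (s t)) :=
  poly_capped (fun t => (X t).length + 1) (UPoly.add (UPoly.length hX) (UPoly.const 1))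
    (fun _ => 2) (fun t => jj Kc W (vx (X t)) * (2 * s t + 3)) (UPoly.const 2)
    (UPoly.mul (UPoly.mul (UPoly.const (Kc + W)) (UPoly.add (UPoly.length (poly_vx hX))
      (UPoly.const 1))) (UPoly.add (UPoly.mul (UPoly.const 2) hs) (UPoly.const 3)))

theorem poly_qc (Kc W : ℕ) (hX : Poly X) (hs : UPoly s) :
    Poly (fun t => qc Kc W (X t) (s t)) :=
  H622R2.poly_pairBits (H622R2.poly_pairBits (poly_vx hX) (poly_stN hs.toPoly))
    (p_replicate (upoly_capn Kc W hX hs) true)

theorem poly_gX (hX : Poly X) : Poly (fun t => gX (X t)) := Poly.fst (U2A.unpair' hX)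

theorem upoly_gN (hX : Poly X) : UPoly (fun t => gN (X t)) :=
  UPoly.length (Poly.fst (U2A.unpair' (Poly.snd (U2A.unpair' hX))))

theorem poly_gR (hX : Poly X) : Poly (fun t => gR (X t)) :=
  Poly.fst (U2A.unpair' (Poly.snd (U2A.unpair' (Poly.snd (U2A.unpair' hX)))))

theorem poly_gF (hX : Poly X) : Poly (fun t => gF (X t)) :=
  Poly.snd (U2A.unpair' (Poly.snd (U2A.unpair' (Poly.snd (U2A.unpair' hX)))))

theorem upoly_gN1 (hX : Poly X) : UPoly (fun t => gN (X t) - 1) :=
  UPoly.of_le (Poly.sub (upoly_gN hX).toPoly (NPC.Poly.const 1)) (upoly_gN hX)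
    (fun _ => Nat.sub_le _ _)

theorem poly_c0 (hX : Poly X) : Poly (fun t => c0 (X t)) := Poly.fst (U2A.unpair' hX)

theorem poly_cdf (hX : Poly X) : Poly (fun t => cd false (X t)) := by
  refine (Poly.fst (U2A.unpair' (Poly.snd (U2A.unpair' (Poly.snd (U2A.unpair' hX)))))).congr
    fun t => ?_
  rfl

theorem poly_stt {k : List Bool → ℕ} {r f : List Bool → List Bool} (hX : Poly X) (hk : UPoly k)
    (hr : Poly r) (hf : Poly f) : Poly (fun t => stt (X t) (k t) (r t) (f t)) :=
  H622R2.poly_pairBits hX (H622R2.poly_pairBits (p_replicate hk true)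
    (H622R2.poly_pairBits hr hf))

theorem poly_quer (Kc W : ℕ) : Poly (quer Kc W) :=
  H622R2.poly_pairBits (H622R2.poly_pairBits (poly_cdf (poly_c0 (poly_vx (poly_gX Poly.id))))
    (H622R2.poly_pairBits (Poly.fst (U2A.unpair' (poly_gR Poly.id)))
      (p_replicate (upoly_capm Kc W (poly_gX Poly.id) (upoly_gN1 Poly.id)) true)))
    (NPC.Poly.const [])

theorem poly_nxt (Kc W : ℕ) : Poly (fun t : List Bool => nxt Kc W (unpair t).1 (unpair t).2) := by
  have ho : Poly (fun t : List Bool => (unpair t).1) := Poly.fst poly_unpair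
  have hz : Poly (fun t : List Bool => (unpair t).2) := Poly.snd poly_unpair
  have hX := poly_gX hz
  have hN := upoly_gN hz
  have hN1 := upoly_gN1 hz
  have hR := U2A.unpair' (poly_gR hz)
  have hF := poly_gF hz
  have hq := poly_qc Kc W hX hN1
  have hπ : UPoly (fun t : List Bool => (unpair (gR (unpair t).2)).1.length) :=
    UPoly.length (Poly.fst hR)
  have hcap : UPoly (fun t : List Bool => min (tw ((qc Kc W (gX (unpair t).2)
      (gN (unpair t).2 - 1)).length + 2) (unpair (vx (gX (unpair t).2))).2.length)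
      ((unpair (gR (unpair t).2)).1.length + 1)) :=
    poly_capped (fun t => (unpair (gR (unpair t).2)).1.length + 1)
      (UPoly.add hπ (UPoly.const 1))
      (fun t => (qc Kc W (gX (unpair t).2) (gN (unpair t).2 - 1)).length + 2)
      (fun t => (unpair (vx (gX (unpair t).2))).2.length)
      (UPoly.add (UPoly.length hq) (UPoly.const 2))
      (UPoly.length (Poly.snd (U2A.unpair' (poly_vx hX))))
  have hd : Poly (fun t : List Bool => decide (tst Kc W (unpair t).1 (unpair t).2)) :=
    Poly.decide_and (Poly.decide_le hπ.toPoly hcap.toPoly) (Poly.decide_eq ho hq)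
  have h0 : Poly (fun t : List Bool => decide (gN (unpair t).2 = 0)) :=
    Poly.decide_eq hN.toPoly (NPC.Poly.const 0)
  exact Poly.ite h0 hz (poly_stt hX hN1 (Poly.snd hR)
    (Poly.ite hd hF (NPC.Poly.const ([] : List Bool))))

end poly2

/-- the initial state -/
def ini (y : List Bool) : List Bool :=
  stt (unpair y.tail).1 (sx (unpair y.tail).1) (unpair y.tail).2 [true]

theorem poly_ini : Poly ini := by
  have h1 : Poly (fun y : List Bool => unpair y.tail) := U2A.unpair' (Poly.tail Poly.id)
  exact poly_stt (Poly.fst h1) (upoly_sx (Poly.fst h1)) (Poly.snd h1)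
    (NPC.Poly.const ([true] : List Bool))

/-- the final value from `⟨P₀ (tail y), ⟨last state, y⟩⟩` -/
def fin' (Kc W : ℕ) (v₀ t : List Bool) : List Bool :=
  if (unpair (unpair t).2).2.head? = some true then
    (if C0 Kc W v₀ (unpair (unpair (unpair t).2).2.tail).1 ∧
      gF (unpair (unpair t).2).1 = [true] then (unpair (unpair (unpair t).2).2.tail).1 else [])
  else (unpair t).1

theorem poly_fin (Kc W : ℕ) (v₀ : List Bool) : Poly (fin' Kc W v₀) := by
  have h1 : Poly (fun t : List Bool => (unpair t).1) := Poly.fst poly_unpair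
  have h2 : Poly (fun t : List Bool => (unpair (unpair t).2).2) :=
    Poly.snd (U2A.unpair' (Poly.snd poly_unpair))
  have h3 : Poly (fun t : List Bool => (unpair (unpair t).2).1) :=
    Poly.fst (U2A.unpair' (Poly.snd poly_unpair))
  have h4 : Poly (fun t : List Bool => (unpair (unpair (unpair t).2).2.tail).1) :=
    Poly.fst (U2A.unpair' (Poly.tail h2))
  have hs := upoly_sx h4
  have hv := poly_vx h4
  have hC : Poly (fun t : List Bool => decide (C0 Kc W v₀
      (unpair (unpair (unpair t).2).2.tail).1 ∧ gF (unpair (unpair t).2).1 = [true])) :=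
    Poly.decide_and (Poly.decide_and (Poly.decide_eq (poly_c0 hv) (NPC.Poly.const v₀))
      (Poly.decide_and (Poly.decide_le (U2A.poly_size hs.toPoly)
        (Poly.mul (NPC.Poly.const 4) (Poly.mul (NPC.Poly.const W) (Poly.succ (Poly.length hv)))))
        (Poly.decide_eq h4 (poly_qc Kc W h4 hs))))
      (Poly.decide_eq (poly_gF h3) (NPC.Poly.const [true]))
  exact Poly.ite (Poly.decide_eq (Poly.head? h2) (NPC.Poly.const (some true)))
    (Poly.ite hC h4 (NPC.Poly.const ([] : List Bool))) h1

end S13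

open S13 in
theorem ql_fp {Kc : ℕ} (hK : 1 ≤ Kc) (W : ℕ) (A : Oracle) (v₀ : List Bool)
    {P₀ : List Bool → List Bool} (h : IsFP A P₀) : IsFP A (QL Kc W A v₀ P₀) := by
  classical
  obtain ⟨F, hF, hFe⟩ := U6.exists_F A
  have hS : IsFP A (SS Kc W F) := by
    have h1 : IsFP A (fun z => pairBits (F (quer Kc W z)) z) :=
      IsFP.pair (IsFP.comp hF (IsFP.of_poly (poly_quer Kc W))) (IsFP.of_poly Poly.id)
    have h2 := IsFP.comp (IsFP.of_poly (A := A) (poly_nxt Kc W)) h1
    have e : SS Kc W F = fun z => nxt Kc W (unpair (pairBits (F (quer Kc W z)) z)).1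
        (unpair (pairBits (F (quer Kc W z)) z)).2 := by
      funext z
      rw [unpair_pairBits]
      rfl
    rw [e]
    exact h2
  have hlen : ∀ y : List Bool, (unpair y.tail).1.length ≤ y.length ∧
      (unpair y.tail).2.length ≤ y.length := by
    intro y
    have h1 := unpair_len y.tail
    have h2 : y.tail.length ≤ y.length := by simp
    omega
  have hloop := Pool.Agent.H620R2.Gauge.IsFP.loop (U6.isFP_ofRO hS) poly_ini Polynomial.X
    (6 * Polynomial.X + 4) (by
      intro y i _
      obtain ⟨k', r', f', e, a1, a2, a3⟩ := SS_iter_form Kc W F (unpair y.tail).1 i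
        (sx (unpair y.tail).1) (unpair y.tail).2 [true]
      have h1 := hlen y
      have h2 : sx (unpair y.tail).1 ≤ (unpair y.tail).1.length := min_le_right _ _
      unfold ini
      rw [e, len_stt]
      simp only [Polynomial.eval_add, Polynomial.eval_mul, Polynomial.eval_ofNat,
        Polynomial.eval_X]
      rw [List.length_singleton] at a3
      omega)
  have h3 : IsFP A (fun y => pairBits (P₀ y.tail)
      (pairBits ((SS Kc W F)^[Polynomial.eval y.length Polynomial.X] (ini y)) y)) :=
    IsFP.pair (IsFP.comp h (IsFP.of_poly (Poly.tail Poly.id)))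
      (IsFP.pair (U6.isFP_toRO hloop) (IsFP.of_poly Poly.id))
  have h4 := IsFP.comp (IsFP.of_poly (A := A) (poly_fin Kc W v₀)) h3
  have e : QL Kc W A v₀ P₀ = fun y => fin' Kc W v₀ (pairBits (P₀ y.tail)
      (pairBits ((SS Kc W F)^[Polynomial.eval y.length Polynomial.X] (ini y)) y)) := by
    funext y
    unfold QL fin'
    rw [unpair_pairBits]
    simp only
    rw [unpair_pairBits]
    simp only
    by_cases hy : y.head? = some true
    · rw [if_pos hy, if_pos hy]
      have hiff := cond_iff hK W A v₀ (unpair y.tail).1 (unpair y.tail).2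
      by_cases hC : C0 Kc W v₀ (unpair y.tail).1
      · obtain ⟨k1, k2⟩ := of_eq_qc Kc W _ _ hC.2.2
        have hj : ∀ j < sx (unpair y.tail).1,
            nn Kc W (vx (unpair y.tail).1) j ≤ (unpair y.tail).1.length ∧
            mm Kc W (vx (unpair y.tail).1) j ≤ (unpair y.tail).1.length := by
          intro j hj
          have a1 := mm_le_nn' Kc W (vx (unpair y.tail).1) hj
          have a2 := nn_le_mm' Kc W (vx (unpair y.tail).1) j
          omega
        have hs1 : sx (unpair y.tail).1 ≤ (unpair y.tail).1.length := min_le_right _ _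
        have hs2 := (hlen y).1
        obtain ⟨r', hr'⟩ := loop_eq Kc W A F hFe (unpair y.tail).1 (sx (unpair y.tail).1) hj
          (y.length - sx (unpair y.tail).1) (unpair y.tail).2 [true]
        rw [Nat.add_sub_cancel' (by omega)] at hr'
        have e5 : gF ((SS Kc W F)^[Polynomial.eval y.length Polynomial.X] (ini y)) =
            if Lst Kc W A (vx (unpair y.tail).1) (sx (unpair y.tail).1) (unpair y.tail).2
              then [true] else [] := by
          rw [Polynomial.eval_X]
          unfold ini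
          rw [hr', gF_stt]
        rw [e5]
        by_cases hL : Lst Kc W A (vx (unpair y.tail).1) (sx (unpair y.tail).1)
            (unpair y.tail).2
        · rw [if_pos (hiff.2 ⟨hC, hL⟩), if_pos]
          exact ⟨hC, if_pos hL⟩
        · rw [if_neg (fun h' => hL (hiff.1 h').2), if_neg]
          rintro ⟨-, h'⟩
          rw [if_neg hL] at h'
          exact absurd h' (by simp)
      · rw [if_neg (fun h' => hC (hiff.1 h').1), if_neg]
        exact fun h' => hC h'.1
    · rw [if_neg hy, if_neg hy]
  rw [e]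
  exact h4

end Pool.Agent.H943R5.GC
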