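import Pool.Agent.H943R5.GC.S15Aux
import Pool.Agent.H943R5.GC.S13

/-!
# Project GC, task S15: oracles with an optimal proof system are exceptional
-/

namespace Pool.Agent.H943R5.GC

theorem ev_opt_gen : ∃ K₀, ∀ Kc, K₀ ≤ Kc → ∀ (W : ℕ) (A : Pool.Agent.H628R3.RO.Oracle),
    (∃ (L : Set (List Bool)) (P : List Bool → List Bool),
      Pool.Agent.H628R3.RO.IsOptimal A L P ∧ Pool.Agent.H628R3.RO.Red A (LT Kc W A) L) →
    ∃ v, A ∈ Ev2 Kc W v :=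
  S15.main_gen fun _ hK W A v₀ _ h => ql_fp hK W A v₀ h

theorem ev_opt : ∃ K₀, ∀ Kc, K₀ ≤ Kc → ∀ (W : ℕ) (A : Pool.Agent.H628R3.RO.Oracle),
    Pool.Agent.H543R3.PC.HasOpt A → ∃ v, A ∈ Ev2 Kc W v :=
  S15.main fun _ hK W A v₀ _ h => ql_fp hK W A v₀ h

end Pool.Agent.H943R5.GC
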