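import Pool.Agent.H943R5.GC.FinalN
import Pool.Agent.H943R5.GC.FinalP
import Pool.Agent.H943R5.GC.S10
import Pool.Agent.H943R5.GC.S12
import Pool.Agent.H943R5.GC.S15

/-!
# Project GC: the null side for optimal proof systems
-/

namespace Pool.Agent.H943R5.GC

open Pool.Agent.NPC Pool.Agent.H628R3.RO Pool.Agent.H673R2.OneTT
open Pool.Agent.H620R2 (Gauge.Null)
open Pool.Agent.H543R3.PC
open Pool.Agent.H543R3.PC2 (IsPi2 Pi2Hard HasOpt2 HasPOpt2)

/-- An oracle with an optimal proof system for some set to which all coNP sets reduce. -/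
def HasOptC (A : Oracle) : Prop := ∃ (L : Set (List Bool)) (P : List Bool → List Bool),
  IsOptimal A L P ∧ ∀ L', IsCoNP A L' → Red A L' L

theorem null_optC (f : ℕ → ℝ) (hf : ∀ᶠ N : ℕ in Filter.atTop, f N ≤ log4 N / 5) :
    Gauge.Null f {A | HasOptC A} := by
  obtain ⟨K₁, h1⟩ := ev_opt_gen
  obtain ⟨K₂, h2⟩ := prob2
  refine null_of_events f hf (max 1 (max K₁ K₂)) _ (fun W v => Ev2 (max 1 (max K₁ K₂)) W v)
    (fun W _ A hA => h1 _ (le_trans (le_max_left _ _) (le_max_right _ _)) W A ?_)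
    (fun W hW v => (h2 _ (le_trans (le_max_right _ _) (le_max_right _ _)) W hW v).1)
    (fun W hW v => (h2 _ (le_trans (le_max_right _ _) (le_max_right _ _)) W hW v).2)
  obtain ⟨L, P, hP, hL⟩ := hA
  exact ⟨L, P, hP, hL _ (lt_conp (le_max_left _ _) W A)⟩

theorem null_opt (f : ℕ → ℝ) (hf : ∀ᶠ N : ℕ in Filter.atTop, f N ≤ log4 N / 5) :
    Gauge.Null f {A | HasOpt A} := by
  obtain ⟨K₁, h1⟩ := ev_opt
  obtain ⟨K₂, h2⟩ := prob2
  exact null_of_events f hf (max K₁ K₂) _ (fun W v => Ev2 (max K₁ K₂) W v)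
    (fun W _ A hA => h1 _ (le_max_left _ _) W A hA)
    (fun W hW v => (h2 _ (le_max_right _ _) W hW v).1)
    (fun W hW v => (h2 _ (le_max_right _ _) W hW v).2)

theorem null_poptT (f : ℕ → ℝ) (hf : ∀ᶠ N : ℕ in Filter.atTop, f N ≤ log4 N / 5) :
    Gauge.Null f {A | HasPOptT A} :=
  null_mono' (fun _ hA => hasOpt_of_hasPOptT hA) (null_opt f hf)

theorem null_opt2 (f : ℕ → ℝ) (hf : ∀ᶠ N : ℕ in Filter.atTop, f N ≤ log4 N / 5) :
    Gauge.Null f {A | HasOpt2 A} :=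
  null_mono' (fun _ hA => by
    obtain ⟨L, _, h2, P, hP⟩ := hA
    exact ⟨L, P, hP, fun L' hL' => h2 L' (isPi2_of_isCoNP hL')⟩) (null_optC f hf)

end Pool.Agent.H943R5.GC
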