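import Pool.Agent.H943R5.GC.Base

/-!
# Project GC: task N2, planting the signatures
-/

namespace Pool.Agent.H943R5.GC

open Pool.Agent.NPC Pool.Agent.H628R3.RO Pool.Agent.H673R2.OneTT

namespace N2

theorem pairBits_inj2 {x x' w w' : List Bool} (h : pairBits x w = pairBits x' w') :
    x = x' ∧ w = w' := by
  have h1 := congrArg unpair h
  rw [unpair_pairBits, unpair_pairBits, Prod.mk.injEq] at h1
  exact h1

theorem st_inj {s s' : ℕ} (h : st s = st s') : s = s' := by
  have h1 := congrArg Pool.Agent.H583R2.idx h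
  unfold st at h1
  rwa [Pool.Agent.H583R2.idx_str, Pool.Agent.H583R2.idx_str] at h1

theorem YY_inj2 {K : ℕ} {v v' : List Bool} {s s' i i' : ℕ} (h : YY K v s i = YY K v' s' i') :
    v = v' ∧ s = s' ∧ i = i' := by
  unfold YY at h
  obtain ⟨h1, h2⟩ := pairBits_inj2 h
  unfold nmB at h1
  obtain ⟨h3, h4⟩ := pairBits_inj2 h1
  have h5 := st_inj h4
  subst h5
  have h6 := congrArg List.length h2
  rw [List.length_replicate, List.length_replicate] at h6
  exact ⟨h3, rfl, by omega⟩

theorem le_length_YY (K : ℕ) (v : List Bool) (s i : ℕ) : TT (s + K) ≤ (YY K v s i).length := by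
  unfold YY
  rw [Pool.Agent.H628R3.RO.length_pairBits, List.length_replicate]
  omega

theorem TT_mono {a b : ℕ} (h : a ≤ b) : TT a ≤ TT b := by
  unfold TT tw
  exact Nat.pow_le_pow_right (by norm_num) (Nat.pow_le_pow_right (by norm_num) h)

theorem kill_loc {K : ℕ} {Bd : Oracle → List Bool → ℕ → Prop} (hloc : Loc K Bd) {A A' : Oracle}
    {v : List Bool} {s : ℕ} (hA : ∀ y : List Bool, y.length < TT (s + K) → A y = A' y)
    (h : kill Bd A v s) : kill Bd A' v s := by
  obtain ⟨h1, h2, h3⟩ := h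
  refine ⟨h1, hloc v s h1 A A' hA h2, ?_⟩
  rintro s' hs' ⟨h4, h5⟩
  refine h3 s' hs' ⟨h4, hloc v s' h4 A' A (fun y hy => (hA y ?_).symm) h5⟩
  exact hy.trans_le (TT_mono (by omega))

open Classical in
/-- the approximations of the planted oracle -/
noncomputable def P (K : ℕ) (Bd : Oracle → List Bool → ℕ → Prop) (B : Oracle) : ℕ → Oracle
  | 0 => B
  | n + 1 => fun y => if y.length = n ∧ ∃ v s i, i < LL v s ∧ y = YY K v s i ∧
      kill Bd (P K Bd B n) v s then true else P K Bd B n y

theorem P_succ_of_ne {K : ℕ} {Bd : Oracle → List Bool → ℕ → Prop} {B : Oracle} {n : ℕ}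
    {y : List Bool} (h : y.length ≠ n) : P K Bd B (n + 1) y = P K Bd B n y := by
  rw [P]
  refine if_neg ?_
  rintro ⟨h', -⟩
  exact h h'

theorem P_low {K : ℕ} {Bd : Oracle → List Bool → ℕ → Prop} {B : Oracle} {y : List Bool} :
    ∀ {m : ℕ}, m ≤ y.length → P K Bd B m y = B y := by
  intro m
  induction m with
  | zero => intro _; rfl
  | succ m ih =>
    intro h
    rw [P_succ_of_ne (by omega), ih (by omega)]

theorem P_high {K : ℕ} {Bd : Oracle → List Bool → ℕ → Prop} {B : Oracle} {y : List Bool} :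
    ∀ {m : ℕ}, y.length < m → P K Bd B m y = P K Bd B (y.length + 1) y := by
  intro m
  induction m with
  | zero => intro h; omega
  | succ m ih =>
    intro h
    rcases Nat.lt_or_ge y.length m with h1 | h1
    · rw [P_succ_of_ne (by omega), ih h1]
    · have : m = y.length := by omega
      rw [this]

/-- the planted oracle -/
noncomputable def Ph (K : ℕ) (Bd : Oracle → List Bool → ℕ → Prop) (B : Oracle) : Oracle :=
  fun y => P K Bd B (y.length + 1) y

theorem kill_iff {K : ℕ} {Bd : Oracle → List Bool → ℕ → Prop} (hloc : Loc K Bd) (B : Oracle)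
    {v : List Bool} {s i : ℕ} :
    kill Bd (P K Bd B (YY K v s i).length) v s ↔ kill Bd (Ph K Bd B) v s := by
  have h : ∀ y : List Bool, y.length < TT (s + K) →
      P K Bd B (YY K v s i).length y = Ph K Bd B y := by
    intro y hy
    exact P_high (hy.trans_le (le_length_YY K v s i))
  exact ⟨kill_loc hloc h, kill_loc hloc fun y hy => (h y hy).symm⟩

end N2

open N2 in
theorem exists_plant (K : ℕ) (Bd : Oracle → List Bool → ℕ → Prop) (hloc : Loc K Bd) :
    ∃ Φ : Oracle → Oracle, ∀ B,
      (∀ v s i, i < LL v s → kill Bd (Φ B) v s → Φ B (YY K v s i) = true) ∧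
      ∀ y, (∀ v s i, i < LL v s → kill Bd (Φ B) v s → y ≠ YY K v s i) → Φ B y = B y := by
  refine ⟨Ph K Bd, fun B => ⟨?_, ?_⟩⟩
  · intro v s i hi hk
    show P K Bd B ((YY K v s i).length + 1) (YY K v s i) = true
    rw [P]
    exact if_pos ⟨rfl, v, s, i, hi, rfl, (kill_iff hloc B).2 hk⟩
  · intro y hy
    show P K Bd B (y.length + 1) y = B y
    have h1 : P K Bd B (y.length + 1) y = P K Bd B y.length y := by
      rw [P]
      refine if_neg ?_
      rintro ⟨-, v, s, i, hi, hyy, hk⟩
      subst hyy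
      exact hy v s i hi ((kill_iff hloc B).1 hk) rfl
    rw [h1]
    exact P_low le_rfl

end Pool.Agent.H943R5.GC
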