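import Pool.Agent.H943R5.GC.Base
import Pool.Agent.H943R5.GC.N2

/-!
# Project GC: task G2
-/

namespace Pool.Agent.H943R5.GC

open Pool.Agent.NPC Pool.Agent.H628R3.RO Pool.Agent.H673R2.OneTT

namespace G2

theorem good_aux (K : ℕ) (Bd : Oracle → List Bool → ℕ → Prop) (A B : Oracle)
    (hYY : ∀ {v v' : List Bool} {s s' i i' : ℕ}, YY K v s i = YY K v' s' i' →
      v = v' ∧ s = s' ∧ i = i')
    (h1 : ∀ v s i, i < LL v s → kill Bd A v s → A (YY K v s i) = true)
    (h2 : ∀ y, (∀ v s i, i < LL v s → kill Bd A v s → y ≠ YY K v s i) → A y = B y)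
    (hB : ∀ v s, ¬ Sig K B v s) : Good K Bd A := by
  classical
  have hsig : ∀ v s, Sig K A v s ↔ kill Bd A v s := by
    intro v s
    constructor
    · intro h
      by_contra hk
      apply hB v s
      intro i hi
      rw [← h2 (YY K v s i)]
      · exact h i hi
      · intro v' s' i' _ hk' heq
        obtain ⟨rfl, rfl, -⟩ := hYY heq
        exact hk hk'
    · intro hk i hi
      exact h1 v s i hi hk
  constructor
  · intro v s hact hno hbd
    have hex : ∃ s', act v s' ∧ Bd A v s' := ⟨s, hact, hbd⟩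
    have hsp := Nat.find_spec hex
    refine hno (Nat.find hex) (Nat.find_min' hex ⟨hact, hbd⟩) ?_
    rw [hsig]
    exact ⟨hsp.1, hsp.2, fun s' hs' => Nat.find_min hex hs'⟩
  · intro v hv s hs
    rw [hsig] at hs
    exact hv s hs.1 hs.2.1

end G2

theorem good_of_plant (K : ℕ) (Bd : Oracle → List Bool → ℕ → Prop) (A B : Oracle)
    (h1 : ∀ v s i, i < LL v s → kill Bd A v s → A (YY K v s i) = true)
    (h2 : ∀ y, (∀ v s i, i < LL v s → kill Bd A v s → y ≠ YY K v s i) → A y = B y)
    (hB : ∀ v s, ¬ Sig K B v s) : Good K Bd A :=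
  G2.good_aux K Bd A B (fun h => N2.YY_inj2 h) h1 h2 hB

end Pool.Agent.H943R5.GC
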