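import Pool.Agent.H943R5.GC.Defs

/-!
# Project GC, task N0: blocks and no accidental signatures
-/

namespace Pool.Agent.H943R5.GC

open Pool.Agent.NPC Pool.Agent.H628R3.RO MeasureTheory Pool.Agent.H620R2

theorem YY_inj {K : ℕ} {v v' : List Bool} {s s' i i' : ℕ} (h : YY K v s i = YY K v' s' i') :
    v = v' ∧ s = s' ∧ i = i' := by
  have h1 := congrArg unpair h
  unfold YY at h1
  rw [unpair_pairBits, unpair_pairBits] at h1
  have h2 : nmB v s = nmB v' s' := congrArg Prod.fst h1
  have h3 : List.replicate (TT (s + K) + i) true = List.replicate (TT (s' + K) + i') true :=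
    congrArg Prod.snd h1
  have h4 := congrArg unpair h2
  unfold nmB at h4
  rw [unpair_pairBits, unpair_pairBits] at h4
  have h5 : v = v' := congrArg Prod.fst h4
  have h6 : st s = st s' := congrArg Prod.snd h4
  have h7 : s = s' := by
    have := congrArg Pool.Agent.H583R2.idx h6
    unfold st at this
    rwa [Pool.Agent.H583R2.idx_str, Pool.Agent.H583R2.idx_str] at this
  refine ⟨h5, h7, ?_⟩
  have h8 := congrArg List.length h3
  rw [List.length_replicate, List.length_replicate, h7] at h8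
  omega

theorem length_YY (K : ℕ) (v : List Bool) (s i : ℕ) :
    (YY K v s i).length = 4 * v.length + 2 * (st s).length + 3 + (TT (s + K) + i) := by
  unfold YY nmB
  rw [length_pairBits, length_pairBits, List.length_replicate]
  ring

namespace N0

lemma cyl {I : Type} [Fintype I] (pos : I → List Bool) (hpos : Function.Injective pos)
    (a : I → Bool) : Gauge.ranO {B : Oracle | ∀ i, B (pos i) = a i} ≤
      ENNReal.ofReal ((1 / 2) ^ Fintype.card I) := by
  classical
  set s : Finset (List Bool) := Finset.univ.image pos with hs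
  set t : List Bool → Set Bool :=
    fun y => if h : ∃ i, pos i = y then {a h.choose} else Set.univ with ht
  have htpos : ∀ i, t (pos i) = {a i} := by
    intro i
    have h : ∃ j, pos j = pos i := ⟨i, rfl⟩
    simp only [ht, dif_pos h]
    rw [hpos h.choose_spec]
  have hsub : {B : Oracle | ∀ i, B (pos i) = a i} ⊆ Set.pi (s : Set (List Bool)) t := by
    intro B hB
    rw [Set.mem_pi]
    intro y hy
    rw [Finset.mem_coe, hs, Finset.mem_image] at hy
    obtain ⟨i, -, rfl⟩ := hy
    rw [htpos, Set.mem_singleton_iff]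
    exact hB i
  refine (measure_mono hsub).trans ?_
  have hm : ∀ i ∈ s, MeasurableSet (t i) := by
    intro i _
    exact MeasurableSet.of_discrete
  have h2 : Gauge.ranO (Set.pi (s : Set (List Bool)) t) = ∏ y ∈ s, Gauge.coinM (t y) :=
    Measure.infinitePi_pi (fun _ : List Bool => Gauge.coinM) (s := s) (t := t) hm
  rw [h2, hs, Finset.prod_image (fun i _ j _ h => hpos h)]
  rw [Finset.prod_congr rfl (fun i _ => by rw [htpos, Gauge.coinM_singleton]), Finset.prod_const,
    Finset.card_univ, ENNReal.ofReal_pow (by norm_num)]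
  apply le_of_eq
  congr 1
  rw [one_div, ENNReal.ofReal_inv_of_pos (by norm_num)]
  simp

lemma sig_le (K : ℕ) (v : List Bool) (s : ℕ) :
    Gauge.ranO {B : Oracle | Sig K B v s} ≤ ENNReal.ofReal ((1 / 2) ^ (2 * (nmB v s).length + 2)) := by
  have h1 := cyl (I := Fin (LL v s)) (fun i => YY K v s i)
    (fun i j hij => Fin.ext (YY_inj hij).2.2) (fun _ => true)
  rw [Fintype.card_fin] at h1
  refine le_trans (measure_mono ?_) h1
  intro B hB i
  exact hB i.1 i.2

lemma tsum_str (g : ℕ → ENNReal) : ∑' p : List Bool, g p.length = ∑' n : ℕ, 2 ^ n * g n := by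
  rw [← (Equiv.sigmaFiberEquiv (List.length : List Bool → ℕ)).tsum_eq, ENNReal.tsum_sigma']
  refine tsum_congr (fun n => ?_)
  have h1 : ∀ p : {p : List Bool // p.length = n},
      g (((Equiv.sigmaFiberEquiv (List.length : List Bool → ℕ)) ⟨n, p⟩).length) = g n := by
    intro p
    have : ((Equiv.sigmaFiberEquiv (List.length : List Bool → ℕ)) ⟨n, p⟩).length = n := p.2
    rw [this]
  rw [tsum_congr h1]
  have h2 : ∑' _ : List.Vector Bool n, g n = 2 ^ n * g n := by
    rw [tsum_fintype, Finset.sum_const, Finset.card_univ, card_vector, Fintype.card_bool,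
      nsmul_eq_mul]
    push_cast
    rfl
  exact h2

lemma sum_le : ∑' q : List Bool × ℕ,
    ENNReal.ofReal ((1 / 2) ^ (2 * (nmB q.1 q.2).length + 2)) ≤ ENNReal.ofReal (1 / 2) := by
  have hinj : Function.Injective (fun q : List Bool × ℕ => nmB q.1 q.2) := by
    intro q q' h
    have h4 := congrArg unpair h
    simp only [nmB] at h4
    rw [unpair_pairBits, unpair_pairBits] at h4
    have h5 : q.1 = q'.1 := (Prod.mk.inj h4).1
    have h6 : st q.2 = st q'.2 := (Prod.mk.inj h4).2
    have h7 : q.2 = q'.2 := by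
      have := congrArg Pool.Agent.H583R2.idx h6
      unfold st at this
      rwa [Pool.Agent.H583R2.idx_str, Pool.Agent.H583R2.idx_str] at this
    exact Prod.ext h5 h7
  have h1 := ENNReal.tsum_comp_le_tsum_of_injective hinj
    (fun p : List Bool => ENNReal.ofReal ((1 / 2) ^ (2 * p.length + 2)))
  refine le_trans h1 ?_
  rw [tsum_str (fun n => ENNReal.ofReal ((1 / 2) ^ (2 * n + 2)))]
  have h2 : ∀ n : ℕ, (2 : ENNReal) ^ n * ENNReal.ofReal ((1 / 2) ^ (2 * n + 2)) =
      ENNReal.ofReal ((1 / 4) * (1 / 2) ^ n) := by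
    intro n
    have h3 : (2 : ENNReal) ^ n = ENNReal.ofReal (2 ^ n) := by
      rw [ENNReal.ofReal_pow (by norm_num)]
      simp
    rw [h3, ← ENNReal.ofReal_mul (by positivity)]
    congr 1
    rw [pow_add, pow_mul]
    have h4 : (2 : ℝ) ^ n * (((1 / 2) ^ 2) ^ n * (1 / 2) ^ 2) =
        (2 * (1 / 2) ^ 2) ^ n * (1 / 2) ^ 2 := by
      rw [mul_pow]
      ring
    rw [h4]
    norm_num
    ring
  rw [tsum_congr h2, ← ENNReal.ofReal_tsum_of_nonneg (fun n => by positivity)
    ((summable_geometric_of_lt_one (by norm_num) (by norm_num)).mul_left _), tsum_mul_left,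
    tsum_geometric_of_lt_one (by norm_num) (by norm_num)]
  apply ENNReal.ofReal_le_ofReal
  norm_num

end N0

theorem noSig_pos (K : ℕ) : 0 < Gauge.ranO {B | ∀ v s, ¬ Sig K B v s} := by
  rw [pos_iff_ne_zero]
  intro h0
  have h1 : (Set.univ : Set Oracle) ⊆ {B : Oracle | ∀ v s, ¬ Sig K B v s} ∪
      ⋃ q : List Bool × ℕ, {B : Oracle | Sig K B q.1 q.2} := by
    intro B _
    by_cases h : ∀ v s, ¬ Sig K B v s
    · exact Set.mem_union_left _ h
    · apply Set.mem_union_right
      obtain ⟨v, hv⟩ := not_forall.mp h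
      obtain ⟨s, hs⟩ := not_forall.mp hv
      exact Set.mem_iUnion.mpr ⟨(v, s), not_not.mp hs⟩
  have h2a : Gauge.ranO (Set.univ : Set Oracle) ≤
      Gauge.ranO ({B : Oracle | ∀ v s, ¬ Sig K B v s} ∪
      ⋃ q : List Bool × ℕ, {B : Oracle | Sig K B q.1 q.2}) := measure_mono h1
  have h2b : Gauge.ranO ({B : Oracle | ∀ v s, ¬ Sig K B v s} ∪
      ⋃ q : List Bool × ℕ, {B : Oracle | Sig K B q.1 q.2}) ≤
      Gauge.ranO {B : Oracle | ∀ v s, ¬ Sig K B v s} +
      Gauge.ranO (⋃ q : List Bool × ℕ, {B : Oracle | Sig K B q.1 q.2}) := measure_union_le _ _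
  have h2c : Gauge.ranO (⋃ q : List Bool × ℕ, {B : Oracle | Sig K B q.1 q.2}) ≤
      ∑' q : List Bool × ℕ, Gauge.ranO {B : Oracle | Sig K B q.1 q.2} := measure_iUnion_le _
  have h2d : ∑' q : List Bool × ℕ, Gauge.ranO {B : Oracle | Sig K B q.1 q.2} ≤
      ∑' q : List Bool × ℕ, ENNReal.ofReal ((1 / 2) ^ (2 * (nmB q.1 q.2).length + 2)) :=
    ENNReal.tsum_le_tsum (fun q => N0.sig_le K q.1 q.2)
  have h2e : Gauge.ranO (Set.univ : Set Oracle) = 1 := measure_univ
  have h4 : (1 : ENNReal) ≤ ENNReal.ofReal (1 / 2) := by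
    rw [← h2e]
    refine h2a.trans (h2b.trans ?_)
    rw [h0, zero_add]
    exact h2c.trans (h2d.trans N0.sum_le)
  have h5 : ENNReal.ofReal (1 / 2) < 1 := by
    rw [← ENNReal.ofReal_one]
    exact (ENNReal.ofReal_lt_ofReal_iff one_pos).mpr (by norm_num)
  exact absurd h4 (not_le.mpr h5)

end Pool.Agent.H943R5.GC
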