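import Pool.Agent.H943R5.GC.Base

/-!
# Project GC: task N1, mass distribution with changed positions depending on the cylinder
-/

namespace Pool.Agent.H943R5.GC

open Pool.Agent.NPC Pool.Agent.H628R3.RO Pool.Agent.H673R2.OneTT
open Pool.Agent.H620R2 (Gauge.Null Gauge.Extends Gauge.str Gauge.ranO)

namespace N1

open MeasureTheory
open Pool.Agent.H620R2.Gauge hiding Oracle

open Classical in
theorem ranO_le (X : Set Oracle) (T : Set (List Bool)) (σ : List Bool)
    (hX : ∀ B ∈ X, ∀ (i : ℕ) (h : i < σ.length), str i ∉ T → B (str i) = σ[i]) :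
    ranO X ≤ ENNReal.ofReal
      (2 ^ ((((Finset.range σ.length).filter (fun i => str i ∈ T)).card : ℝ) -
        (σ.length : ℝ))) := by
  set U := (Finset.range σ.length).filter (fun i => str i ∉ T) with hU
  set s : Finset (List Bool) := U.image str with hs
  set t : List Bool → Set Bool := fun y => {σ.getD (idx y) false} with ht
  have hsub : X ⊆ Set.pi (s : Set (List Bool)) t := by
    intro B hB
    rw [Set.mem_pi]
    intro y hy
    rw [Finset.mem_coe, hs, Finset.mem_image] at hy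
    obtain ⟨i, hi, rfl⟩ := hy
    rw [hU, Finset.mem_filter, Finset.mem_range] at hi
    have h1 := hX B hB i hi.1 hi.2
    rw [ht]
    simp only [idx_str, Set.mem_singleton_iff]
    rw [h1, List.getD_eq_getElem _ _ hi.1]
  refine (measure_mono hsub).trans ?_
  have h2 : ranO (Set.pi (s : Set (List Bool)) t) = ∏ y ∈ s, coinM (t y) :=
    Measure.infinitePi_pi (fun _ : List Bool => coinM) (s := s) (t := t)
      (fun i _ => MeasurableSet.singleton _)
  rw [h2]
  have h3 : ∏ y ∈ s, coinM (t y) = (2⁻¹ : ENNReal) ^ U.card := by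
    rw [Finset.prod_congr rfl (fun y _ => coinM_singleton _), Finset.prod_const, hs,
      Finset.card_image_of_injective _ str_injective]
  rw [h3]
  have hcard : ((Finset.range σ.length).filter (fun i => str i ∈ T)).card + U.card = σ.length := by
    rw [hU, Finset.card_filter_add_card_filter_not, Finset.card_range]
  have h4 : (((Finset.range σ.length).filter (fun i => str i ∈ T)).card : ℝ) - (σ.length : ℝ) =
      -(U.card : ℝ) := by
    have h5 : ((((Finset.range σ.length).filter (fun i => str i ∈ T)).card : ℕ) : ℝ) +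
        ((U.card : ℕ) : ℝ) = (σ.length : ℝ) := by exact_mod_cast hcard
    linarith
  rw [h4, Real.rpow_neg (by norm_num), Real.rpow_natCast,
    ENNReal.ofReal_inv_of_pos (by positivity), ENNReal.ofReal_pow (by norm_num)]
  rw [ENNReal.inv_pow]
  simp

end N1

open Classical in
theorem not_null_gen (f : ℕ → ℝ) (G : Set Oracle) (hG : 0 < Gauge.ranO G) (Φ : Oracle → Oracle)
    (T : List Bool → Set (List Bool))
    (hΦ : ∀ B ∈ G, ∀ σ : List Bool, Gauge.Extends (Φ B) σ → ∀ (i : ℕ) (h : i < σ.length),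
      Gauge.str i ∉ T σ → B (Gauge.str i) = σ[i]) (c : ℝ)
    (hT : ∀ σ : List Bool,
      (((Finset.range σ.length).filter (fun i => Gauge.str i ∈ T σ)).card : ℝ) ≤ f σ.length + c)
    (O : Set Oracle) (hO : ∀ B ∈ G, Φ B ∈ O) : ¬ Gauge.Null f O := by
  intro hnull
  have hGtop : Gauge.ranO G ≠ ⊤ := MeasureTheory.measure_ne_top _ _
  have hg : 0 < (Gauge.ranO G).toReal := ENNReal.toReal_pos hG.ne' hGtop
  have hc : (0 : ℝ) < 2 ^ c := Real.rpow_pos_of_pos (by norm_num) _
  set g := (Gauge.ranO G).toReal with hgdef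
  set δ : ℝ := g / 2 / 2 ^ c with hδ
  have hδpos : 0 < δ := by positivity
  obtain ⟨S, hS, hsum⟩ := hnull δ hδpos
  have h1 : G ⊆ ⋃ σ : S, {B | B ∈ G ∧ Gauge.Extends (Φ B) σ.1} := by
    intro B hB
    obtain ⟨σ, hσ, h⟩ := hS (Φ B) (hO B hB)
    exact Set.mem_iUnion.mpr ⟨⟨σ, hσ⟩, hB, h⟩
  have h2 : Gauge.ranO G ≤ ENNReal.ofReal (2 ^ c * δ) := by
    calc Gauge.ranO G ≤ Gauge.ranO (⋃ σ : S, {B | B ∈ G ∧ Gauge.Extends (Φ B) σ.1}) :=
          MeasureTheory.measure_mono h1
      _ ≤ ∑' σ : S, Gauge.ranO {B | B ∈ G ∧ Gauge.Extends (Φ B) σ.1} :=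
          MeasureTheory.measure_iUnion_le _
      _ ≤ ∑' σ : S, ENNReal.ofReal (2 ^ c) *
          ENNReal.ofReal (2 ^ (f σ.1.length - σ.1.length)) := by
        refine ENNReal.tsum_le_tsum (fun σ => (N1.ranO_le _ (T σ.1) σ.1
          (fun B hB i h hi => hΦ B hB.1 σ.1 hB.2 i h hi)).trans ?_)
        rw [← ENNReal.ofReal_mul hc.le, ← Real.rpow_add (by norm_num)]
        apply ENNReal.ofReal_le_ofReal
        apply Real.rpow_le_rpow_of_exponent_le (by norm_num)
        have := hT σ.1
        linarith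
      _ = ENNReal.ofReal (2 ^ c) * ∑' σ : S,
          ENNReal.ofReal (2 ^ (f σ.1.length - σ.1.length)) := ENNReal.tsum_mul_left
      _ ≤ ENNReal.ofReal (2 ^ c) * ENNReal.ofReal δ := by gcongr
      _ = ENNReal.ofReal (2 ^ c * δ) := (ENNReal.ofReal_mul hc.le).symm
  have h3 : 2 ^ c * δ = g / 2 := by
    rw [hδ]
    field_simp
  rw [h3] at h2
  have h4 := ENNReal.toReal_mono ENNReal.ofReal_ne_top h2
  rw [ENNReal.toReal_ofReal (by positivity)] at h4
  linarith

end Pool.Agent.H943R5.GC
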