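import Pool.Agent.H943R5.GC.Base
import Pool.Agent.H943R5.GC.N2

/-!
# Project GC: task N3, counting the planted positions
-/

namespace Pool.Agent.H943R5.GC

open Pool.Agent.NPC Pool.Agent.H628R3.RO Pool.Agent.H673R2.OneTT
open Pool.Agent.H620R2 (Gauge.Null Gauge.Extends Gauge.str Gauge.ranO)

namespace N3

theorem kill_unique {Bd : Oracle → List Bool → ℕ → Prop} {A : Oracle} {v : List Bool} {s s' : ℕ}
    (h : kill Bd A v s) (h' : kill Bd A v s') : s = s' := by
  rcases lt_trichotomy s s' with hlt | heq | hgt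
  · exact absurd ⟨h.1, h.2.1⟩ (h'.2.2 s hlt)
  · exact heq
  · exact absurd ⟨h'.1, h'.2.1⟩ (h.2.2 s' hgt)

theorem le_log {a n : ℕ} (h : 2 ^ a ≤ n) : a ≤ Nat.log 2 n :=
  Nat.le_log_of_pow_le (by norm_num) h

theorem bounds {K : ℕ} {N i : ℕ} (hi : i < N) {v : List Bool} {s k : ℕ} (hk : k < LL v s)
    (hact : act v s) (h : Gauge.str i = YY K v s k) :
    Pool.Agent.H583R2.idx v < 2 * Nat.log 2 (ell N) ∧ k < 6 * ell N + 4 := by
  have h1 : (Gauge.str i).length = Nat.log 2 (i + 1) := Pool.Agent.H620R2.Gauge.length_str i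
  have h2 : TT (s + K) ≤ (YY K v s k).length := N2.le_length_YY K v s k
  have h3 : TT s ≤ TT (s + K) := N2.TT_mono (Nat.le_add_right _ _)
  have h4 : Nat.log 2 (i + 1) ≤ Nat.log 2 N := Nat.log_mono_right hi
  have h5 : 2 ^ 2 ^ s ≤ Nat.log 2 N := by
    have : TT s = 2 ^ 2 ^ s := rfl
    rw [← h, h1] at h2
    omega
  have h6 : s ≤ Nat.log 2 (Nat.log 2 (Nat.log 2 N)) := le_log (le_log h5)
  have h7 : 2 ^ (st s).length ≤ s + 1 := by
    have := Pool.Agent.H583R2.le_idx (st s)
    unfold st at this ⊢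
    rwa [Pool.Agent.H583R2.idx_str] at this
  have h8 : (st s).length ≤ ell N := by
    unfold ell
    exact (le_log h7).trans (Nat.log_mono_right (by omega))
  have h9 : 2 ^ 2 ^ v.length ≤ ell N := by
    have : TT v.length = 2 ^ 2 ^ v.length := rfl
    unfold act at hact
    omega
  have h10 : 2 ^ v.length ≤ Nat.log 2 (ell N) := le_log h9
  have h11 : v.length ≤ ell N := by
    have e1 : v.length < 2 ^ v.length := Nat.lt_two_pow_self
    have e2 : 2 ^ v.length < 2 ^ 2 ^ v.length := Nat.lt_two_pow_self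
    omega
  constructor
  · have h12 := Pool.Agent.H583R2.idx_lt v
    rw [pow_succ] at h12
    omega
  · have h13 : LL v s = 4 * v.length + 2 * (st s).length + 4 := by
      unfold LL nmB
      rw [Pool.Agent.H628R3.RO.length_pairBits]
      ring
    omega

end N3

open N3 in
open Classical in
theorem card_le (K : ℕ) (Bd : Oracle → List Bool → ℕ → Prop) (A : Oracle) (N : ℕ) :
    ((Finset.range N).filter (fun i => ∃ v s k, k < LL v s ∧ kill Bd A v s ∧
      Gauge.str i = YY K v s k)).card ≤ 2 * Nat.log 2 (ell N) * (6 * ell N + 4) := by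
  set F := (Finset.range N).filter (fun i => ∃ v s k, k < LL v s ∧ kill Bd A v s ∧
      Gauge.str i = YY K v s k) with hF
  have hex : ∀ i, ∃ q : ℕ × ℕ, i ∈ F →
      (q ∈ Finset.range (2 * Nat.log 2 (ell N)) ×ˢ Finset.range (6 * ell N + 4) ∧
      ∃ v s, kill Bd A v s ∧ q.1 = Pool.Agent.H583R2.idx v ∧ Gauge.str i = YY K v s q.2) := by
    intro i
    by_cases hi : i ∈ F
    · rw [hF, Finset.mem_filter, Finset.mem_range] at hi
      obtain ⟨hiN, v, s, k, hk, hkill, hstr⟩ := hi
      obtain ⟨h1, h2⟩ := bounds hiN hk hkill.1 hstr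
      exact ⟨(Pool.Agent.H583R2.idx v, k), fun _ =>
        ⟨Finset.mem_product.2 ⟨Finset.mem_range.2 h1, Finset.mem_range.2 h2⟩,
          v, s, hkill, rfl, hstr⟩⟩
    · exact ⟨(0, 0), fun h => absurd h hi⟩
  choose g hg using hex
  have h1 : F.card ≤
      (Finset.range (2 * Nat.log 2 (ell N)) ×ˢ Finset.range (6 * ell N + 4)).card := by
    refine Finset.card_le_card_of_injOn g (fun i hi => (hg i hi).1) ?_
    intro i hi j hj hij
    obtain ⟨v, s, hk, hv, hstr⟩ := (hg i hi).2
    obtain ⟨v', s', hk', hv', hstr'⟩ := (hg j hj).2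
    rw [hij] at hv hstr
    have hvv : v = v' := Pool.Agent.H583R2.idx_inj (hv.symm.trans hv')
    subst hvv
    have hss := kill_unique hk hk'
    subst hss
    exact Pool.Agent.H620R2.Gauge.str_injective (hstr.trans hstr'.symm)
  rwa [Finset.card_product, Finset.card_range, Finset.card_range] at h1

end Pool.Agent.H943R5.GC
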