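import Pool.Agent.H943R5.GC.Base

/-!
# Project GC, task N4: real asymptotics of iterated logarithms

Written by helper496.
-/

namespace Pool.Agent.H943R5.GC

namespace N4

open Filter

lemma natLog_le {n : ℕ} {x : ℝ} (hn : 1 ≤ n) (h : (n : ℝ) ≤ x) :
    ((Nat.log 2 n : ℕ) : ℝ) ≤ Real.logb 2 x := by
  have h1 : ((Nat.log 2 n : ℕ) : ℝ) ≤ Real.logb 2 n := by
    have := Real.natLog_le_logb n 2
    exact_mod_cast this
  have hn' : (0 : ℝ) < n := by exact_mod_cast hn
  exact h1.trans (Real.logb_le_logb_of_le (by norm_num) hn' h)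

lemma tendsto_log4 : Tendsto (fun N : ℕ => log4 N) atTop atTop := by
  have h : Tendsto (Real.logb 2) atTop atTop := Real.tendsto_logb_atTop (by norm_num)
  exact h.comp (h.comp (h.comp (h.comp tendsto_natCast_atTop_atTop)))

lemma ev_real (σ : ℝ) (hσ : 1 < σ) :
    ∀ᶠ x : ℝ in atTop, 2 * Real.logb 2 (x + 1) * (6 * (x + 1) + 4) ≤ x ^ σ := by
  have hs : 0 < σ - 1 := by linarith
  have h2 : 0 < Real.log 2 := Real.log_pos (by norm_num)
  have hlo := (isLittleO_log_rpow_atTop hs).bound (show 0 < Real.log 2 / 64 by positivity)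
  have hto := (tendsto_rpow_atTop hs).eventually_ge_atTop 64
  filter_upwards [hlo, hto, eventually_ge_atTop (1 : ℝ)] with x h1 h3 h4
  have hx : 0 < x := by linarith
  have hlx : 0 ≤ Real.log x := Real.log_nonneg h4
  rw [Real.norm_of_nonneg hlx, Real.norm_of_nonneg (by positivity)] at h1
  have hl : Real.logb 2 (x + 1) ≤ 1 + Real.log x / Real.log 2 := by
    have : Real.logb 2 (x + 1) ≤ Real.logb 2 (2 * x) :=
      Real.logb_le_logb_of_le (by norm_num) (by linarith) (by linarith)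
    refine this.trans (le_of_eq ?_)
    rw [Real.logb_mul (by norm_num) hx.ne', Real.logb_self_eq_one (by norm_num)]
    rfl
  have hl0 : 0 ≤ Real.logb 2 (x + 1) := Real.logb_nonneg (by norm_num) (by linarith)
  have hq : Real.log x / Real.log 2 ≤ x ^ (σ - 1) / 64 := by
    rw [div_le_iff₀ h2]
    calc Real.log x ≤ Real.log 2 / 64 * x ^ (σ - 1) := h1
      _ = _ := by ring
  have hpow : x ^ σ = x ^ (σ - 1) * x := by
    rw [Real.rpow_sub_one hx.ne']
    field_simp
  rw [hpow]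
  have hA : 2 * Real.logb 2 (x + 1) ≤ 2 * (1 + Real.log x / Real.log 2) := by linarith
  have hB : 6 * (x + 1) + 4 ≤ 16 * x := by linarith
  calc 2 * Real.logb 2 (x + 1) * (6 * (x + 1) + 4)
      ≤ 2 * (1 + Real.log x / Real.log 2) * (16 * x) := by
        apply mul_le_mul hA hB (by linarith)
        have : 0 ≤ Real.log x / Real.log 2 := by positivity
        linarith
    _ = (32 * (1 + Real.log x / Real.log 2)) * x := by ring
    _ ≤ x ^ (σ - 1) * x := by
        apply mul_le_mul_of_nonneg_right _ hx.le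
        linarith

lemma ell_le (N : ℕ) (hN : 16 ≤ N) : (ell N : ℝ) ≤ 1 + log4 N := by
  have a1 : 4 ≤ Nat.log 2 N := by
    have h := Nat.log_mono_right (b := 2) hN
    have e : Nat.log 2 16 = 4 := by
      rw [show (16 : ℕ) = 2 ^ 4 by norm_num, Nat.log_pow (by norm_num)]
    omega
  have a2 : 2 ≤ Nat.log 2 (Nat.log 2 N) := by
    have h := Nat.log_mono_right (b := 2) a1
    have e : Nat.log 2 4 = 2 := by
      rw [show (4 : ℕ) = 2 ^ 2 by norm_num, Nat.log_pow (by norm_num)]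
    omega
  have a3 : 1 ≤ Nat.log 2 (Nat.log 2 (Nat.log 2 N)) := by
    have h := Nat.log_mono_right (b := 2) a2
    have e : Nat.log 2 (2 ^ 1) = 1 := Nat.log_pow (by norm_num) 1
    rw [pow_one] at e
    omega
  have b1 : ((Nat.log 2 N : ℕ) : ℝ) ≤ Real.logb 2 (N : ℝ) := natLog_le (by omega) le_rfl
  have b2 : ((Nat.log 2 (Nat.log 2 N) : ℕ) : ℝ) ≤ Real.logb 2 (Real.logb 2 (N : ℝ)) :=
    natLog_le (by omega) b1
  have b3 : ((Nat.log 2 (Nat.log 2 (Nat.log 2 N)) : ℕ) : ℝ) ≤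
      Real.logb 2 (Real.logb 2 (Real.logb 2 (N : ℝ))) := natLog_le (by omega) b2
  set S := Nat.log 2 (Nat.log 2 (Nat.log 2 N)) with hS
  have hS1 : (1 : ℝ) ≤ S := by exact_mod_cast a3
  set y := Real.logb 2 (Real.logb 2 (Real.logb 2 (N : ℝ))) with hy
  have c1 : (ell N : ℝ) ≤ Real.logb 2 (2 * y) := by
    apply natLog_le (by omega)
    push_cast
    linarith
  rw [Real.logb_mul (by norm_num) (by linarith), Real.logb_self_eq_one (by norm_num)] at c1
  exact c1

lemma cost_le_real (N : ℕ) (hN : 16 ≤ N) (h0 : 0 ≤ log4 N) :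
    ((2 * Nat.log 2 (ell N) * (6 * ell N + 4) : ℕ) : ℝ) ≤
      2 * Real.logb 2 (log4 N + 1) * (6 * (log4 N + 1) + 4) := by
  have h1 := ell_le N hN
  have h2 : ((Nat.log 2 (ell N) : ℕ) : ℝ) ≤ Real.logb 2 (log4 N + 1) := by
    rcases Nat.eq_zero_or_pos (ell N) with h | h
    · rw [h]
      simp only [Nat.log_zero_right, Nat.cast_zero]
      exact Real.logb_nonneg (by norm_num) (by linarith)
    · exact natLog_le h (by linarith)
  push_cast
  have h3 : (0 : ℝ) ≤ (Nat.log 2 (ell N) : ℕ) := Nat.cast_nonneg _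
  have h4 : (0 : ℝ) ≤ (ell N : ℕ) := Nat.cast_nonneg _
  apply mul_le_mul (by linarith) (by linarith) (by linarith) (by linarith)

end N4

theorem cost_le (f : ℕ → ℝ) (σ : ℝ) (hσ : 1 < σ)
    (hf : ∀ᶠ N : ℕ in Filter.atTop, log4 N ^ σ ≤ f N) :
    ∃ c : ℝ, ∀ N : ℕ, ((2 * Nat.log 2 (ell N) * (6 * ell N + 4) : ℕ) : ℝ) ≤ f N + c := by
  have hev : ∀ᶠ N : ℕ in Filter.atTop,
      ((2 * Nat.log 2 (ell N) * (6 * ell N + 4) : ℕ) : ℝ) ≤ f N := by
    filter_upwards [hf, N4.tendsto_log4.eventually (N4.ev_real σ hσ),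
      N4.tendsto_log4.eventually (Filter.eventually_ge_atTop 0),
      Filter.eventually_ge_atTop 16] with N h1 h2 h3 h4
    exact (N4.cost_le_real N h4 h3).trans (h2.trans h1)
  obtain ⟨N0, hN0⟩ := Filter.eventually_atTop.mp hev
  refine ⟨∑ N ∈ Finset.range N0,
    |((2 * Nat.log 2 (ell N) * (6 * ell N + 4) : ℕ) : ℝ) - f N|, fun N => ?_⟩
  have hc : 0 ≤ ∑ N ∈ Finset.range N0,
      |((2 * Nat.log 2 (ell N) * (6 * ell N + 4) : ℕ) : ℝ) - f N| :=
    Finset.sum_nonneg fun _ _ => abs_nonneg _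
  rcases lt_or_ge N N0 with h | h
  · have h1 := Finset.single_le_sum
      (f := fun N => |((2 * Nat.log 2 (ell N) * (6 * ell N + 4) : ℕ) : ℝ) - f N|)
      (fun i _ => abs_nonneg _) (Finset.mem_range.mpr h)
    have h2 := le_abs_self (((2 * Nat.log 2 (ell N) * (6 * ell N + 4) : ℕ) : ℝ) - f N)
    linarith
  · have := hN0 N h
    linarith

end Pool.Agent.H943R5.GC
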