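import Pool.Agent.H943R5.GC.N0
import Pool.Agent.H943R5.GC.N1
import Pool.Agent.H943R5.GC.N2
import Pool.Agent.H943R5.GC.N3
import Pool.Agent.H943R5.GC.N4
import Pool.Agent.H943R5.GC.G2
import Pool.Agent.H620R2.Gauge.S

/-!
# Project GC, task N5: sets containing all good oracles are not null
-/

namespace Pool.Agent.H943R5.GC

open Pool.Agent.NPC Pool.Agent.H628R3.RO Pool.Agent.H673R2.OneTT
open Pool.Agent.H620R2 (Gauge.Null Gauge.Extends Gauge.str Gauge.ranO Gauge.idx Gauge.idx_lt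
  Gauge.le_idx Gauge.idx_str Gauge.str_idx)

theorem N5.TT_mono {a b : ℕ} (h : a ≤ b) : TT a ≤ TT b := by
  unfold TT tw
  exact Nat.pow_le_pow_right (by norm_num) (Nat.pow_le_pow_right (by norm_num) h)

/-- whether `v` is killed at round `s` depends only on the strings of length `< TT (s + K)` -/
theorem N5.kill_loc {K : ℕ} {Bd : Oracle → List Bool → ℕ → Prop} (hloc : Loc K Bd)
    {A A' : Oracle} {v : List Bool} {s : ℕ}
    (h : ∀ y : List Bool, y.length < TT (s + K) → A y = A' y) (hk : kill Bd A v s) :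
    kill Bd A' v s := by
  refine ⟨hk.1, hloc v s hk.1 A A' h hk.2.1, fun s' hs' hb => hk.2.2 s' hs' ⟨hb.1, ?_⟩⟩
  refine hloc v s' hb.1 A' A (fun y hy => (h y (lt_of_lt_of_le hy ?_)).symm) hb.2
  exact N5.TT_mono (by omega)

open Classical in
/-- some oracle extending `σ` -/
noncomputable def N5.oex (σ : List Bool) : Oracle :=
  if h : ∃ A, Gauge.Extends A σ then h.choose else fun _ => false

theorem N5.oex_spec {σ : List Bool} {A : Oracle} (h : Gauge.Extends A σ) :
    Gauge.Extends (N5.oex σ) σ := by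
  have h1 : ∃ A, Gauge.Extends A σ := ⟨A, h⟩
  unfold N5.oex
  rw [dif_pos h1]
  exact h1.choose_spec

open Classical in
theorem not_null_good (K : ℕ) (Bd : Oracle → List Bool → ℕ → Prop) (hloc : Loc K Bd)
    (f : ℕ → ℝ) (σ : ℝ) (hσ : 1 < σ)
    (hf : ∀ᶠ N : ℕ in Filter.atTop, log4 N ^ σ ≤ f N)
    (O : Set Oracle) (hO : ∀ A, Good K Bd A → A ∈ O) : ¬ Gauge.Null f O := by
  obtain ⟨Φ, hΦ⟩ := exists_plant K Bd hloc
  obtain ⟨c, hc⟩ := cost_le f σ hσ hf
  refine not_null_gen f {B | ∀ v s, ¬ Sig K B v s} (noSig_pos K) Φ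
    (fun τ => {y | ∃ v s k, k < LL v s ∧ kill Bd (N5.oex τ) v s ∧ y = YY K v s k}) ?_ c ?_ O ?_
  · intro B _ τ hτ i hi hnot
    have h1 : Φ B (Gauge.str i) = τ[i] := hτ i hi
    rw [← h1]
    symm
    refine (hΦ B).2 _ (fun v s k hk hkill heq => hnot ⟨v, s, k, hk, ?_, heq⟩)
    refine N5.kill_loc hloc (fun y hy => ?_) hkill
    have h2 : y.length < (Gauge.str i).length := by
      rw [heq, length_YY]
      omega
    have h3 : Gauge.idx y < τ.length := by
      have h4 := Gauge.idx_lt y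
      have h5 := Gauge.le_idx (Gauge.str i)
      rw [Gauge.idx_str] at h5
      have h6 : 2 ^ (y.length + 1) ≤ 2 ^ (Gauge.str i).length :=
        Nat.pow_le_pow_right (by norm_num) h2
      omega
    have h7 := hτ (Gauge.idx y) h3
    have h8 := N5.oex_spec hτ (Gauge.idx y) h3
    rw [Gauge.str_idx] at h7 h8
    rw [h7, h8]
  · intro τ
    refine le_trans ?_ (hc τ.length)
    exact_mod_cast card_le K Bd (N5.oex τ) τ.length
  · intro B hB
    exact hO _ (good_of_plant K Bd (Φ B) B (hΦ B).1 (hΦ B).2 hB)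

end Pool.Agent.H943R5.GC
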