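import Pool.Agent.H943R5.GC.DefsP
import Pool.Agent.H943R5.GC.U4
import Pool.Agent.H943R5.GC.U5

/-!
# Project GC, task P1: the canonical `Π₂`-complete set
-/

namespace Pool.Agent.H943R5.GC

open Pool.Agent.NPC Pool.Agent.H628R3.RO Pool.Agent.H673R2.OneTT Pool.Agent.H660R2.NX
open Pool.Agent.H543R3.PC2 (IsPi2 Pi2Hard HasOpt2 HasPOpt2)

namespace P1

theorem zl_le (z : List Bool) : zl z ≤ z.length := by
  unfold zl zu
  have h1 := U5.unpair_length z
  have h2 := U5.unpair_length (unpair z).2
  have h3 := U5.unpair_length (unpair (unpair z).2).1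
  omega

/-- the input of the universal algorithm -/
def qry (y : List Bool) : List Bool :=
  pairBits (pairBits (zv (unpair y).1) (pairBits (pairBits (zx (unpair y).1) (unpair (unpair y).2).1)
    (List.replicate (zm (unpair y).1) true))) (unpair (unpair y).2).2

theorem poly_zu : Poly zu := by
  unfold zu
  exact Poly.fst (poly_unpair.comp (Poly.snd poly_unpair))

theorem poly_zv : Poly zv := by
  unfold zv
  exact Poly.fst poly_unpair

theorem poly_zr : Poly (fun z : List Bool => (unpair (unpair z).2).2) :=
  Poly.snd (poly_unpair.comp (Poly.snd poly_unpair))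

theorem poly_zx : Poly zx := by
  unfold zx
  exact Poly.fst (poly_unpair.comp poly_zu)

theorem poly_zlr : Poly (fun z : List Bool => (unpair (zu z)).2) :=
  Poly.snd (poly_unpair.comp poly_zu)

theorem poly_qry : Poly qry := by
  unfold qry
  have h1 : Poly (fun y : List Bool => (unpair y).1) := Poly.fst poly_unpair
  have h2 : Poly (fun y : List Bool => (unpair (unpair y).2).1) :=
    Poly.fst (poly_unpair.comp (Poly.snd poly_unpair))
  have h3 : Poly (fun y : List Bool => (unpair (unpair y).2).2) :=
    Poly.snd (poly_unpair.comp (Poly.snd poly_unpair))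
  have h4 : Poly (fun y : List Bool => List.replicate (zm (unpair y).1) true) :=
    U5.p_rep (UPoly.length (poly_zr.comp h1)) true
  exact Pool.Agent.H622R2.poly_pairBits (Pool.Agent.H622R2.poly_pairBits (poly_zv.comp h1)
    (Pool.Agent.H622R2.poly_pairBits (Pool.Agent.H622R2.poly_pairBits (poly_zx.comp h1) h2) h4)) h3

end P1

open P1 in
theorem isPi2_K2 (A : Oracle) : IsPi2 A (K2 A) := by
  choose F hF using uA_total A
  have hFP : IsFP A F := ⟨uA, hF⟩
  have h1 : IsFP A (fun y => F (qry y)) := IsFP.comp hFP (IsFP.of_poly poly_qry)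
  have h2 : IsFP A (fun y => pairBits (F (qry y)) y) := IsFP.pair h1 (IsFP.of_poly Poly.id)
  have h3 : Poly (fun t : List Bool =>
      if (unpair (unpair (unpair t).2).2).1.length ≤ zl (unpair (unpair t).2).1 then
        (if (unpair (unpair (unpair t).2).2).2.length ≤ zm (unpair (unpair t).2).1 then
          (unpair t).1 else [])
      else [true]) := by
    have g2 : Poly (fun t : List Bool => (unpair t).2) := Poly.snd poly_unpair
    have g3 : Poly (fun t : List Bool => (unpair (unpair t).2).1) :=
      Poly.fst (poly_unpair.comp g2)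
    have g4 : Poly (fun t : List Bool => (unpair (unpair t).2).2) :=
      Poly.snd (poly_unpair.comp g2)
    have g5 : Poly (fun t : List Bool => (unpair (unpair (unpair t).2).2).1) :=
      Poly.fst (poly_unpair.comp g4)
    have g6 : Poly (fun t : List Bool => (unpair (unpair (unpair t).2).2).2) :=
      Poly.snd (poly_unpair.comp g4)
    exact Poly.ite (Poly.decide_le (Poly.length g5) (Poly.length (poly_zlr.comp g3)))
      (Poly.ite (Poly.decide_le (Poly.length g6) (Poly.length (poly_zr.comp g3)))
        (Poly.fst poly_unpair) (NPC.Poly.const [])) (NPC.Poly.const [true])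
  have h4 := IsFP.comp (IsFP.of_poly (A := A) h3) h2
  simp only [unpair_pairBits] at h4
  refine ⟨_, Polynomial.X, h4, fun z => ?_⟩
  simp only [Polynomial.eval_X, unpair_pairBits]
  unfold K2
  simp only [Set.mem_ofPred_eq]
  constructor
  · intro h u hu
    by_cases hul : u.length ≤ zl z
    · obtain ⟨w, hw, hA⟩ := h u hul
      refine ⟨w, hw.trans (zm_le z), ?_⟩
      rw [if_pos hul, if_pos hw]
      have h5 := hF (qry (pairBits z (pairBits u w)))
      unfold qry at h5
      simp only [unpair_pairBits] at h5
      rw [hA] at h5
      have h6 : qry (pairBits z (pairBits u w)) = pairBits (pairBits (zv z) (pairBits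
          (pairBits (zx z) u) (List.replicate (zm z) true))) w := by
        unfold qry
        simp only [unpair_pairBits]
      rw [h6]
      exact (Option.some.inj h5).symm
    · refine ⟨[], by simp, ?_⟩
      rw [if_neg hul]
  · intro h u hu
    obtain ⟨w, hw, h5⟩ := h u (hu.trans (zl_le z))
    rw [if_pos hu] at h5
    split_ifs at h5 with h6
    · refine ⟨w, h6, ?_⟩
      have h7 := hF (qry (pairBits z (pairBits u w)))
      rw [h5] at h7
      unfold qry at h7
      simp only [unpair_pairBits] at h7
      exact h7

open P1 in
theorem pi2Hard_K2 (A : Oracle) : Pi2Hard A (K2 A) := by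
  intro L hL
  obtain ⟨V, p, hV, hLV⟩ := hL
  have h1 : Poly (fun t : List Bool => pairBits (unpair (unpair t).1).1
      (pairBits (unpair (unpair t).1).2 (unpair t).2)) := by
    have g1 : Poly (fun t : List Bool => (unpair t).1) := Poly.fst poly_unpair
    exact Pool.Agent.H622R2.poly_pairBits (Poly.fst (poly_unpair.comp g1))
      (Pool.Agent.H622R2.poly_pairBits (Poly.snd (poly_unpair.comp g1)) (Poly.snd poly_unpair))
  have h2 : IsFP A (fun t : List Bool => V (pairBits (unpair (unpair t).1).1
      (pairBits (unpair (unpair t).1).2 (unpair t).2))) := IsFP.comp hV (IsFP.of_poly h1)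
  have h3 := IsFP.pair h2 (IsFP.of_poly (A := A) Poly.id)
  have h4 : Poly (fun t : List Bool =>
      if (unpair (unpair t).2).2.length ≤ p.eval (unpair (unpair (unpair t).2).1).1.length then
        (unpair t).1 else []) := by
    have g2 : Poly (fun t : List Bool => (unpair t).2) := Poly.snd poly_unpair
    have g3 : Poly (fun t : List Bool => (unpair (unpair t).2).1) :=
      Poly.fst (poly_unpair.comp g2)
    have g4 : Poly (fun t : List Bool => (unpair (unpair t).2).2) :=
      Poly.snd (poly_unpair.comp g2)
    have g5 : Poly (fun t : List Bool => (unpair (unpair (unpair t).2).1).1) :=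
      Poly.fst (poly_unpair.comp g3)
    exact Poly.ite (Poly.decide_le (Poly.length g4) (UPoly.eval (UPoly.length g5) p).toPoly)
      (Poly.fst poly_unpair) (NPC.Poly.const [])
  have h5 := IsFP.comp (IsFP.of_poly (A := A) h4) h3
  obtain ⟨e, q, hq⟩ := U4.code_nd A p h5
  simp only [unpair_pairBits] at hq
  set bm : Polynomial ℕ := q.comp (2 * Polynomial.X + 1 + p) with hbm
  refine ⟨fun x => pairBits (bits e) (pairBits (pairBits x (List.replicate (p.eval x.length) true))
    (List.replicate (bm.eval x.length) true)), ?_, fun x => ?_⟩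
  · apply IsFP.of_poly
    exact Pool.Agent.H622R2.poly_pairBits (NPC.Poly.const _) (Pool.Agent.H622R2.poly_pairBits
      (Pool.Agent.H622R2.poly_pairBits Poly.id
        (U5.p_rep (UPoly.eval (UPoly.length Poly.id) p) true))
      (U5.p_rep (UPoly.eval (UPoly.length Poly.id) bm) true))
  · rw [hLV]
    unfold K2 zl zx zv zu zm
    simp only [Set.mem_ofPred_eq, unpair_pairBits, List.length_replicate]
    refine forall_congr' fun u => forall_congr' fun hu => exists_congr fun w => ?_
    have h6 : q.eval (pairBits x u).length ≤ bm.eval x.length := by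
      rw [hbm, Polynomial.eval_comp]
      apply eval_mono
      rw [H628R3.RO.length_pairBits]
      simp only [Polynomial.eval_add, Polynomial.eval_mul, Polynomial.eval_X,
        Polynomial.eval_one, Polynomial.eval_ofNat]
      omega
    have h7 := hq (pairBits x u) w (bm.eval x.length) h6
    unfold insK at h7
    rw [h7, unpair_pairBits]
    have h8 : p.eval x.length ≤ p.eval (pairBits x u).length := by
      apply eval_mono
      rw [H628R3.RO.length_pairBits]
      omega
    constructor
    · rintro ⟨h9, h10⟩
      refine ⟨h9.trans h8, ?_⟩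
      rw [if_pos h9]
      exact h10
    · rintro ⟨-, h10⟩
      split_ifs at h10 with h9
      · exact ⟨h9, h10⟩

end Pool.Agent.H943R5.GC
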