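import Pool.Agent.H943R5.GC.P1
import Pool.Agent.H943R5.GC.U6

/-!
# Project GC, task P3: a brute force proof system for `K2 A`
-/

namespace Pool.Agent.H943R5.GC

open Pool.Agent.NPC Pool.Agent.H628R3.RO Pool.Agent.H673R2.OneTT
open Pool.Agent.H543R3.PC2 (IsPi2 Pi2Hard HasOpt2 HasPOpt2)

namespace P3

/-- the instance in the state -/
def s1 (s : List Bool) : List Bool := (unpair s).1

/-- the current string in the state -/
def s2 (s : List Bool) : List Bool := (unpair (unpair s).2).1

/-- the rest of the list of witnesses in the state -/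
def s3 (s : List Bool) : List Bool := (unpair (unpair s).2).2

theorem poly_s1 : Poly s1 := Poly.fst poly_unpair

theorem poly_s2 : Poly s2 := Poly.fst (poly_unpair.comp (Poly.snd poly_unpair))

theorem poly_s3 : Poly s3 := Poly.snd (poly_unpair.comp (Poly.snd poly_unpair))

/-- the argument of the universal machine -/
def arg (s : List Bool) : List Bool := P1.qry (pairBits (s1 s) (pairBits (s2 s) (unpair (s3 s)).1))

theorem poly_arg : Poly arg :=
  P1.poly_qry.comp (H622R2.poly_pairBits poly_s1 (H622R2.poly_pairBits poly_s2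
    (Poly.fst (poly_unpair.comp poly_s3))))

/-- the next state from the answer -/
def nextP (t : List Bool) : List Bool :=
  if ((s2 (unpair t).2).length ≤ zl (s1 (unpair t).2) ∧
      (unpair (s3 (unpair t).2)).1.length ≤ zm (s1 (unpair t).2)) ∧ (unpair t).1 = [true] then
    pairBits (s1 (unpair t).2) (pairBits (U6.inc (s2 (unpair t).2)) (unpair (s3 (unpair t).2)).2)
  else (unpair t).2

theorem poly_nextP : Poly nextP := by
  have g2 : Poly (fun t : List Bool => (unpair t).2) := Poly.snd poly_unpair
  have a1 : Poly (fun t : List Bool => s1 (unpair t).2) := poly_s1.comp g2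
  have a2 : Poly (fun t : List Bool => s2 (unpair t).2) := poly_s2.comp g2
  have a3 : Poly (fun t : List Bool => s3 (unpair t).2) := poly_s3.comp g2
  have h7 : Poly (fun t : List Bool => decide
      (((s2 (unpair t).2).length ≤ zl (s1 (unpair t).2) ∧
      (unpair (s3 (unpair t).2)).1.length ≤ zm (s1 (unpair t).2)) ∧ (unpair t).1 = [true])) := by
    refine (Poly.and (Poly.and (Poly.decide_le (Poly.length a2)
      (Poly.length (P1.poly_zlr.comp a1))) (Poly.decide_le (Poly.length (Poly.fst
        (poly_unpair.comp a3))) (Poly.length (P1.poly_zr.comp a1))))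
      (Poly.decide_eq (Poly.fst poly_unpair) (NPC.Poly.const [true]))).congr ?_
    intro t
    rw [Bool.decide_and, Bool.decide_and]
    rfl
  exact Poly.ite h7 (H622R2.poly_pairBits a1 (H622R2.poly_pairBits (U6.poly_inc.comp a2)
    (Poly.snd (poly_unpair.comp a3)))) g2

/-- one step -/
def stepP (F : List Bool → List Bool) (s : List Bool) : List Bool :=
  nextP (pairBits (F (arg s)) s)

/-- the condition for one step -/
def Cnd (F : List Bool → List Bool) (z u r : List Bool) : Prop :=
  (u.length ≤ zl z ∧ (unpair r).1.length ≤ zm z) ∧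
    F (P1.qry (pairBits z (pairBits u (unpair r).1))) = [true]

/-- the rest after `k` steps -/
def rk (r : List Bool) (k : ℕ) : List Bool := (fun t => (unpair t).2)^[k] r

theorem rk_succ (r : List Bool) (k : ℕ) : rk r (k + 1) = (unpair (rk r k)).2 := by
  unfold rk
  rw [Function.iterate_succ_apply']

theorem rk_length (r : List Bool) (k : ℕ) : (rk r k).length ≤ r.length := by
  induction k with
  | zero => exact le_rfl
  | succ k ih =>
    rw [rk_succ]
    have h := U5.unpair_length (rk r k)
    omega

theorem stepP_pos {F : List Bool → List Bool} {z u r : List Bool} (h : Cnd F z u r) :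
    stepP F (pairBits z (pairBits u r)) = pairBits z (pairBits (U6.inc u) (unpair r).2) := by
  unfold Cnd at h
  simp only [stepP, nextP, arg, s1, s2, s3, unpair_pairBits]
  rw [if_pos h]

theorem stepP_neg {F : List Bool → List Bool} {z u r : List Bool} (h : ¬ Cnd F z u r) :
    stepP F (pairBits z (pairBits u r)) = pairBits z (pairBits u r) := by
  unfold Cnd at h
  simp only [stepP, nextP, arg, s1, s2, s3, unpair_pairBits]
  rw [if_neg h]

theorem iter_form (F : List Bool → List Bool) (z r : List Bool) : ∀ n : ℕ,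
    ∃ k ≤ n, (stepP F)^[n] (pairBits z (pairBits [] r)) =
        pairBits z (pairBits (U6.sj k) (rk r k)) ∧
      (∀ j < k, Cnd F z (U6.sj j) (rk r j)) ∧ (k < n → ¬ Cnd F z (U6.sj k) (rk r k)) := by
  intro n
  induction n with
  | zero =>
    refine ⟨0, le_rfl, rfl, ?_, ?_⟩
    · intro j hj
      exact absurd hj (by omega)
    · intro h
      exact absurd h (by omega)
  | succ n ih =>
    obtain ⟨k, hk, h1, h2, h3⟩ := ih
    rw [Function.iterate_succ_apply', h1]
    by_cases h : Cnd F z (U6.sj k) (rk r k)
    · have hkn : k = n := by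
        by_contra hne
        exact h3 (by omega) h
      refine ⟨k + 1, by omega, ?_, ?_, ?_⟩
      · rw [stepP_pos h, U6.sj_succ, rk_succ]
      · intro j hj
        rcases Nat.lt_succ_iff_lt_or_eq.1 hj with h4 | h4
        · exact h2 j h4
        · rw [h4]
          exact h
      · intro h4
        omega
    · exact ⟨k, by omega, stepP_neg h, h2, fun _ => h⟩

/-- the output of the proof system from the last state -/
def outP (d s : List Bool) : List Bool :=
  if zl (s1 s) < (s2 s).length then s1 s else d

theorem poly_outP (d : List Bool) : Poly (outP d) := by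
  have h7 : Poly (fun s : List Bool => decide (zl (s1 s) < (s2 s).length)) := by
    refine (Poly.not (Poly.decide_le (Poly.length poly_s2)
      (Poly.length (P1.poly_zlr.comp poly_s1)))).congr ?_
    intro t
    rw [← decide_not]
    simp only [not_le]
    rfl
  exact Poly.ite h7 poly_s1 (NPC.Poly.const d)

/-- the initial state -/
def initP (y : List Bool) : List Bool := pairBits (unpair y).1 (pairBits [] (unpair y).2)

theorem poly_initP : Poly initP :=
  H622R2.poly_pairBits (Poly.fst poly_unpair) (H622R2.poly_pairBits (NPC.Poly.const [])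
    (Poly.snd poly_unpair))

/-- the list of the witnesses -/
def enc (w : ℕ → List Bool) : ℕ → ℕ → List Bool
  | _, 0 => []
  | j, n + 1 => pairBits (w j) (enc w (j + 1) n)

theorem enc_length (w : ℕ → List Bool) : ∀ n j : ℕ, n ≤ (enc w j n).length
  | 0, _ => Nat.zero_le _
  | n + 1, j => by
    have h := enc_length w n (j + 1)
    rw [enc, H628R3.RO.length_pairBits]
    omega

theorem rk_enc (w : ℕ → List Bool) (K : ℕ) : ∀ k ≤ K, rk (enc w 0 K) k = enc w k (K - k) := by
  intro k
  induction k with
  | zero => intro _; rfl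
  | succ k ih =>
    intro hk
    rw [rk_succ, ih (by omega)]
    obtain ⟨m, hm⟩ : ∃ m, K - k = m + 1 := ⟨K - k - 1, by omega⟩
    rw [hm, enc, unpair_pairBits]
    have h : K - (k + 1) = m := by omega
    rw [h]

theorem isPi2_univ (A : Oracle) : IsPi2 A Set.univ := by
  refine ⟨fun _ => [true], 0, IsFP.of_poly (NPC.Poly.const _), fun x => ?_⟩
  simp only [Set.mem_univ, true_iff]
  intro u _
  exact ⟨[], by simp⟩

theorem exists_mem (A : Oracle) : ∃ d, d ∈ K2 A := by
  obtain ⟨F, -, hF⟩ := pi2Hard_K2 A _ (isPi2_univ A)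
  exact ⟨F [], (hF []).1 (Set.mem_univ _)⟩

theorem qry_eq (z u w : List Bool) : P1.qry (pairBits z (pairBits u w)) =
    pairBits (pairBits (zv z) (pairBits (pairBits (zx z) u) (List.replicate (zm z) true))) w := by
  unfold P1.qry
  simp only [unpair_pairBits]

end P3

open P3 in
theorem exists_ps2 (A : Oracle) : ∃ P₀, IsFP A P₀ ∧ Set.range P₀ = K2 A := by
  classical
  obtain ⟨F, hF, hFe⟩ := U6.exists_F A
  obtain ⟨d, hd⟩ := P3.exists_mem A
  have h1 : IsFP A (fun y => F (arg y)) := IsFP.comp hF (IsFP.of_poly poly_arg)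
  have h2' := IsFP.comp (IsFP.of_poly (A := A) poly_nextP)
    (IsFP.pair h1 (IsFP.of_poly (A := A) Poly.id))
  have h2 : IsFP A (stepP F) := by
    have e : stepP F = fun y => nextP (pairBits (F (arg y)) y) := rfl
    rw [e]
    exact h2'
  obtain ⟨p, hp⟩ := IsFP.length_le (IsFP.of_poly (A := A) (Poly.fst poly_unpair))
  have h5 := Pool.Agent.H620R2.Gauge.IsFP.loop (U6.isFP_ofRO h2) poly_initP Polynomial.X
    (4 * p + Polynomial.X + 4) (by
      intro y i _
      obtain ⟨k, -, e1, e2, -⟩ := P3.iter_form F (unpair y).1 (unpair y).2 i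
      unfold initP
      rw [e1, H628R3.RO.length_pairBits, H628R3.RO.length_pairBits]
      have e3 : (U6.sj k).length ≤ (unpair y).1.length + 1 := by
        rcases k with _ | k
        · exact Nat.zero_le _
        · have e4 := (e2 k (by omega)).1.1
          have e5 := U6.length_succ_le k
          have e6 := P1.zl_le (unpair y).1
          omega
      have e6 := hp y
      have e7 := rk_length (unpair y).2 k
      have e8 := U5.unpair_length y
      simp only [Polynomial.eval_add, Polynomial.eval_mul, Polynomial.eval_ofNat,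
        Polynomial.eval_X]
      omega)
  have h6 := IsFP.comp (IsFP.of_poly (A := A) (poly_outP d)) (U6.isFP_toRO h5)
  refine ⟨_, h6, ?_⟩
  ext z
  constructor
  · rintro ⟨y, rfl⟩
    obtain ⟨k, -, e1, e2, -⟩ := P3.iter_form F (unpair y).1 (unpair y).2
      (Polynomial.eval y.length Polynomial.X)
    simp only [initP]
    rw [e1]
    simp only [outP, s1, s2, unpair_pairBits]
    split_ifs with h
    · intro u hu
      obtain ⟨j, rfl⟩ := U6.exists_sj u
      have hjk : j < k := U6.lt_of_length (lt_of_le_of_lt hu h)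
      obtain ⟨⟨-, hw⟩, hw2⟩ := e2 j hjk
      refine ⟨_, hw, ?_⟩
      rw [qry_eq] at hw2
      rw [hFe, hw2]
    · exact hd
  · intro hz
    have hw : ∀ j : ℕ, ∃ w : List Bool, (U6.sj j).length ≤ zl z → w.length ≤ zm z ∧
        F (P1.qry (pairBits z (pairBits (U6.sj j) w))) = [true] := by
      intro j
      by_cases h : (U6.sj j).length ≤ zl z
      · obtain ⟨w, hw1, hw2⟩ := hz (U6.sj j) h
        refine ⟨w, fun _ => ⟨hw1, ?_⟩⟩
        rw [qry_eq]
        rw [hFe] at hw2
        simpa using hw2
      · exact ⟨[], fun h' => absurd h' h⟩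
    choose w hw using hw
    refine ⟨pairBits z (enc w 0 (2 ^ (zl z + 1))), ?_⟩
    simp only [initP, unpair_pairBits]
    obtain ⟨k, hk, e1, e2, e3⟩ := P3.iter_form F z (enc w 0 (2 ^ (zl z + 1)))
      (Polynomial.eval (pairBits z (enc w 0 (2 ^ (zl z + 1)))).length Polynomial.X)
    rw [e1]
    simp only [outP, s1, s2, unpair_pairBits]
    refine if_pos ?_
    by_contra hcon
    have hlen : (U6.sj k).length ≤ zl z := Nat.le_of_not_lt hcon
    have h10 := (U6.sj_bounds k).2
    have h11 : 2 ^ ((U6.sj k).length + 1) ≤ 2 ^ (zl z + 1) :=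
      Nat.pow_le_pow_right (by norm_num) (by omega)
    have hkK : k < 2 ^ (zl z + 1) := by omega
    have h12 := enc_length w (2 ^ (zl z + 1)) 0
    have hC : Cnd F z (U6.sj k) (rk (enc w 0 (2 ^ (zl z + 1))) k) := by
      rw [rk_enc w _ k hkK.le]
      obtain ⟨m, hm⟩ : ∃ m, 2 ^ (zl z + 1) - k = m + 1 := ⟨2 ^ (zl z + 1) - k - 1, by omega⟩
      rw [hm, enc]
      unfold Cnd
      rw [unpair_pairBits]
      exact ⟨⟨hlen, (hw k hlen).1⟩, (hw k hlen).2⟩
    refine e3 ?_ hC
    rw [Polynomial.eval_X, H628R3.RO.length_pairBits]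
    omega

end Pool.Agent.H943R5.GC
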