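import Pool.Agent.H943R5.GC.DefsN
import Pool.Agent.H943R5.GC.U1
import Pool.Agent.H943R5.GC.U4

/-!
# Project GC, task S14: oracles with a complete search problem are in the exceptional events
(auxiliary version with the other tasks as hypotheses)
-/

namespace Pool.Agent.H943R5.GC

open Pool.Agent.NPC Pool.Agent.H628R3.RO Pool.Agent.H673R2.OneTT

namespace S14

/-- statement of `qq_inj` -/
def HInj : Prop := ∀ {Kc W : ℕ} {v v' : List Bool} {s s' : ℕ}, qq Kc W v s = qq Kc W v' s' →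
    v = v' ∧ s = s'

/-- statement of `noHit_iff` -/
def HHit : Prop := ∀ (Kc W a m : ℕ) (A : Oracle) (v : List Bool) (s : ℕ),
    A ∈ NoHit m (blk Kc W a v s) ↔ ¬ ∃ z, IsHit Kc W a m A v s z

/-- statement of `len_bounds` -/
def HLen : Prop := ∀ {Kc : ℕ} (_ : 1 ≤ Kc) (W : ℕ) (v : List Bool) (s : ℕ),
    v.length ≤ nn Kc W v s ∧ s ≤ nn Kc W v s ∧ (st s).length ≤ nn Kc W v s ∧
      tv W v ≤ nn Kc W v s ∧ nn Kc W v s ≤ (qq Kc W v s).length ∧
      (qq Kc W v s).length ≤ 8 * nn Kc W v s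

/-- statement of `tw_chain` -/
def HTw : Prop := ∀ (P₁ P₂ : Polynomial ℕ), ∃ K₀, ∀ Kc, K₀ ≤ Kc → ∀ W v s a b c,
    a + b + c ≤ v.length →
      tw (P₂.eval (tw (P₁.eval (tw ((qq Kc W v s).length + 2) a)) b)) c ≤ mm Kc W v s

/-- statement of `rl_np` -/
def HRl : Prop := ∀ {Kc : ℕ} (_ : 1 ≤ Kc) (W : ℕ) (A : Oracle) (v₀ : List Bool),
    ∃ (V : List Bool → List Bool) (p : Polynomial ℕ), IsFP A V ∧
      ∀ x y, RL Kc W A v₀ x y ↔ y.length ≤ p.eval x.length ∧ V (pairBits x y) = [true]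

theorem le_tw (x a : ℕ) (hx : 1 ≤ x) : x ≤ tw x a := by
  unfold tw
  calc x = x ^ 1 := (pow_one x).symm
    _ ≤ x ^ (2 ^ a) := Nat.pow_le_pow_right hx Nat.one_le_two_pow

theorem tw_mono {x y a : ℕ} (h : x ≤ y) : tw x a ≤ tw y a := by
  unfold tw
  exact Nat.pow_le_pow_left h _

theorem ex_le (v : List Bool) : ex v ≤ v.length := by
  have h1 := Pool.Agent.H543R3.PC.unpair_len v
  have h2 := Pool.Agent.H543R3.PC.unpair_len (unpair v).2
  unfold ex
  omega

theorem c0_le (v : List Bool) : (c0 v).length ≤ v.length := by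
  have h1 := Pool.Agent.H543R3.PC.unpair_len v
  unfold c0
  omega

/-- the budget is admissible for the empty instance -/
theorem adm_nil {Kc : ℕ} (hK : 1 ≤ Kc) (W : ℕ) (v : List Bool) (s : ℕ) :
    Adm (c0 v) [] (mm Kc W v s) := by
  unfold Adm mm TT tw
  have h1 := ex_le (c0 v)
  have h2 := c0_le v
  have h3 : ex (c0 v) ≤ jj Kc W v * (2 * s + 3) := by
    have h4 : v.length ≤ jj Kc W v := by
      unfold jj
      nlinarith
    nlinarith
  calc ([].length + 2) ^ 2 ^ ex (c0 v) = 2 ^ 2 ^ ex (c0 v) := by simp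
    _ ≤ 2 ^ 2 ^ (jj Kc W v * (2 * s + 3)) :=
      Nat.pow_le_pow_right (by norm_num) (Nat.pow_le_pow_right (by norm_num) h3)

/-- the budget is admissible for the instance of the complete problem -/
theorem adm_FF {Kc : ℕ} (hK : 1 ≤ Kc) (W : ℕ) (A : Oracle) (v : List Bool) (s : ℕ) :
    Adm (c0 v) (FF Kc W A v s) (mm Kc W v s) := by
  unfold FF
  split_ifs with h
  · exact h
  · exact adm_nil hK W v s

/-- a polynomial bound for the outputs -/
theorem out_bound : ∃ b : Polynomial ℕ, ∀ (A : Oracle) (v u : List Bool) (m : ℕ),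
    v.length ≤ m → u.length ≤ m → (Out A v u m).length ≤ b.eval (11 * m + 5) := by
  obtain ⟨b, hb⟩ := uA.out_length
  refine ⟨b, fun A v u m hv hu => ?_⟩
  unfold Out
  rcases h : uA.out A (pairBits (pairBits (cd false v) (pairBits u (List.replicate m true))) [])
    with _ | z
  · simp
  · have h1 := hb A _ z h
    rw [Option.getD_some]
    refine h1.trans (eval_mono b ?_)
    have h2 := U1.len_cd false v
    rw [H628R3.RO.length_pairBits, H628R3.RO.length_pairBits, H628R3.RO.length_pairBits,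
      List.length_replicate, List.length_nil]
    omega

/-- case (a): the hard problem has an instance without solution -/
theorem case_a (hHit : HHit) {Kc : ℕ} (hK : 1 ≤ Kc) (W : ℕ) (A : Oracle) (v₀ : List Bool)
    {R : List Bool → List Bool → Prop} (hR : ∀ x, ∃ y, R x y)
    (hv₀ : ∀ u m, Adm v₀ u m → ∀ w, Ac A v₀ false u m w ↔ R u w)
    (x : List Bool) (hx : ¬ ∃ y, RL Kc W A v₀ x y) : ∃ v, A ∈ Ev1 Kc W v := by
  have h1 : ∃ v s, c0 v = v₀ ∧ s < Mv W v ∧ x = qq Kc W v s := by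
    by_contra hcon
    exact hx ⟨[], Or.inl ⟨hcon, rfl⟩⟩
  obtain ⟨v, s, hc, hs, hxq⟩ := h1
  refine ⟨v, Or.inl ⟨s, hs, ?_, ?_, ?_⟩⟩
  · rintro s' hs' ⟨w, hw⟩
    exact hx ⟨false :: pairBits (st s') w, Or.inr ⟨v, s, hc, hs, hxq, Or.inr ⟨s', w, hs', rfl, hw⟩⟩⟩
  · intro hE
    apply hE
    obtain ⟨w, hw⟩ := hR (FF Kc W A v s)
    refine ⟨w, ?_⟩
    unfold Sol
    have h2 := adm_FF hK W A v s
    rw [hc] at h2 ⊢
    exact (hv₀ _ _ h2 w).2 hw
  · unfold N1s
    rw [hHit]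
    rintro ⟨z, hz⟩
    exact hx ⟨true :: z, Or.inr ⟨v, s, hc, hs, hxq, Or.inl ⟨z, rfl, hz⟩⟩⟩

/-- case (b): the hard problem is total -/
theorem case_b (hInj : HInj) (hHit : HHit) {Kc W : ℕ} {A : Oracle} {v : List Bool}
    {R : List Bool → List Bool → Prop} (hR : ∀ x, ∃ y, R x y) {F G : List Bool → List Bool}
    (hFG : ∀ x y, R (F x) y → RL Kc W A (c0 v) x (G (pairBits x y)))
    (hSol : ∀ s w, Sol Kc W A v s w ↔ R (F (qq Kc W v s)) w)
    (hGG : ∀ s w, Sol Kc W A v s w → GG Kc W A v s w = G (pairBits (qq Kc W v s) w)) :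
    A ∈ Ev1 Kc W v := by
  have key : ∀ s, s < Mv W v → ¬ D1 Kc W A v s := by
    intro s
    induction s using Nat.strong_induction_on with
    | _ s ih =>
      rintro hs ⟨w, hw⟩
      have h1 := hFG _ _ ((hSol s w).1 hw.1)
      rw [← hGG s w hw.1] at h1
      rcases h1 with ⟨h1, -⟩ | ⟨v', s', -, -, hq, h2⟩
      · exact h1 ⟨v, s, rfl, hs, rfl⟩
      · obtain ⟨rfl, rfl⟩ := hInj hq
        rcases h2 with ⟨z, hz1, hz2⟩ | ⟨s'', w', hs'', -, hw'⟩
        · exact hw.2 ⟨z, hz1, hz2⟩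
        · exact ih s'' hs'' (hs''.trans hs) ⟨w', hw'⟩
  refine Or.inr fun s hs => ?_
  unfold N1s
  rw [hHit, not_not]
  obtain ⟨w, hw⟩ := hR (F (qq Kc W v s))
  have h1 : Sol Kc W A v s w := (hSol s w).2 hw
  by_contra hcon
  exact key s hs ⟨w, h1, fun ⟨z, _, hz⟩ => hcon ⟨z, hz⟩⟩

theorem main (hInj : HInj) (hHit : HHit) (hLen : HLen) (hTw : HTw) (hRl : HRl) :
    ∃ K₀, ∀ Kc, K₀ ≤ Kc → ∀ (W : ℕ) (A : Oracle),
    Pool.Agent.H543R3.PC.HasTFNP A → ∃ v, A ∈ Ev1 Kc W v := by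
  obtain ⟨b, hb⟩ := out_bound
  set P₁ : Polynomial ℕ := b.comp (11 * Polynomial.X + 5) + (Polynomial.X + 2) with hP₁
  set P₂ : Polynomial ℕ := 3 * Polynomial.X + 3 with hP₂
  have e₁ : ∀ n, P₁.eval n = b.eval (11 * n + 5) + (n + 2) := by
    intro n
    rw [hP₁]
    simp only [Polynomial.eval_add, Polynomial.eval_comp, Polynomial.eval_mul, Polynomial.eval_X,
      Polynomial.eval_ofNat]
  have e₂ : ∀ n, P₂.eval n = 3 * n + 3 := by
    intro n
    rw [hP₂]
    simp only [Polynomial.eval_add, Polynomial.eval_mul, Polynomial.eval_X,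
      Polynomial.eval_ofNat]
  obtain ⟨K₀, hK₀⟩ := hTw P₁ P₂
  refine ⟨K₀ + 1, fun Kc hKc W A hA => ?_⟩
  have hK : 1 ≤ Kc := by omega
  obtain ⟨R, ⟨⟨V, p, hV, hVR⟩, hR⟩, hcomp⟩ := hA
  obtain ⟨v₀, -, hv₀⟩ := code_pair A p p hV hV 4
  have hv₀' : ∀ u m, Adm v₀ u m → ∀ w, Ac A v₀ false u m w ↔ R u w := by
    intro u m hm w
    rw [(hv₀ u m hm).1 w, hVR]
  by_cases htot : ∀ x, ∃ y, RL Kc W A v₀ x y
  · obtain ⟨F, G, hF, hG, hFG⟩ := hcomp (RL Kc W A v₀) ⟨hRl hK W A v₀, htot⟩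
    obtain ⟨v₁, -, hv₁⟩ := code_fn A hF 0
    obtain ⟨v₂, -, hv₂⟩ := code_fn A hG 0
    set v : List Bool := pairBits v₀ (pairBits v₁ v₂) with hv
    have hc0 : c0 v = v₀ := by unfold c0; rw [hv, unpair_pairBits]
    have hc1 : c1 v = v₁ := by unfold c1; rw [hv, unpair_pairBits, unpair_pairBits]
    have hc2 : c2 v = v₂ := by unfold c2; rw [hv, unpair_pairBits, unpair_pairBits]
    have hvlen : v.length = 2 * v₀.length + 1 + (2 * v₁.length + 1 + v₂.length) := by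
      rw [hv, H628R3.RO.length_pairBits, H628R3.RO.length_pairBits]
    refine ⟨v, ?_⟩
    have hx0 := ex_le v₀
    have hx1 := ex_le v₁
    have hx2 := ex_le v₂
    -- all the admissibility conditions of round `s`
    have hround : ∀ s, Adm v₁ (qq Kc W v s) (mm Kc W v s) ∧
        Adm v₀ (F (qq Kc W v s)) (mm Kc W v s) ∧
        ∀ w, R (F (qq Kc W v s)) w → Adm v₂ (pairBits (qq Kc W v s) w) (mm Kc W v s) := by
      intro s
      have hchain := hK₀ Kc (by omega) W v s (ex v₁) (ex v₀) (ex v₂) (by omega)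
      obtain ⟨hl1, -, -, -, hl5, -⟩ := hLen hK W v s
      set q := qq Kc W v s with hq
      set m₁ := tw (q.length + 2) (ex v₁) with hm₁
      have hm₁' : q.length + 2 ≤ m₁ := le_tw _ _ (by omega)
      have hFlen : (F q).length ≤ b.eval (11 * m₁ + 5) := by
        rw [← hv₁ q m₁ le_rfl]
        exact hb A v₁ q m₁ (by omega) (by omega)
      rw [e₁] at hchain
      set m₂ := tw (b.eval (11 * m₁ + 5) + (m₁ + 2)) (ex v₀) with hm₂
      have hm₂' : b.eval (11 * m₁ + 5) + (m₁ + 2) ≤ m₂ := le_tw _ _ (by omega)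
      rw [e₂] at hchain
      have hm₃ : 3 * m₂ + 3 ≤ tw (3 * m₂ + 3) (ex v₂) := le_tw _ _ (by omega)
      have hadm0 : tw ((F q).length + 2) (ex v₀) ≤ m₂ := tw_mono (by omega)
      refine ⟨?_, ?_, ?_⟩
      · show m₁ ≤ _
        omega
      · show tw ((F q).length + 2) (ex v₀) ≤ _
        omega
      · intro w hw
        have hAc := (hv₀' (F q) (tw ((F q).length + 2) (ex v₀)) le_rfl w).2 hw
        have hwl := hAc.1
        show tw ((pairBits q w).length + 2) (ex v₂) ≤ _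
        refine le_trans (tw_mono ?_) hchain
        rw [H628R3.RO.length_pairBits]
        omega
    have hFF : ∀ s, FF Kc W A v s = F (qq Kc W v s) := by
      intro s
      obtain ⟨h1, h2, -⟩ := hround s
      unfold FF
      rw [hc0, hc1, hv₁ _ _ h1, if_pos h2]
    have hSol : ∀ s w, Sol Kc W A v s w ↔ R (F (qq Kc W v s)) w := by
      intro s w
      unfold Sol
      rw [hFF, hc0]
      exact hv₀' _ _ (hround s).2.1 w
    refine case_b hInj hHit hR (F := F) (G := G) (fun x y h => ?_) hSol ?_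
    · rw [hc0]
      exact hFG x y h
    · intro s w hw
      unfold GG
      rw [hc2]
      exact hv₂ _ _ ((hround s).2.2 w ((hSol s w).1 hw))
  · push Not at htot
    obtain ⟨x, hx⟩ := htot
    exact case_a hHit hK W A v₀ hR hv₀' x (fun ⟨y, hy⟩ => hx y hy)

end S14

end Pool.Agent.H943R5.GC
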