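import Pool.Agent.H943R5.GC.S12
import Pool.Agent.H943R5.GC.U4
import Pool.Agent.H943R5.GC.U5

/-!
# Project GC, task S15: oracles with an optimal proof system are exceptional (auxiliary file)
-/

namespace Pool.Agent.H943R5.GC

open Pool.Agent.NPC Pool.Agent.H628R3.RO Pool.Agent.H673R2.OneTT

namespace S15

theorem tw_zero (x : ℕ) : tw x 0 = x := by
  unfold tw
  simp

theorem le_tw (x c : ℕ) : x ≤ tw x c := by
  unfold tw
  exact Nat.le_self_pow (by positivity) x

theorem tw_mono {x y : ℕ} (h : x ≤ y) (c : ℕ) : tw x c ≤ tw y c := Nat.pow_le_pow_left h _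

theorem unpair_length (y : List Bool) :
    (unpair y).1.length + (unpair y).2.length ≤ y.length :=
  U5.unpair_length y

/-- proofs in the system coded by `c0 v` -/
theorem pfs_iff {Kc W : ℕ} {A : Oracle} {v : List Bool} {s : ℕ} {P₀ : List Bool → List Bool}
    (hb : tw (lb Kc W v s + 2) (ex (c0 v)) ≤ mm Kc W v s)
    (hv : ∀ u m, Adm (c0 v) u m → Out A (c0 v) u m = P₀ u) (π : List Bool) :
    PfS Kc W A v s π ↔ π.length ≤ lb Kc W v s ∧ P₀ π = qq Kc W v s := by
  unfold PfS
  refine and_congr_right fun h1 => ?_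
  rw [hv]
  unfold Adm
  exact (tw_mono (by omega) _).trans hb

theorem lst_pf {Kc W : ℕ} {A : Oracle} {v : List Bool} : ∀ {s : ℕ} {w : List Bool},
    Lst Kc W A v s w → ∀ s' < s, ∃ π, PfS Kc W A v s' π
  | 0, _, _, s', h => absurd h (Nat.not_lt_zero _)
  | s + 1, w, h, s', hs' => by
    rcases Nat.lt_succ_iff_lt_or_eq.1 hs' with h1 | h1
    · exact lst_pf h.2 s' h1
    · rw [h1]
      exact ⟨_, h.1⟩

theorem nil_mem_LT (Kc W : ℕ) (A : Oracle) : [] ∈ LT Kc W A := by
  unfold LT
  rw [Set.mem_ofPred_eq]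
  rintro ⟨v, s, -, h, -⟩
  have h1 := congrArg List.length h
  unfold qq at h1
  rw [S5B.length_pb, List.length_nil] at h1
  omega

theorem qq_mem_LT {Kc W : ℕ} {A : Oracle} {v : List Bool} {s : ℕ} (hs : s < Mv W v) :
    qq Kc W v s ∈ LT Kc W A ↔ A ∈ N2s Kc W v s := by
  unfold LT
  rw [Set.mem_ofPred_eq]
  constructor
  · intro h
    by_contra h1
    exact h ⟨v, s, hs, rfl, h1⟩
  · rintro h ⟨v', s', -, h2, h3⟩
    obtain ⟨rfl, rfl⟩ := qq_inj h2
    exact h3 h

theorem QL_false {Kc W : ℕ} {A : Oracle} {v₀ : List Bool} {P₀ : List Bool → List Bool}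
    (y : List Bool) : QL Kc W A v₀ P₀ (false :: y) = P₀ y := by
  unfold QL
  rw [if_neg (by simp), List.tail_cons]

theorem QL_true {Kc W : ℕ} {A : Oracle} {v : List Bool} {P₀ : List Bool → List Bool} {s : ℕ}
    {w : List Bool} (hs : s < Mv W v) (hw : Lst Kc W A v s w) :
    QL Kc W A (c0 v) P₀ (true :: pairBits (qq Kc W v s) w) = qq Kc W v s := by
  unfold QL
  rw [if_pos (by simp), List.tail_cons, unpair_pairBits, if_pos ⟨v, s, rfl, hs, rfl, hw⟩]

/-- the general form of the statement of S15 from the statement of S13 -/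
theorem main_gen (hql : ∀ Kc : ℕ, 1 ≤ Kc → ∀ (W : ℕ) (A : Oracle) (v₀ : List Bool)
    (P₀ : List Bool → List Bool), IsFP A P₀ → IsFP A (QL Kc W A v₀ P₀)) :
    ∃ K₀, ∀ Kc, K₀ ≤ Kc → ∀ (W : ℕ) (A : Oracle),
      (∃ (L : Set (List Bool)) (P : List Bool → List Bool), IsOptimal A L P ∧
        Red A (LT Kc W A) L) → ∃ v, A ∈ Ev2 Kc W v := by
  obtain ⟨K₁, hK₁⟩ := tw_chain Polynomial.X (Polynomial.X + 2)
  refine ⟨K₁ + 1, fun Kc hKc W A hopt => ?_⟩
  have hK : 1 ≤ Kc := by omega
  obtain ⟨L, P, hP, hred⟩ := hopt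
  obtain ⟨P₀, hP₀⟩ := hP.transfer hred ⟨[], nil_mem_LT Kc W A⟩
  obtain ⟨⟨hfp, hran⟩, hopt⟩ := hP₀
  obtain ⟨v₀, -, hv₀⟩ := code_fn A hfp 0
  have hmem : ∀ y, P₀ y ∈ LT Kc W A := fun y => by
    rw [← hran]
    exact Set.mem_range_self y
  -- the budgets
  have hbud : ∀ v s, c0 v = v₀ → tw (lb Kc W v s + 2) (ex (c0 v)) ≤ mm Kc W v s := by
    intro v s hv
    have h1 := hK₁ Kc (by omega) W v s (unpair v).2.length 0 (ex (c0 v)) (by
      have e1 := unpair_length v
      have e2 := unpair_length (c0 v)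
      have e3 := unpair_length (unpair (c0 v)).2
      unfold ex
      unfold c0 at *
      omega)
    simp only [Polynomial.eval_add, Polynomial.eval_X, Polynomial.eval_ofNat, tw_zero] at h1
    exact h1
  have hpfs : ∀ v s, c0 v = v₀ → ∀ π, PfS Kc W A v s π ↔
      π.length ≤ lb Kc W v s ∧ P₀ π = qq Kc W v s := by
    intro v s hv π
    exact pfs_iff (hbud v s hv) (by rw [hv]; exact hv₀) π
  have hlbm : ∀ v s, c0 v = v₀ → lb Kc W v s ≤ mm Kc W v s := fun v s hv =>
    ((Nat.le_add_right _ 2).trans (le_tw _ _)).trans (hbud v s hv)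
  by_cases hR : Set.range (QL Kc W A v₀ P₀) ⊆ LT Kc W A
  · -- second alternative
    have hsys : IsProofSystem A (LT Kc W A) (QL Kc W A v₀ P₀) := by
      refine ⟨hql Kc hK W A v₀ P₀ hfp, Set.Subset.antisymm hR ?_⟩
      intro x hx
      rw [← hran] at hx
      obtain ⟨y, rfl⟩ := hx
      exact ⟨false :: y, QL_false y⟩
    obtain ⟨q, hq⟩ := hopt _ hsys
    obtain ⟨e, he⟩ := S5B.eval_le_pow' (q.comp (3 * Polynomial.X * Polynomial.X +
      2 * Polynomial.X + 2))
    set v : List Bool := pairBits v₀ (List.replicate e true) with hv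
    have hc0 : c0 v = v₀ := by
      unfold c0
      rw [hv, unpair_pairBits]
    have he2 : (unpair v).2.length = e := by
      rw [hv, unpair_pairBits, List.length_replicate]
    have hstep : ∀ s, s < Mv W v → ∀ w, Lst Kc W A v s w →
        w.length ≤ s * (2 * nn Kc W v s + 1) →
        ∃ π, PfS Kc W A v s π := by
      intro s hs w hw hwl
      obtain ⟨π, h1, h2⟩ := hq (true :: pairBits (qq Kc W v s) w)
      rw [← hc0, QL_true hs hw] at h1
      refine ⟨π, (hpfs v s hc0 π).2 ⟨?_, h1⟩⟩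
      obtain ⟨-, b2, -, -, b5, -⟩ := len_bounds hK W v s
      have h3 : (true :: pairBits (qq Kc W v s) w).length ≤
          3 * (qq Kc W v s).length * (qq Kc W v s).length + 2 * (qq Kc W v s).length + 2 := by
        rw [List.length_cons, S5B.length_pb]
        have h4 : w.length ≤ (qq Kc W v s).length * (2 * (qq Kc W v s).length + 1) :=
          hwl.trans (Nat.mul_le_mul (by omega) (by omega))
        have h5 : 1 ≤ (qq Kc W v s).length := by
          unfold qq
          rw [S5B.length_pb]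
          omega
        nlinarith
      have h6 : q.eval (true :: pairBits (qq Kc W v s) w).length ≤
          ((qq Kc W v s).length + 2) ^ e := by
        refine (S5B.evalMono q h3).trans ?_
        have h7 := he (qq Kc W v s).length
        simp only [Polynomial.eval_comp, Polynomial.eval_add, Polynomial.eval_mul,
          Polynomial.eval_X, Polynomial.eval_ofNat] at h7
        exact h7
      refine h2.trans (h6.trans ?_)
      unfold lb tw
      rw [he2]
      exact Nat.pow_le_pow_right (by omega) Nat.lt_two_pow_self.le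
    have hlst : ∀ s, s ≤ Mv W v → ∃ w, Lst Kc W A v s w ∧
        w.length ≤ s * (2 * nn Kc W v s + 1) := by
      intro s
      induction s with
      | zero =>
        intro _
        exact ⟨[], trivial, by simp⟩
      | succ s ih =>
        intro hs
        obtain ⟨w, hw, hwl⟩ := ih (by omega)
        obtain ⟨π, hπ⟩ := hstep s (by omega) w hw hwl
        refine ⟨pairBits π w, ?_, ?_⟩
        · show PfS Kc W A v s (unpair (pairBits π w)).1 ∧ Lst Kc W A v s (unpair (pairBits π w)).2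
          rw [unpair_pairBits]
          exact ⟨hπ, hw⟩
        · have h1 : π.length ≤ nn Kc W v (s + 1) :=
            (hπ.1.trans (hlbm v s hc0)).trans (mm_le_nn Kc W v (Nat.lt_succ_self s))
          have h2 : nn Kc W v s ≤ nn Kc W v (s + 1) :=
            (nn_mono hK W v).monotone (Nat.le_succ s)
          have h3 : s * (2 * nn Kc W v s + 1) ≤ s * (2 * nn Kc W v (s + 1) + 1) :=
            Nat.mul_le_mul_left _ (by omega)
          have h4 : (s + 1) * (2 * nn Kc W v (s + 1) + 1) =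
              s * (2 * nn Kc W v (s + 1) + 1) + (2 * nn Kc W v (s + 1) + 1) := Nat.succ_mul _ _
          rw [S5B.length_pb, h4]
          omega
    refine ⟨v, Or.inr fun s hs => ?_⟩
    obtain ⟨w, hw, -⟩ := hlst s hs.le
    rw [← qq_mem_LT (Kc := Kc) hs]
    apply hR
    rw [← hc0]
    exact ⟨_, QL_true hs hw⟩
  · -- first alternative
    rw [Set.not_subset] at hR
    obtain ⟨x, ⟨y, rfl⟩, hx⟩ := hR
    unfold QL at hx
    split_ifs at hx with h1 h2
    · obtain ⟨v, s, h3, h4, h5, h6⟩ := h2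
      rw [h5] at hx
      refine ⟨v, Or.inl ⟨s, h4, fun s' hs' h7 => h7 (lst_pf h6 s' hs'), ?_, ?_⟩⟩
      · rintro ⟨π, hπ⟩
        apply hx
        rw [← ((hpfs v s h3 π).1 hπ).2]
        exact hmem π
      · intro h7
        exact hx ((qq_mem_LT h4).2 h7)
    · exact absurd (nil_mem_LT Kc W A) hx
    · exact absurd (hmem _) hx

/-- the statement of S15 from the statement of S13 -/
theorem main (hql : ∀ Kc : ℕ, 1 ≤ Kc → ∀ (W : ℕ) (A : Oracle) (v₀ : List Bool)
    (P₀ : List Bool → List Bool), IsFP A P₀ → IsFP A (QL Kc W A v₀ P₀)) :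
    ∃ K₀, ∀ Kc, K₀ ≤ Kc → ∀ (W : ℕ) (A : Oracle),
      Pool.Agent.H543R3.PC.HasOpt A → ∃ v, A ∈ Ev2 Kc W v := by
  obtain ⟨K₀, hK₀⟩ := main_gen hql
  refine ⟨K₀ + 1, fun Kc hKc W A hopt => hK₀ Kc (by omega) W A ?_⟩
  obtain ⟨L, -, hhard, P, hP⟩ := hopt
  exact ⟨L, P, hP, hhard _ (lt_conp (by omega) W A)⟩

end S15

end Pool.Agent.H943R5.GC
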