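import Pool.Agent.H943R5.GC.DefsN
import Pool.Agent.H628R3.RO.M2

/-!
# Project GC, null side, task S8: proof systems, locality and touched candidates
-/

namespace Pool.Agent.H943R5.GC

open Pool.Agent.NPC Pool.Agent.H628R3.RO Pool.Agent.H673R2.OneTT

namespace S8

/-- the statement of `len_bounds` -/
def LenB : Prop := ∀ {Kc : ℕ}, 1 ≤ Kc → ∀ (W : ℕ) (v : List Bool) (s : ℕ),
    v.length ≤ nn Kc W v s ∧ s ≤ nn Kc W v s ∧ (st s).length ≤ nn Kc W v s ∧
      tv W v ≤ nn Kc W v s ∧ nn Kc W v s ≤ (qq Kc W v s).length ∧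
      (qq Kc W v s).length ≤ 8 * nn Kc W v s

/-- the statement of `poly_mm` -/
def PolyM : Prop := ∀ (P : Polynomial ℕ), ∃ K₀, ∀ Kc, K₀ ≤ Kc → ∀ W v s,
    P.eval (mm Kc W v s) < nn Kc W v (s + 1)

/-- the statement of `tw_chain` -/
def TwC : Prop := ∀ (P₁ P₂ : Polynomial ℕ), ∃ K₀, ∀ Kc, K₀ ≤ Kc → ∀ W v s a b c,
    a + b + c ≤ v.length →
      tw (P₂.eval (tw (P₁.eval (tw ((qq Kc W v s).length + 2) a)) b)) c ≤ mm Kc W v s

/-- the statement of `nn_le_mm` -/
def NnM : Prop := ∀ (Kc W : ℕ) (v : List Bool) (s : ℕ), nn Kc W v s ≤ mm Kc W v s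

theorem len_ustep (s : List Bool × List Bool × Bool) :
    (ustep s).1.length + (ustep s).2.1.length ≤ s.1.length + s.2.1.length := by
  obtain ⟨a, l, b⟩ := s
  unfold ustep
  cases b with
  | true => simp
  | false =>
    match l with
    | [] => simp
    | true :: [] => simp
    | true :: c :: l' => simp; omega
    | false :: l' => simp

theorem len_iter (k : ℕ) (s : List Bool × List Bool × Bool) :
    (ustep^[k] s).1.length + (ustep^[k] s).2.1.length ≤ s.1.length + s.2.1.length := by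
  induction k with
  | zero => exact le_rfl
  | succ k ih =>
    rw [Function.iterate_succ_apply']
    exact (len_ustep _).trans ih

theorem length_unpair (v : List Bool) : (unpair v).1.length + (unpair v).2.length ≤ v.length := by
  have h := len_iter v.length ([], v, false)
  simp only [List.length_nil, Nat.zero_add] at h
  unfold unpair
  rw [List.length_reverse]
  exact h

theorem length_unpair1 (v : List Bool) : (unpair v).1.length ≤ v.length := by
  have := length_unpair v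
  omega

theorem length_unpair2 (v : List Bool) : (unpair v).2.length ≤ v.length := by
  have := length_unpair v
  omega

theorem length_cd (b : Bool) (v : List Bool) : (cd b v).length ≤ v.length := by
  unfold cd
  have h1 := length_unpair2 v
  have h2 := length_unpair2 (unpair v).2
  have h3 := length_unpair2 (unpair (unpair v).2).2
  have h4 := length_unpair1 (unpair (unpair v).2).2
  split_ifs <;> omega

theorem tw_zero (x : ℕ) : tw x 0 = x := by simp [tw]

/-- the bound for the proofs -/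
theorem lb_le (hC : TwC) : ∃ K₀, ∀ Kc, K₀ ≤ Kc → ∀ W v s, lb Kc W v s ≤ mm Kc W v s := by
  obtain ⟨K₀, h⟩ := hC Polynomial.X Polynomial.X
  refine ⟨K₀, fun Kc hK W v s => ?_⟩
  have h1 := h Kc hK W v s (unpair v).2.length 0 0 (by
    have := length_unpair2 v
    omega)
  rw [tw_zero, tw_zero, Polynomial.eval_X, Polynomial.eval_X] at h1
  exact h1

/-- the queries of a computation -/
theorem queries (hL : LenB) (hP : PolyM) (hC : TwC) (hN : NnM) :
    ∃ K₀, ∀ Kc, K₀ ≤ Kc → ∀ (W : ℕ) (v : List Bool) (s : ℕ) (A : Oracle) (π : List Bool),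
      π.length ≤ lb Kc W v s → ∃ Q : Finset (List Bool), Q.card ≤ nn Kc W v (s + 1) ∧
        (∀ q ∈ Q, q.length < nn Kc W v (s + 1)) ∧
        ∀ A' : Oracle, (∀ q ∈ Q, A' q = A q) →
          Out A' (c0 v) π (mm Kc W v s) = Out A (c0 v) π (mm Kc W v s) := by
  obtain ⟨qb, hq⟩ := Alg.out_local uA
  obtain ⟨K₁, hK₁⟩ := lb_le hC
  obtain ⟨K₂, hK₂⟩ := hP (qb.comp (Polynomial.C 10 * Polynomial.X + Polynomial.C 5) +
    (Polynomial.C 10 * Polynomial.X + Polynomial.C 6))
  refine ⟨K₁ + K₂ + 1, fun Kc hK W v s A π hπ => ?_⟩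
  have h1 := hK₁ Kc (by omega) W v s
  have h2 := hK₂ Kc (by omega) W v s
  have h3 := (hL (show 1 ≤ Kc by omega) W v s).1
  have h4 := hN Kc W v s
  have h5 := length_cd false (c0 v)
  have h6 : (c0 v).length ≤ v.length := length_unpair1 v
  rw [Polynomial.eval_add, Polynomial.eval_comp, Polynomial.eval_add, Polynomial.eval_add,
    Polynomial.eval_mul, Polynomial.eval_C, Polynomial.eval_C, Polynomial.eval_X,
    Polynomial.eval_C] at h2
  set X := pairBits (pairBits (cd false (c0 v)) (pairBits π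
    (List.replicate (mm Kc W v s) true))) [] with hX
  have h7 : X.length ≤ 10 * mm Kc W v s + 5 := by
    rw [hX, H628R3.RO.length_pairBits, H628R3.RO.length_pairBits, H628R3.RO.length_pairBits,
      List.length_replicate, List.length_nil]
    omega
  have h8 : uA.p.eval X.length = X.length + 1 := by
    show (Polynomial.X + 1 : Polynomial ℕ).eval _ = _
    simp
  obtain ⟨Q, hQ1, hQ2, hQ3⟩ := hq A X
  rw [h8] at hQ1
  refine ⟨Q, by omega, fun q hqQ => ?_, fun A' hA' => ?_⟩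
  · have h9 := hQ2 q hqQ
    have h10 := eval_mono qb h7
    omega
  · unfold Out
    rw [← hX, hQ3 A' hA']

theorem loc2_of (hL : LenB) (hP : PolyM) (hC : TwC) (hN : NnM) :
    ∃ K₀, ∀ Kc, K₀ ≤ Kc → ∀ W v s,
      RLoc {x | x.length < nn Kc W v (s + 1)} {A | D2 Kc W A v s} := by
  obtain ⟨K₀, hK₀⟩ := queries hL hP hC hN
  refine ⟨K₀, fun Kc hK W v s A A' hA => ?_⟩
  have key : ∀ B B' : Oracle, (∀ x ∈ {x : List Bool | x.length < nn Kc W v (s + 1)}, B x = B' x) →
      ∀ π, PfS Kc W B v s π → PfS Kc W B' v s π := by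
    intro B B' hB π hπ
    obtain ⟨Q, -, hQ2, hQ3⟩ := hK₀ Kc hK W v s B π hπ.1
    refine ⟨hπ.1, ?_⟩
    rw [hQ3 B' (fun q hq => (hB q (hQ2 q hq)).symm)]
    exact hπ.2
  show (¬ ∃ π, PfS Kc W A v s π) ↔ ¬ ∃ π, PfS Kc W A' v s π
  rw [not_iff_not]
  exact ⟨fun ⟨π, hπ⟩ => ⟨π, key A A' hA π hπ⟩,
    fun ⟨π, hπ⟩ => ⟨π, key A' A (fun x hx => (hA x hx).symm) π hπ⟩⟩

theorem key2_of (hL : LenB) (hP : PolyM) (hC : TwC) (hN : NnM) :
    ∃ K₀, ∀ Kc, K₀ ≤ Kc → ∀ W v s, ∀ B : Oracle, ¬ D2 Kc W B v s →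
    ∃ T : Finset Cand, T.card ≤ nn Kc W v (s + 1) ∧
      ∀ h ⊆ blk Kc W 1 v s, Disjoint h T →
        ¬ D2 Kc W (plant (allSpots (nn Kc W v s + tv W v) h) B) v s := by
  classical
  obtain ⟨K₀, hK₀⟩ := queries hL hP hC hN
  refine ⟨K₀, fun Kc hK W v s B hB => ?_⟩
  unfold D2 at hB
  rw [not_not] at hB
  obtain ⟨π, hπ⟩ := hB
  obtain ⟨Q, hQ1, -, hQ3⟩ := hK₀ Kc hK W v s B π hπ.1
  set m := nn Kc W v s + tv W v with hm
  have hf : ∀ q : List Bool, ∃ κ : Cand, ∀ κ', q ∈ spots m κ' → κ' = κ := by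
    intro q
    by_cases h : ∃ κ, q ∈ spots m κ
    · obtain ⟨κ, hκ⟩ := h
      exact ⟨κ, fun κ' hκ' => M2.spots_disjoint hκ' hκ⟩
    · exact ⟨(0, []), fun κ' hκ' => absurd ⟨κ', hκ'⟩ h⟩
  choose f hf using hf
  refine ⟨Q.image f, Finset.card_image_le.trans hQ1, fun h _ hT hD => hD ⟨π, hπ.1, ?_⟩⟩
  rw [hQ3 _ (fun q hq => ?_)]
  · exact hπ.2
  · unfold plant
    rw [if_neg]
    intro hq'
    unfold allSpots at hq'
    rw [Finset.mem_biUnion] at hq'
    obtain ⟨κ, hκ, hqκ⟩ := hq'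
    rw [Finset.disjoint_left] at hT
    apply hT hκ
    rw [hf q κ hqκ]
    exact Finset.mem_image_of_mem f hq

end S8

end Pool.Agent.H943R5.GC
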