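import Pool.Agent.H943R5.GC.DefsN
import Pool.Agent.H628R3.RO.M2
import Pool.Agent.H628R3.RO.M4

/-!
# Project GC, task S9: probability of the exceptional event, search problems (core)
-/

namespace Pool.Agent.H943R5.GC

open Pool.Agent.NPC Pool.Agent.H628R3.RO Pool.Agent.H673R2.OneTT

namespace S9

theorem one_le_nn (Kc W : ℕ) (v : List Bool) (s : ℕ) : 1 ≤ nn Kc W v s := by
  unfold nn TT tw
  exact Nat.one_le_two_pow

theorem finK (n : ℕ) : {x : List Bool | x.length < n}.Finite := List.finite_length_lt Bool n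

/-- the probability that all the blocks have a hit -/
theorem last_le (t : ℕ) : (1 - (1 / 4 : ℝ) ^ t) ^ (2 ^ (4 * t)) ≤ (1 / 2) ^ t := by
  have h1 := sub_pow_le_exp ((1 / 4 : ℝ) ^ t) (pow_le_one₀ (by norm_num) (by norm_num))
    (2 ^ (4 * t))
  refine h1.trans ?_
  have h2 : (1 / 4 : ℝ) ^ t * ((2 ^ (4 * t) : ℕ) : ℝ) = 4 ^ t := by
    push_cast
    rw [pow_mul, ← mul_pow]
    norm_num
  rw [h2]
  have h3 : (t : ℝ) ≤ 4 ^ t := by
    have h4 : t < 4 ^ t := Nat.lt_pow_self (by norm_num)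
    exact_mod_cast h4.le
  calc Real.exp (-(4 : ℝ) ^ t) ≤ Real.exp (-(t : ℝ)) := Real.exp_le_exp.2 (by linarith)
    _ = (Real.exp (-1)) ^ t := by rw [← Real.exp_nat_mul]; congr 1; ring
    _ ≤ (1 / 2) ^ t := by
        refine pow_le_pow_left₀ (Real.exp_pos _).le ?_ t
        rw [Real.exp_neg, one_div]
        apply inv_anti₀ (by norm_num)
        have := Real.add_one_le_exp (1 : ℝ)
        linarith

theorem loc_N {Kc W : ℕ} {v : List Bool} (s : ℕ) {K : Set (List Bool)}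
    (h : ∀ κ ∈ blk Kc W (tv W v) v s, ∀ i < nn Kc W v s, pos κ.1 i κ.2 ∈ K) :
    RLoc K (N1s Kc W v s) := M2.loc_noHit h

theorem loc_ev {Kc W : ℕ} {v : List Bool} (hmono : StrictMono (nn Kc W v))
    (hloc : ∀ s, RLoc {x | x.length < nn Kc W v (s + 1)} {A | D1 Kc W A v s} ∧
      RLoc {x | x.length < nn Kc W v (s + 1)} {A | E1 Kc W A v s})
    (hN : ∀ s, RLoc {x | x.length < nn Kc W v (s + 1)} (N1s Kc W v s)) :
    RLoc {x | x.length < nn Kc W v (Mv W v)} (Ev1 Kc W v) := by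
  intro A A' h
  have hsub : ∀ s < Mv W v, ∀ x ∈ {x : List Bool | x.length < nn Kc W v (s + 1)},
      A x = A' x := by
    intro s hs x hx
    exact h x (lt_of_lt_of_le hx (hmono.monotone hs))
  have hD : ∀ s < Mv W v, (D1 Kc W A v s ↔ D1 Kc W A' v s) :=
    fun s hs => (hloc s).1 A A' (hsub s hs)
  have hE : ∀ s < Mv W v, (E1 Kc W A v s ↔ E1 Kc W A' v s) :=
    fun s hs => (hloc s).2 A A' (hsub s hs)
  have hN' : ∀ s < Mv W v, (A ∈ N1s Kc W v s ↔ A' ∈ N1s Kc W v s) :=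
    fun s hs => hN s A A' (hsub s hs)
  unfold Ev1
  simp only [Set.mem_ofPred_eq]
  refine or_congr ?_ ?_
  · refine exists_congr fun s => and_congr_right fun hs => ?_
    refine and_congr ?_ (and_congr (not_congr (hE s hs)) (hN' s hs))
    exact forall₂_congr fun s' hs' => not_congr (hD s' (hs'.trans hs))
  · exact forall₂_congr fun s hs => not_congr (hN' s hs)

/-- the probability of a hit at round `s` -/
theorem prob_hit {Kc W : ℕ} {v : List Bool} (s : ℕ)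
    (hcard : (blk Kc W (tv W v) v s).card = tv W v * 2 ^ (nn Kc W v s)) :
    prob (N1s Kc W v s)ᶜ ≤ 1 - (1 / 4) ^ (tv W v) := by
  have h1 : prob (Set.univ : Set Oracle) = 1 := by
    unfold prob
    exact MeasureTheory.probReal_univ
  have h2 := M2.prob_inter_add_compl Set.univ (M2.measurableSet_noHit (nn Kc W v s)
    (blk Kc W (tv W v) v s))
  have h3 : prob (Set.univ ∩ NoHit (nn Kc W v s) (blk Kc W (tv W v) v s)) =
      prob (Set.univ : Set Oracle) *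
        (1 - (1 / 2) ^ (nn Kc W v s)) ^ (blk Kc W (tv W v) v s).card := by
    refine prob_noHit_inter (K := ∅) Set.finite_empty ?_ _ _ ?_
    · intro A A' _
      simp
    · intro κ _ i _
      simp
  have h4 := sat_ge (one_le_nn Kc W v s) (tv W v)
  rw [hcard] at h3
  rw [h1] at h2 h3
  rw [h3] at h2
  rw [Set.univ_inter] at h2
  unfold N1s
  linarith

end S9

open S9 in
/-- The statement `prob1` from the general bounds for sequences of rounds and the facts about the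
blocks. -/
theorem prob1_of
    (stage_sat : ∀ {M : ℕ} (K : ℕ → Set (List Bool)) (_ : ∀ s, (K s).Finite)
      (_ : Monotone K) (D E : ℕ → Set Oracle) (_ : ∀ s < M, RLoc (K (s + 1)) (D s))
      (_ : ∀ s < M, RLoc (K (s + 1)) (E s)) (W : ℕ → Finset Cand) (m t : ℕ → ℕ)
      (_ : ∀ s < M, 1 ≤ m s)
      (_ : ∀ s < M, ∀ κ ∈ W s, ∀ i < m s, pos κ.1 i κ.2 ∈ K (s + 1) ∧ pos κ.1 i κ.2 ∉ K s)
      (_ : ∀ s < M, ∀ B ∈ NoHit (m s) (W s), B ∉ E s → ∃ T : Finset Cand, T.card ≤ t s ∧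
        ∀ h ⊆ W s, Disjoint h T → plant (allSpots (m s) h) B ∈ D s) (r : ℝ) (_ : 0 ≤ r)
      (_ : ∀ s < M, (1 - (1 / 2 : ℝ) ^ (m s)) ^ (W s).card ≤ r),
      prob {A | ∃ s < M, (∀ s' < s, A ∉ D s') ∧ A ∉ E s ∧ A ∈ NoHit (m s) (W s)} ≤
        r + ∑ s ∈ Finset.range M, (t s : ℝ) * (1 / 2) ^ (m s))
    (stage_all : ∀ {M : ℕ} (K : ℕ → Set (List Bool)) (_ : ∀ s, (K s).Finite)
      (_ : Monotone K) (G : ℕ → Set Oracle) (_ : ∀ s < M, RLoc (K (s + 1) \ K s) (G s))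
      (ρ : ℝ) (_ : ∀ s < M, prob (G s) ≤ 1 - ρ) (_ : ρ ≤ 1),
      prob {A | ∀ s < M, A ∈ G s} ≤ (1 - ρ) ^ M)
    (card_blk : ∀ (Kc W a : ℕ) (v : List Bool) (s : ℕ),
      (blk Kc W a v s).card = a * 2 ^ (nn Kc W v s))
    (nn_mono : ∀ {Kc : ℕ} (_ : 1 ≤ Kc) (W : ℕ) (v : List Bool), StrictMono (nn Kc W v))
    (pos_len : ∃ K₀, ∀ Kc, K₀ ≤ Kc → ∀ W v s, ∀ a ≤ tv W v + 1,
      ∀ κ ∈ blk Kc W a v s, ∀ i ≤ nn Kc W v s + tv W v,
        nn Kc W v s ≤ (pos κ.1 i κ.2).length ∧ (pos κ.1 i κ.2).length < nn Kc W v (s + 1))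
    (err_sum : ∃ K₀, ∀ Kc, K₀ ≤ Kc → ∀ W v,
      ∑ s ∈ Finset.range (Mv W v), (nn Kc W v (s + 1) : ℝ) * (1 / 2) ^ (nn Kc W v s) ≤
        (1 / 2) ^ (tv W v))
    (loc1 : ∃ K₀, ∀ Kc, K₀ ≤ Kc → ∀ W v s,
      RLoc {x | x.length < nn Kc W v (s + 1)} {A | D1 Kc W A v s} ∧
      RLoc {x | x.length < nn Kc W v (s + 1)} {A | E1 Kc W A v s})
    (key1 : ∃ K₀, ∀ Kc, K₀ ≤ Kc → ∀ W v s, ∀ B ∈ N1s Kc W v s, ¬ E1 Kc W B v s →
      ∃ T : Finset Cand, T.card ≤ nn Kc W v (s + 1) ∧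
        ∀ h ⊆ blk Kc W (tv W v) v s, Disjoint h T →
          D1 Kc W (plant (allSpots (nn Kc W v s) h) B) v s) :
    ∃ K₀, ∀ Kc, K₀ ≤ Kc → ∀ W, 1 ≤ W → ∀ v,
    RLoc {x | x.length < nn Kc W v (Mv W v)} (Ev1 Kc W v) ∧
      prob (Ev1 Kc W v) ≤ 4 * (1 / 2) ^ (tv W v) := by
  obtain ⟨k1, hk1⟩ := pos_len
  obtain ⟨k2, hk2⟩ := err_sum
  obtain ⟨k3, hk3⟩ := loc1
  obtain ⟨k4, hk4⟩ := key1
  refine ⟨k1 + k2 + k3 + k4 + 1, fun Kc hKc W _ v => ?_⟩
  have hmono := nn_mono (Kc := Kc) (by omega) W v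
  have hpos : ∀ s, ∀ κ ∈ blk Kc W (tv W v) v s, ∀ i < nn Kc W v s,
      nn Kc W v s ≤ (pos κ.1 i κ.2).length ∧ (pos κ.1 i κ.2).length < nn Kc W v (s + 1) :=
    fun s κ hκ i hi => hk1 Kc (by omega) W v s (tv W v) (by omega) κ hκ i (by omega)
  have hloc := hk3 Kc (by omega) W v
  have hN : ∀ s, RLoc {x | x.length < nn Kc W v (s + 1)} (N1s Kc W v s) := fun s =>
    loc_N s fun κ hκ i hi => (hpos s κ hκ i hi).2
  refine ⟨loc_ev hmono hloc hN, ?_⟩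
  set K : ℕ → Set (List Bool) := fun s => {x | x.length < nn Kc W v s} with hK
  have hKf : ∀ s, (K s).Finite := fun s => finK _
  have hKm : Monotone K := by
    intro a b hab x hx
    exact lt_of_lt_of_le hx (hmono.monotone hab)
  -- first part
  have h1 := stage_sat (M := Mv W v) K hKf hKm (fun s => {A | D1 Kc W A v s})
    (fun s => {A | E1 Kc W A v s}) (fun s _ => (hloc s).1) (fun s _ => (hloc s).2)
    (fun s => blk Kc W (tv W v) v s) (fun s => nn Kc W v s) (fun s => nn Kc W v (s + 1))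
    (fun s _ => one_le_nn Kc W v s)
    (fun s _ κ hκ i hi => ⟨(hpos s κ hκ i hi).2, fun h => by
      have h' : (pos κ.1 i κ.2).length < nn Kc W v s := h
      have := (hpos s κ hκ i hi).1
      omega⟩)
    (fun s _ B hB hE => hk4 Kc (by omega) W v s B hB hE) ((1 / 2) ^ (tv W v)) (by positivity)
    (fun s _ => by
      rw [card_blk]
      exact sat_le _ _)
  have h2 := hk2 Kc (by omega) W v
  -- second part
  have h3 := stage_all (M := Mv W v) K hKf hKm (fun s => (N1s Kc W v s)ᶜ) (fun s _ => by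
      apply M2.Loc.compl
      refine loc_N s fun κ hκ i hi => ⟨(hpos s κ hκ i hi).2, fun h => ?_⟩
      have h' : (pos κ.1 i κ.2).length < nn Kc W v s := h
      have := (hpos s κ hκ i hi).1
      omega) ((1 / 4) ^ (tv W v)) (fun s _ => prob_hit s (card_blk _ _ _ _ _))
    (pow_le_one₀ (by norm_num) (by norm_num))
  have h4 := last_le (tv W v)
  have h5 : prob (Ev1 Kc W v) ≤ _ := M2.prob_union_le
    {A | ∃ s < Mv W v, (∀ s' < s, ¬ D1 Kc W A v s') ∧ ¬ E1 Kc W A v s ∧ A ∈ N1s Kc W v s}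
    {A | ∀ s < Mv W v, A ∉ N1s Kc W v s}
  have h6 : (0 : ℝ) ≤ (1 / 2) ^ (tv W v) := by positivity
  have h7 : prob {A | ∃ s < Mv W v, (∀ s' < s, ¬ D1 Kc W A v s') ∧ ¬ E1 Kc W A v s ∧
      A ∈ N1s Kc W v s} ≤ (1 / 2) ^ (tv W v) + ∑ s ∈ Finset.range (Mv W v),
        (nn Kc W v (s + 1) : ℝ) * (1 / 2) ^ (nn Kc W v s) := h1
  have h8 : prob {A | ∀ s < Mv W v, A ∉ N1s Kc W v s} ≤
      (1 - (1 / 4) ^ (tv W v)) ^ (Mv W v) := h3
  unfold Mv at h8 h5 h7 h2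
  linarith

end Pool.Agent.H943R5.GC
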