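import Pool.Agent.H943R5.GC.Base

/-!
# Project GC: statements of the tasks
-/

namespace Pool.Agent.H943R5.GC

open Pool.Agent.NPC Pool.Agent.H628R3.RO Pool.Agent.H673R2.OneTT
open Pool.Agent.H620R2 (Gauge.Null Gauge.Extends Gauge.str Gauge.ranO)

/-! ### N0 -/

theorem YY_inj {K : ℕ} {v v' : List Bool} {s s' i i' : ℕ} (h : YY K v s i = YY K v' s' i') :
    v = v' ∧ s = s' ∧ i = i' := by
  sorry

theorem length_YY (K : ℕ) (v : List Bool) (s i : ℕ) :
    (YY K v s i).length = 4 * v.length + 2 * (st s).length + 3 + (TT (s + K) + i) := by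
  sorry

theorem noSig_pos (K : ℕ) : 0 < Gauge.ranO {B | ∀ v s, ¬ Sig K B v s} := by
  sorry

/-! ### N1 -/

open Classical in
theorem not_null_gen (f : ℕ → ℝ) (G : Set Oracle) (hG : 0 < Gauge.ranO G) (Φ : Oracle → Oracle)
    (T : List Bool → Set (List Bool))
    (hΦ : ∀ B ∈ G, ∀ σ : List Bool, Gauge.Extends (Φ B) σ → ∀ (i : ℕ) (h : i < σ.length),
      Gauge.str i ∉ T σ → B (Gauge.str i) = σ[i]) (c : ℝ)
    (hT : ∀ σ : List Bool,
      (((Finset.range σ.length).filter (fun i => Gauge.str i ∈ T σ)).card : ℝ) ≤ f σ.length + c)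
    (O : Set Oracle) (hO : ∀ B ∈ G, Φ B ∈ O) : ¬ Gauge.Null f O := by
  sorry

/-! ### N2 -/

theorem exists_plant (K : ℕ) (Bd : Oracle → List Bool → ℕ → Prop) (hloc : Loc K Bd) :
    ∃ Φ : Oracle → Oracle, ∀ B,
      (∀ v s i, i < LL v s → kill Bd (Φ B) v s → Φ B (YY K v s i) = true) ∧
      ∀ y, (∀ v s i, i < LL v s → kill Bd (Φ B) v s → y ≠ YY K v s i) → Φ B y = B y := by
  sorry

theorem good_of_plant (K : ℕ) (Bd : Oracle → List Bool → ℕ → Prop) (A B : Oracle)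
    (h1 : ∀ v s i, i < LL v s → kill Bd A v s → A (YY K v s i) = true)
    (h2 : ∀ y, (∀ v s i, i < LL v s → kill Bd A v s → y ≠ YY K v s i) → A y = B y)
    (hB : ∀ v s, ¬ Sig K B v s) : Good K Bd A := by
  sorry

/-! ### N3 -/

open Classical in
theorem card_le (K : ℕ) (Bd : Oracle → List Bool → ℕ → Prop) (A : Oracle) (N : ℕ) :
    ((Finset.range N).filter (fun i => ∃ v s k, k < LL v s ∧ kill Bd A v s ∧
      Gauge.str i = YY K v s k)).card ≤ 2 * Nat.log 2 (ell N) * (6 * ell N + 4) := by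
  sorry

/-! ### N4 -/

theorem cost_le (f : ℕ → ℝ) (σ : ℝ) (hσ : 1 < σ)
    (hf : ∀ᶠ N : ℕ in Filter.atTop, log4 N ^ σ ≤ f N) :
    ∃ c : ℝ, ∀ N : ℕ, ((2 * Nat.log 2 (ell N) * (6 * ell N + 4) : ℕ) : ℝ) ≤ f N + c := by
  sorry

/-! ### N5 -/

theorem not_null_good (K : ℕ) (Bd : Oracle → List Bool → ℕ → Prop) (hloc : Loc K Bd)
    (f : ℕ → ℝ) (σ : ℝ) (hσ : 1 < σ)
    (hf : ∀ᶠ N : ℕ in Filter.atTop, log4 N ^ σ ≤ f N)
    (O : Set Oracle) (hO : ∀ A, Good K Bd A → A ∈ O) : ¬ Gauge.Null f O := by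
  sorry

/-! ### N6 -/

theorem null_of_ae (f : ℕ → ℝ) (C : ℝ) (hf : ∃ᶠ N : ℕ in Filter.atTop, f N ≤ C)
    (O : Set Oracle) (h : ∀ᵐ A ∂randomOracle, A ∉ O) : Gauge.Null f O := by
  sorry

/-! ### N7 -/

theorem hasOpt_of_hasPOptT {A : Oracle} (h : Pool.Agent.H543R3.PC.HasPOptT A) :
    Pool.Agent.H543R3.PC.HasOpt A := by
  sorry

theorem ae_not_npc : ∀ᵐ A ∂randomOracle, ¬ Pool.Agent.H543R3.PC.HasNPC A := by
  sorry

theorem ae_not_up : ∀ᵐ A ∂randomOracle, ¬ Pool.Agent.H543R3.PC.HasUP A := by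
  sorry

theorem ae_not_dnp : ∀ᵐ A ∂randomOracle, ¬ Pool.Agent.H543R3.PC.HasDNP A := by
  sorry

theorem ae_not_dconp : ∀ᵐ A ∂randomOracle, ¬ Pool.Agent.H543R3.PC.HasDCoNP A := by
  sorry

theorem ae_not_tfnp : ∀ᵐ A ∂randomOracle, ¬ Pool.Agent.H543R3.PC.HasTFNP A := by
  sorry

theorem ae_not_opt : ∀ᵐ A ∂randomOracle, ¬ Pool.Agent.H543R3.PC.HasOpt A := by
  sorry

theorem ae_not_poptT : ∀ᵐ A ∂randomOracle, ¬ Pool.Agent.H543R3.PC.HasPOptT A := by
  sorry

theorem ae_not_poptS : ∀ᵐ A ∂randomOracle, ¬ Pool.Agent.H543R3.PC.HasPOptS A := by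
  sorry

/-! ### U1 -/

theorem exists_loc : ∃ K, Loc K Bad := by
  sorry

/-! ### U2 -/

theorem poly_capped (B : List Bool → ℕ) (hB : UPoly B) (x j : List Bool → ℕ) (hx : UPoly x)
    (hj : UPoly j) : UPoly (fun z => min (tw (x z) (j z)) (B z)) := by
  sorry

open Classical in
theorem isFP_grd (K : ℕ) (A : Oracle) : IsFP A (fun z => if Grd K A z then [true] else []) := by
  sorry

open Classical in
theorem poly_valid (κ : ℕ) : Poly (fun z : List Bool =>
    if kd (zv z) = κ ∧ act (zv z) (rd (zm z)) ∧ Adm (zv z) (zu z) (zm z) then [true]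
      else ([] : List Bool)) := by
  sorry

open Classical in
theorem isFP_ok (K : ℕ) (A : Oracle) (κ : ℕ) :
    IsFP A (fun z => if Ok K A κ z then [true] else []) := by
  sorry

/-! ### U3 -/

theorem isFP_VV (K : ℕ) (A : Oracle) (κ : ℕ) (b dflt : Bool) : IsFP A (VV K A κ b dflt) := by
  sorry

theorem isFP_PP (K : ℕ) (A : Oracle) (κ : ℕ) (d : List Bool) {P₀ : List Bool → List Bool}
    (h : IsFP A P₀) : IsFP A (PP K A κ d P₀) := by
  sorry

/-! ### U4 -/

theorem code_pair (A : Oracle) {V₀ V₁ : List Bool → List Bool} (p₀ p₁ : Polynomial ℕ)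
    (h₀ : IsFP A V₀) (h₁ : IsFP A V₁) (κ : ℕ) : ∃ v, kd v = κ ∧ ∀ u m, Adm v u m →
      (∀ w, Ac A v false u m w ↔ w.length ≤ p₀.eval u.length ∧ V₀ (pairBits u w) = [true]) ∧
      (∀ w, Ac A v true u m w ↔ w.length ≤ p₁.eval u.length ∧ V₁ (pairBits u w) = [true]) := by
  sorry

theorem code_fn (A : Oracle) {Q : List Bool → List Bool} (h : IsFP A Q) (κ : ℕ) :
    ∃ v, kd v = κ ∧ ∀ u m, Adm v u m → Out A v u m = Q u := by
  sorry

/-! ### U5 -/

theorem exists_budget (v : List Bool) : ∃ p : Polynomial ℕ, ∀ u : List Bool,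
    Adm v u (p.eval u.length) ∧ act v (rd (p.eval u.length)) := by
  sorry

theorem isFP_inst (A : Oracle) (v : List Bool) (p : Polynomial ℕ) :
    IsFP A (fun u => inst v u (p.eval u.length)) := by
  sorry

theorem zv_inst (v u : List Bool) (m : ℕ) : zv (inst v u m) = v := by
  sorry

theorem zu_inst (v u : List Bool) (m : ℕ) : zu (inst v u m) = u := by
  sorry

theorem zm_inst (v u : List Bool) (m : ℕ) : zm (inst v u m) = m := by
  sorry

theorem zm_le (z : List Bool) : zm z ≤ z.length := by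
  sorry

/-- For good oracles, the guard excludes violations. -/
theorem not_viol {K : ℕ} {A : Oracle} (hG : Good K Bad A) {κ : ℕ} {z : List Bool}
    (h : Ok K A κ z) : ¬ Viol A (zv z) (zu z) (zm z) := by
  sorry

/-- For good oracles, the guard holds for the instances of codes which keep their promise. -/
theorem ok_inst {K : ℕ} {A : Oracle} (hG : Good K Bad A) {v : List Bool}
    (hv : ∀ u m, Adm v u m → ¬ Viol A v u m) {u : List Bool} {m : ℕ} (h1 : Adm v u m)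
    (h2 : act v (rd m)) : Ok K A (kd v) (inst v u m) := by
  sorry

/-! ### U6 -/

theorem exists_psT (A : Oracle) : ∃ P₀, IsFP A P₀ ∧ Set.range P₀ = (KA A)ᶜ := by
  sorry

theorem exists_psS (A : Oracle) : ∃ P₀, IsFP A P₀ ∧ Set.range P₀ = KA A := by
  sorry

/-! ### U7 -/

theorem has_npc {K : ℕ} {A : Oracle} (hG : Good K Bad A) : Pool.Agent.H543R3.PC.HasNPC A := by
  sorry

theorem has_up {K : ℕ} {A : Oracle} (hG : Good K Bad A) : Pool.Agent.H543R3.PC.HasUP A := by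
  sorry

theorem has_dnp {K : ℕ} {A : Oracle} (hG : Good K Bad A) : Pool.Agent.H543R3.PC.HasDNP A := by
  sorry

theorem has_dconp {K : ℕ} {A : Oracle} (hG : Good K Bad A) :
    Pool.Agent.H543R3.PC.HasDCoNP A := by
  sorry

theorem has_tfnp {K : ℕ} {A : Oracle} (hG : Good K Bad A) : Pool.Agent.H543R3.PC.HasTFNP A := by
  sorry

theorem has_poptT {K : ℕ} {A : Oracle} (hG : Good K Bad A) :
    Pool.Agent.H543R3.PC.HasPOptT A := by
  sorry

theorem has_poptS {K : ℕ} {A : Oracle} (hG : Good K Bad A) :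
    Pool.Agent.H543R3.PC.HasPOptS A := by
  sorry

end Pool.Agent.H943R5.GC
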