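import Pool.Agent.H943R5.GC.DefsN
import Pool.Agent.H943R5.GC.U4

/-!
# Project GC, null side: statements of the tasks
-/

namespace Pool.Agent.H943R5.GC

open Pool.Agent.NPC Pool.Agent.H628R3.RO Pool.Agent.H673R2.OneTT
open Pool.Agent.H620R2 (Gauge.Null Gauge.Extends Gauge.str Gauge.ranO)

/-! ### S1, S2, S3: sequences of rounds -/

theorem stage_sat {M : ℕ} (K : ℕ → Set (List Bool)) (hK : ∀ s, (K s).Finite)
    (hmono : Monotone K) (D E : ℕ → Set Oracle) (hD : ∀ s < M, RLoc (K (s + 1)) (D s))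
    (hE : ∀ s < M, RLoc (K (s + 1)) (E s)) (W : ℕ → Finset Cand) (m t : ℕ → ℕ)
    (hm : ∀ s < M, 1 ≤ m s)
    (hW : ∀ s < M, ∀ κ ∈ W s, ∀ i < m s, pos κ.1 i κ.2 ∈ K (s + 1) ∧ pos κ.1 i κ.2 ∉ K s)
    (hkey : ∀ s < M, ∀ B ∈ NoHit (m s) (W s), B ∉ E s → ∃ T : Finset Cand, T.card ≤ t s ∧
      ∀ h ⊆ W s, Disjoint h T → plant (allSpots (m s) h) B ∈ D s) (r : ℝ) (hr0 : 0 ≤ r)
    (hr : ∀ s < M, (1 - (1 / 2 : ℝ) ^ (m s)) ^ (W s).card ≤ r) :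
    prob {A | ∃ s < M, (∀ s' < s, A ∉ D s') ∧ A ∉ E s ∧ A ∈ NoHit (m s) (W s)} ≤
      r + ∑ s ∈ Finset.range M, (t s : ℝ) * (1 / 2) ^ (m s) := by
  sorry

theorem stage_taut {M : ℕ} (K : ℕ → Set (List Bool)) (hK : ∀ s, (K s).Finite)
    (hmono : Monotone K) (D : ℕ → Set Oracle) (hD : ∀ s < M, RLoc (K (s + 1)) (D s))
    (W : ℕ → Finset Cand) (m t : ℕ → ℕ) (hm : ∀ s < M, 1 ≤ m s)
    (hW : ∀ s < M, ∀ κ ∈ W s, ∀ i < m s, pos κ.1 i κ.2 ∈ K (s + 1) ∧ pos κ.1 i κ.2 ∉ K s)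
    (hkey : ∀ s < M, ∀ B ∈ NoHit (m s) (W s), B ∉ D s → ∃ T : Finset Cand, T.card ≤ t s ∧
      ∀ h ⊆ W s, Disjoint h T → plant (allSpots (m s) h) B ∉ D s) (r : ℝ) (hr0 : 0 ≤ r) (hr2 : r ≤ 1 / 2)
    (hr : ∀ s < M, 1 - (1 - (1 / 2 : ℝ) ^ (m s)) ^ (W s).card ≤ r) :
    prob {A | ∃ s < M, (∀ s' < s, A ∉ D s') ∧ A ∈ D s ∧ A ∉ NoHit (m s) (W s)} ≤
      2 * r + ∑ s ∈ Finset.range M, (t s : ℝ) * (1 / 2) ^ (m s) := by
  sorry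

theorem stage_all {M : ℕ} (K : ℕ → Set (List Bool)) (hK : ∀ s, (K s).Finite)
    (hmono : Monotone K) (G : ℕ → Set Oracle) (hG : ∀ s < M, RLoc (K (s + 1) \ K s) (G s))
    (ρ : ℝ) (h : ∀ s < M, prob (G s) ≤ 1 - ρ) (hρ : ρ ≤ 1) :
    prob {A | ∀ s < M, A ∈ G s} ≤ (1 - ρ) ^ M := by
  sorry

/-! ### S4: from events to covers -/

theorem null_of_events (f : ℕ → ℝ) (hf : ∀ᶠ N : ℕ in Filter.atTop, f N ≤ log4 N / 5) (Kc : ℕ)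
    (O : Set Oracle) (Ev : ℕ → List Bool → Set Oracle)
    (h1 : ∀ W, 1 ≤ W → ∀ A ∈ O, ∃ v, A ∈ Ev W v)
    (h2 : ∀ W, 1 ≤ W → ∀ v, RLoc {x | x.length < nn Kc W v (Mv W v)} (Ev W v))
    (h3 : ∀ W, 1 ≤ W → ∀ v, prob (Ev W v) ≤ 4 * (1 / 2) ^ (tv W v)) : Gauge.Null f O := by
  sorry

/-! ### S5: geometry of the blocks -/

theorem qq_inj {Kc W : ℕ} {v v' : List Bool} {s s' : ℕ} (h : qq Kc W v s = qq Kc W v' s') :
    v = v' ∧ s = s' := by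
  sorry

theorem card_blk (Kc W a : ℕ) (v : List Bool) (s : ℕ) :
    (blk Kc W a v s).card = a * 2 ^ (nn Kc W v s) := by
  sorry

theorem noHit_iff (Kc W a m : ℕ) (A : Oracle) (v : List Bool) (s : ℕ) :
    A ∈ NoHit m (blk Kc W a v s) ↔ ¬ ∃ z, IsHit Kc W a m A v s z := by
  sorry

theorem nn_mono {Kc : ℕ} (hK : 1 ≤ Kc) (W : ℕ) (v : List Bool) : StrictMono (nn Kc W v) := by
  sorry

theorem nn_le_mm (Kc W : ℕ) (v : List Bool) (s : ℕ) : nn Kc W v s ≤ mm Kc W v s := by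
  sorry

theorem mm_le_nn (Kc W : ℕ) (v : List Bool) {s s' : ℕ} (h : s < s') :
    mm Kc W v s ≤ nn Kc W v s' := by
  sorry

/-- The positions of the block of round `s` have lengths in `[nn v s, nn v (s + 1))`. -/
theorem pos_len : ∃ K₀, ∀ Kc, K₀ ≤ Kc → ∀ W v s, ∀ a ≤ tv W v + 1,
    ∀ κ ∈ blk Kc W a v s, ∀ i ≤ nn Kc W v s + tv W v,
      nn Kc W v s ≤ (pos κ.1 i κ.2).length ∧ (pos κ.1 i κ.2).length < nn Kc W v (s + 1) := by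
  sorry

theorem len_bounds {Kc : ℕ} (hK : 1 ≤ Kc) (W : ℕ) (v : List Bool) (s : ℕ) :
    v.length ≤ nn Kc W v s ∧ s ≤ nn Kc W v s ∧ (st s).length ≤ nn Kc W v s ∧
      tv W v ≤ nn Kc W v s ∧ nn Kc W v s ≤ (qq Kc W v s).length ∧
      (qq Kc W v s).length ≤ 8 * nn Kc W v s := by
  sorry

theorem poly_mm (P : Polynomial ℕ) : ∃ K₀, ∀ Kc, K₀ ≤ Kc → ∀ W v s,
    P.eval (mm Kc W v s) < nn Kc W v (s + 1) := by
  sorry

theorem tw_chain (P₁ P₂ : Polynomial ℕ) : ∃ K₀, ∀ Kc, K₀ ≤ Kc → ∀ W v s a b c,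
    a + b + c ≤ v.length →
      tw (P₂.eval (tw (P₁.eval (tw ((qq Kc W v s).length + 2) a)) b)) c ≤ mm Kc W v s := by
  sorry

/-- The error terms. -/
theorem err_sum : ∃ K₀, ∀ Kc, K₀ ≤ Kc → ∀ W v,
    ∑ s ∈ Finset.range (Mv W v), (nn Kc W v (s + 1) : ℝ) * (1 / 2) ^ (nn Kc W v s) ≤
      (1 / 2) ^ (tv W v) := by
  sorry

/-! ### S6, S7: search problems, locality and touched candidates -/

theorem loc1 : ∃ K₀, ∀ Kc, K₀ ≤ Kc → ∀ W v s,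
    RLoc {x | x.length < nn Kc W v (s + 1)} {A | D1 Kc W A v s} ∧
    RLoc {x | x.length < nn Kc W v (s + 1)} {A | E1 Kc W A v s} := by
  sorry

theorem key1 : ∃ K₀, ∀ Kc, K₀ ≤ Kc → ∀ W v s, ∀ B ∈ N1s Kc W v s, ¬ E1 Kc W B v s →
    ∃ T : Finset Cand, T.card ≤ nn Kc W v (s + 1) ∧
      ∀ h ⊆ blk Kc W (tv W v) v s, Disjoint h T →
        D1 Kc W (plant (allSpots (nn Kc W v s) h) B) v s := by
  sorry

/-! ### S8: proof systems, locality and touched candidates -/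

theorem loc2 : ∃ K₀, ∀ Kc, K₀ ≤ Kc → ∀ W v s,
    RLoc {x | x.length < nn Kc W v (s + 1)} {A | D2 Kc W A v s} := by
  sorry

theorem key2 : ∃ K₀, ∀ Kc, K₀ ≤ Kc → ∀ W v s, ∀ B : Oracle, ¬ D2 Kc W B v s →
    ∃ T : Finset Cand, T.card ≤ nn Kc W v (s + 1) ∧
      ∀ h ⊆ blk Kc W 1 v s, Disjoint h T →
        ¬ D2 Kc W (plant (allSpots (nn Kc W v s + tv W v) h) B) v s := by
  sorry

/-! ### S9, S10: probabilities of the exceptional events -/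

theorem prob1 : ∃ K₀, ∀ Kc, K₀ ≤ Kc → ∀ W, 1 ≤ W → ∀ v,
    RLoc {x | x.length < nn Kc W v (Mv W v)} (Ev1 Kc W v) ∧
      prob (Ev1 Kc W v) ≤ 4 * (1 / 2) ^ (tv W v) := by
  sorry

theorem prob2 : ∃ K₀, ∀ Kc, K₀ ≤ Kc → ∀ W, 1 ≤ W → ∀ v,
    RLoc {x | x.length < nn Kc W v (Mv W v)} (Ev2 Kc W v) ∧
      prob (Ev2 Kc W v) ≤ 4 * (1 / 2) ^ (tv W v) := by
  sorry

/-! ### S11: the hard search problem is checkable in polynomial time -/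

theorem rl_np {Kc : ℕ} (hK : 1 ≤ Kc) (W : ℕ) (A : Oracle) (v₀ : List Bool) :
    ∃ (V : List Bool → List Bool) (p : Polynomial ℕ), IsFP A V ∧
      ∀ x y, RL Kc W A v₀ x y ↔ y.length ≤ p.eval x.length ∧ V (pairBits x y) = [true] := by
  sorry

/-! ### S12: the special set and the hard proof system -/

theorem lt_conp {Kc : ℕ} (hK : 1 ≤ Kc) (W : ℕ) (A : Oracle) : IsCoNP A (LT Kc W A) := by
  sorry

/-! ### S13 -/

theorem ql_fp {Kc : ℕ} (hK : 1 ≤ Kc) (W : ℕ) (A : Oracle) (v₀ : List Bool)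
    {P₀ : List Bool → List Bool} (h : IsFP A P₀) : IsFP A (QL Kc W A v₀ P₀) := by
  sorry

/-! ### S14, S15: oracles with complete objects are in the exceptional events -/

theorem ev_tfnp : ∃ K₀, ∀ Kc, K₀ ≤ Kc → ∀ (W : ℕ) (A : Oracle),
    Pool.Agent.H543R3.PC.HasTFNP A → ∃ v, A ∈ Ev1 Kc W v := by
  sorry

theorem ev_opt : ∃ K₀, ∀ Kc, K₀ ≤ Kc → ∀ (W : ℕ) (A : Oracle),
    Pool.Agent.H543R3.PC.HasOpt A → ∃ v, A ∈ Ev2 Kc W v := by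
  sorry

/-! ### S16 -/

theorem hasTFNP_of_hasPOptS {A : Oracle} (h : Pool.Agent.H543R3.PC.HasPOptS A) :
    Pool.Agent.H543R3.PC.HasTFNP A := by
  sorry

end Pool.Agent.H943R5.GC
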