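import Pool.Agent.H943R5.GC.DefsP

/-!
# Project GC, proof systems for sets complete for the second level: statements of the tasks
-/

namespace Pool.Agent.H943R5.GC

open Pool.Agent.NPC Pool.Agent.H628R3.RO Pool.Agent.H673R2.OneTT
open Pool.Agent.H543R3.PC2 (IsPi2 Pi2Hard HasOpt2 HasPOpt2)

/-! ### P1 -/

theorem isPi2_K2 (A : Oracle) : IsPi2 A (K2 A) := by
  sorry

theorem pi2Hard_K2 (A : Oracle) : Pi2Hard A (K2 A) := by
  sorry

/-! ### P2 -/

theorem exists_loc2 : ∃ K, Loc K Bad2 := by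
  sorry

/-! ### P3 -/

theorem exists_ps2 (A : Oracle) : ∃ P₀, IsFP A P₀ ∧ Set.range P₀ = K2 A := by
  sorry

/-! ### P4 -/

theorem has_popt2 {K : ℕ} {A : Oracle} (hG : Good K Bad2 A) : HasPOpt2 A := by
  sorry

/-! ### P5 -/

theorem hasOpt2_of_hasPOpt2 {A : Oracle} (h : HasPOpt2 A) : HasOpt2 A := by
  sorry

theorem ae_not_opt2 : ∀ᵐ A ∂randomOracle, ¬ HasOpt2 A := by
  sorry

theorem isPi2_of_isCoNP {A : Oracle} {L : Set (List Bool)} (h : IsCoNP A L) : IsPi2 A L := by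
  sorry

end Pool.Agent.H943R5.GC
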